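import Pool.Agent.TH500.PC.Idem

/-!
Perfect 2-error-correcting codes over an arbitrary alphabet: Lloyd's theorem and the
sphere packing condition.
-/

set_option autoImplicit false

open Polynomial Function

namespace Pool.Agent.TH500.PC

variable {α : Type} [Fintype α] [DecidableEq α] {n : ℕ}

/-- averaging over coordinate `i` -/
noncomputable def avg (i : Fin n) : Module.End ℚ ((Fin n → α) → ℚ) where
  toFun h := fun x => (Fintype.card α : ℚ)⁻¹ * ∑ a, h (update x i a)
  map_add' h₁ h₂ := by
    funext x
    simp only [Pi.add_apply, Finset.sum_add_distrib, mul_add]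
  map_smul' c h := by
    funext x
    simp only [Pi.smul_apply, smul_eq_mul, RingHom.id_apply, ← Finset.mul_sum]
    ring

lemma avg_apply (i : Fin n) (h : (Fin n → α) → ℚ) (x : Fin n → α) :
    avg i h x = (Fintype.card α : ℚ)⁻¹ * ∑ a, h (update x i a) := rfl

lemma avg_idem [Nonempty α] (i : Fin n) : (avg i : Module.End ℚ ((Fin n → α) → ℚ)) * avg i = avg i := by
  refine LinearMap.ext fun h => funext fun x => ?_
  rw [Module.End.mul_apply, avg_apply]
  have hq : (Fintype.card α : ℚ) ≠ 0 := by
    exact_mod_cast Fintype.card_ne_zero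
  have : ∀ a, avg i h (update x i a) = avg i h x := by
    intro a
    rw [avg_apply, avg_apply]
    simp only [update_idem]
  simp only [this, Finset.sum_const, Finset.card_univ, nsmul_eq_mul]
  field_simp

lemma avg_comm (i j : Fin n) : (avg i : Module.End ℚ ((Fin n → α) → ℚ)) * avg j = avg j * avg i := by
  by_cases hij : i = j
  · rw [hij]
  refine LinearMap.ext fun h => funext fun x => ?_
  rw [Module.End.mul_apply, Module.End.mul_apply]
  simp only [avg_apply, Finset.mul_sum]
  rw [Finset.sum_comm]
  refine Finset.sum_congr rfl fun a _ => Finset.sum_congr rfl fun b _ => ?_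
  rw [update_comm hij]

lemma avg_one [Nonempty α] (i : Fin n) : avg (α := α) i (fun _ => (1 : ℚ)) = fun _ => 1 := by
  funext x
  rw [avg_apply]
  have hq : (Fintype.card α : ℚ) ≠ 0 := by exact_mod_cast Fintype.card_ne_zero
  simp only [Finset.sum_const, Finset.card_univ, nsmul_eq_mul, mul_one]
  field_simp

lemma sum_avg [Nonempty α] (i : Fin n) (h : (Fin n → α) → ℚ) : ∑ x, avg i h x = ∑ x, h x := by
  have hq : (Fintype.card α : ℚ) ≠ 0 := by exact_mod_cast Fintype.card_ne_zero
  simp only [avg_apply]
  rw [← Finset.mul_sum]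
  have key : ∑ x : Fin n → α, ∑ a : α, h (update x i a) = ∑ x : Fin n → α, ∑ _a : α, h x := by
    rw [← Fintype.sum_prod_type', ← Fintype.sum_prod_type']
    refine Finset.sum_nbij' (fun p => (update p.1 i p.2, p.1 i)) (fun p => (update p.1 i p.2, p.1 i))
      ?_ ?_ ?_ ?_ ?_
    · intro a _; exact Finset.mem_univ _
    · intro a _; exact Finset.mem_univ _
    · rintro ⟨x, a⟩ _; simp
    · rintro ⟨x, a⟩ _; simp
    · rintro ⟨x, a⟩ _; simp
  rw [key]
  simp only [Finset.sum_const, Finset.card_univ, nsmul_eq_mul, ← Finset.mul_sum]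
  field_simp

/-- the sum of the averaging operators -/
noncomputable def TT (α : Type) [Fintype α] [DecidableEq α] (n : ℕ) :
    Module.End ℚ ((Fin n → α) → ℚ) := ∑ i, avg i

lemma TT_apply (h : (Fin n → α) → ℚ) (x : Fin n → α) : TT α n h x = ∑ i, avg i h x := by
  unfold TT
  rw [LinearMap.sum_apply, Finset.sum_apply]

/-- the perfect code condition -/
def Perfect2 (C : Finset (Fin n → α)) : Prop :=
  ∀ x : Fin n → α, ∃! c : Fin n → α, c ∈ C ∧ hammingDist x c ≤ 2

/-- indicator -/
def ind (C : Finset (Fin n → α)) : (Fin n → α) → ℚ := fun x => if x ∈ C then 1 else 0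

lemma hammingDist_update_le (x : Fin n → α) (i : Fin n) (a : α) :
    hammingDist x (update x i a) ≤ 1 := by
  unfold hammingDist
  calc (Finset.univ.filter (fun l => x l ≠ update x i a l)).card ≤ ({i} : Finset (Fin n)).card := by
        apply Finset.card_le_card
        intro l hl
        rw [Finset.mem_filter] at hl
        rw [Finset.mem_singleton]
        by_contra hne
        exact hl.2 (by rw [update_of_ne hne])
    _ = 1 := Finset.card_singleton i

/-- first order sums -/
lemma sum1 {C : Finset (Fin n → α)} (hC : Perfect2 C) {x c : Fin n → α} (hc : c ∈ C)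
    (hd : hammingDist x c ≤ 2) (i : Fin n) :
    ∑ a, ind C (update x i a) = if (∀ l, l ≠ i → x l = c l) then 1 else 0 := by
  obtain ⟨c', hc', huniq⟩ := hC x
  have hcc : c = c' := huniq c ⟨hc, hd⟩
  have hmem : ∀ y, y ∈ C → hammingDist x y ≤ 2 → y = c := fun y hy hxy => by
    rw [hcc]; exact huniq y ⟨hy, hxy⟩
  have h1 : ∀ a, ind C (update x i a) = if a = c i ∧ (∀ l, l ≠ i → x l = c l) then 1 else 0 := by
    intro a
    unfold ind
    congr 1
    apply propext
    constructor
    · intro h
      have e := hmem _ h ((hammingDist_update_le x i a).trans (by norm_num))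
      refine ⟨?_, ?_⟩
      · have := congrFun e i; simpa using this
      · intro l hl
        have := congrFun e l
        rwa [update_of_ne hl] at this
    · rintro ⟨ha, hl⟩
      have : update x i a = c := by
        funext l
        by_cases hli : l = i
        · subst hli; simp [ha]
        · rw [update_of_ne hli]; exact hl l hli
      rw [this]; exact hc
  simp only [h1]
  by_cases h : ∀ l, l ≠ i → x l = c l
  · have e : ∀ a, (a = c i ∧ (∀ l, l ≠ i → x l = c l)) ↔ a = c i := fun a => and_iff_left h
    rw [if_pos h]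
    simp only [e]
    simp
  · have e : ∀ a, (a = c i ∧ (∀ l, l ≠ i → x l = c l)) ↔ False :=
      fun a => ⟨fun h' => h h'.2, False.elim⟩
    rw [if_neg h]
    simp only [e]
    simp

lemma sum2 {C : Finset (Fin n → α)} (hC : Perfect2 C) {x c : Fin n → α} (hc : c ∈ C)
    (hd : hammingDist x c ≤ 2) (i j : Fin n) (hij : i ≠ j) :
    ∑ a, ∑ b, ind C (update (update x i a) j b) =
      if (∀ l, l ≠ i → l ≠ j → x l = c l) then 1 else 0 := by
  obtain ⟨c', hc', huniq⟩ := hC x
  have hcc : c = c' := huniq c ⟨hc, hd⟩
  have hmem : ∀ y, y ∈ C → hammingDist x y ≤ 2 → y = c := fun y hy hxy => by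
    rw [hcc]; exact huniq y ⟨hy, hxy⟩
  have h1 : ∀ a b, ind C (update (update x i a) j b) =
      if a = c i then (if b = c j ∧ (∀ l, l ≠ i → l ≠ j → x l = c l) then 1 else 0) else 0 := by
    intro a b
    have hle : hammingDist x (update (update x i a) j b) ≤ 2 := by
      calc hammingDist x (update (update x i a) j b)
          ≤ hammingDist x (update x i a) + hammingDist (update x i a) (update (update x i a) j b) :=
            hammingDist_triangle _ _ _
        _ ≤ 1 + 1 := add_le_add (hammingDist_update_le _ _ _) (hammingDist_update_le _ _ _)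
    rw [← ite_and]
    unfold ind
    congr 1
    apply propext
    constructor
    · intro h
      have e := hmem _ h hle
      refine ⟨?_, ?_, ?_⟩
      · have := congrFun e i
        rw [update_of_ne hij] at this
        simpa using this
      · have := congrFun e j; simpa using this
      · intro l hl hl2
        have := congrFun e l
        rwa [update_of_ne hl2, update_of_ne hl] at this
    · rintro ⟨ha, hb, hl⟩
      have : update (update x i a) j b = c := by
        funext l
        by_cases hlj : l = j
        · subst hlj; simp [hb]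
        · rw [update_of_ne hlj]
          by_cases hli : l = i
          · subst hli; simp [ha]
          · rw [update_of_ne hli]; exact hl l hli hlj
      rw [this]; exact hc
  simp only [h1]
  by_cases h : ∀ l, l ≠ i → l ≠ j → x l = c l
  · have e : ∀ b, (b = c j ∧ (∀ l, l ≠ i → l ≠ j → x l = c l)) ↔ b = c j :=
      fun b => and_iff_left h
    rw [if_pos h]
    simp only [e]
    simp
  · have e : ∀ b, (b = c j ∧ (∀ l, l ≠ i → l ≠ j → x l = c l)) ↔ False :=
      fun b => ⟨fun h' => h h'.2, False.elim⟩
    rw [if_neg h]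
    simp only [e]
    simp

/-- `q T f` -/
lemma T1 [Nonempty α] {C : Finset (Fin n → α)} (hC : Perfect2 C) {x c : Fin n → α} (hc : c ∈ C)
    (hd : hammingDist x c ≤ 2) :
    (Fintype.card α : ℚ) * TT α n (ind C) x =
      ∑ i, (if (∀ l, l ≠ i → x l = c l) then (1 : ℚ) else 0) := by
  have hq : (Fintype.card α : ℚ) ≠ 0 := by exact_mod_cast Fintype.card_ne_zero
  rw [TT_apply, Finset.mul_sum]
  refine Finset.sum_congr rfl fun i _ => ?_
  rw [avg_apply, sum1 hC hc hd i, ← mul_assoc, mul_inv_cancel₀ hq, one_mul]

/-- `q² T² f` -/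
lemma T2 [Nonempty α] {C : Finset (Fin n → α)} (hC : Perfect2 C) {x c : Fin n → α} (hc : c ∈ C)
    (hd : hammingDist x c ≤ 2) :
    (Fintype.card α : ℚ) ^ 2 * TT α n (TT α n (ind C)) x =
      ∑ i, ∑ j, (if (∀ l, l ≠ i → l ≠ j → x l = c l) then (1 : ℚ) else 0) +
      ((Fintype.card α : ℚ) - 1) * ∑ i, (if (∀ l, l ≠ i → x l = c l) then (1 : ℚ) else 0) := by
  have hq : (Fintype.card α : ℚ) ≠ 0 := by exact_mod_cast Fintype.card_ne_zero
  rw [TT_apply, Finset.mul_sum, Finset.mul_sum, ← Finset.sum_add_distrib]
  refine Finset.sum_congr rfl fun i _ => ?_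
  have e : avg i (TT α n (ind C)) x = ∑ j, avg i (avg j (ind C)) x := by
    unfold TT
    rw [LinearMap.sum_apply, map_sum, Finset.sum_apply]
  rw [e, Finset.mul_sum]
  have hterm : ∀ j, (Fintype.card α : ℚ) ^ 2 * avg i (avg j (ind C)) x =
      (if (∀ l, l ≠ i → l ≠ j → x l = c l) then (1 : ℚ) else 0) +
      (if j = i then ((Fintype.card α : ℚ) - 1) * (if (∀ l, l ≠ i → x l = c l) then (1 : ℚ) else 0)
        else 0) := by
    intro j
    by_cases hij : i = j
    · subst hij
      rw [if_pos rfl]
      have e2 : avg i (avg i (ind C)) x = avg i (ind C) x := by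
        have := congrFun (congrArg (fun L => L (ind C)) (avg_idem (α := α) i)) x
        simpa [Module.End.mul_apply] using this
      have e3 : (∀ l, l ≠ i → l ≠ i → x l = c l) ↔ (∀ l, l ≠ i → x l = c l) :=
        ⟨fun h l hl => h l hl hl, fun h l hl _ => h l hl⟩
      rw [e2, avg_apply, sum1 hC hc hd i]
      simp only [e3]
      field_simp
      ring
    · rw [if_neg (show ¬ (j = i) from fun h => hij h.symm), add_zero, avg_apply]
      simp only [avg_apply]
      rw [← Finset.mul_sum]
      rw [sum2 hC hc hd i j hij]
      field_simp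
  simp only [hterm]
  rw [Finset.sum_add_distrib]
  congr 1
  simp

/-- differing positions -/
lemma counts {x c : Fin n → α} (hd : hammingDist x c ≤ 2) :
    (x = c ∧ (∑ i, (if (∀ l, l ≠ i → x l = c l) then (1 : ℚ) else 0)) = n ∧
      (∑ i, ∑ j, (if (∀ l, l ≠ i → l ≠ j → x l = c l) then (1 : ℚ) else 0)) = n ^ 2) ∨
    (x ≠ c ∧ hammingDist x c = 1 ∧ (∑ i, (if (∀ l, l ≠ i → x l = c l) then (1 : ℚ) else 0)) = 1 ∧
      (∑ i, ∑ j, (if (∀ l, l ≠ i → l ≠ j → x l = c l) then (1 : ℚ) else 0)) = 2 * n - 1) ∨
    (x ≠ c ∧ hammingDist x c = 2 ∧ (∑ i, (if (∀ l, l ≠ i → x l = c l) then (1 : ℚ) else 0)) = 0 ∧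
      (∑ i, ∑ j, (if (∀ l, l ≠ i → l ≠ j → x l = c l) then (1 : ℚ) else 0)) = 2) := by
  set D : Finset (Fin n) := Finset.univ.filter (fun l => x l ≠ c l) with hD
  have hDc : D.card = hammingDist x c := rfl
  have hmem : ∀ l, l ∈ D ↔ x l ≠ c l := fun l => by rw [hD, Finset.mem_filter]; simp
  rw [← hDc] at hd ⊢
  have hcases : D.card = 0 ∨ D.card = 1 ∨ D.card = 2 := by omega
  rcases hcases with h0 | h1 | h2
  · left
    have hx : x = c := by
      funext l
      by_contra hne
      have := (hmem l).2 hne
      rw [Finset.card_eq_zero] at h0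
      rw [h0] at this
      simp at this
    subst hx
    refine ⟨rfl, ?_, ?_⟩
    · simp
    · simp; ring
  · right; left
    obtain ⟨u, hu⟩ := Finset.card_eq_one.1 h1
    have hx : ∀ l, x l ≠ c l ↔ l = u := fun l => by rw [← hmem, hu, Finset.mem_singleton]
    have e1 : ∀ i, (∀ l, l ≠ i → x l = c l) ↔ i = u := by
      intro i
      constructor
      · intro h
        by_contra hne
        exact ((hx u).2 rfl) (h u (fun h' => hne h'.symm))
      · rintro rfl l hl
        by_contra hne
        exact hl ((hx l).1 hne)
    have e2 : ∀ i j, (∀ l, l ≠ i → l ≠ j → x l = c l) ↔ (i = u ∨ j = u) := by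
      intro i j
      constructor
      · intro h
        by_contra hne
        push Not at hne
        exact ((hx u).2 rfl) (h u (fun h' => hne.1 h'.symm) (fun h' => hne.2 h'.symm))
      · rintro (rfl | rfl) l hl hl2
        · by_contra hne
          exact hl ((hx l).1 hne)
        · by_contra hne
          exact hl2 ((hx l).1 hne)
    refine ⟨fun h => ((hx u).2 rfl) (congrFun h u), h1, ?_, ?_⟩
    · simp only [e1]; simp
    · simp only [e2]
      have : ∀ i j : Fin n, (if (i = u ∨ j = u) then (1 : ℚ) else 0) =
          (if i = u then 1 else 0) + (if j = u then 1 else 0) -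
            (if i = u then 1 else 0) * (if j = u then 1 else 0) := by
        intro i j
        by_cases hi : i = u <;> by_cases hj : j = u <;> simp [hi, hj]
      simp only [this, Finset.sum_sub_distrib, Finset.sum_add_distrib, ← Finset.mul_sum,
        Finset.sum_ite_eq', Finset.mem_univ, if_true, Finset.sum_const, Finset.card_univ,
        Fintype.card_fin, nsmul_eq_mul, mul_one]
      ring
  · right; right
    obtain ⟨u, v, huv, hu⟩ := Finset.card_eq_two.1 h2
    have hx : ∀ l, x l ≠ c l ↔ (l = u ∨ l = v) := fun l => by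
      rw [← hmem, hu]; simp
    have e1 : ∀ i, (∀ l, l ≠ i → x l = c l) ↔ False := by
      intro i
      constructor
      · intro h
        by_cases hi : i = u
        · exact ((hx v).2 (Or.inr rfl)) (h v (fun h' => huv (by rw [h', hi])))
        · exact ((hx u).2 (Or.inl rfl)) (h u (fun h' => hi h'.symm))
      · exact False.elim
    have e2 : ∀ i j, (∀ l, l ≠ i → l ≠ j → x l = c l) ↔ ((i = u ∧ j = v) ∨ (i = v ∧ j = u)) := by
      intro i j
      constructor
      · intro h
        have hu' : u = i ∨ u = j := by
          by_contra hne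
          push Not at hne
          exact ((hx u).2 (Or.inl rfl)) (h u hne.1 hne.2)
        have hv' : v = i ∨ v = j := by
          by_contra hne
          push Not at hne
          exact ((hx v).2 (Or.inr rfl)) (h v hne.1 hne.2)
        rcases hu' with hu' | hu' <;> rcases hv' with hv' | hv'
        · exact absurd (hu'.trans hv'.symm) huv
        · exact Or.inl ⟨hu'.symm, hv'.symm⟩
        · exact Or.inr ⟨hv'.symm, hu'.symm⟩
        · exact absurd (hu'.trans hv'.symm) huv
      · rintro (⟨rfl, rfl⟩ | ⟨rfl, rfl⟩) l hl hl2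
        · by_contra hne
          rcases (hx l).1 hne with h | h
          · exact hl h
          · exact hl2 h
        · by_contra hne
          rcases (hx l).1 hne with h | h
          · exact hl2 h
          · exact hl h
    refine ⟨fun h => ((hx u).2 (Or.inl rfl)) (congrFun h u), h2, ?_, ?_⟩
    · simp only [e1]; simp
    · simp only [e2]
      have : ∀ i j : Fin n, (if ((i = u ∧ j = v) ∨ (i = v ∧ j = u)) then (1 : ℚ) else 0) =
          (if i = u then 1 else 0) * (if j = v then 1 else 0) +
            (if i = v then 1 else 0) * (if j = u then 1 else 0) := by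
        intro i j
        by_cases hi : i = u
        · by_cases hi2 : i = v
          · exact absurd (hi.symm.trans hi2) huv
          · simp [hi, huv]
        · by_cases hi2 : i = v
          · simp [hi2, huv.symm]
          · simp [hi, hi2]
      simp only [this, Finset.sum_add_distrib, ← Finset.mul_sum,
        Finset.sum_ite_eq', Finset.mem_univ, if_true, mul_one]
      norm_num

end Pool.Agent.TH500.PC
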