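import Pool.Agent.TH500.PC.FamTwo

/-!
The general criterion and an infinite set of primes.
-/

set_option autoImplicit false

open NumberTheorySymbols

namespace Pool.Agent.TH500.PC

/-- the submonoid of `ℤ/p` generated by the other prime divisors of `q` -/
def others (q p : ℕ) : Submonoid (ZMod p) :=
  Submonoid.closure {z | ∃ r : ℕ, r.Prime ∧ r ∣ q ∧ r ≠ p ∧ z = (r : ZMod p)}

lemma cast_mem_others {q p : ℕ} : ∀ m : ℕ, m ≠ 0 → (∀ r : ℕ, r.Prime → r ∣ m → r ∣ q ∧ r ≠ p) →
    (m : ZMod p) ∈ others q p := by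
  intro m
  induction m using Nat.recOnMul with
  | zero => intro h; exact absurd rfl h
  | one => intro _ _; simp [Submonoid.one_mem]
  | prime r hr =>
    intro _ h
    obtain ⟨h1, h2⟩ := h r hr (dvd_refl _)
    exact Submonoid.subset_closure ⟨r, hr, h1, h2, rfl⟩
  | mul a b iha ihb =>
    intro h0 h
    rw [Nat.cast_mul]
    exact Submonoid.mul_mem _
      (iha (left_ne_zero_of_mul h0) fun r hr hd => h r hr (hd.mul_right _))
      (ihb (right_ne_zero_of_mul h0) fun r hr hd => h r hr (hd.mul_left _))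

/-- necessary conditions for all alphabet sizes prime to 3 -/
theorem crit {q x y : ℕ} (h : Sol q x y) (hq3 : ¬ 3 ∣ q) (hq : 3 ≤ q) :
    (∃ p : ℕ, p.Prime ∧ p ≠ 2 ∧ p ∣ q ∧ (3 : ZMod p) ∈ others q p) ∧
    (q % 2 = 1 → ∃ p : ℕ, p.Prime ∧ p ∣ q ∧ ∃ z ∈ others q p, 2 * z = (3 : ZMod p)) := by
  have hne3 : ∀ p : ℕ, p ∣ q → p ≠ 3 := fun p hp h' => hq3 (h' ▸ hp)
  rcases Nat.mod_two_eq_zero_or_one q with hq2 | hq2
  · refine ⟨?_, fun h' => by omega⟩
    have h2q : 2 ∣ q := Nat.dvd_of_mod_eq_zero hq2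
    have hsm : ∀ e o : ℕ, Pair q e o → ∀ r : ℕ, r.Prime → r ∣ e → r ∣ q := by
      intro e o hP r hr hre
      rcases (Nat.Prime.dvd_mul hr).1 (hP.smooth hr hre) with h' | h'
      · rw [(Nat.prime_dvd_prime_iff_eq hr Nat.prime_two).1 h']; exact h2q
      · exact h'
    have key : ∀ e o p : ℕ, Pair q e o → p.Prime → p ≠ 2 → p ∣ e →
        ∃ p : ℕ, p.Prime ∧ p ≠ 2 ∧ p ∣ q ∧ (3 : ZMod p) ∈ others q p := by
      intro e o p hP hp hp2 hpe
      have hpq := hsm e o hP p hp hpe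
      refine ⟨p, hp, hp2, hpq, ?_⟩
      rw [← hP.cast3 hp hp2 hpq hpe]
      have hge := hP.ge3 hq
      apply cast_mem_others o (by omega)
      intro r hr hro
      refine ⟨hsm o e hP.symm r hr hro, ?_⟩
      rintro rfl
      exact hP.not_both hp hp2 (hne3 r hpq) hpq hpe hro
    have hP : Pair q x y := Or.inl h
    have hge := hP.ge3 hq
    by_cases hx : ∃ p : ℕ, p.Prime ∧ p ≠ 2 ∧ p ∣ x
    · obtain ⟨p, hp, hp2, hpx⟩ := hx
      exact key x y p hP hp hp2 hpx
    · by_cases hy : ∃ p : ℕ, p.Prime ∧ p ≠ 2 ∧ p ∣ y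
      · obtain ⟨p, hp, hp2, hpy⟩ := hy
        exact key y x p hP.symm hp hp2 hpy
      · exfalso
        push Not at hx hy
        obtain ⟨i, hi⟩ := prime_pow_of (p := 2) (m := x) (by omega) (fun r hr hrx => by
          by_contra hne; exact hx r hr hne hrx)
        obtain ⟨j, hj⟩ := prime_pow_of (p := 2) (m := y) (by omega) (fun r hr hrx => by
          by_contra hne; exact hy r hr hne hrx)
        exact hP.not_both_two_pow hq hi hj
  · obtain ⟨P, Q, hP, h4, h8, -, hP3, hQ3⟩ := odd_shape h hq2 hq3 hq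
    have hodd_dvd : ∀ p : ℕ, p.Prime → p ≠ 2 → p ∣ 2 * q → p ∣ q := by
      intro p hp hp2 hd
      rcases (Nat.Prime.dvd_mul hp).1 hd with h' | h'
      · exact absurd ((Nat.prime_dvd_prime_iff_eq hp Nat.prime_two).1 h') hp2
      · exact h'
    have hPq : ∀ r : ℕ, r.Prime → r ∣ P → r ≠ 2 ∧ r ∣ q := by
      intro r hr hrP
      have hr2 : r ≠ 2 := by rintro rfl; omega
      exact ⟨hr2, hodd_dvd r hr hr2 (hP.smooth hr (hrP.mul_left _))⟩
    have hQq : ∀ r : ℕ, r.Prime → r ∣ Q → r ≠ 2 ∧ r ∣ q := by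
      intro r hr hrQ
      have hr2 : r ≠ 2 := by rintro rfl; omega
      exact ⟨hr2, hodd_dvd r hr hr2 (hP.symm.smooth hr hrQ)⟩
    constructor
    · obtain ⟨p, hp, hpP⟩ := Nat.exists_prime_and_dvd (show P ≠ 1 by omega)
      obtain ⟨hp2, hpq⟩ := hPq p hp hpP
      refine ⟨p, hp, hp2, hpq, ?_⟩
      rw [← hP.cast3 hp hp2 hpq (hpP.mul_left _)]
      apply cast_mem_others Q (by omega)
      intro r hr hrQ
      refine ⟨(hQq r hr hrQ).2, ?_⟩
      rintro rfl
      exact hP.not_both hp hp2 (hne3 r hpq) hpq (hpP.mul_left _) hrQ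
    · intro _
      obtain ⟨p, hp, hpQ⟩ := Nat.exists_prime_and_dvd (show Q ≠ 1 by omega)
      obtain ⟨hp2, hpq⟩ := hQq p hp hpQ
      refine ⟨p, hp, hpq, (P : ZMod p), ?_, ?_⟩
      · apply cast_mem_others P (by omega)
        intro r hr hrP
        refine ⟨(hPq r hr hrP).2, ?_⟩
        rintro rfl
        exact hP.symm.not_both hp hp2 (hne3 r hpq) hpq hpQ (hrP.mul_left _)
      · have := hP.symm.cast3 hp hp2 hpq hpQ
        push_cast at this
        exact this

lemma isSquare_of_mem_others {q p : ℕ} (h : ∀ r : ℕ, r.Prime → r ∣ q → r ≠ p → IsSquare (r : ZMod p))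
    {z : ZMod p} (hz : z ∈ others q p) : IsSquare z := by
  unfold others at hz
  induction hz using Submonoid.closure_induction with
  | mem x hx =>
    obtain ⟨r, hr, hrq, hrp, rfl⟩ := hx
    exact h r hr hrq hrp
  | one => exact ⟨1, by ring⟩
  | mul x y _ _ hx hy => exact hx.mul hy

/-- the criterion with quadratic residues -/
theorem crit_sq {q : ℕ} (hq3 : ¬ 3 ∣ q) (hq : 3 ≤ q)
    (h3 : ∀ p : ℕ, p.Prime → p ≠ 2 → p ∣ q → ¬ IsSquare (3 : ZMod p))
    (hr : ∀ p : ℕ, p.Prime → p ≠ 2 → p ∣ q → ∀ r : ℕ, r.Prime → r ∣ q → r ≠ p →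
      IsSquare (r : ZMod p)) : ¬ ∃ x y, Sol q x y := by
  rintro ⟨x, y, hS⟩
  obtain ⟨⟨p, hp, hp2, hpq, hmem⟩, -⟩ := crit hS hq3 hq
  exact h3 p hp hp2 hpq (isSquare_of_mem_others (hr p hp hp2 hpq) hmem)

/-- the family of admissible sets of primes -/
def Good (S : Set ℕ) : Prop :=
  (∀ p ∈ S, p.Prime ∧ p % 24 = 17) ∧ ∀ p ∈ S, ∀ r ∈ S, r ≠ p → IsSquare (r : ZMod p)

lemma good_extend {S : Set ℕ} (hS : Good S) (hfin : S.Finite) : ∃ p, p ∉ S ∧ Good (insert p S) := by
  classical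
  -- modulus
  set M : ℕ := ∏ r ∈ hfin.toFinset, r with hM
  have hMr : ∀ r ∈ S, r ∣ M := fun r hr => Finset.dvd_prod_of_mem _ (hfin.mem_toFinset.2 hr)
  have hM3 : M % 3 = 1 ∨ M % 3 = 2 := by
    have : ¬ 3 ∣ M := by
      intro h
      rw [hM, Prime.dvd_finset_prod_iff Nat.prime_three.prime] at h
      obtain ⟨r, hr, h3⟩ := h
      have hr' := hS.1 r (hfin.mem_toFinset.1 hr)
      omega
    omega
  have hM0 : M ≠ 0 := by
    rw [hM, Finset.prod_ne_zero_iff]
    intro r hr
    exact (hS.1 r (hfin.mem_toFinset.1 hr)).1.ne_zero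
  -- residue class
  set t : ℕ := if M % 3 = 1 then 2 else 1 with ht
  set a : ℕ := 1 + 8 * M * t with ha
  have ha3 : a % 3 = 2 := by
    rw [ha, ht]
    split_ifs with h1
    · have : 1 + 8 * M * 2 = 1 + 16 * M := by ring
      omega
    · have : 1 + 8 * M * 1 = 1 + 8 * M := by ring
      omega
  have hcop : Nat.Coprime a (24 * M) := by
    have h1 : Nat.Coprime a (8 * M) := by
      rw [ha, Nat.coprime_add_mul_left_left]
      exact Nat.coprime_one_left _
    have h2 : Nat.Coprime a 3 := by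
      rw [Nat.coprime_comm, Nat.Prime.coprime_iff_not_dvd Nat.prime_three]
      omega
    have : 24 * M = 8 * M * 3 := by ring
    rw [this]
    exact Nat.Coprime.mul_right h1 h2
  haveI : NeZero (24 * M) := ⟨by omega⟩
  have hunit : IsUnit ((a : ℕ) : ZMod (24 * M)) := (ZMod.isUnit_iff_coprime a (24 * M)).2 hcop
  obtain ⟨p, hpgt, hp, hpa⟩ := Nat.forall_exists_prime_gt_and_eq_mod hunit (M + 24)
  have hmod : p % (24 * M) = a % (24 * M) := (ZMod.natCast_eq_natCast_iff' p a (24 * M)).1 hpa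
  have hmod24 : p % 24 = 17 := by
    have h3 : p % 3 = 2 := by
      have : p % (24 * M) % 3 = a % (24 * M) % 3 := by rw [hmod]
      rw [Nat.mod_mod_of_dvd _ (⟨8 * M, by ring⟩ : 3 ∣ 24 * M),
        Nat.mod_mod_of_dvd _ (⟨8 * M, by ring⟩ : 3 ∣ 24 * M)] at this
      omega
    have h8 : p % 8 = 1 := by
      have : p % (24 * M) % 8 = a % (24 * M) % 8 := by rw [hmod]
      rw [Nat.mod_mod_of_dvd _ (⟨3 * M, by ring⟩ : 8 ∣ 24 * M),
        Nat.mod_mod_of_dvd _ (⟨3 * M, by ring⟩ : 8 ∣ 24 * M)] at this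
      rw [this, ha]
      have : 1 + 8 * M * t = 1 + 8 * (M * t) := by ring
      omega
    omega
  have hmodr : ∀ r ∈ S, p % r = 1 % r := by
    intro r hr
    obtain ⟨u, hu⟩ := hMr r hr
    have hdr : r ∣ 24 * M := (hMr r hr).mul_left _
    have : p % (24 * M) % r = a % (24 * M) % r := by rw [hmod]
    rw [Nat.mod_mod_of_dvd _ hdr, Nat.mod_mod_of_dvd _ hdr] at this
    rw [this, ha, hu]
    have : 1 + 8 * (r * u) * t = 1 + r * (8 * u * t) := by ring
    rw [this, Nat.add_mul_mod_self_left]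
  have hpS : p ∉ S := by
    intro h
    have := Nat.le_of_dvd (Nat.pos_of_ne_zero hM0) (hMr p h)
    omega
  refine ⟨p, hpS, ?_, ?_⟩
  · intro r hr
    rcases Set.mem_insert_iff.1 hr with rfl | hr
    · exact ⟨hp, hmod24⟩
    · exact hS.1 r hr
  · intro u hu v hv hne
    rcases Set.mem_insert_iff.1 hu with rfl | hu' <;> rcases Set.mem_insert_iff.1 hv with rfl | hv'
    · exact absurd rfl hne
    · -- `v ∈ S` modulo the new prime `u`
      haveI : Fact u.Prime := ⟨hp⟩
      have hv'' := hS.1 v hv'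
      have hr := jacobiSym.quadratic_reciprocity_one_mod_four (a := v) (b := u) (by omega)
        (Nat.odd_iff.2 (by omega))
      have h1 : J((u : ℤ) | v) = 1 := by
        have : J((u : ℤ) | v) = J(1 | v) := by
          apply jacobiSym.mod_left'
          have := hmodr v hv'
          exact_mod_cast this
        rw [this, jacobiSym.one_left]
      rw [h1] at hr
      have := ZMod.isSquare_of_jacobiSym_eq_one hr
      exact_mod_cast this
    · -- the new prime modulo `u ∈ S`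
      have : (v : ZMod u) = 1 := by
        have := (ZMod.natCast_eq_natCast_iff' v 1 u).2 (hmodr u hu')
        simpa using this
      rw [this]
      exact ⟨1, by ring⟩
    · exact hS.2 u hu' v hv' hne

/-- an infinite set of primes all of whose products are excluded -/
theorem exists_infinite : ∃ S : Set ℕ, S.Infinite ∧ Good S := by
  obtain ⟨S, hSmax⟩ := zorn_subset {S : Set ℕ | Good S} (by
    intro c hc hchain
    refine ⟨⋃₀ c, ⟨?_, ?_⟩, fun s hs => Set.subset_sUnion_of_mem hs⟩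
    · rintro p ⟨s, hs, hps⟩
      exact (hc hs).1 p hps
    · rintro p ⟨s, hs, hps⟩ r ⟨s', hs', hrs'⟩ hne
      rcases hchain.total hs hs' with h | h
      · exact (hc hs').2 p (h hps) r hrs' hne
      · exact (hc hs).2 p hps r (h hrs') hne)
  refine ⟨S, ?_, hSmax.prop⟩
  intro hfin
  obtain ⟨p, hp, hgood⟩ := good_extend hSmax.prop hfin
  have := hSmax.le_of_ge hgood (Set.subset_insert p S)
  exact hp (this (Set.mem_insert p S))

/-- products of the primes of such a set and of `2` -/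
theorem good_excluded {S : Set ℕ} (hS : Good S) {q : ℕ} (hq : 3 ≤ q)
    (hqS : ∀ p : ℕ, p.Prime → p ∣ q → p = 2 ∨ p ∈ S) : ¬ ∃ x y, Sol q x y := by
  apply crit_sq
  · intro h3
    rcases hqS 3 Nat.prime_three h3 with h | h
    · omega
    · have := (hS.1 3 h).2; omega
  · exact hq
  · intro p hp hp2 hpq
    haveI : Fact p.Prime := ⟨hp⟩
    have hpS := (hqS p hp hpq).resolve_left hp2
    have h17 := (hS.1 p hpS).2
    rcases J_three (m := p) (by omega) (by omega) with ⟨h', -⟩ | ⟨-, h'⟩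
    · omega
    · have := ZMod.nonsquare_of_jacobiSym_eq_neg_one h'
      exact_mod_cast this
  · intro p hp hp2 hpq r hr hrq hrp
    haveI : Fact p.Prime := ⟨hp⟩
    have hpS := (hqS p hp hpq).resolve_left hp2
    have h17 := (hS.1 p hpS).2
    rcases hqS r hr hrq with rfl | hrS
    · have := (ZMod.exists_sq_eq_two_iff (p := p) hp2).2 (Or.inl (by omega))
      exact_mod_cast this
    · exact hS.2 p hpS r hrS hrp

end Pool.Agent.TH500.PC
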