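import Pool.Agent.TH500.PC.Lloyd

/-!
A divisibility condition for perfect 2-error-correcting codes: `3 ∣ (n - 2) (q - 1)`.
-/

set_option autoImplicit false

open Function

namespace Pool.Agent.TH500.PC

variable {α : Type} [Fintype α] [DecidableEq α] {n : ℕ}

lemma card_diff_ge {C : Finset (Fin n → α)} (hC : Perfect2 C) {c c' : Fin n → α} (hc : c ∈ C)
    (hc' : c' ∈ C) (hne : c ≠ c') : 5 ≤ (Finset.univ.filter (fun l => c l ≠ c' l)).card := by
  classical
  by_contra hlt
  push Not at hlt
  set D := Finset.univ.filter (fun l => c l ≠ c' l) with hD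
  obtain ⟨E, hE1, hE2⟩ := Finset.exists_subset_card_eq (show min 2 D.card ≤ D.card from min_le_right _ _)
  set m : Fin n → α := fun l => if l ∈ E then c l else c' l with hm
  have h1 : hammingDist m c' ≤ 2 := by
    unfold hammingDist
    calc _ ≤ E.card := by
          apply Finset.card_le_card
          intro l hl
          rw [Finset.mem_filter] at hl
          by_contra hlE
          apply hl.2
          simp only [hm, if_neg hlE]
      _ ≤ 2 := by rw [hE2]; exact min_le_left _ _
  have h2 : hammingDist m c ≤ 2 := by
    unfold hammingDist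
    calc _ ≤ (D \ E).card := by
          apply Finset.card_le_card
          intro l hl
          rw [Finset.mem_filter] at hl
          rw [Finset.mem_sdiff, hD, Finset.mem_filter]
          by_cases hlE : l ∈ E
          · exfalso; apply hl.2; simp only [hm, if_pos hlE]
          · refine ⟨⟨Finset.mem_univ _, ?_⟩, hlE⟩
            intro h
            apply hl.2
            simp only [hm, if_neg hlE, h]
      _ ≤ 2 := by
          rw [Finset.card_sdiff_of_subset hE1, hE2]
          omega
  obtain ⟨d, hd, huniq⟩ := hC m
  exact hne ((huniq c ⟨hc, h2⟩).trans (huniq c' ⟨hc', h1⟩).symm)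

theorem three_dvd {C : Finset (Fin n → α)} (hC : Perfect2 C) (hq : 2 ≤ Fintype.card α)
    (hcard : 2 ≤ C.card) : 3 ∣ (n - 2) * (Fintype.card α - 1) := by
  classical
  have hn := three_le hC hcard
  have : Nontrivial α := Fintype.one_lt_card_iff_nontrivial.1 (by omega)
  obtain ⟨c0, hc0, -⟩ := Finset.one_lt_card.1 (show 1 < C.card by omega)
  let i0 : Fin n := ⟨0, by omega⟩
  let i1 : Fin n := ⟨1, by omega⟩
  have hi : i0 ≠ i1 := by
    intro h
    have := congrArg Fin.val h
    simp [i0, i1] at this
  obtain ⟨a0, ha0⟩ := exists_ne (c0 i0)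
  obtain ⟨a1, ha1⟩ := exists_ne (c0 i1)
  clear_value i0 i1
  let z : Fin n → α → (Fin n → α) := fun i a l =>
    if l = i0 then a0 else if l = i1 then a1 else if l = i then a else c0 l
  let S : Finset (Σ _ : Fin n, α) := ((Finset.univ.erase i0).erase i1).sigma
    (fun i => Finset.univ.erase (c0 i))
  have hS : S.card = (n - 2) * (Fintype.card α - 1) := by
    rw [Finset.card_sigma]
    simp only [Finset.card_erase_of_mem (Finset.mem_univ _), Finset.card_univ, Finset.sum_const,
      smul_eq_mul]
    rw [Finset.card_erase_of_mem (by simp [hi.symm]), Finset.card_erase_of_mem (Finset.mem_univ _),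
      Finset.card_univ, Fintype.card_fin]
    rfl
  have hSmem : ∀ p : Σ _ : Fin n, α, p ∈ S ↔ p.1 ≠ i0 ∧ p.1 ≠ i1 ∧ p.2 ≠ c0 p.1 := by
    intro p
    simp only [S, Finset.mem_sigma, Finset.mem_erase, Finset.mem_univ, and_true]
    tauto
  choose F hF huniq using fun x => hC x
  -- the key facts on the codeword near `z i a`
  have key : ∀ p ∈ S, F (z p.1 p.2) i0 = a0 ∧ F (z p.1 p.2) i1 = a1 ∧ F (z p.1 p.2) p.1 = p.2 ∧
      (Finset.univ.filter (fun l => F (z p.1 p.2) l ≠ c0 l)).card = 5 := by
    intro p hp
    obtain ⟨hp0, hp1, hp2⟩ := (hSmem p).1 hp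
    set c := F (z p.1 p.2) with hcdef
    have hcC : c ∈ C := (hF _).1
    have hcd : hammingDist (z p.1 p.2) c ≤ 2 := (hF _).2
    set Z : Finset (Fin n) := {i0, i1, p.1} with hZ
    set W : Finset (Fin n) := Finset.univ.filter (fun l => z p.1 p.2 l ≠ c l) with hW
    set D : Finset (Fin n) := Finset.univ.filter (fun l => c l ≠ c0 l) with hD
    have hZ3 : Z.card = 3 := by
      rw [hZ, Finset.card_insert_of_notMem, Finset.card_insert_of_notMem, Finset.card_singleton]
      · simpa using hp1.symm
      · simp only [Finset.mem_insert, Finset.mem_singleton, not_or]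
        exact ⟨hi, hp0.symm⟩
    have hZne : ∀ l ∈ Z, z p.1 p.2 l ≠ c0 l := by
      intro l hl
      rw [hZ, Finset.mem_insert, Finset.mem_insert, Finset.mem_singleton] at hl
      rcases hl with rfl | rfl | rfl
      · simpa [z] using ha0
      · simpa [z, hi.symm] using ha1
      · simpa [z, hp0, hp1] using hp2
    have hZeq : ∀ l, l ∉ Z → z p.1 p.2 l = c0 l := by
      intro l hl
      rw [hZ, Finset.mem_insert, Finset.mem_insert, Finset.mem_singleton] at hl
      push Not at hl
      simp [z, hl.1, hl.2.1, hl.2.2]
    have hne : c ≠ c0 := by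
      intro h
      rw [h] at hcd
      have : Z.card ≤ hammingDist (z p.1 p.2) c0 := by
        unfold hammingDist
        apply Finset.card_le_card
        intro l hl
        rw [Finset.mem_filter]
        exact ⟨Finset.mem_univ _, hZne l hl⟩
      omega
    have hD5 : 5 ≤ D.card := card_diff_ge hC hcC hc0 hne
    have hsub : D ⊆ Z ∪ W := by
      intro l hl
      rw [Finset.mem_union]
      by_contra hcon
      push Not at hcon
      rw [hD, Finset.mem_filter] at hl
      have h1 := hZeq l hcon.1
      have h2 : z p.1 p.2 l = c l := by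
        by_contra h
        exact hcon.2 (by rw [hW, Finset.mem_filter]; exact ⟨Finset.mem_univ _, h⟩)
      exact hl.2 (h2.symm.trans h1)
    have hWc : W.card ≤ 2 := hcd
    have hU := Finset.card_union_add_card_inter Z W
    have hUge := Finset.card_le_card hsub
    have hint : (Z ∩ W).card = 0 := by omega
    have hag : ∀ l ∈ Z, z p.1 p.2 l = c l := by
      intro l hl
      by_contra h
      have : l ∈ Z ∩ W := by
        rw [Finset.mem_inter, hW, Finset.mem_filter]
        exact ⟨hl, Finset.mem_univ _, h⟩
      rw [Finset.card_eq_zero] at hint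
      rw [hint] at this
      simp at this
    have e0 := hag i0 (by rw [hZ]; simp)
    have e1 := hag i1 (by rw [hZ]; simp)
    have e2 := hag p.1 (by rw [hZ]; simp)
    simp only [z, if_true] at e0
    simp only [z, if_neg hi.symm, if_true] at e1
    simp only [z, if_neg hp0, if_neg hp1, if_true] at e2
    exact ⟨e0.symm, e1.symm, e2.symm, by omega⟩
  rw [← hS, Finset.card_eq_sum_card_image (fun p => F (z p.1 p.2)) S]
  refine Finset.dvd_sum fun c hc => ?_
  obtain ⟨p, hp, hpc⟩ := Finset.mem_image.1 hc
  obtain ⟨k0, k1, k2, k5⟩ := key p hp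
  rw [hpc] at k0 k1 k2 k5
  have hcC : c ∈ C := by rw [← hpc]; exact (hF _).1
  set D : Finset (Fin n) := Finset.univ.filter (fun l => c l ≠ c0 l) with hD
  have h0D : i0 ∈ D := by rw [hD, Finset.mem_filter]; exact ⟨Finset.mem_univ _, by rw [k0]; exact ha0⟩
  have h1D : i1 ∈ D := by rw [hD, Finset.mem_filter]; exact ⟨Finset.mem_univ _, by rw [k1]; exact ha1⟩
  have hfib : S.filter (fun p => F (z p.1 p.2) = c) =
      ((D.erase i0).erase i1).image (fun l => (⟨l, c l⟩ : Σ _ : Fin n, α)) := by
    ext ⟨l, b⟩
    simp only [Finset.mem_filter, Finset.mem_image, Finset.mem_erase]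
    constructor
    · rintro ⟨hS', hFc⟩
      obtain ⟨t0, t1, t2, t5⟩ := key _ hS'
      obtain ⟨u0, u1, u2⟩ := (hSmem _).1 hS'
      simp only at t2 u0 u1 u2 hFc
      rw [hFc] at t2
      refine ⟨l, ⟨u1, u0, ?_⟩, ?_⟩
      · rw [hD, Finset.mem_filter]
        exact ⟨Finset.mem_univ _, by rw [t2]; exact u2⟩
      · rw [t2]
    · rintro ⟨l', ⟨v1, v0, vD⟩, he⟩
      have hl : l' = l := congrArg Sigma.fst he
      subst hl
      have hb : c l' = b := by
        have := he
        simp only [Sigma.mk.injEq, heq_eq_eq, true_and] at this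
        exact this
      subst hb
      rw [hD, Finset.mem_filter] at vD
      have hin : (⟨l', c l'⟩ : Σ _ : Fin n, α) ∈ S := (hSmem _).2 ⟨v0, v1, vD.2⟩
      refine ⟨hin, ?_⟩
      refine (huniq _ c ⟨hcC, ?_⟩).symm
      unfold hammingDist
      calc _ ≤ (((D.erase i0).erase i1).erase l').card := by
            apply Finset.card_le_card
            intro m hm
            rw [Finset.mem_filter] at hm
            have hm' := hm.2
            simp only [z] at hm'
            have m0 : m ≠ i0 := by
              rintro rfl
              rw [if_pos rfl] at hm'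
              exact hm' k0.symm
            have m1 : m ≠ i1 := by
              rintro rfl
              rw [if_neg m0, if_pos rfl] at hm'
              exact hm' k1.symm
            have ml : m ≠ l' := by
              rintro rfl
              rw [if_neg m0, if_neg m1, if_pos rfl] at hm'
              exact hm' rfl
            rw [if_neg m0, if_neg m1, if_neg ml] at hm'
            simp only [Finset.mem_erase]
            refine ⟨ml, m1, m0, ?_⟩
            rw [hD, Finset.mem_filter]
            exact ⟨Finset.mem_univ _, fun h => hm' h.symm⟩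
        _ = 2 := by
            have hDl : l' ∈ D := by rw [hD, Finset.mem_filter]; exact vD
            rw [Finset.card_erase_of_mem, Finset.card_erase_of_mem, Finset.card_erase_of_mem h0D, k5]
            · rw [Finset.mem_erase]; exact ⟨hi.symm, h1D⟩
            · rw [Finset.mem_erase, Finset.mem_erase]; exact ⟨v1, v0, hDl⟩
  rw [hfib, Finset.card_image_of_injective, Finset.card_erase_of_mem, Finset.card_erase_of_mem h0D, k5]
  · rw [Finset.mem_erase]; exact ⟨hi.symm, h1D⟩
  · intro a b hab
    exact congrArg Sigma.fst hab

end Pool.Agent.TH500.PC
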