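import Pool.Agent.TH500.PC.FamEven3

/-!
Necessary conditions for `q = 2^a p^b`.
-/

set_option autoImplicit false

open NumberTheorySymbols

namespace Pool.Agent.TH500.PC

lemma two_pow_mul_even {a m : ℕ} (ha : 1 ≤ a) : (2 ^ a * m) % 2 = 0 := by
  obtain ⟨a', rfl⟩ : ∃ a', a = a' + 1 := ⟨a - 1, by omega⟩
  rw [pow_succ, show 2 ^ a' * 2 * m = 2 * (2 ^ a' * m) by ring]
  omega

/-- `p` is a square modulo every prime dividing `q ^ 2 - 6 q + 1` -/
theorem even_disc {p a b : ℕ} (hp : p.Prime) (hp5 : 5 ≤ p) (ha : 1 ≤ a) (hb : 1 ≤ b)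
    (h : ∃ x y, Sol (2 ^ a * p ^ b) x y) (l : ℕ) (hl : l.Prime)
    (hd : (l : ℤ) ∣ ((2 ^ a * p ^ b : ℕ) : ℤ) ^ 2 - 6 * ((2 ^ a * p ^ b : ℕ) : ℤ) + 1) :
    J((p : ℤ) | l) = 1 := by
  obtain ⟨x, y, hS⟩ := h
  have hl2 := disc_odd (two_pow_mul_even ha) hd
  rcases Nat.even_or_odd (x + y) with heven | hodd
  · have ha1 : a = 1 := by
      by_contra hcon
      have hodd : Odd (x + y) := by
        obtain ⟨a', rfl⟩ : ∃ a', a = a' + 2 := ⟨a - 2, by omega⟩
        have heq := hS.eq
        have h1 : (4 : ℤ) ∣ 2 * ((x : ℤ) + y) - 6 := by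
          rw [← heq]
          refine Dvd.dvd.mul_right ?_ _
          push_cast
          exact ⟨2 ^ a' * p ^ b, by ring⟩
        rw [Nat.odd_iff]
        omega
      exact (Nat.not_even_iff_odd.2 hodd) heven
    subst ha1
    rcases Nat.even_or_odd b with hbe | hbo
    · exact absurd ⟨x, y, hS⟩ (famB_even hp hp5 hb hbe)
    · obtain ⟨f, i, hi, hpf, hP⟩ := even_shape hp hp5 hb hS heven
      have h1 := hP.symm.J_disc hl hl2 hd
      have h3 := J_two_disc hl hl2 hd
      push_cast at h1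
      rw [jacobiSym.mul_left, jacobiSym.mul_left, jacobiSym.pow_left, jacobiSym.pow_left, h3,
        one_pow, one_mul, mul_one] at h1
      exact J_pow_odd hbo h1
  · obtain ⟨-, i, c, hi, hc, hP⟩ := odd_case hp hp5 ha hb hS hodd
    exact disc_of_odd hc hP hl hl2 hd

theorem even_final {p a b : ℕ} (hp : p.Prime) (hp5 : 5 ≤ p) (ha : 1 ≤ a) (hb : 1 ≤ b)
    (h : ∃ x y, Sol (2 ^ a * p ^ b) x y) :
    (3 ≤ a ∧ Odd a ∧ Odd b ∧ p % 8 = 3) ∨
    (4 ≤ a ∧ Even a ∧ Even b ∧ p % 24 = 19) ∨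
    (3 ≤ a ∧ Odd a ∧ Even b ∧ p % 24 = 11) ∨
    (a = 1 ∧ Odd b ∧ (p % 24 = 11 ∨ (p % 24 = 13 ∧ p ^ b % 16 = 5) ∨
      (p % 24 = 23 ∧ (p ^ b % 32 = 15 ∨ p ^ b % 32 = 23)) ∨
      (p % 24 = 19 ∧ ∃ m : ℕ, 2 ≤ m ∧ (p ^ b + 4 ^ m) % (8 * 4 ^ m) = 3))) := by
  have hpm : p % 2 = 1 := Nat.odd_iff.1 (hp.odd_of_ne_two (by omega))
  have hp3 : p % 3 ≠ 0 := by
    intro h
    have := (Nat.prime_dvd_prime_iff_eq Nat.prime_three hp).1 (Nat.dvd_of_mod_eq_zero h)
    omega
  rcases Nat.lt_or_ge a 2 with h2 | h2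
  · have ha1 : a = 1 := by omega
    subst ha1
    right; right; right
    have hbo : Odd b := by
      by_contra hcon
      rw [Nat.not_odd_iff_even] at hcon
      exact famB_even hp hp5 hb hcon h
    refine ⟨rfl, hbo, ?_⟩
    by_cases hB : p % 24 = 5 ∨ p % 24 = 7 ∨ p % 24 = 17
    · exfalso
      refine famB hp hb ?_ h
      tauto
    · push Not at hB
      have hs : p % 24 = 1 ∨ p % 24 = 11 ∨ p % 24 = 13 ∨ p % 24 = 19 ∨ p % 24 = 23 := by omega
      have h16 : p % 4 = 1 → p ^ b % 16 = 5 := by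
        intro h4
        by_contra hcon
        exact famB_one hp (by omega) hbo h4 hcon h
      rcases hs with hs | hs | hs | hs | hs
      · exfalso
        have h5 := h16 (by omega)
        rcases pow_mod8 hpm b with ⟨-, h'⟩ | ⟨-, h'⟩ <;> omega
      · exact Or.inl hs
      · exact Or.inr (Or.inl ⟨hs, h16 (by omega)⟩)
      · right; right; right
        refine ⟨hs, ?_⟩
        by_contra hcon
        push Not at hcon
        exact famB_nineteen hp hbo hs hcon h
      · right; right; left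
        refine ⟨hs, ?_⟩
        by_contra hcon
        push Not at hcon
        exact famB_seven hp (by omega) hbo (by omega) hcon.1 hcon.2 h
  · have hA : p % 8 = 3 ∧ ¬ (Even a ∧ Odd b) := by
      constructor
      · by_contra hcon
        exact famA hp hp5 h2 hb (Or.inl hcon) h
      · intro hcon
        exact famA hp hp5 h2 hb (Or.inr hcon) h
    obtain ⟨h8, hnab⟩ := hA
    have ha3 : 3 ≤ a := by
      by_contra hcon
      have : a = 2 := by omega
      subst this
      exact famA4 hp hp5 hb h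
    have h24 : p % 24 = 11 ∨ p % 24 = 19 := by omega
    rcases Nat.even_or_odd a with hae | hao
    · have hbe : Even b := by
        by_contra hcon
        rw [Nat.not_even_iff_odd] at hcon
        exact hnab ⟨hae, hcon⟩
      right; left
      refine ⟨?_, hae, hbe, ?_⟩
      · obtain ⟨a', rfl⟩ := hae; omega
      · rcases h24 with h24 | h24
        · exact absurd h (famA_even hp hp5 h2 hb hbe (Or.inl ⟨hae, h24⟩))
        · exact h24
    · rcases Nat.even_or_odd b with hbe | hbo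
      · right; right; left
        refine ⟨ha3, hao, hbe, ?_⟩
        rcases h24 with h24 | h24
        · exact h24
        · exact absurd h (famA_even hp hp5 h2 hb hbe (Or.inr ⟨hao, h24⟩))
      · left
        exact ⟨ha3, hao, hbo, h8⟩

end Pool.Agent.TH500.PC
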