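import Pool.Agent.TH500.PC.FamOdd

/-!
Residues of the two zeros modulo the primes dividing `q - 1` and `q ^ 2 - 6 q + 1`.
-/

set_option autoImplicit false

open NumberTheorySymbols

namespace Pool.Agent.TH500.PC

lemma J_eq_one {a : ℤ} {n : ℕ} (hn : n ≠ 0)
    (h : ∀ l : ℕ, l.Prime → l ∣ n → J(a | l) = 1) : J(a | n) = 1 := by
  have := J_congr (a := a) (b := 1) n hn (fun p hp hd => by rw [h p hp hd, jacobiSym.one_left])
  rw [this, jacobiSym.one_left]

lemma J_of_cast_eq {l a b : ℕ} (h : (a : ZMod l) = (b : ZMod l)) : J((a : ℤ) | l) = J((b : ℤ) | l) := by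
  apply jacobiSym.mod_left'
  have h1 : ((a : ℤ) : ZMod l) = ((b : ℤ) : ZMod l) := by push_cast; exact h
  exact (ZMod.intCast_eq_intCast_iff' _ _ _).1 h1

lemma J_cast_one {l a : ℕ} (h : (a : ZMod l) = 1) : J((a : ℤ) | l) = 1 := by
  rw [J_of_cast_eq (b := 1) (by push_cast; exact h)]
  simp

lemma J_cast_two {l a : ℕ} (h : (a : ZMod l) = 2) : J((a : ℤ) | l) = J(2 | l) := by
  rw [J_of_cast_eq (b := 2) (by push_cast; exact h)]
  rfl

/-- an odd power equal to one -/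
lemma J_pow_odd {a : ℤ} {l c : ℕ} (hc : Odd c) (h : J(a | l) ^ c = 1) : J(a | l) = 1 := by
  rcases jacobiSym.trichotomy a l with h' | h' | h'
  · rw [h', zero_pow (by rintro rfl; simp at hc)] at h; norm_num at h
  · exact h'
  · rw [h', hc.neg_one_pow] at h; norm_num at h

namespace Pair

variable {q e o : ℕ}

lemma dvd (h : Pair q e o) : ((q : ℤ) - 1) ∣ ((e : ℤ) - o) ^ 2 - 1 := by
  rcases h with h | h
  · have := h.dvd
    rwa [show ((e : ℤ) - o) ^ 2 = ((o : ℤ) - e) ^ 2 by ring]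
  · exact h.dvd

/-- residues of the two zeros modulo the prime divisors of `q - 1` -/
lemma mod_q1 (h : Pair q e o) {l : ℕ} (hl : l.Prime) (hl2 : l ≠ 2) (hd : (l : ℤ) ∣ (q : ℤ) - 1) :
    ((e : ZMod l) = 1 ∧ (o : ZMod l) = 2) ∨ ((e : ZMod l) = 2 ∧ (o : ZMod l) = 1) := by
  haveI : Fact l.Prime := ⟨hl⟩
  have h2 : (2 : ZMod l) ≠ 0 := by
    intro h0
    have : ((2 : ℕ) : ZMod l) = 0 := by exact_mod_cast h0
    rw [ZMod.natCast_eq_zero_iff] at this
    exact hl2 ((Nat.prime_dvd_prime_iff_eq hl Nat.prime_two).1 this)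
  have hq : (q : ZMod l) = 1 := by
    have := (ZMod.intCast_zmod_eq_zero_iff_dvd ((q : ℤ) - 1) l).2 hd
    push_cast at this
    linear_combination this
  have hw : ((e : ZMod l) - o) ^ 2 - 1 = 0 := by
    have := (ZMod.intCast_zmod_eq_zero_iff_dvd (((e : ℤ) - o) ^ 2 - 1) l).2 (hd.trans h.dvd)
    push_cast at this
    exact this
  have heq : (q : ZMod l) * (((e : ZMod l) - o) ^ 2 - 1) = 2 * ((e : ZMod l) + o) - 6 := by
    have := congrArg (Int.cast : ℤ → ZMod l) h.eq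
    push_cast at this
    exact this
  rw [hw, mul_zero] at heq
  have hs : (e : ZMod l) + o = 3 := by
    apply mul_left_cancel₀ h2
    linear_combination -heq
  have hfac : ((e : ZMod l) - o - 1) * ((e : ZMod l) - o + 1) = 0 := by linear_combination hw
  rcases mul_eq_zero.1 hfac with h3 | h3
  · right
    constructor
    · apply mul_left_cancel₀ h2; linear_combination hs + h3
    · apply mul_left_cancel₀ h2; linear_combination hs - h3
  · left
    constructor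
    · apply mul_left_cancel₀ h2; linear_combination hs + h3
    · apply mul_left_cancel₀ h2; linear_combination hs - h3

/-- `q e` is a nonzero square modulo every odd prime divisor of `q ^ 2 - 6 q + 1` -/
lemma J_disc (h : Pair q e o) {l : ℕ} (hl : l.Prime) (hl2 : l ≠ 2)
    (hd : (l : ℤ) ∣ (q : ℤ) ^ 2 - 6 * q + 1) : J(((q * e : ℕ) : ℤ) | l) = 1 := by
  haveI : Fact l.Prime := ⟨hl⟩
  have hlq : ¬ l ∣ q := by
    intro h'
    have h1 : (l : ℤ) ∣ (q : ℤ) ^ 2 - 6 * q := by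
      have : (l : ℤ) ∣ q := by exact_mod_cast h'
      have e : (q : ℤ) ^ 2 - 6 * q = q * (q - 6) := by ring
      rw [e]; exact this.mul_right _
    have h2 : (l : ℤ) ∣ 1 := (Int.dvd_add_right h1).1 hd
    have h3 : l ∣ 1 := by exact_mod_cast h2
    exact hl.one_lt.ne' (Nat.dvd_one.1 h3)
  have hle : ¬ l ∣ e := by
    intro h'
    rcases (Nat.Prime.dvd_mul hl).1 (h.smooth hl h') with h1 | h1
    · exact hl2 ((Nat.prime_dvd_prime_iff_eq hl Nat.prime_two).1 h1)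
    · exact hlq h1
  have h2l : ¬ l ∣ 2 := fun h' => hl2 ((Nat.prime_dvd_prime_iff_eq hl Nat.prime_two).1 h')
  have hkey : (2 : ℤ) ^ 2 * ((q * e : ℕ) : ℤ) = ((q : ℤ) * ((o : ℤ) - e) - 1) ^ 2 -
      ((q : ℤ) ^ 2 - 6 * q + 1) := by
    have := h.eq
    push_cast
    linear_combination (-(q : ℤ)) * this
  have hn : ¬ (l : ℤ) ∣ (2 : ℤ) ^ 2 * ((q * e : ℕ) : ℤ) := by
    intro h'
    have : l ∣ 2 ^ 2 * (q * e) := by exact_mod_cast h'
    rcases (Nat.Prime.dvd_mul hl).1 this with h1 | h1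
    · exact h2l (hl.dvd_of_dvd_pow h1)
    · rcases (Nat.Prime.dvd_mul hl).1 h1 with h2 | h2
      · exact hlq h2
      · exact hle h2
  have hY : ¬ (l : ℤ) ∣ (q : ℤ) * ((o : ℤ) - e) - 1 := by
    intro h'
    apply hn
    rw [hkey]
    exact dvd_sub (h'.trans (dvd_pow_self _ two_ne_zero)) hd
  have gcd_of : ∀ z : ℤ, ¬ (l : ℤ) ∣ z → Int.gcd z l = 1 := by
    intro z hz
    rw [Int.gcd_comm]
    have : Nat.Coprime l z.natAbs := by
      rw [Nat.Prime.coprime_iff_not_dvd hl]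
      intro h'
      exact hz (Int.natCast_dvd.2 h')
    simpa [Int.gcd] using this
  have e1 : J(((q : ℤ) * ((o : ℤ) - e) - 1) ^ 2 | l) = 1 := jacobiSym.sq_one' (gcd_of _ hY)
  have e2 : J((2 : ℤ) ^ 2 * ((q * e : ℕ) : ℤ) | l) = 1 := by
    rw [← e1]
    apply jacobiSym.mod_left'
    rw [hkey, Int.sub_emod, Int.emod_eq_zero_of_dvd hd, sub_zero, Int.emod_emod]
  have e3 : J((2 : ℤ) ^ 2 | l) = 1 := jacobiSym.sq_one' (gcd_of 2 (by
    intro h'; exact h2l (by exact_mod_cast h')))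
  rw [jacobiSym.mul_left, e3, one_mul] at e2
  exact e2

end Pair

/-- `2` is a square modulo the odd primes dividing `q ^ 2 - 6 q + 1` -/
lemma J_two_disc {q l : ℕ} (hl : l.Prime) (hl2 : l ≠ 2)
    (hd : (l : ℤ) ∣ (q : ℤ) ^ 2 - 6 * q + 1) : J(2 | l) = 1 := by
  haveI : Fact l.Prime := ⟨hl⟩
  have h2l : ¬ l ∣ 2 := fun h' => hl2 ((Nat.prime_dvd_prime_iff_eq hl Nat.prime_two).1 h')
  have h8 : ¬ (l : ℤ) ∣ 8 := by
    intro h'
    have : l ∣ 2 ^ 3 := by norm_num; exact_mod_cast h'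
    exact h2l (hl.dvd_of_dvd_pow this)
  have hY : ¬ (l : ℤ) ∣ (q : ℤ) - 3 := by
    intro h'
    apply h8
    have : (8 : ℤ) = ((q : ℤ) - 3) * (q - 3) - ((q : ℤ) ^ 2 - 6 * q + 1) := by ring
    rw [this]
    exact dvd_sub (h'.mul_right _) hd
  have gcd_of : ∀ z : ℤ, ¬ (l : ℤ) ∣ z → Int.gcd z l = 1 := by
    intro z hz
    rw [Int.gcd_comm]
    have : Nat.Coprime l z.natAbs := by
      rw [Nat.Prime.coprime_iff_not_dvd hl]
      intro h'
      exact hz (Int.natCast_dvd.2 h')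
    simpa [Int.gcd] using this
  have e1 : J(((q : ℤ) - 3) ^ 2 | l) = 1 := jacobiSym.sq_one' (gcd_of _ hY)
  have e2 : J((2 : ℤ) ^ 3 | l) = 1 := by
    rw [← e1]
    apply jacobiSym.mod_left'
    have : ((q : ℤ) - 3) ^ 2 = 2 ^ 3 + ((q : ℤ) ^ 2 - 6 * q + 1) := by ring
    rw [this, Int.add_emod, Int.emod_eq_zero_of_dvd hd, add_zero, Int.emod_emod]
  rw [jacobiSym.pow_left] at e2
  exact J_pow_odd (by decide) e2

end Pool.Agent.TH500.PC
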