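import Pool.Agent.TH500.PC.Sq

/-!
Families of alphabet sizes for which the Diophantine system has no solution.
-/

set_option autoImplicit false

open NumberTheorySymbols

namespace Pool.Agent.TH500.PC

/-- the two zeros of the Lloyd polynomial in either order -/
def Pair (q e o : ℕ) : Prop := Sol q e o ∨ Sol q o e

namespace Pair

variable {q e o : ℕ}

lemma symm (h : Pair q e o) : Pair q o e := Or.symm h

lemma ge3 (h : Pair q e o) (hq : 3 ≤ q) : 3 ≤ e ∧ 3 ≤ o := by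
  rcases h with h | h
  · have h1 := h.x_ge hq; have h2 := h.w2; omega
  · have h1 := h.x_ge hq; have h2 := h.w2; omega

lemma q_lt (h : Pair q e o) (hq : 3 ≤ q) : q + 2 < 2 * e ∧ q + 2 < 2 * o := by
  rcases h with h | h
  · have h1 := h.q_lt hq; have h2 := h.w2; omega
  · have h1 := h.q_lt hq; have h2 := h.w2; omega

lemma lt2 (h : Pair q e o) (hq : 3 ≤ q) : e < 2 * o ∧ o < 2 * e ∧ e ≠ o := by
  rcases h with h | h
  · have h1 := h.lt2 hq; have h2 := h.w2; omega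
  · have h1 := h.lt2 hq; have h2 := h.w2; omega

lemma smooth (h : Pair q e o) {p : ℕ} (hp : p.Prime) (hd : p ∣ e) : p ∣ 2 * q := by
  rcases h with h | h
  · exact h.smooth p hp (hd.mul_right _)
  · exact h.smooth p hp (hd.mul_left _)

lemma cast3 (h : Pair q e o) {p : ℕ} (hp : p.Prime) (hp2 : p ≠ 2) (hpq : p ∣ q) (hd : p ∣ e) :
    (o : ZMod p) = 3 := by
  rcases h with h | h
  · exact h.cast_y hp hp2 hpq hd
  · exact h.cast_x hp hp2 hpq hd

lemma not_both (h : Pair q e o) {p : ℕ} (hp : p.Prime) (hp2 : p ≠ 2) (hp3 : p ≠ 3) (hpq : p ∣ q)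
    (hd : p ∣ e) : ¬ p ∣ o := by
  rcases h with h | h
  · exact h.not_both hp hp2 hp3 hpq hd
  · intro h'; exact h.not_both hp hp2 hp3 hpq h' hd

lemma mod3 (h : Pair q e o) (h3 : ¬ 3 ∣ q) : (e * o) % 3 = 2 := by
  rcases h with h | h
  · exact h.mod3 h3
  · rw [mul_comm]; exact h.mod3 h3

lemma not_sq (h : Pair q e o) (hq : 10 ≤ q) (h16 : q ≠ 16) (h22 : q ≠ 22) : ¬ IsSquare (q * e) := by
  rcases h with h | h
  · exact h.not_sq_x hq h16
  · exact h.not_sq_y hq h22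

lemma not_sq_mul (h : Pair q e o) (hq : 3 ≤ q) : ¬ IsSquare (e * o) := by
  rcases h with h | h
  · exact h.not_sq_xy hq
  · rw [mul_comm]; exact h.not_sq_xy hq

lemma eq (h : Pair q e o) : (q : ℤ) * (((e : ℤ) - o) ^ 2 - 1) = 2 * ((e : ℤ) + o) - 6 := by
  rcases h with h | h
  · have := h.eq; linear_combination this
  · have := h.eq; linear_combination this

lemma not_both_two_pow (h : Pair q e o) (hq : 3 ≤ q) {i j : ℕ} (he : e = 2 ^ i) (ho : o = 2 ^ j) :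
    False := by
  obtain ⟨h1, h2, h3⟩ := h.lt2 hq
  subst he ho
  rcases lt_trichotomy i j with hij | hij | hij
  · have : 2 ^ (i + 1) ≤ 2 ^ j := Nat.pow_le_pow_right (by norm_num) hij
    rw [pow_succ] at this
    omega
  · exact h3 (by rw [hij])
  · have : 2 ^ (j + 1) ≤ 2 ^ i := Nat.pow_le_pow_right (by norm_num) hij
    rw [pow_succ] at this
    omega

end Pair

/-- order the two zeros by parity -/
lemma Sol.exists_pair {q x y : ℕ} (h : Sol q x y) (hodd : Odd (x + y)) :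
    ∃ e o k : ℕ, Pair q e o ∧ e % 2 = 0 ∧ o % 2 = 1 ∧ 1 ≤ k ∧ e + o = 2 * (q * (k * (k + 1))) + 3 ∧
      ((o + k = q * (k * (k + 1)) + 1 ∧ e = q * (k * (k + 1)) + k + 2) ∨
        (e + k = q * (k * (k + 1)) + 1 ∧ o = q * (k * (k + 1)) + k + 2)) := by
  obtain ⟨k, hk1, hk2, hk3⟩ := h.param hodd
  rw [Nat.odd_iff] at hodd
  rcases Nat.mod_two_eq_zero_or_one x with hx | hx
  · exact ⟨x, y, k, Or.inl h, hx, by omega, hk1, by omega, Or.inr ⟨hk2, hk3⟩⟩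
  · exact ⟨y, x, k, Or.inr h, by omega, hx, hk1, by omega, Or.inl ⟨hk2, hk3⟩⟩

lemma prime_pow_of {p m : ℕ} (hm : m ≠ 0) (h : ∀ r : ℕ, r.Prime → r ∣ m → r = p) :
    ∃ c, m = p ^ c :=
  ⟨_, Nat.eq_prime_pow_of_unique_prime_dvd hm (fun {d} hd hd' => h d hd hd')⟩

/-- powers of odd numbers mod 8 -/
lemma pow_mod8 {p : ℕ} (hp : p % 2 = 1) (c : ℕ) :
    (Even c ∧ p ^ c % 8 = 1) ∨ (Odd c ∧ p ^ c % 8 = p % 8) := by
  have h2 : p ^ 2 % 8 = 1 := by
    have : p % 8 = 1 ∨ p % 8 = 3 ∨ p % 8 = 5 ∨ p % 8 = 7 := by omega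
    rw [Nat.pow_mod]
    rcases this with h | h | h | h <;> rw [h]
  have he : ∀ d, p ^ (2 * d) % 8 = 1 := by
    intro d
    rw [pow_mul, Nat.pow_mod, h2, one_pow]
    norm_num
  rcases Nat.even_or_odd' c with ⟨d, hd | hd⟩
  · left; exact ⟨⟨d, by omega⟩, by rw [hd]; exact he d⟩
  · right
    refine ⟨⟨d, hd⟩, ?_⟩
    rw [hd, pow_succ, Nat.mul_mod, he d, one_mul, Nat.mod_mod]

/-- powers of numbers prime to 6 mod 24 -/
lemma pow_mod24 {p : ℕ} (hp : p % 2 = 1) (hp3 : p % 3 ≠ 0) (c : ℕ) :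
    (Even c ∧ p ^ c % 24 = 1) ∨ (Odd c ∧ p ^ c % 24 = p % 24) := by
  have h2 : p ^ 2 % 24 = 1 := by
    have : p % 24 = 1 ∨ p % 24 = 5 ∨ p % 24 = 7 ∨ p % 24 = 11 ∨ p % 24 = 13 ∨ p % 24 = 17 ∨
      p % 24 = 19 ∨ p % 24 = 23 := by omega
    rw [Nat.pow_mod]
    rcases this with h | h | h | h | h | h | h | h <;> rw [h]
  have he : ∀ d, p ^ (2 * d) % 24 = 1 := by
    intro d
    rw [pow_mul, Nat.pow_mod, h2, one_pow]
    norm_num
  rcases Nat.even_or_odd' c with ⟨d, hd | hd⟩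
  · left; exact ⟨⟨d, by omega⟩, by rw [hd]; exact he d⟩
  · right
    refine ⟨⟨d, hd⟩, ?_⟩
    rw [hd, pow_succ, Nat.mul_mod, he d, one_mul, Nat.mod_mod]

lemma J_two {m : ℕ} (hm : m % 2 = 1) :
    (m % 8 = 1 ∨ m % 8 = 7) ∧ J(2 | m) = 1 ∨ (m % 8 = 3 ∨ m % 8 = 5) ∧ J(2 | m) = -1 := by
  have h := jacobiSym.mod_right' 2 (b := m) (Nat.odd_iff.2 hm)
  norm_num at h
  have : m % 8 = 1 ∨ m % 8 = 7 ∨ m % 8 = 3 ∨ m % 8 = 5 := by omega
  rcases this with h' | h' | h' | h'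
  · left; refine ⟨Or.inl h', ?_⟩; rw [h, h']; norm_num
  · left; refine ⟨Or.inr h', ?_⟩; rw [h, h']; norm_num
  · right; refine ⟨Or.inl h', ?_⟩; rw [h, h']; norm_num
  · right; refine ⟨Or.inr h', ?_⟩; rw [h, h']; norm_num

lemma J_three {m : ℕ} (hm : m % 2 = 1) (hm3 : m % 3 ≠ 0) :
    (m % 12 = 1 ∨ m % 12 = 11) ∧ J(3 | m) = 1 ∨ (m % 12 = 5 ∨ m % 12 = 7) ∧ J(3 | m) = -1 := by
  have h := jacobiSym.mod_right' 3 (b := m) (Nat.odd_iff.2 hm)
  norm_num at h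
  have : m % 12 = 1 ∨ m % 12 = 11 ∨ m % 12 = 5 ∨ m % 12 = 7 := by omega
  rcases this with h' | h' | h' | h'
  · left; refine ⟨Or.inl h', ?_⟩; rw [h, h']; norm_num
  · left; refine ⟨Or.inr h', ?_⟩; rw [h, h']; norm_num
  · right; refine ⟨Or.inl h', ?_⟩; rw [h, h']; norm_num
  · right; refine ⟨Or.inr h', ?_⟩; rw [h, h']; norm_num

/-- a congruence `a ≡ 3 (mod p)` gives equality of symbols -/
lemma J_of_cast {p a : ℕ} (h : (a : ZMod p) = 3) : J((a : ℤ) | p) = J(3 | p) := by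
  apply jacobiSym.mod_left'
  have h1 : ((a : ℤ) : ZMod p) = ((3 : ℤ) : ZMod p) := by push_cast; exact h
  exact (ZMod.intCast_eq_intCast_iff' _ _ _).1 h1

end Pool.Agent.TH500.PC
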