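import Pool.Agent.TH500.PC.Fam

/-!
Alphabets of size `2^a p^b`.
-/

set_option autoImplicit false

open NumberTheorySymbols

namespace Pool.Agent.TH500.PC

lemma prime_dvd_two_pow_mul {p r a b : ℕ} (hp : p.Prime) (hr : r.Prime)
    (h : r ∣ 2 * (2 ^ a * p ^ b)) : r = 2 ∨ r = p := by
  rcases (Nat.Prime.dvd_mul hr).1 h with h | h
  · exact Or.inl ((Nat.prime_dvd_prime_iff_eq hr Nat.prime_two).1 h)
  · rcases (Nat.Prime.dvd_mul hr).1 h with h | h
    · exact Or.inl ((Nat.prime_dvd_prime_iff_eq hr Nat.prime_two).1 (hr.dvd_of_dvd_pow h))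
    · exact Or.inr ((Nat.prime_dvd_prime_iff_eq hr hp).1 (hr.dvd_of_dvd_pow h))

lemma two_pow_ge {i : ℕ} (h : 7 ≤ 2 ^ i) : 3 ≤ i := by
  by_contra hcon
  have : i = 0 ∨ i = 1 ∨ i = 2 := by omega
  rcases this with rfl | rfl | rfl <;> norm_num at h

/-- common analysis when `x + y` is odd -/
lemma odd_case {p a b : ℕ} (hp : p.Prime) (hp5 : 5 ≤ p) (ha : 1 ≤ a) (hb : 1 ≤ b) {x y : ℕ}
    (h : Sol (2 ^ a * p ^ b) x y) (hodd : Odd (x + y)) :
    p % 8 = 3 ∧ ∃ i c : ℕ, 3 ≤ i ∧ Odd c ∧ Pair (2 ^ a * p ^ b) (2 ^ i) (p ^ c) := by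
  have hpodd : p % 2 = 1 := Nat.odd_iff.1 (hp.odd_of_ne_two (by omega))
  have hq : 10 ≤ 2 ^ a * p ^ b := by
    calc 10 = 2 ^ 1 * 5 ^ 1 := by norm_num
      _ ≤ 2 ^ a * p ^ b := Nat.mul_le_mul (Nat.pow_le_pow_right (by norm_num) ha)
        ((Nat.pow_le_pow_left hp5 1).trans (Nat.pow_le_pow_right (by omega) hb))
  obtain ⟨e, o, k, hP, he, ho, hk1, hsum, -⟩ := h.exists_pair hodd
  have hpq : p ∣ 2 ^ a * p ^ b := (dvd_pow_self p (by omega)).mul_left _
  have hge := hP.ge3 (by omega)
  have hql := hP.q_lt (by omega)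
  -- `o` is a power of `p`
  obtain ⟨c, hc⟩ := prime_pow_of (p := p) (m := o) (by omega) (fun r hr hro => by
    have h1 := hP.symm.smooth hr hro
    rcases prime_dvd_two_pow_mul hp hr h1 with h2 | h2
    · exfalso; subst h2; omega
    · exact h2)
  have hc0 : c ≠ 0 := by
    rintro rfl
    simp at hc
    omega
  have hpo : p ∣ o := by rw [hc]; exact dvd_pow_self p hc0
  have hpe : ¬ p ∣ e := hP.symm.not_both hp (by omega) (by omega) hpq hpo
  obtain ⟨i, hi⟩ := prime_pow_of (p := 2) (m := e) (by omega) (fun r hr hre => by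
    have h1 := hP.smooth hr hre
    rcases prime_dvd_two_pow_mul hp hr h1 with h2 | h2
    · exact h2
    · exfalso; subst h2; exact hpe hre)
  have hi3 : 3 ≤ i := two_pow_ge (by rw [← hi]; omega)
  have he8 : e % 8 = 0 := by
    obtain ⟨j, hj⟩ : ∃ j, i = 3 + j := ⟨i - 3, by omega⟩
    rw [hi, hj, pow_add]
    norm_num
  have hs8 : (e + o) % 8 = 3 := by
    obtain ⟨a', rfl⟩ : ∃ a', a = a' + 1 := ⟨a - 1, by omega⟩
    obtain ⟨m, hm⟩ := Nat.even_mul_succ_self k
    have : e + o = 8 * (2 ^ a' * p ^ b * m) + 3 := by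
      rw [hsum, hm, pow_succ]; ring
    omega
  have ho8 : o % 8 = 3 := by omega
  rw [hc] at ho8
  rcases pow_mod8 hpodd c with ⟨-, h2⟩ | ⟨h1, h2⟩
  · omega
  · exact ⟨by omega, i, c, hi3, h1, by rw [← hi, ← hc]; exact hP⟩

/-- alphabets of size `2^a p^b`, `a ≥ 2` -/
theorem famA {p a b : ℕ} (hp : p.Prime) (hp5 : 5 ≤ p) (ha : 2 ≤ a) (hb : 1 ≤ b)
    (h : p % 8 ≠ 3 ∨ (Even a ∧ Odd b)) : ¬ ∃ x y, Sol (2 ^ a * p ^ b) x y := by
  rintro ⟨x, y, hS⟩
  have hodd : Odd (x + y) := by
    obtain ⟨a', rfl⟩ : ∃ a', a = a' + 2 := ⟨a - 2, by omega⟩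
    have heq := hS.eq
    have h1 : (4 : ℤ) ∣ 2 * ((x : ℤ) + y) - 6 := by
      rw [← heq]
      refine Dvd.dvd.mul_right ?_ _
      push_cast
      exact ⟨2 ^ a' * p ^ b, by ring⟩
    rw [Nat.odd_iff]
    omega
  obtain ⟨h8, i, c, hi, hc, hP⟩ := odd_case hp hp5 (by omega) hb hS hodd
  rcases h with h | ⟨h1, h2⟩
  · exact h h8
  · have hq : 20 ≤ 2 ^ a * p ^ b := by
      calc 20 = 2 ^ 2 * 5 ^ 1 := by norm_num
        _ ≤ 2 ^ a * p ^ b := Nat.mul_le_mul (Nat.pow_le_pow_right (by norm_num) ha)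
          ((Nat.pow_le_pow_left hp5 1).trans (Nat.pow_le_pow_right (by omega) hb))
    refine hP.symm.not_sq (by omega) (by omega) ?_ ?_
    · intro h22
      have : 4 ∣ 22 := by
        rw [← h22]
        obtain ⟨a', rfl⟩ : ∃ a', a = a' + 2 := ⟨a - 2, by omega⟩
        exact ⟨2 ^ a' * p ^ b, by ring⟩
      omega
    · obtain ⟨a', rfl⟩ := h1
      obtain ⟨b', rfl⟩ := h2
      obtain ⟨c', rfl⟩ := hc
      exact ⟨2 ^ a' * p ^ (b' + c' + 1), by ring⟩

lemma mod3_two_pow (i : ℕ) : (Even i ∧ 2 ^ i % 3 = 1) ∨ (Odd i ∧ 2 ^ i % 3 = 2) := by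
  have he : ∀ d, 2 ^ (2 * d) % 3 = 1 := by
    intro d
    rw [pow_mul, Nat.pow_mod]; norm_num
  rcases Nat.even_or_odd' i with ⟨d, hd | hd⟩
  · left; exact ⟨⟨d, by omega⟩, by rw [hd]; exact he d⟩
  · right
    refine ⟨⟨d, hd⟩, ?_⟩
    rw [hd, pow_succ, Nat.mul_mod, he d]

lemma mod3_pow {p : ℕ} (hp : p % 3 = 1) (c : ℕ) : p ^ c % 3 = 1 := by
  rw [Nat.pow_mod, hp]; simp

/-- alphabets of size `2 p^b` -/
theorem famB {p b : ℕ} (hp : p.Prime) (hb : 1 ≤ b)
    (h : p % 24 = 5 ∨ p % 24 = 7 ∨ p % 24 = 17 ∨ ((p % 24 = 19 ∨ p % 24 = 23) ∧ Even b)) :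
    ¬ ∃ x y, Sol (2 ^ 1 * p ^ b) x y := by
  rintro ⟨x, y, hS⟩
  have hp5 : 5 ≤ p := by omega
  have hpodd : p % 2 = 1 := by omega
  have hpm3 : p % 3 ≠ 0 := by omega
  have hq : 10 ≤ 2 ^ 1 * p ^ b := by
    calc 10 = 2 ^ 1 * 5 ^ 1 := by norm_num
      _ ≤ 2 ^ 1 * p ^ b := Nat.mul_le_mul le_rfl
        ((Nat.pow_le_pow_left hp5 1).trans (Nat.pow_le_pow_right (by omega) hb))
  have hq3 : ¬ 3 ∣ 2 ^ 1 * p ^ b := by
    intro h3
    rcases (Nat.Prime.dvd_mul Nat.prime_three).1 h3 with h' | h'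
    · omega
    · have := Nat.prime_three.dvd_of_dvd_pow h'
      omega
  have hq16 : 2 ^ 1 * p ^ b ≠ 16 := by
    intro h16
    have : p ∣ 16 := by rw [← h16]; exact (dvd_pow_self p (by omega)).mul_left _
    have : p ∣ 2 := hp.dvd_of_dvd_pow (show p ∣ 2 ^ 4 by norm_num; exact this)
    have := Nat.le_of_dvd (by norm_num) this
    omega
  have hq22 : 2 ^ 1 * p ^ b ≠ 22 := by
    intro h22
    have h11 : p ∣ 11 := by
      have : p ^ b = 11 := by omega
      rw [← this]; exact dvd_pow_self p (by omega)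
    have := (Nat.prime_dvd_prime_iff_eq hp (by norm_num : Nat.Prime 11)).1 h11
    omega
  have hpq : p ∣ 2 ^ 1 * p ^ b := (dvd_pow_self p (by omega)).mul_left _
  haveI : Fact p.Prime := ⟨hp⟩
  rcases Nat.even_or_odd (x + y) with heven | hodd
  · -- both even
    have key : ∀ e o : ℕ, Pair (2 ^ 1 * p ^ b) e o → Even (e + o) → p ∣ e → False := by
      intro e o hP hev hpe
      have hge := hP.ge3 (by omega)
      have hql := hP.q_lt (by omega)
      have hpo : ¬ p ∣ o := hP.not_both hp (by omega) (by omega) hpq hpe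
      obtain ⟨j, hj⟩ := prime_pow_of (p := 2) (m := o) (by omega) (fun r hr hro => by
        have h1 := hP.symm.smooth hr hro
        rcases prime_dvd_two_pow_mul hp hr h1 with h2 | h2
        · exact h2
        · exfalso; subst h2; exact hpo hro)
      have hj3 : 3 ≤ j := two_pow_ge (by rw [← hj]; omega)
      have hJ : J(2 | p) ^ j = J(3 | p) := by
        rw [← J_of_cast (hP.cast3 hp (by omega) hpq hpe), hj, Nat.cast_pow, jacobiSym.pow_left]
        rfl
      have h4o : 4 ∣ o := by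
        obtain ⟨j', rfl⟩ : ∃ j', j = j' + 2 := ⟨j - 2, by omega⟩
        rw [hj]; exact ⟨2 ^ j', by ring⟩
      have hnsqo : Even b → Even j := by
        intro hbe
        by_contra hjo
        rw [Nat.not_even_iff_odd] at hjo
        refine hP.symm.not_sq hq hq16 hq22 ?_
        obtain ⟨b', hb'⟩ := hbe
        obtain ⟨j', hj'⟩ := hjo
        exact ⟨2 ^ (j' + 1) * p ^ b', by rw [hj, hb', hj']; ring⟩
      have hshape : p ^ b % 4 = 1 → ∃ c, e = 2 * p ^ c := by
        intro hmod
        have he2 : e % 4 = 2 := by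
          have hpb : ((p : ℤ) ^ b) % 4 = 1 := by exact_mod_cast hmod
          have heq := hP.eq
          obtain ⟨s, hs⟩ := hev
          have hso : ((e : ℤ) - o) = 2 * ((s : ℤ) - o) := by
            have : (e : ℤ) + o = s + s := by exact_mod_cast hs
            linarith
          rw [hso] at heq
          push_cast at heq
          have h1 : (e : ℤ) + o - 3 = 4 * ((p : ℤ) ^ b * ((s : ℤ) - o) ^ 2) - (p : ℤ) ^ b := by
            linarith
          obtain ⟨t, ht⟩ := h4o
          have ht' : (o : ℤ) = 4 * t := by exact_mod_cast ht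
          omega
        obtain ⟨f, hf⟩ : ∃ f, e = 2 * f := ⟨e / 2, by omega⟩
        obtain ⟨c, hc⟩ := prime_pow_of (p := p) (m := f) (by omega) (fun r hr hrf => by
          have h1 := hP.smooth hr (by rw [hf]; exact hrf.mul_left _)
          rcases prime_dvd_two_pow_mul hp hr h1 with h2 | h2
          · exfalso; subst h2; omega
          · exact h2)
        exact ⟨c, by rw [hf, hc]⟩
      have hJ2 := J_two hpodd
      have hJ3 := J_three hpodd hpm3
      have hnsqe : ∀ c, e = 2 * p ^ c → ¬ (Even (b + c)) := by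
        intro c hc hbc
        refine hP.not_sq hq hq16 hq22 ?_
        obtain ⟨d, hd⟩ := hbc
        refine ⟨2 * p ^ d, ?_⟩
        have : p ^ b * p ^ c = p ^ d * p ^ d := by rw [← pow_add, ← pow_add, hd]
        rw [hc]
        calc 2 ^ 1 * p ^ b * (2 * p ^ c) = 4 * (p ^ b * p ^ c) := by ring
          _ = 2 * p ^ d * (2 * p ^ d) := by rw [this]; ring
      rcases h with h | h | h | ⟨h | h, hbe⟩
      · -- p = 5 mod 24
        have e2 : J(2 | p) = -1 := by
          rcases hJ2 with ⟨h', -⟩ | ⟨-, h'⟩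
          · omega
          · exact h'
        have e3 : J(3 | p) = -1 := by
          rcases hJ3 with ⟨h', -⟩ | ⟨-, h'⟩
          · omega
          · exact h'
        rw [e2, e3] at hJ
        have hjo : Odd j := by
          by_contra hje
          rw [Nat.not_odd_iff_even] at hje
          rw [hje.neg_one_pow] at hJ
          norm_num at hJ
        rcases Nat.even_or_odd b with hb' | hb'
        · have := hnsqo hb'
          exact (Nat.not_even_iff_odd.2 hjo) this
        · have hmod : p ^ b % 4 = 1 := by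
            rcases pow_mod8 hpodd b with ⟨h', -⟩ | ⟨-, h'⟩
            · exact absurd h' (Nat.not_even_iff_odd.2 hb')
            · omega
          obtain ⟨c, hc⟩ := hshape hmod
          have hbc := hnsqe c hc
          have hce : Even c := by
            by_contra hco
            rw [Nat.not_even_iff_odd] at hco
            exact hbc (hb'.add_odd hco)
          refine hP.not_sq_mul (by omega) ?_
          obtain ⟨c', hc'⟩ := hce
          obtain ⟨j', hj'⟩ := hjo
          exact ⟨2 ^ (j' + 1) * p ^ c', by rw [hc, hj, hc', hj']; ring⟩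
      · have e2 : J(2 | p) = 1 := by
          rcases hJ2 with ⟨-, h'⟩ | ⟨h', -⟩
          · exact h'
          · omega
        have e3 : J(3 | p) = -1 := by
          rcases hJ3 with ⟨h', -⟩ | ⟨-, h'⟩
          · omega
          · exact h'
        rw [e2, e3, one_pow] at hJ
        norm_num at hJ
      · have e2 : J(2 | p) = 1 := by
          rcases hJ2 with ⟨-, h'⟩ | ⟨h', -⟩
          · exact h'
          · omega
        have e3 : J(3 | p) = -1 := by
          rcases hJ3 with ⟨h', -⟩ | ⟨-, h'⟩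
          · omega
          · exact h'
        rw [e2, e3, one_pow] at hJ
        norm_num at hJ
      · have e2 : J(2 | p) = -1 := by
          rcases hJ2 with ⟨h', -⟩ | ⟨-, h'⟩
          · omega
          · exact h'
        have e3 : J(3 | p) = -1 := by
          rcases hJ3 with ⟨h', -⟩ | ⟨-, h'⟩
          · omega
          · exact h'
        rw [e2, e3, (hnsqo hbe).neg_one_pow] at hJ
        norm_num at hJ
      · have hmod : p ^ b % 4 = 1 := by
          rcases pow_mod8 hpodd b with ⟨-, h'⟩ | ⟨h', -⟩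
          · omega
          · exact absurd hbe (Nat.not_even_iff_odd.2 h')
        obtain ⟨c, hc⟩ := hshape hmod
        have hbc := hnsqe c hc
        have hco : Odd c := by
          by_contra hce
          rw [Nat.not_odd_iff_even] at hce
          exact hbc (hbe.add hce)
        have hm3 := hP.mod3 hq3
        have h2j : 2 ^ j % 3 = 1 := by
          rcases mod3_two_pow j with ⟨-, h'⟩ | ⟨h', -⟩
          · exact h'
          · exact absurd (hnsqo hbe) (Nat.not_even_iff_odd.2 h')
        have hpc : p ^ c % 3 = 2 := by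
          rcases pow_mod24 hpodd hpm3 c with ⟨h', -⟩ | ⟨-, h'⟩
          · exact absurd h' (Nat.not_even_iff_odd.2 hco)
          · omega
        rw [hc, hj, Nat.mul_mod, Nat.mul_mod 2, hpc, h2j] at hm3
        norm_num at hm3
    have hPx : Pair (2 ^ 1 * p ^ b) x y := Or.inl hS
    have hge := hPx.ge3 (by omega)
    by_cases hpx : p ∣ x
    · exact key x y hPx heven hpx
    · by_cases hpy : p ∣ y
      · exact key y x hPx.symm (by rw [add_comm]; exact heven) hpy
      · obtain ⟨i, hi⟩ := prime_pow_of (p := 2) (m := x) (by omega) (fun r hr hro => by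
          have h1 := hPx.smooth hr hro
          rcases prime_dvd_two_pow_mul hp hr h1 with h2 | h2
          · exact h2
          · exfalso; subst h2; exact hpx hro)
        obtain ⟨j, hj⟩ := prime_pow_of (p := 2) (m := y) (by omega) (fun r hr hro => by
          have h1 := hPx.symm.smooth hr hro
          rcases prime_dvd_two_pow_mul hp hr h1 with h2 | h2
          · exact h2
          · exfalso; subst h2; exact hpy hro)
        exact hPx.not_both_two_pow (by omega) hi hj
  · obtain ⟨h8, i, c, hi, hc, hP⟩ := odd_case hp hp5 le_rfl hb hS hodd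
    have h19 : p % 24 = 19 ∧ Even b := by
      rcases h with h | h | h | ⟨h | h, hb'⟩
      · omega
      · omega
      · omega
      · exact ⟨h, hb'⟩
      · omega
    have hm3 := hP.mod3 hq3
    have hie : Odd i := by
      rw [Nat.mul_mod, mod3_pow (show p % 3 = 1 by omega)] at hm3
      rcases mod3_two_pow i with ⟨-, h2⟩ | ⟨h1, -⟩
      · rw [h2] at hm3; omega
      · exact h1
    refine hP.not_sq hq hq16 hq22 ?_
    obtain ⟨b', hb'⟩ := h19.2
    obtain ⟨i', hi'⟩ := hie
    exact ⟨2 ^ (i' + 1) * p ^ b', by rw [hb', hi']; ring⟩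

end Pool.Agent.TH500.PC
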