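import Pool.Agent.TH500.PC.Extra

/-!
More alphabets of size `2^a p^b`.
-/

set_option autoImplicit false

open NumberTheorySymbols

namespace Pool.Agent.TH500.PC

lemma J2_neg {p : ℕ} (h : p % 8 = 3 ∨ p % 8 = 5) : J(2 | p) = -1 := by
  rcases J_two (m := p) (by omega) with ⟨h', -⟩ | ⟨-, h'⟩
  · omega
  · exact h'

lemma J2_pos {p : ℕ} (h : p % 8 = 1 ∨ p % 8 = 7) : J(2 | p) = 1 := by
  rcases J_two (m := p) (by omega) with ⟨-, h'⟩ | ⟨h', -⟩
  · exact h'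
  · omega

lemma J3_neg {p : ℕ} (h : p % 12 = 5 ∨ p % 12 = 7) : J(3 | p) = -1 := by
  rcases J_three (m := p) (by omega) (by omega) with ⟨h', -⟩ | ⟨-, h'⟩
  · omega
  · exact h'

lemma J3_pos {p : ℕ} (h : p % 12 = 1 ∨ p % 12 = 11) : J(3 | p) = 1 := by
  rcases J_three (m := p) (by omega) (by omega) with ⟨-, h'⟩ | ⟨h', -⟩
  · exact h'
  · omega

/-- parity of `i` from `2 ^ i = 3` modulo `p` -/
lemma even_i {p q e i : ℕ} (hp : p.Prime) (hp5 : 5 ≤ p) (hpq : p ∣ q) (hpe : p ∣ e)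
    (hP : Pair q e (2 ^ i)) (h2 : J(2 | p) = -1) (h3 : J(3 | p) = 1) : Even i := by
  have hJ := J_of_cast (hP.cast3 hp (by omega) hpq hpe)
  push_cast at hJ
  rw [jacobiSym.pow_left, h2, h3] at hJ
  by_contra hcon
  rw [Nat.not_even_iff_odd] at hcon
  rw [hcon.neg_one_pow] at hJ
  norm_num at hJ

lemma odd_i {p q e i : ℕ} (hp : p.Prime) (hp5 : 5 ≤ p) (hpq : p ∣ q) (hpe : p ∣ e)
    (hP : Pair q e (2 ^ i)) (h2 : J(2 | p) = -1) (h3 : J(3 | p) = -1) : Odd i := by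
  have hJ := J_of_cast (hP.cast3 hp (by omega) hpq hpe)
  push_cast at hJ
  rw [jacobiSym.pow_left, h2, h3] at hJ
  by_contra hcon
  rw [Nat.not_odd_iff_even] at hcon
  rw [hcon.neg_one_pow] at hJ
  norm_num at hJ

/-- the case `q = (2 p^d)^2`, `p ≡ 3 (mod 4)` -/
lemma sq_four {p d i c : ℕ} (hp : p.Prime) (hp4 : p % 4 = 3) (hd : 1 ≤ d) (hi : Odd i) (hc : Odd c)
    (hP : Pair (2 ^ 2 * p ^ (d + d)) (2 ^ i) (p ^ c)) : False := by
  obtain ⟨n, hn⟩ : ∃ n, n + 1 = 2 * p ^ d := ⟨2 * p ^ d - 1, by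
    have : 1 ≤ p ^ d := Nat.one_le_pow _ _ hp.pos
    omega⟩
  have hpd : (p ^ d) % 2 = 1 := Nat.odd_iff.1 (Odd.pow (Nat.odd_iff.2 (by omega)))
  have hn4 : n % 4 = 1 := by omega
  have hnq : (n : ℤ) ∣ ((2 ^ 2 * p ^ (d + d) : ℕ) : ℤ) - 1 := by
    have h1 : (2 : ℤ) * p ^ d = n + 1 := by exact_mod_cast hn.symm
    refine ⟨n + 2, ?_⟩
    have h2 : ((2 ^ 2 * p ^ (d + d) : ℕ) : ℤ) = (2 * (p : ℤ) ^ d) ^ 2 := by push_cast; ring
    rw [h2, h1]; ring
  have hJ1 : J((p : ℤ) | n) = 1 := by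
    apply J_eq_one (by omega)
    intro l hl hln
    have hl2 : l ≠ 2 := by
      rintro rfl
      omega
    have hlq : (l : ℤ) ∣ ((2 ^ 2 * p ^ (d + d) : ℕ) : ℤ) - 1 := (Int.natCast_dvd_natCast.2 hln).trans hnq
    rcases hP.mod_q1 hl hl2 hlq with ⟨h1, h2⟩ | ⟨h1, h2⟩
    · have e1 := J_cast_one h1
      have e2 := J_cast_two h2
      push_cast at e1 e2
      rw [jacobiSym.pow_left] at e1 e2
      have e3 := J_pow_odd hi e1
      rw [e3] at e2
      exact J_pow_odd hc e2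
    · have e2 := J_cast_one h2
      push_cast at e2
      rw [jacobiSym.pow_left] at e2
      exact J_pow_odd hc e2
  have hr := jacobiSym.quadratic_reciprocity_one_mod_four (a := n) (b := p) hn4
    (Nat.odd_iff.2 (by omega))
  rw [hJ1] at hr
  have hm : J((n : ℤ) | p) = J(-1 | p) := by
    apply jacobiSym.mod_left'
    have h1 : (n : ℤ) = -1 + p * (2 * p ^ (d - 1)) := by
      have : (n : ℤ) + 1 = 2 * p ^ d := by exact_mod_cast hn
      obtain ⟨d', rfl⟩ : ∃ d', d = d' + 1 := ⟨d - 1, by omega⟩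
      rw [Nat.add_sub_cancel]
      rw [pow_succ] at this
      linear_combination this
    rw [h1, Int.add_mul_emod_self_left]
  rw [hm, jacobiSym.at_neg_one (Nat.odd_iff.2 (by omega)), ZMod.χ₄_nat_three_mod_four hp4] at hr
  norm_num at hr

/-- alphabets of size `4 p^b` -/
theorem famA4 {p b : ℕ} (hp : p.Prime) (hp5 : 5 ≤ p) (hb : 1 ≤ b) :
    ¬ ∃ x y, Sol (2 ^ 2 * p ^ b) x y := by
  by_cases h : p % 8 ≠ 3 ∨ (Even 2 ∧ Odd b)
  · exact famA hp hp5 le_rfl hb h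
  · push Not at h
    obtain ⟨h8, hbe⟩ := h
    have hbe' : Even b := Nat.not_odd_iff_even.1 (hbe (by decide))
    rintro ⟨x, y, hS⟩
    have hodd : Odd (x + y) := by
      have heq := hS.eq
      have h1 : (4 : ℤ) ∣ 2 * ((x : ℤ) + y) - 6 := by
        rw [← heq]
        refine Dvd.dvd.mul_right ?_ _
        push_cast
        exact ⟨p ^ b, by ring⟩
      rw [Nat.odd_iff]
      omega
    obtain ⟨-, i, c, hi, hc, hP⟩ := odd_case hp hp5 (by omega) hb hS hodd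
    have hpq : p ∣ 2 ^ 2 * p ^ b := (dvd_pow_self p (by omega)).mul_left _
    have hpc : p ∣ p ^ c := dvd_pow_self p (by rintro rfl; simp at hc)
    have hq : 20 ≤ 2 ^ 2 * p ^ b := by
      calc 20 = 2 ^ 2 * 5 ^ 1 := by norm_num
        _ ≤ 2 ^ 2 * p ^ b := Nat.mul_le_mul (Nat.pow_le_pow_right (by norm_num) le_rfl)
          ((Nat.pow_le_pow_left hp5 1).trans (Nat.pow_le_pow_right (by omega) hb))
    have hp3 : p % 3 ≠ 0 := by
      intro h
      have := (Nat.prime_dvd_prime_iff_eq Nat.prime_three hp).1 (Nat.dvd_of_mod_eq_zero h)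
      omega
    have h12 : p % 12 = 11 ∨ p % 12 = 7 := by omega
    rcases h12 with h12 | h12
    · have hie := even_i hp hp5 hpq hpc hP.symm (J2_neg (Or.inl h8)) (J3_pos (Or.inr h12))
      refine hP.not_sq (by omega) (by omega) (by omega) ?_
      obtain ⟨b', rfl⟩ := hbe'
      obtain ⟨i', rfl⟩ := hie
      exact ⟨2 ^ (i' + 1) * p ^ b', by ring⟩
    · have hio := odd_i hp hp5 hpq hpc hP.symm (J2_neg (Or.inl h8)) (J3_neg (Or.inr h12))
      obtain ⟨b', rfl⟩ := hbe'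
      exact sq_four hp (by omega) (by omega) hio hc hP

/-- alphabets of size `2^a p^b`, `a ≥ 2`, `b` even -/
theorem famA_even {p a b : ℕ} (hp : p.Prime) (hp5 : 5 ≤ p) (ha : 2 ≤ a) (hb : 1 ≤ b)
    (hbe : Even b) (h : (Even a ∧ p % 24 = 11) ∨ (Odd a ∧ p % 24 = 19)) :
    ¬ ∃ x y, Sol (2 ^ a * p ^ b) x y := by
  rintro ⟨x, y, hS⟩
  have hodd : Odd (x + y) := by
    obtain ⟨a', rfl⟩ : ∃ a', a = a' + 2 := ⟨a - 2, by omega⟩
    have heq := hS.eq
    have h1 : (4 : ℤ) ∣ 2 * ((x : ℤ) + y) - 6 := by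
      rw [← heq]
      refine Dvd.dvd.mul_right ?_ _
      push_cast
      exact ⟨2 ^ a' * p ^ b, by ring⟩
    rw [Nat.odd_iff]
    omega
  obtain ⟨h8, i, c, hi, hc, hP⟩ := odd_case hp hp5 (by omega) hb hS hodd
  have hpq : p ∣ 2 ^ a * p ^ b := (dvd_pow_self p (by omega)).mul_left _
  have hpc : p ∣ p ^ c := dvd_pow_self p (by rintro rfl; simp at hc)
  have hq : 4 * 25 ≤ 2 ^ a * p ^ b := by
    have hb2 : 2 ≤ b := by
      obtain ⟨b', rfl⟩ := hbe; omega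
    calc 4 * 25 = 2 ^ 2 * 5 ^ 2 := by norm_num
      _ ≤ 2 ^ a * p ^ b := Nat.mul_le_mul (Nat.pow_le_pow_right (by norm_num) ha)
        ((Nat.pow_le_pow_left hp5 2).trans (Nat.pow_le_pow_right (by omega) hb2))
  refine hP.not_sq (by omega) (by omega) (by omega) ?_
  obtain ⟨b', rfl⟩ := hbe
  rcases h with ⟨hae, h24⟩ | ⟨hao, h24⟩
  · obtain ⟨i', rfl⟩ := even_i hp hp5 hpq hpc hP.symm (J2_neg (Or.inl h8)) (J3_pos (by omega))
    obtain ⟨a', rfl⟩ := hae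
    exact ⟨2 ^ (a' + i') * p ^ b', by ring⟩
  · obtain ⟨i', rfl⟩ := odd_i hp hp5 hpq hpc hP.symm (J2_neg (Or.inl h8)) (J3_neg (by omega))
    obtain ⟨a', rfl⟩ := hao
    exact ⟨2 ^ (a' + i' + 1) * p ^ b', by ring⟩

/-- the shape of a solution for `q = 2 p^b` with even `x + y` -/
lemma even_shape {p b : ℕ} (hp : p.Prime) (hp5 : 5 ≤ p) (hb : 1 ≤ b) {x y : ℕ}
    (hS : Sol (2 ^ 1 * p ^ b) x y) (heven : Even (x + y)) :
    ∃ f i : ℕ, 3 ≤ i ∧ p ∣ f ∧ Pair (2 ^ 1 * p ^ b) (2 * f) (2 ^ i) := by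
  have hq : 10 ≤ 2 ^ 1 * p ^ b := by
    calc 10 = 2 ^ 1 * 5 ^ 1 := by norm_num
      _ ≤ 2 ^ 1 * p ^ b := Nat.mul_le_mul le_rfl
        ((Nat.pow_le_pow_left hp5 1).trans (Nat.pow_le_pow_right (by omega) hb))
  have hpq : p ∣ 2 ^ 1 * p ^ b := (dvd_pow_self p (by omega)).mul_left _
  have key : ∀ e o : ℕ, Pair (2 ^ 1 * p ^ b) e o → Even (e + o) → p ∣ e →
      ∃ f i : ℕ, 3 ≤ i ∧ p ∣ f ∧ Pair (2 ^ 1 * p ^ b) (2 * f) (2 ^ i) := by
    intro e o hP hev hpe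
    have hge := hP.ge3 (by omega)
    have hql := hP.q_lt (by omega)
    have hpo : ¬ p ∣ o := hP.not_both hp (by omega) (by omega) hpq hpe
    obtain ⟨j, hj⟩ := prime_pow_of (p := 2) (m := o) (by omega) (fun r hr hro => by
      have h1 := hP.symm.smooth hr hro
      rcases prime_dvd_two_pow_mul hp hr h1 with h2 | h2
      · exact h2
      · exfalso; subst h2; exact hpo hro)
    have hj3 : 3 ≤ j := two_pow_ge (by rw [← hj]; omega)
    have h2o : o % 2 = 0 := by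
      obtain ⟨j', rfl⟩ : ∃ j', j = j' + 1 := ⟨j - 1, by omega⟩
      rw [hj, pow_succ]; omega
    rw [Nat.even_iff] at hev
    obtain ⟨f, hf⟩ : ∃ f, e = 2 * f := ⟨e / 2, by omega⟩
    refine ⟨f, j, hj3, ?_, by rw [← hf, ← hj]; exact hP⟩
    rw [hf] at hpe
    rcases (Nat.Prime.dvd_mul hp).1 hpe with h' | h'
    · have := Nat.le_of_dvd (by norm_num) h'; omega
    · exact h'
  have hPx : Pair (2 ^ 1 * p ^ b) x y := Or.inl hS
  have hge := hPx.ge3 (by omega)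
  by_cases hpx : p ∣ x
  · exact key x y hPx heven hpx
  · by_cases hpy : p ∣ y
    · exact key y x hPx.symm (by rw [add_comm]; exact heven) hpy
    · exfalso
      obtain ⟨i, hi⟩ := prime_pow_of (p := 2) (m := x) (by omega) (fun r hr hro => by
        have h1 := hPx.smooth hr hro
        rcases prime_dvd_two_pow_mul hp hr h1 with h2 | h2
        · exact h2
        · exfalso; subst h2; exact hpx hro)
      obtain ⟨j, hj⟩ := prime_pow_of (p := 2) (m := y) (by omega) (fun r hr hro => by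
        have h1 := hPx.symm.smooth hr hro
        rcases prime_dvd_two_pow_mul hp hr h1 with h2 | h2
        · exact h2
        · exfalso; subst h2; exact hpy hro)
      exact hPx.not_both_two_pow (by omega) hi hj

/-- the relation modulo a divisor of `2 ^ i` -/
lemma adic {n e i : ℕ} (hP : Pair (2 ^ 1 * n) e (2 ^ i)) (M : ℕ) (hM : M ∣ 2 ^ i) :
    (n : ZMod M) * ((e : ZMod M) ^ 2 - 1) = (e : ZMod M) - 3 := by
  have h0 : ((2 : ZMod M)) ^ i = 0 := by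
    have := (ZMod.natCast_eq_zero_iff (2 ^ i) M).2 hM
    push_cast at this
    exact this
  have heq := hP.eq
  push_cast at heq
  have h1 : (n : ℤ) * (((e : ℤ) - 2 ^ i) ^ 2 - 1) = (e : ℤ) + 2 ^ i - 3 := by
    have : (2 : ℤ) * ((n : ℤ) * (((e : ℤ) - 2 ^ i) ^ 2 - 1)) = 2 * ((e : ℤ) + 2 ^ i - 3) := by
      linear_combination heq
    exact mul_left_cancel₀ two_ne_zero this
  have h2 := congrArg (Int.cast : ℤ → ZMod M) h1
  push_cast at h2
  rw [h0, sub_zero, add_zero] at h2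
  exact h2

/-- residues mod 4 of `e / 2` -/
lemma adic8 {n f i : ℕ} (hn : n % 2 = 1) (hi : 3 ≤ i) (hP : Pair (2 ^ 1 * n) (2 * f) (2 ^ i)) :
    (n % 8 = 1 ∧ f % 4 = 3) ∨ (n % 8 = 5 ∧ f % 4 = 1) ∨ (n % 8 = 7 ∧ f % 4 = 2) ∨
      (n % 8 = 3 ∧ f % 4 = 0) := by
  have h8 : 8 ∣ 2 ^ i := by
    obtain ⟨j, rfl⟩ : ∃ j, i = j + 3 := ⟨i - 3, by omega⟩
    exact ⟨2 ^ j, by ring⟩
  have h := adic hP 8 h8
  push_cast at h
  have hn' : n % 8 = 1 ∨ n % 8 = 3 ∨ n % 8 = 5 ∨ n % 8 = 7 := by omega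
  have hf' : f % 4 = 0 ∨ f % 4 = 1 ∨ f % 4 = 2 ∨ f % 4 = 3 := by omega
  have cast8 : ∀ u v : ℕ, u % 8 = v → (u : ZMod 8) = (v : ZMod 8) := by
    intro u v huv
    rw [ZMod.natCast_eq_natCast_iff']
    omega
  have key : ∀ n f : ZMod 8, n * ((2 * f) ^ 2 - 1) = 2 * f - 3 →
      (n = 1 ∧ (f = 3 ∨ f = 7)) ∨ (n = 5 ∧ (f = 1 ∨ f = 5)) ∨ (n = 7 ∧ (f = 2 ∨ f = 6)) ∨
      (n = 3 ∧ (f = 0 ∨ f = 4)) := by decide
  have toNat : ∀ u v : ℕ, (u : ZMod 8) = (v : ZMod 8) → u % 8 = v % 8 := fun a b h' =>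
    (ZMod.natCast_eq_natCast_iff' a b 8).1 h'
  rcases key n f h with ⟨h1, h2 | h2⟩ | ⟨h1, h2 | h2⟩ | ⟨h1, h2 | h2⟩ | ⟨h1, h2 | h2⟩
  · have := toNat n 1 (by rw [h1]; simp); have := toNat f 3 h2; omega
  · have := toNat n 1 (by rw [h1]; simp); have := toNat f 7 h2; omega
  · have := toNat n 5 h1; have := toNat f 1 (by rw [h2]; simp); omega
  · have := toNat n 5 h1; have := toNat f 5 h2; omega
  · have := toNat n 7 h1; have := toNat f 2 h2; omega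
  · have := toNat n 7 h1; have := toNat f 6 h2; omega
  · have := toNat n 3 h1; have := toNat f 0 (by rw [h2]; simp); omega
  · have := toNat n 3 h1; have := toNat f 4 h2; omega

end Pool.Agent.TH500.PC
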