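import Pool.Agent.TH500.PC.FamEven2

/-!
The remaining cases for alphabets of size `2^a p^b`.
-/

set_option autoImplicit false

open NumberTheorySymbols

namespace Pool.Agent.TH500.PC

/-- an odd discriminant -/
lemma disc_odd {q l : ℕ} (hq : q % 2 = 0) (hd : (l : ℤ) ∣ (q : ℤ) ^ 2 - 6 * q + 1) : l ≠ 2 := by
  rintro rfl
  obtain ⟨q', rfl⟩ : ∃ q', q = 2 * q' := ⟨q / 2, by omega⟩
  obtain ⟨k, hk⟩ := hd
  push_cast at hk
  have : (2 * (q' : ℤ)) ^ 2 = 2 * (2 * q' ^ 2) := by ring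
  rw [this] at hk
  omega

/-- in the case of odd `x + y`, `p` is a square modulo the primes dividing `q ^ 2 - 6 q + 1` -/
lemma disc_of_odd {p a b i c l : ℕ} (hc : Odd c)
    (hP : Pair (2 ^ a * p ^ b) (2 ^ i) (p ^ c)) (hl : l.Prime) (hl2 : l ≠ 2)
    (hd : (l : ℤ) ∣ ((2 ^ a * p ^ b : ℕ) : ℤ) ^ 2 - 6 * ((2 ^ a * p ^ b : ℕ) : ℤ) + 1) :
    J((p : ℤ) | l) = 1 := by
  have h1 := hP.J_disc hl hl2 hd
  have h2 := hP.symm.J_disc hl hl2 hd
  have h3 := J_two_disc hl hl2 hd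
  push_cast at h1 h2
  rw [jacobiSym.mul_left, jacobiSym.mul_left, jacobiSym.pow_left, jacobiSym.pow_left,
    jacobiSym.pow_left, h3, one_pow, one_mul, one_pow, mul_one] at h1
  rw [jacobiSym.mul_left, jacobiSym.mul_left, jacobiSym.pow_left, jacobiSym.pow_left,
    jacobiSym.pow_left, h3, one_pow, one_mul, h1, one_mul] at h2
  exact J_pow_odd hc h2

/-- the factor `2 (s + 1)^2 - 1` of the discriminant for `q = 2 s^2` -/
lemma disc_contra {p d : ℕ} (hp4 : p % 4 = 3) (hd : 1 ≤ d)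
    (h : ∀ l : ℕ, l.Prime → l ≠ 2 →
      (l : ℤ) ∣ ((2 ^ 1 * p ^ (d + d) : ℕ) : ℤ) ^ 2 - 6 * ((2 ^ 1 * p ^ (d + d) : ℕ) : ℤ) + 1 →
      J((p : ℤ) | l) = 1) : False := by
  obtain ⟨s, hs⟩ : ∃ s, s = p ^ d := ⟨_, rfl⟩
  have hso : s % 2 = 1 := by rw [hs]; exact Nat.odd_iff.1 (Odd.pow (Nat.odd_iff.2 (by omega)))
  obtain ⟨u, hu⟩ : ∃ u, s = 2 * u + 1 := ⟨s / 2, by omega⟩
  obtain ⟨n, hn⟩ : ∃ n, n + 1 = 2 * (s + 1) ^ 2 := ⟨2 * (s + 1) ^ 2 - 1, by
    have : 1 ≤ (s + 1) ^ 2 := Nat.one_le_pow _ _ (by omega)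
    omega⟩
  have hn8 : n % 8 = 7 := by
    have : n + 1 = 8 * (u + 1) ^ 2 := by rw [hn, hu]; ring
    omega
  have hnd : (n : ℤ) ∣ ((2 ^ 1 * p ^ (d + d) : ℕ) : ℤ) ^ 2 -
      6 * ((2 ^ 1 * p ^ (d + d) : ℕ) : ℤ) + 1 := by
    have h1 : ((2 ^ 1 * p ^ (d + d) : ℕ) : ℤ) = 2 * (s : ℤ) ^ 2 := by
      rw [hs]; push_cast; ring
    have h2 : (n : ℤ) = 2 * ((s : ℤ) + 1) ^ 2 - 1 := by
      have : (n : ℤ) + 1 = 2 * ((s : ℤ) + 1) ^ 2 := by exact_mod_cast hn
      linarith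
    rw [h1, h2]
    exact ⟨2 * ((s : ℤ) - 1) ^ 2 - 1, by ring⟩
  have hJ1 : J((p : ℤ) | n) = 1 := by
    apply J_eq_one (by omega)
    intro l hl hln
    exact h l hl (by rintro rfl; omega) ((Int.natCast_dvd_natCast.2 hln).trans hnd)
  have hr := jacobiSym.quadratic_reciprocity_three_mod_four (a := n) (b := p) (by omega) hp4
  rw [hJ1] at hr
  have hm : J((n : ℤ) | p) = J(1 | p) := by
    apply jacobiSym.mod_left'
    have h1 : (n : ℤ) = 1 + p * (p ^ (d - 1) * (2 * (s : ℤ) + 4)) := by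
      have e1 : (n : ℤ) + 1 = 2 * ((s : ℤ) + 1) ^ 2 := by exact_mod_cast hn
      have e2 : (s : ℤ) = p * p ^ (d - 1) := by
        obtain ⟨d', rfl⟩ : ∃ d', d = d' + 1 := ⟨d - 1, by omega⟩
        rw [Nat.add_sub_cancel, hs]; push_cast; ring
      linear_combination e1 + (2 * (s : ℤ) + 4) * e2
    rw [h1, Int.add_mul_emod_self_left]
  rw [hm, jacobiSym.one_left] at hr
  norm_num at hr

/-- a power of `p` from an odd cofactor -/
lemma pow_p_of {p b f i : ℕ} (hp : p.Prime) (hP : Pair (2 ^ 1 * p ^ b) (2 * f) (2 ^ i))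
    (hf : f % 2 = 1) : ∃ c, f = p ^ c := by
  apply prime_pow_of (by omega)
  intro r hr hrf
  have h1 := hP.smooth hr (hrf.mul_left _)
  rcases prime_dvd_two_pow_mul hp hr h1 with h2 | h2
  · exfalso; subst h2; omega
  · exact h2

/-- alphabets of size `2 p^b`, `b` even -/
theorem famB_even {p b : ℕ} (hp : p.Prime) (hp5 : 5 ≤ p) (hb : 1 ≤ b) (hbe : Even b) :
    ¬ ∃ x y, Sol (2 ^ 1 * p ^ b) x y := by
  rintro ⟨x, y, hS⟩
  have hpm : p % 2 = 1 := Nat.odd_iff.1 (hp.odd_of_ne_two (by omega))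
  have hn : p ^ b % 8 = 1 := by
    rcases pow_mod8 hpm b with ⟨-, h'⟩ | ⟨h', -⟩
    · exact h'
    · exact absurd hbe (Nat.not_even_iff_odd.2 h')
  rcases Nat.even_or_odd (x + y) with heven | hodd
  · obtain ⟨f, i, hi, hpf, hP⟩ := even_shape hp hp5 hb hS heven
    rcases adic8 (by omega) hi hP with ⟨-, h⟩ | ⟨h, -⟩ | ⟨h, -⟩ | ⟨h, -⟩
    · obtain ⟨c, hc⟩ := pow_p_of hp hP (by omega)
      subst hc
      obtain ⟨hco, hp4⟩ : Odd c ∧ p % 4 = 3 := by
        rcases pow_mod8 hpm c with ⟨-, h'⟩ | ⟨h', h''⟩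
        · omega
        · exact ⟨h', by omega⟩
      obtain ⟨d, rfl⟩ := hbe
      apply disc_contra (d := d) hp4 (by omega)
      intro l hl hl2 hd
      have h1 := hP.J_disc hl hl2 hd
      have h3 := J_two_disc hl hl2 hd
      push_cast at h1
      rw [jacobiSym.mul_left, jacobiSym.mul_left, jacobiSym.mul_left, jacobiSym.pow_left,
        jacobiSym.pow_left, h3, one_mul, one_mul, ← two_mul, pow_mul] at h1
      rcases jacobiSym.trichotomy (p : ℤ) l with h' | h' | h'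
      · exfalso
        rw [h', zero_pow two_ne_zero, zero_pow (by omega : d ≠ 0), zero_mul] at h1
        norm_num at h1
      · exact h'
      · exfalso
        rw [h', hco.neg_one_pow] at h1
        norm_num at h1
    · omega
    · omega
    · omega
  · obtain ⟨h8, i, c, hi, hc, hP⟩ := odd_case hp hp5 le_rfl hb hS hodd
    obtain ⟨d, rfl⟩ := hbe
    exact disc_contra (d := d) (by omega) (by omega) fun l hl hl2 hd =>
      disc_of_odd hc hP hl hl2 hd

/-- alphabets of size `2 p^b`, `b` odd, `p ≡ 1 (mod 4)` -/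
theorem famB_one {p b : ℕ} (hp : p.Prime) (hp13 : 13 ≤ p) (hbo : Odd b) (hp4 : p % 4 = 1)
    (h16 : p ^ b % 16 ≠ 5) : ¬ ∃ x y, Sol (2 ^ 1 * p ^ b) x y := by
  rintro ⟨x, y, hS⟩
  have hb : 1 ≤ b := by
    obtain ⟨b', rfl⟩ := hbo; omega
  have hpm : p % 2 = 1 := Nat.odd_iff.1 (hp.odd_of_ne_two (by omega))
  have hq : 26 ≤ 2 ^ 1 * p ^ b := by
    calc 26 = 2 ^ 1 * 13 ^ 1 := by norm_num
      _ ≤ 2 ^ 1 * p ^ b := Nat.mul_le_mul le_rfl
        ((Nat.pow_le_pow_left hp13 1).trans (Nat.pow_le_pow_right (by omega) hb))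
  have hn : p ^ b % 8 = p % 8 := by
    rcases pow_mod8 hpm b with ⟨h', -⟩ | ⟨-, h'⟩
    · exact absurd h' (Nat.not_even_iff_odd.2 hbo)
    · exact h'
  rcases Nat.even_or_odd (x + y) with heven | hodd
  · obtain ⟨f, i, hi, hpf, hP⟩ := even_shape hp (by omega) hb hS heven
    have hql := hP.q_lt (by omega)
    have hi4 : 4 ≤ i := by
      by_contra hcon
      have : i = 3 := by omega
      subst this
      omega
    have hfodd : f % 4 = 3 ∨ (p ^ b % 8 = 5 ∧ f % 4 = 1) := by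
      rcases adic8 (by omega) hi hP with ⟨-, h⟩ | ⟨h', h⟩ | ⟨h, -⟩ | ⟨h, -⟩
      · exact Or.inl h
      · exact Or.inr ⟨h', h⟩
      · omega
      · omega
    obtain ⟨c, hc⟩ := pow_p_of hp hP (by omega)
    subst hc
    rcases pow_mod8 hpm c with ⟨hce, h'⟩ | ⟨hco, h'⟩
    · have h16' : 16 ∣ 2 ^ i := by
        obtain ⟨j, rfl⟩ : ∃ j, i = j + 4 := ⟨i - 4, by omega⟩
        exact ⟨2 ^ j, by ring⟩
      have h := adic hP 16 h16'
      push_cast at h
      have key : ∀ n f : ZMod 16, (f = 1 ∨ f = 9) → n * ((2 * f) ^ 2 - 1) = 2 * f - 3 →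
        n = 5 := by decide
      have hcast : ((p ^ c : ℕ) : ZMod 16) = 1 ∨ ((p ^ c : ℕ) : ZMod 16) = 9 := by
        have : p ^ c % 16 = 1 ∨ p ^ c % 16 = 9 := by omega
        rcases this with h'' | h''
        · left; exact (ZMod.natCast_eq_natCast_iff' _ 1 16).2 (by rw [h''])
        · right; exact (ZMod.natCast_eq_natCast_iff' _ 9 16).2 (by rw [h''])
      push_cast at hcast
      have h5 := key _ _ hcast h
      apply h16
      have : ((p ^ b : ℕ) : ZMod 16) = ((5 : ℕ) : ZMod 16) := by push_cast; exact h5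
      have := (ZMod.natCast_eq_natCast_iff' _ 5 16).1 this
      omega
    · refine hP.not_sq (by omega) (by omega) ?_ ?_
      · intro h22; omega
      · obtain ⟨b', rfl⟩ := hbo
        obtain ⟨c', rfl⟩ := hco
        exact ⟨2 * p ^ (b' + c' + 1), by ring⟩
  · obtain ⟨h8, -⟩ := odd_case hp (by omega) le_rfl hb hS hodd
    omega

/-- alphabets of size `2 p^b`, `b` odd, `p ≡ 7 (mod 8)` -/
theorem famB_seven {p b : ℕ} (hp : p.Prime) (hp23 : 23 ≤ p) (hbo : Odd b) (hp8 : p % 8 = 7)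
    (h32 : p ^ b % 32 ≠ 15) (h32' : p ^ b % 32 ≠ 23) : ¬ ∃ x y, Sol (2 ^ 1 * p ^ b) x y := by
  rintro ⟨x, y, hS⟩
  have hb : 1 ≤ b := by
    obtain ⟨b', rfl⟩ := hbo; omega
  have hpm : p % 2 = 1 := Nat.odd_iff.1 (hp.odd_of_ne_two (by omega))
  have hq : 46 ≤ 2 ^ 1 * p ^ b := by
    calc 46 = 2 ^ 1 * 23 ^ 1 := by norm_num
      _ ≤ 2 ^ 1 * p ^ b := Nat.mul_le_mul le_rfl
        ((Nat.pow_le_pow_left hp23 1).trans (Nat.pow_le_pow_right (by omega) hb))
  have hn : p ^ b % 8 = p % 8 := by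
    rcases pow_mod8 hpm b with ⟨h', -⟩ | ⟨-, h'⟩
    · exact absurd h' (Nat.not_even_iff_odd.2 hbo)
    · exact h'
  rcases Nat.even_or_odd (x + y) with heven | hodd
  · obtain ⟨f, i, hi, hpf, hP⟩ := even_shape hp (by omega) hb hS heven
    have hql := hP.q_lt (by omega)
    have hi5 : 5 ≤ i := by
      by_contra hcon
      have : i = 3 ∨ i = 4 := by omega
      rcases this with rfl | rfl <;> omega
    have hf2 : f % 4 = 2 := by
      rcases adic8 (by omega) hi hP with ⟨h, -⟩ | ⟨h, -⟩ | ⟨-, h⟩ | ⟨h, -⟩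
      · omega
      · omega
      · exact h
      · omega
    obtain ⟨g, hg⟩ : ∃ g, f = 2 * g := ⟨f / 2, by omega⟩
    subst hg
    obtain ⟨c, hc⟩ : ∃ c, g = p ^ c := by
      apply prime_pow_of (by omega)
      intro r hr hrf
      have h1 := hP.smooth hr ((hrf.mul_left _).mul_left _)
      rcases prime_dvd_two_pow_mul hp hr h1 with h2 | h2
      · exfalso; subst h2; omega
      · exact h2
    subst hc
    have h32'' : 32 ∣ 2 ^ i := by
      obtain ⟨j, rfl⟩ : ∃ j, i = j + 5 := ⟨i - 5, by omega⟩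
      exact ⟨2 ^ j, by ring⟩
    have h := adic hP 32 h32''
    push_cast at h
    have hmul : ∀ g : ZMod 32, (g = 1 ∨ g = 9 ∨ g = 17 ∨ g = 25 ∨ g = 7 ∨ g = 15 ∨ g = 23 ∨ g = 31) →
        (2 * (2 * g) = 4 ∨ 2 * (2 * g) = 28) := by decide
    have key : ∀ n e : ZMod 32, (e = 4 ∨ e = 28) → n * (e ^ 2 - 1) = e - 3 →
      n = 15 ∨ n = 23 := by decide
    have hcast : ((p ^ c : ℕ) : ZMod 32) = 1 ∨ ((p ^ c : ℕ) : ZMod 32) = 9 ∨
        ((p ^ c : ℕ) : ZMod 32) = 17 ∨ ((p ^ c : ℕ) : ZMod 32) = 25 ∨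
        ((p ^ c : ℕ) : ZMod 32) = 7 ∨ ((p ^ c : ℕ) : ZMod 32) = 15 ∨
        ((p ^ c : ℕ) : ZMod 32) = 23 ∨ ((p ^ c : ℕ) : ZMod 32) = 31 := by
      have : p ^ c % 32 = 1 ∨ p ^ c % 32 = 9 ∨ p ^ c % 32 = 17 ∨ p ^ c % 32 = 25 ∨
          p ^ c % 32 = 7 ∨ p ^ c % 32 = 15 ∨ p ^ c % 32 = 23 ∨ p ^ c % 32 = 31 := by
        rcases pow_mod8 hpm c with ⟨-, h'⟩ | ⟨-, h'⟩ <;> omega
      rcases this with h' | h' | h' | h' | h' | h' | h' | h'
      · left; exact (ZMod.natCast_eq_natCast_iff' _ 1 32).2 (by rw [h'])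
      · right; left; exact (ZMod.natCast_eq_natCast_iff' _ 9 32).2 (by rw [h'])
      · right; right; left; exact (ZMod.natCast_eq_natCast_iff' _ 17 32).2 (by rw [h'])
      · right; right; right; left; exact (ZMod.natCast_eq_natCast_iff' _ 25 32).2 (by rw [h'])
      · right; right; right; right; left; exact (ZMod.natCast_eq_natCast_iff' _ 7 32).2 (by rw [h'])
      · right; right; right; right; right; left
        exact (ZMod.natCast_eq_natCast_iff' _ 15 32).2 (by rw [h'])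
      · right; right; right; right; right; right; left
        exact (ZMod.natCast_eq_natCast_iff' _ 23 32).2 (by rw [h'])
      · right; right; right; right; right; right; right
        exact (ZMod.natCast_eq_natCast_iff' _ 31 32).2 (by rw [h'])
    push_cast at hcast
    rcases key _ _ (hmul _ hcast) h with h5 | h5
    · apply h32
      have : ((p ^ b : ℕ) : ZMod 32) = ((15 : ℕ) : ZMod 32) := by push_cast; exact h5
      have := (ZMod.natCast_eq_natCast_iff' _ 15 32).1 this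
      omega
    · apply h32'
      have : ((p ^ b : ℕ) : ZMod 32) = ((23 : ℕ) : ZMod 32) := by push_cast; exact h5
      have := (ZMod.natCast_eq_natCast_iff' _ 23 32).1 this
      omega
  · obtain ⟨h8, -⟩ := odd_case hp (by omega) le_rfl hb hS hodd
    omega

/-- `2` would be a square modulo all primes dividing `q - 1` -/
lemma q1_contra {q : ℕ} (hq : q % 8 = 6)
    (h : ∀ l : ℕ, l.Prime → l ≠ 2 → (l : ℤ) ∣ (q : ℤ) - 1 → J(2 | l) = 1) : False := by
  obtain ⟨n, hn⟩ : ∃ n, q = n + 1 := ⟨q - 1, by omega⟩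
  subst hn
  have hJ : J(2 | n) = 1 := by
    apply J_eq_one (by omega)
    intro l hl hln
    refine h l hl (by rintro rfl; omega) ?_
    push_cast
    rw [add_sub_cancel_right]
    exact Int.natCast_dvd_natCast.2 hln
  rw [J2_neg (by omega)] at hJ
  norm_num at hJ

/-- `q = 2 p^b ≡ 1` modulo `l` -/
lemma q1_mul {p b l : ℕ} (hd : (l : ℤ) ∣ ((2 ^ 1 * p ^ b : ℕ) : ℤ) - 1) (hbo : Odd b)
    (h : J((p : ℤ) | l) = 1) : J(2 | l) = 1 := by
  have h1 : J(((2 ^ 1 * p ^ b : ℕ) : ℤ) | l) = J(1 | l) := by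
    apply jacobiSym.mod_left'
    rw [← sub_add_cancel ((2 ^ 1 * p ^ b : ℕ) : ℤ) 1, Int.add_emod, Int.emod_eq_zero_of_dvd hd,
      zero_add, Int.emod_emod]
  push_cast at h1
  rw [jacobiSym.one_left, jacobiSym.mul_left, jacobiSym.pow_left, h, one_pow, mul_one] at h1
  exact h1

/-- alphabets of size `2 p^b`, `b` odd, `p ≡ 19 (mod 24)` -/
theorem famB_nineteen {p b : ℕ} (hp : p.Prime) (hbo : Odd b) (h24 : p % 24 = 19)
    (hm : ∀ m : ℕ, 2 ≤ m → (p ^ b + 4 ^ m) % (8 * 4 ^ m) ≠ 3) :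
    ¬ ∃ x y, Sol (2 ^ 1 * p ^ b) x y := by
  rintro ⟨x, y, hS⟩
  have hb : 1 ≤ b := by
    obtain ⟨b', rfl⟩ := hbo; omega
  have hpm : p % 2 = 1 := by omega
  have hp5 : 5 ≤ p := by omega
  have hp19 : 19 ≤ p := by omega
  have hq : 38 ≤ 2 ^ 1 * p ^ b := by
    calc 38 = 2 ^ 1 * 19 ^ 1 := by norm_num
      _ ≤ 2 ^ 1 * p ^ b := Nat.mul_le_mul le_rfl
        ((Nat.pow_le_pow_left hp19 1).trans (Nat.pow_le_pow_right (by omega) hb))
  have hn : p ^ b % 8 = 3 := by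
    rcases pow_mod8 hpm b with ⟨h', -⟩ | ⟨-, h'⟩
    · exact absurd h' (Nat.not_even_iff_odd.2 hbo)
    · omega
  have hpq : p ∣ 2 ^ 1 * p ^ b := (dvd_pow_self p (by omega)).mul_left _
  have hq8 : (2 ^ 1 * p ^ b) % 8 = 6 := by omega
  have hq3 : ¬ 3 ∣ 2 ^ 1 * p ^ b := by
    intro h3
    rcases (Nat.Prime.dvd_mul Nat.prime_three).1 h3 with h' | h'
    · omega
    · have := Nat.prime_three.dvd_of_dvd_pow h'
      omega
  have j2 : J(2 | p) = -1 := J2_neg (by omega)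
  have j3 : J(3 | p) = -1 := J3_neg (by omega)
  rcases Nat.even_or_odd (x + y) with heven | hodd
  · obtain ⟨f, i, hi, hpf, hP⟩ := even_shape hp hp5 hb hS heven
    have hge := hP.ge3 (by omega)
    have hio := odd_i hp hp5 hpq (hpf.mul_left _) hP j2 j3
    have hf4 : f % 4 = 0 := by
      rcases adic8 (by omega) hi hP with ⟨h, -⟩ | ⟨h, -⟩ | ⟨h, -⟩ | ⟨-, h⟩
      · omega
      · omega
      · omega
      · exact h
    obtain ⟨k, g, hg, hfk⟩ := Nat.exists_eq_two_pow_mul_odd (n := 2 * f) (by omega)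
    have hg2 := Nat.odd_iff.1 hg
    obtain ⟨c, hc⟩ : ∃ c, g = p ^ c := by
      apply prime_pow_of (by omega)
      intro r hr hrf
      have h1 := hP.smooth hr (by rw [hfk]; exact hrf.mul_left _)
      rcases prime_dvd_two_pow_mul hp hr h1 with h2 | h2
      · exfalso; subst h2; omega
      · exact h2
    subst hc
    rw [hfk] at hP
    have hk3 : 3 ≤ k := by
      by_contra hcon
      have : k = 0 ∨ k = 1 ∨ k = 2 := by omega
      rcases this with rfl | rfl | rfl <;> omega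
    have hc0 : c ≠ 0 := by
      rintro rfl
      rw [pow_zero, mul_one] at hfk
      have : p ∣ 2 ^ k := by rw [← hfk]; exact hpf.mul_left _
      have := Nat.le_of_dvd (by norm_num) (hp.dvd_of_dvd_pow this)
      omega
    have hki : Even k := by
      have hm3 := hP.mod3 hq3
      rw [show 2 ^ k * p ^ c * 2 ^ i = p ^ c * (2 ^ k * 2 ^ i) by ring, ← pow_add, Nat.mul_mod,
        mod3_pow (show p % 3 = 1 by omega)] at hm3
      rcases mod3_two_pow (k + i) with ⟨-, h2⟩ | ⟨h1, -⟩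
      · rw [h2] at hm3; omega
      · by_contra hcon
        rw [Nat.not_even_iff_odd] at hcon
        exact (Nat.not_even_iff_odd.2 h1) (hcon.add_odd hio)
    have hce : Even c := by
      by_contra hco
      rw [Nat.not_even_iff_odd] at hco
      refine q1_contra hq8 fun l hl hl2 hd => ?_
      rcases hP.mod_q1 hl hl2 hd with ⟨h1, h2⟩ | ⟨h1, h2⟩
      · have e1 := J_cast_one h1
        push_cast at e1
        rw [jacobiSym.mul_left, jacobiSym.pow_left, jacobiSym.pow_left] at e1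
        obtain ⟨k', rfl⟩ := hki
        rcases jacobiSym.trichotomy 2 l with h' | h' | h'
        · exfalso
          rw [h', zero_pow (by omega), zero_mul] at e1
          norm_num at e1
        · exact h'
        · rw [h', ← two_mul, pow_mul, neg_one_sq, one_pow, one_mul] at e1
          exact q1_mul hd hbo (J_pow_odd hco e1)
      · have e1 := J_cast_one h2
        push_cast at e1
        rw [jacobiSym.pow_left] at e1
        exact J_pow_odd hio e1
    -- sizes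
    have hik : k + 3 ≤ i := by
      by_contra hcon
      have h1 := (hP.lt2 (by omega)).1
      have h2 : p ≤ p ^ c := Nat.le_self_pow hc0 p
      have h3 : 2 ^ i ≤ 2 ^ (k + 2) := Nat.pow_le_pow_right (by norm_num) (by omega)
      have h4 : 2 ^ k * 19 ≤ 2 ^ k * p ^ c := Nat.mul_le_mul le_rfl (by omega)
      have h5 : 2 ^ (k + 2) = 2 ^ k * 4 := by ring
      have h6 : 0 < 2 ^ k := by positivity
      omega
    have hMi : 2 ^ (k + 3) ∣ 2 ^ i := pow_dvd_pow 2 hik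
    have h := adic hP (2 ^ (k + 3)) hMi
    have hM0 : ((2 : ZMod (2 ^ (k + 3)))) ^ (k + 3) = 0 := by
      have := ZMod.natCast_self (2 ^ (k + 3))
      push_cast at this
      exact this
    have hsq : (((2 ^ k * p ^ c : ℕ)) : ZMod (2 ^ (k + 3))) ^ 2 = 0 := by
      push_cast
      have : ((2 : ZMod (2 ^ (k + 3))) ^ k * (p : ZMod (2 ^ (k + 3))) ^ c) ^ 2 =
        2 ^ (k + 3) * (2 ^ (k - 3) * (p : ZMod (2 ^ (k + 3))) ^ (2 * c)) := by
        obtain ⟨k', rfl⟩ : ∃ k', k = k' + 3 := ⟨k - 3, by omega⟩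
        rw [Nat.add_sub_cancel]; ring
      rw [this, hM0, zero_mul]
    rw [hsq] at h
    obtain ⟨t, ht⟩ : ∃ t, p ^ c = 8 * t + 1 := ⟨p ^ c / 8, by
      rcases pow_mod8 hpm c with ⟨-, h'⟩ | ⟨h', -⟩
      · omega
      · exact absurd hce (Nat.not_even_iff_odd.2 h')⟩
    have hcast : (((2 ^ k * p ^ c : ℕ)) : ZMod (2 ^ (k + 3))) = 2 ^ k := by
      rw [ht]
      push_cast
      have : (2 : ZMod (2 ^ (k + 3))) ^ k * (8 * (t : ZMod (2 ^ (k + 3))) + 1) =
        2 ^ (k + 3) * t + 2 ^ k := by ring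
      rw [this, hM0, zero_mul, zero_add]
    rw [hcast] at h
    obtain ⟨m, hm'⟩ := hki
    have hm2 : 2 ≤ m := by omega
    apply hm m hm2
    have e4 : (4 : ℕ) ^ m = 2 ^ k := by
      rw [hm', show (4 : ℕ) = 2 ^ 2 by norm_num, ← pow_mul]; congr 1; omega
    have e8 : 8 * 2 ^ k = 2 ^ (k + 3) := by ring
    rw [e4, e8]
    have h9 : ((p ^ b + 2 ^ k : ℕ) : ZMod (2 ^ (k + 3))) = ((3 : ℕ) : ZMod (2 ^ (k + 3))) := by
      push_cast
      push_cast at h
      linear_combination -h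
    have h10 := (ZMod.natCast_eq_natCast_iff' _ 3 (2 ^ (k + 3))).1 h9
    rw [h10]
    apply Nat.mod_eq_of_lt
    calc 3 < 2 ^ 3 := by norm_num
      _ ≤ 2 ^ (k + 3) := Nat.pow_le_pow_right (by norm_num) (by omega)
  · obtain ⟨h8, i, c, hi, hc, hP⟩ := odd_case hp hp5 le_rfl hb hS hodd
    have hpc : p ∣ p ^ c := dvd_pow_self p (by rintro rfl; simp at hc)
    have hio := odd_i hp hp5 hpq hpc hP.symm j2 j3
    refine q1_contra hq8 fun l hl hl2 hd => ?_
    rcases hP.mod_q1 hl hl2 hd with ⟨h1, h2⟩ | ⟨h1, h2⟩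
    · have e1 := J_cast_one h1
      push_cast at e1
      rw [jacobiSym.pow_left] at e1
      exact J_pow_odd hio e1
    · have e1 := J_cast_one h2
      push_cast at e1
      rw [jacobiSym.pow_left] at e1
      exact q1_mul hd hbo (J_pow_odd hc e1)

end Pool.Agent.TH500.PC
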