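import Pool.Agent.TH500.PC.FamEven

/-!
Alphabets of odd size: reciprocity, and alphabets of size `p^a r^b`.
-/

set_option autoImplicit false

open NumberTheorySymbols

namespace Pool.Agent.TH500.PC

/-- equality of Jacobi symbols from equality at all prime divisors -/
lemma J_congr {a b : ℤ} : ∀ P : ℕ, P ≠ 0 → (∀ p : ℕ, p.Prime → p ∣ P → J(a | p) = J(b | p)) →
    J(a | P) = J(b | P) := by
  intro P
  induction P using Nat.recOnMul with
  | zero => intro h; exact absurd rfl h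
  | one => intro _ _; simp
  | prime p hp => intro _ h; exact h p hp (dvd_refl _)
  | mul m n hm hn =>
    intro h0 h
    have hm0 : m ≠ 0 := left_ne_zero_of_mul h0
    have hn0 : n ≠ 0 := right_ne_zero_of_mul h0
    rw [jacobiSym.mul_right' _ hm0 hn0, jacobiSym.mul_right' _ hm0 hn0,
      hm hm0 (fun p hp hd => h p hp (hd.mul_right _)),
      hn hn0 (fun p hp hd => h p hp (hd.mul_left _))]

/-- quadratic reciprocity for the pair -/
lemma recip {P Q : ℕ} (hP : P % 2 = 1) (hQ : Q % 2 = 1) (h3 : (P * Q) % 3 = 1)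
    (h1 : J((Q : ℤ) | P) = J(3 | P)) (h2 : J(((2 * P : ℕ) : ℤ) | Q) = J(3 | Q)) :
    ¬ (P % 4 = 1 ∧ Q % 8 = 5) ∧ ¬ (P % 4 = 3 ∧ Q % 8 = 1) := by
  have hP3 : P % 3 ≠ 0 := by
    intro h; rw [Nat.mul_mod, h] at h3; omega
  have hQ3 : Q % 3 ≠ 0 := by
    intro h; rw [Nat.mul_mod, h, mul_zero] at h3; omega
  have hPQ : P % 3 = Q % 3 := by
    have hp : P % 3 = 1 ∨ P % 3 = 2 := by omega
    have hq : Q % 3 = 1 ∨ Q % 3 = 2 := by omega
    rcases hp with hp | hp <;> rcases hq with hq | hq <;> rw [Nat.mul_mod, hp, hq] at h3 <;> omega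
  have hsplit : J(((2 * P : ℕ) : ℤ) | Q) = J(2 | Q) * J((P : ℤ) | Q) := by
    push_cast
    rw [jacobiSym.mul_left]
  rw [hsplit] at h2
  have JP := J_three hP hP3
  have JQ := J_three hQ hQ3
  have J2 := J_two hQ
  constructor
  · rintro ⟨hp4, hq8⟩
    have hr := jacobiSym.quadratic_reciprocity_one_mod_four (a := P) (b := Q) hp4 (Nat.odd_iff.2 hQ)
    have e2 : J(2 | Q) = -1 := by
      rcases J2 with ⟨h', -⟩ | ⟨-, h'⟩
      · omega
      · exact h'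
    rw [e2, hr, h1] at h2
    rcases JP with ⟨hp, eP⟩ | ⟨hp, eP⟩ <;> rcases JQ with ⟨hq, eQ⟩ | ⟨hq, eQ⟩ <;>
      rw [eP, eQ] at h2 <;> norm_num at h2 <;> omega
  · rintro ⟨hp4, hq8⟩
    have hr := jacobiSym.quadratic_reciprocity_one_mod_four (a := Q) (b := P) (by omega)
      (Nat.odd_iff.2 hP)
    have e2 : J(2 | Q) = 1 := by
      rcases J2 with ⟨-, h'⟩ | ⟨h', -⟩
      · exact h'
      · omega
    rw [e2, one_mul, ← hr, h1] at h2
    rcases JP with ⟨hp, eP⟩ | ⟨hp, eP⟩ <;> rcases JQ with ⟨hq, eQ⟩ | ⟨hq, eQ⟩ <;>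
      rw [eP, eQ] at h2 <;> norm_num at h2 <;> omega

/-- residues mod 8 of the two zeros for odd `q` -/
theorem odd_res {q x y : ℕ} (h : Sol q x y) (hq2 : q % 2 = 1) :
    ∃ e o k : ℕ, Pair q e o ∧ e % 2 = 0 ∧ o % 2 = 1 ∧ 1 ≤ k ∧ e + o = 2 * (q * (k * (k + 1))) + 3 ∧
      ((e % 8 = 2 ∧ o % 8 = 1) ∨ (e % 8 = 2 ∧ o % 8 = 5) ∨ (e % 8 = 6 ∧ o % 8 = 1)) := by
  have hodd : Odd (x + y) := by
    have heq := h.eq
    by_contra hcon
    rw [Nat.not_odd_iff_even] at hcon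
    obtain ⟨s, hs⟩ := hcon
    have hd : ((y : ℤ) - x) = 2 * ((y : ℤ) - s) := by
      have : (x : ℤ) + y = s + s := by exact_mod_cast hs
      linarith
    rw [hd] at heq
    obtain ⟨u, hu⟩ : ∃ u : ℤ, (q : ℤ) * (2 * ((y : ℤ) - s)) ^ 2 = 4 * u := ⟨q * (y - s) ^ 2, by ring⟩
    have e1 : (q : ℤ) * ((2 * ((y : ℤ) - s)) ^ 2 - 1) = 4 * u - q := by rw [← hu]; ring
    rw [e1] at heq
    omega
  obtain ⟨e, o, k, hP, he, ho, hk1, hsum, hshape⟩ := h.exists_pair hodd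
  have key : ∀ q k : ZMod 8, (q = 1 ∨ q = 3 ∨ q = 5 ∨ q = 7) →
      (((q * (k * (k + 1)) + 1 - k = 1 ∨ q * (k * (k + 1)) + 1 - k = 5) ∧
        q * (k * (k + 1)) + k + 2 = 2) ∨
      (q * (k * (k + 1)) + 1 - k = 1 ∧ q * (k * (k + 1)) + k + 2 = 6) ∨
      ((q * (k * (k + 1)) + k + 2 = 1 ∨ q * (k * (k + 1)) + k + 2 = 5) ∧
        q * (k * (k + 1)) + 1 - k = 2) ∨
      (q * (k * (k + 1)) + k + 2 = 1 ∧ q * (k * (k + 1)) + 1 - k = 6)) := by decide
  have hq8 : (q : ZMod 8) = 1 ∨ (q : ZMod 8) = 3 ∨ (q : ZMod 8) = 5 ∨ (q : ZMod 8) = 7 := by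
    have : q % 8 = 1 ∨ q % 8 = 3 ∨ q % 8 = 5 ∨ q % 8 = 7 := by omega
    rcases this with h' | h' | h' | h'
    · left; exact (ZMod.natCast_eq_natCast_iff' q 1 8).2 (by rw [h'])
    · right; left; exact (ZMod.natCast_eq_natCast_iff' q 3 8).2 (by rw [h'])
    · right; right; left; exact (ZMod.natCast_eq_natCast_iff' q 5 8).2 (by rw [h'])
    · right; right; right; exact (ZMod.natCast_eq_natCast_iff' q 7 8).2 (by rw [h'])
  have hk := key q k hq8
  have toNat : ∀ a b : ℕ, (a : ZMod 8) = (b : ZMod 8) → a % 8 = b % 8 := fun a b h' =>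
    (ZMod.natCast_eq_natCast_iff' a b 8).1 h'
  have hres : (e % 8 = 2 ∧ o % 8 = 1) ∨ (e % 8 = 2 ∧ o % 8 = 5) ∨ (e % 8 = 6 ∧ o % 8 = 1) := by
    rcases hshape with ⟨h1, h2⟩ | ⟨h1, h2⟩
    · have c1 : (o : ZMod 8) = q * (k * (k + 1)) + 1 - k := by
        have := congrArg (Nat.cast : ℕ → ZMod 8) h1
        push_cast at this
        linear_combination this
      have c2 : (e : ZMod 8) = q * (k * (k + 1)) + k + 2 := by
        have := congrArg (Nat.cast : ℕ → ZMod 8) h2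
        push_cast at this
        exact this
      rw [← c1, ← c2] at hk
      rcases hk with ⟨h3 | h3, h4⟩ | ⟨h3, h4⟩ | ⟨h3 | h3, h4⟩ | ⟨h3, h4⟩
      · exact Or.inl ⟨toNat _ 2 h4, toNat _ 1 (by rw [h3]; simp)⟩
      · exact Or.inr (Or.inl ⟨toNat _ 2 h4, toNat _ 5 h3⟩)
      · exact Or.inr (Or.inr ⟨toNat _ 6 h4, toNat _ 1 (by rw [h3]; simp)⟩)
      · have := toNat _ 1 (by rw [h3]; simp); omega
      · have := toNat _ 5 h3; omega
      · have := toNat _ 1 (by rw [h3]; simp); omega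
    · have c1 : (e : ZMod 8) = q * (k * (k + 1)) + 1 - k := by
        have := congrArg (Nat.cast : ℕ → ZMod 8) h1
        push_cast at this
        linear_combination this
      have c2 : (o : ZMod 8) = q * (k * (k + 1)) + k + 2 := by
        have := congrArg (Nat.cast : ℕ → ZMod 8) h2
        push_cast at this
        exact this
      rw [← c1, ← c2] at hk
      rcases hk with ⟨h3 | h3, h4⟩ | ⟨h3, h4⟩ | ⟨h3 | h3, h4⟩ | ⟨h3, h4⟩
      · have := toNat _ 1 (by rw [h3]; simp); omega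
      · have := toNat _ 5 h3; omega
      · have := toNat _ 1 (by rw [h3]; simp); omega
      · exact Or.inl ⟨toNat _ 2 h4, toNat _ 1 (by rw [h3]; simp)⟩
      · exact Or.inr (Or.inl ⟨toNat _ 2 h4, toNat _ 5 h3⟩)
      · exact Or.inr (Or.inr ⟨toNat _ 6 h4, toNat _ 1 (by rw [h3]; simp)⟩)
  exact ⟨e, o, k, hP, he, ho, hk1, hsum, hres⟩

/-- the shape of a solution for odd `q` prime to 3 -/
theorem odd_shape {q x y : ℕ} (h : Sol q x y) (hq2 : q % 2 = 1) (hq3 : ¬ 3 ∣ q) (hq : 3 ≤ q) :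
    ∃ P Q : ℕ, Pair q (2 * P) Q ∧ P % 4 = 1 ∧ Q % 8 = 1 ∧ (P * Q) % 3 = 1 ∧ 3 ≤ P ∧ 3 ≤ Q := by
  obtain ⟨e, o, k, hP, he, ho, hk1, hsum, hres⟩ := odd_res h hq2
  have hge := hP.ge3 (by omega)
  obtain ⟨P, hPe⟩ : ∃ P, e = 2 * P := ⟨e / 2, by omega⟩
  subst hPe
  have hm3 := hP.mod3 hq3
  have hPQ3 : (P * o) % 3 = 1 := by
    have : 2 * P * o = 2 * (P * o) := by ring
    rw [this] at hm3
    omega
  have hodd_dvd : ∀ p : ℕ, p.Prime → p ≠ 2 → p ∣ 2 * q → p ∣ q := by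
    intro p hp hp2 hd
    rcases (Nat.Prime.dvd_mul hp).1 hd with h' | h'
    · exact absurd ((Nat.prime_dvd_prime_iff_eq hp Nat.prime_two).1 h') hp2
    · exact h'
  have h1 : J((o : ℤ) | P) = J(3 | P) := by
    apply J_congr P (by omega)
    intro p hp hpP
    have hp2 : p ≠ 2 := by rintro rfl; omega
    exact J_of_cast (hP.cast3 hp hp2 (hodd_dvd p hp hp2 (hP.smooth hp (hpP.mul_left _)))
      (hpP.mul_left _))
  have h2 : J(((2 * P : ℕ) : ℤ) | o) = J(3 | o) := by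
    apply J_congr o (by omega)
    intro p hp hpo
    have hp2 : p ≠ 2 := by rintro rfl; omega
    exact J_of_cast (hP.symm.cast3 hp hp2 (hodd_dvd p hp hp2 (hP.symm.smooth hp hpo)) hpo)
  have hr := recip (P := P) (Q := o) (by omega) ho hPQ3 h1 h2
  refine ⟨P, o, hP, ?_, ?_, hPQ3, by omega, hge.2⟩
  · rcases hres with ⟨h3, h4⟩ | ⟨h3, h4⟩ | ⟨h3, h4⟩
    · omega
    · exact absurd ⟨by omega, h4⟩ hr.1
    · exact absurd ⟨by omega, h4⟩ hr.2
  · rcases hres with ⟨h3, h4⟩ | ⟨h3, h4⟩ | ⟨h3, h4⟩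
    · exact h4
    · exact absurd ⟨by omega, h4⟩ hr.1
    · exact h4

end Pool.Agent.TH500.PC
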