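import Pool.Agent.TH500.PC.FamTwo

/-!
Alphabets of size `3^a p^b`, `a ≥ 2`.
-/

set_option autoImplicit false

open NumberTheorySymbols

namespace Pool.Agent.TH500.PC

lemma three_pow_mod8 (f : ℕ) : (Even f ∧ 3 ^ f % 8 = 1) ∨ (Odd f ∧ 3 ^ f % 8 = 3) := by
  rcases pow_mod8 (p := 3) (by norm_num) f with h | h
  · exact Or.inl h
  · exact Or.inr h

/-- alphabets of size `3^a p^b` with `a ≥ 2` -/
theorem famE {p a b : ℕ} (hp : p.Prime) (hp5 : 5 ≤ p) (ha : 2 ≤ a) (hb : 1 ≤ b)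
    (h : p % 12 = 5 ∨ (p % 12 = 7 ∧ Odd a ∧ Odd b) ∨ (p % 4 = 1 ∧ Even a ∧ Even b)) :
    ¬ ∃ x y, Sol (3 ^ a * p ^ b) x y := by
  rintro ⟨x, y, hS⟩
  have hpm : p % 2 = 1 := Nat.odd_iff.1 (hp.odd_of_ne_two (by omega))
  have hp3 : p % 3 ≠ 0 := by
    intro h
    have := (Nat.prime_dvd_prime_iff_eq Nat.prime_three hp).1 (Nat.dvd_of_mod_eq_zero h)
    omega
  have hq2 : (3 ^ a * p ^ b) % 2 = 1 := by
    have h1 : Odd (3 ^ a) := Odd.pow (by decide)
    have h2 : Odd (p ^ b) := Odd.pow (Nat.odd_iff.2 hpm)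
    exact Nat.odd_iff.1 (h1.mul h2)
  have hq : 45 ≤ 3 ^ a * p ^ b := by
    calc 45 = 3 ^ 2 * 5 ^ 1 := by norm_num
      _ ≤ 3 ^ a * p ^ b := Nat.mul_le_mul (Nat.pow_le_pow_right (by norm_num) ha)
        ((Nat.pow_le_pow_left hp5 1).trans (Nat.pow_le_pow_right (by omega) hb))
  have h9q : 9 ∣ 3 ^ a * p ^ b := by
    obtain ⟨a', rfl⟩ : ∃ a', a = a' + 2 := ⟨a - 2, by omega⟩
    exact ⟨3 ^ a' * p ^ b, by ring⟩
  have hpq : p ∣ 3 ^ a * p ^ b := (dvd_pow_self p (by omega)).mul_left _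
  obtain ⟨e, o, k, hP, he, ho, hk1, hsum, hres⟩ := odd_res hS hq2
  have hge := hP.ge3 (by omega)
  have hql := hP.q_lt (by omega)
  have hlt := hP.lt2 (by omega)
  have h9 : ¬ (9 ∣ e ∧ 9 ∣ o) := by
    rintro ⟨⟨e', he'⟩, ⟨o', ho'⟩⟩
    obtain ⟨q', hq'⟩ := h9q
    have : 2 * (3 ^ a * p ^ b * (k * (k + 1))) = 9 * (2 * (q' * (k * (k + 1)))) := by
      rw [hq']; ring
    omega
  have h3sum : 3 ∣ e → 3 ∣ o := by
    rintro ⟨e', he'⟩
    obtain ⟨q', hq'⟩ := h9q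
    have : 2 * (3 ^ a * p ^ b * (k * (k + 1))) = 9 * (2 * (q' * (k * (k + 1)))) := by
      rw [hq']; ring
    omega
  have hpr : ∀ r : ℕ, r.Prime → r ∣ 2 * (3 ^ a * p ^ b) → r = 2 ∨ r = 3 ∨ r = p :=
    fun r hr hd => prime_dvd_two_mul Nat.prime_three hp hr hd
  have hpe' : ∀ r : ℕ, r.Prime → r ∣ e → r = 2 ∨ r = 3 ∨ r = p := fun r hr hd =>
    hpr r hr (hP.smooth hr hd)
  have hpo' : ∀ r : ℕ, r.Prime → r ∣ o → r = 3 ∨ r = p := by
    intro r hr hd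
    rcases hpr r hr (hP.symm.smooth hr hd) with h' | h'
    · exfalso; subst h'; omega
    · exact h'
  have pow3 : ∀ m : ℕ, 10 ≤ m → (∃ f, m = 3 ^ f) → 9 ∣ m := by
    rintro m hm ⟨f, rfl⟩
    have : 2 ≤ f := by
      by_contra hcon
      have : f = 0 ∨ f = 1 := by omega
      rcases this with rfl | rfl <;> norm_num at hm
    obtain ⟨f', rfl⟩ : ∃ f', f = f' + 2 := ⟨f - 2, by omega⟩
    exact ⟨3 ^ f', by ring⟩
  by_cases hpe : p ∣ e
  · -- `o` is a power of 3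
    have hpo : ¬ p ∣ o := hP.not_both hp (by omega) (by omega) hpq hpe
    obtain ⟨f, hf⟩ := prime_pow_of (p := 3) (m := o) (by omega) (fun r hr hro => by
      rcases hpo' r hr hro with h' | h'
      · exact h'
      · subst h'; exact absurd hro hpo)
    have hfe : Even f := by
      rcases three_pow_mod8 f with ⟨h', -⟩ | ⟨-, h'⟩
      · exact h'
      · rw [← hf] at h'; omega
    have hJ := J_of_cast (hP.cast3 hp (by omega) hpq hpe)
    rw [hf] at hJ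
    push_cast at hJ
    rw [jacobiSym.pow_left] at hJ
    have hJ3 := J_three hpm hp3
    have hA : J(3 | p) = 1 := by
      rcases hJ3 with ⟨-, h'⟩ | ⟨-, h'⟩
      · exact h'
      · rw [h', hfe.neg_one_pow] at hJ; norm_num at hJ
    have hA' : p % 12 = 1 ∨ p % 12 = 11 := by
      rcases hJ3 with ⟨h', -⟩ | ⟨-, h'⟩
      · exact h'
      · rw [h'] at hA; norm_num at hA
    rcases h with h | ⟨h, -, -⟩ | ⟨h, h1, h2⟩
    · omega
    · omega
    · refine hP.symm.not_sq (by omega) (by omega) (by omega) ?_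
      obtain ⟨a', rfl⟩ := h1
      obtain ⟨b', rfl⟩ := h2
      obtain ⟨f', hf'⟩ := hfe
      exact ⟨3 ^ (a' + f') * p ^ b', by rw [hf, hf']; ring⟩
  · -- `e = 2 * 3^g`
    obtain ⟨m, hm⟩ : ∃ m, e = 2 * m := ⟨e / 2, by omega⟩
    obtain ⟨g, hg⟩ := prime_pow_of (p := 3) (m := m) (by omega) (fun r hr hrm => by
      rcases hpe' r hr (by rw [hm]; exact hrm.mul_left _) with h' | h' | h'
      · exfalso; subst h'; omega
      · exact h'
      · exfalso; subst h'; exact hpe (by rw [hm]; exact hrm.mul_left _))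
    have h9m : 9 ∣ m := pow3 m (by omega) ⟨g, hg⟩
    have h9e : 9 ∣ e := by rw [hm]; exact h9m.mul_left _
    have h9o : ¬ 9 ∣ o := fun h' => h9 ⟨h9e, h'⟩
    have h3o : 3 ∣ o := h3sum ((by norm_num : 3 ∣ 9).trans h9e)
    obtain ⟨u, hu⟩ := h3o
    have h3u : ¬ 3 ∣ u := by
      rintro ⟨v, hv⟩
      exact h9o ⟨v, by rw [hu, hv]; ring⟩
    obtain ⟨d, hd⟩ := prime_pow_of (p := p) (m := u) (by omega) (fun r hr hru => by
      rcases hpo' r hr (by rw [hu]; exact hru.mul_left _) with h' | h'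
      · exfalso; subst h'; exact h3u hru
      · exact h')
    have hdo : Odd d ∧ p % 4 = 3 := by
      rw [hu, hd] at hres
      rcases pow_mod8 hpm d with ⟨-, h'⟩ | ⟨h', h''⟩
      · omega
      · exact ⟨h', by omega⟩
    rcases h with h | ⟨-, h1, h2⟩ | ⟨h, -, -⟩
    · omega
    · refine hP.symm.not_sq (by omega) (by omega) (by omega) ?_
      obtain ⟨a', rfl⟩ := h1
      obtain ⟨b', rfl⟩ := h2
      obtain ⟨d', hd'⟩ := hdo.1
      exact ⟨3 ^ (a' + 1) * p ^ (b' + d' + 1), by rw [hu, hd, hd']; ring⟩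
    · omega

end Pool.Agent.TH500.PC
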