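import Pool.Agent.TH500.PC.FamOdd

/-!
Alphabets of size `p^a r^b` with distinct primes `p, r ≥ 5`.
-/

set_option autoImplicit false

open NumberTheorySymbols

namespace Pool.Agent.TH500.PC

/-- residue classes `s, t` mod 24 for which `P = p^c`, `Q = r^d` with `p ≡ s`, `r ≡ t (mod 24)` is
not excluded; `c'`, `d'` tell whether the exponents are odd -/
def okc (s t : ℕ) (c' d' : Bool) : Bool :=
  ((if c' then s else 1) % 4 == 1) && ((if d' then t else 1) % 8 == 1) &&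
    (((if c' then s else 1) * (if d' then t else 1)) % 3 == 1) &&
    (d' || s % 12 == 1 || s % 12 == 11) &&
    (c' || t % 24 == 1 || t % 24 == 5 || t % 24 == 19 || t % 24 == 23)

def Adm (s t : ℕ) : Bool := okc s t true true || okc s t true false || okc s t false true ||
  okc s t false false

lemma adm_of {q p r c d : ℕ} (hp : p.Prime) (hr : r.Prime) (hp5 : 5 ≤ p) (hr5 : 5 ≤ r)
    (hpq : p ∣ q) (hrq : r ∣ q) (hc : c ≠ 0) (hd : d ≠ 0)
    (hP : Pair q (2 * p ^ c) (r ^ d)) (h4 : p ^ c % 4 = 1) (h8 : r ^ d % 8 = 1)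
    (h3 : (p ^ c * r ^ d) % 3 = 1) : Adm (p % 24) (r % 24) = true := by
  have hpm : p % 2 = 1 := Nat.odd_iff.1 (hp.odd_of_ne_two (by omega))
  have hrm : r % 2 = 1 := Nat.odd_iff.1 (hr.odd_of_ne_two (by omega))
  have hp3 : p % 3 ≠ 0 := by
    intro h
    have := (Nat.prime_dvd_prime_iff_eq Nat.prime_three hp).1 (Nat.dvd_of_mod_eq_zero h)
    omega
  have hr3 : r % 3 ≠ 0 := by
    intro h
    have := (Nat.prime_dvd_prime_iff_eq Nat.prime_three hr).1 (Nat.dvd_of_mod_eq_zero h)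
    omega
  have hpe : p ∣ 2 * p ^ c := (dvd_pow_self p hc).mul_left _
  have hre : r ∣ r ^ d := dvd_pow_self r hd
  have J1 := J_of_cast (hP.cast3 hp (by omega) hpq hpe)
  have J2 := J_of_cast (hP.symm.cast3 hr (by omega) hrq hre)
  push_cast at J1 J2
  rw [jacobiSym.pow_left] at J1
  rw [jacobiSym.mul_left, jacobiSym.pow_left] at J2
  have g1 : Even d → p % 12 = 1 ∨ p % 12 = 11 := by
    intro hde
    rcases J_three hpm hp3 with ⟨h', -⟩ | ⟨-, h'⟩
    · exact h'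
    · exfalso
      obtain ⟨d', rfl⟩ := hde
      rw [h', ← two_mul, pow_mul] at J1
      have := sq_nonneg (J((r : ℤ) | p))
      have h5 := pow_nonneg this d'
      rw [J1] at h5
      norm_num at h5
  have g2 : Even c → (r % 24 = 1 ∨ r % 24 = 5 ∨ r % 24 = 19 ∨ r % 24 = 23) := by
    intro hce
    obtain ⟨c', rfl⟩ := hce
    rw [← two_mul, pow_mul] at J2
    have h5 := pow_nonneg (sq_nonneg (J((p : ℤ) | r))) c'
    rcases J_two hrm with ⟨h', e'⟩ | ⟨h', e'⟩ <;> rcases J_three hrm hr3 with ⟨h'', e''⟩ | ⟨h'', e''⟩ <;>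
      rw [e', e''] at J2
    · omega
    · exfalso; rw [one_mul] at J2; rw [J2] at h5; norm_num at h5
    · exfalso
      have : (J((p : ℤ) | r) ^ 2) ^ c' = -1 := by linarith
      rw [this] at h5; norm_num at h5
    · omega
  have hs : p % 24 = 1 ∨ p % 24 = 5 ∨ p % 24 = 7 ∨ p % 24 = 11 ∨ p % 24 = 13 ∨ p % 24 = 17 ∨
      p % 24 = 19 ∨ p % 24 = 23 := by omega
  have ht : r % 24 = 1 ∨ r % 24 = 5 ∨ r % 24 = 7 ∨ r % 24 = 11 ∨ r % 24 = 13 ∨ r % 24 = 17 ∨
      r % 24 = 19 ∨ r % 24 = 23 := by omega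
  have hpc := pow_mod24 hpm hp3 c
  have hrd := pow_mod24 hrm hr3 d
  -- express through residues mod 24
  have k4 : p ^ c % 24 % 4 = 1 := by omega
  have k8 : r ^ d % 24 % 8 = 1 := by omega
  have k3 : (p ^ c % 24 * (r ^ d % 24)) % 3 = 1 := by
    have : (p ^ c % 24 * (r ^ d % 24)) % 3 = (p ^ c * r ^ d) % 3 := by
      rw [Nat.mul_mod, Nat.mod_mod_of_dvd _ (by norm_num : 3 ∣ 24),
        Nat.mod_mod_of_dvd _ (by norm_num : 3 ∣ 24), ← Nat.mul_mod]
    rw [this]; exact h3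
  have g1' : Even d → p % 24 % 12 = 1 ∨ p % 24 % 12 = 11 := by
    intro h'; have := g1 h'; omega
  clear g1 J1 J2 h4 h8 h3
  rcases hpc with ⟨hc', ec⟩ | ⟨hc', ec⟩ <;> rcases hrd with ⟨hd', ed⟩ | ⟨hd', ed⟩
  · have a1 := g1' hd'
    have a2 := g2 hc'
    rcases hs with hs | hs | hs | hs | hs | hs | hs | hs <;>
      rcases ht with ht | ht | ht | ht | ht | ht | ht | ht <;>
      first
      | (rw [hs, ht]; decide)
      | (exfalso; omega)
  · have a2 := g2 hc'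
    rw [ec, ed] at k3
    rw [ed] at k8
    rcases hs with hs | hs | hs | hs | hs | hs | hs | hs <;>
      rcases ht with ht | ht | ht | ht | ht | ht | ht | ht <;>
      first
      | (rw [hs, ht]; decide)
      | (exfalso; omega)
  · have a1 := g1' hd'
    rw [ec, ed] at k3
    rw [ec] at k4
    rcases hs with hs | hs | hs | hs | hs | hs | hs | hs <;>
      rcases ht with ht | ht | ht | ht | ht | ht | ht | ht <;>
      first
      | (rw [hs, ht]; decide)
      | (exfalso; omega)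
  · rw [ec, ed] at k3
    rw [ec] at k4
    rw [ed] at k8
    rcases hs with hs | hs | hs | hs | hs | hs | hs | hs <;>
      rcases ht with ht | ht | ht | ht | ht | ht | ht | ht <;>
      first
      | (rw [hs, ht]; decide)
      | (exfalso; rw [hs, ht] at k3; omega)
      | (exfalso; omega)

lemma prime_dvd_two_mul {p r s a b : ℕ} (hp : p.Prime) (hr : r.Prime) (hs : s.Prime)
    (h : s ∣ 2 * (p ^ a * r ^ b)) : s = 2 ∨ s = p ∨ s = r := by
  rcases (Nat.Prime.dvd_mul hs).1 h with h | h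
  · exact Or.inl ((Nat.prime_dvd_prime_iff_eq hs Nat.prime_two).1 h)
  · rcases (Nat.Prime.dvd_mul hs).1 h with h | h
    · exact Or.inr (Or.inl ((Nat.prime_dvd_prime_iff_eq hs hp).1 (hs.dvd_of_dvd_pow h)))
    · exact Or.inr (Or.inr ((Nat.prime_dvd_prime_iff_eq hs hr).1 (hs.dvd_of_dvd_pow h)))

/-- the shape of a solution for `q = p^a r^b` -/
theorem two_shape {p r a b : ℕ} (hp : p.Prime) (hr : r.Prime) (hpr : p ≠ r) (hp5 : 5 ≤ p)
    (hr5 : 5 ≤ r) (ha : 1 ≤ a) (hb : 1 ≤ b) {x y : ℕ} (h : Sol (p ^ a * r ^ b) x y) :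
    ∃ c d : ℕ, c ≠ 0 ∧ d ≠ 0 ∧
      ((Pair (p ^ a * r ^ b) (2 * p ^ c) (r ^ d) ∧ p ^ c % 4 = 1 ∧ r ^ d % 8 = 1 ∧
          (p ^ c * r ^ d) % 3 = 1) ∨
        (Pair (p ^ a * r ^ b) (2 * r ^ c) (p ^ d) ∧ r ^ c % 4 = 1 ∧ p ^ d % 8 = 1 ∧
          (r ^ c * p ^ d) % 3 = 1)) := by
  have hpo : Odd p := hp.odd_of_ne_two (by omega)
  have hro : Odd r := hr.odd_of_ne_two (by omega)
  have hq2 : (p ^ a * r ^ b) % 2 = 1 := Nat.odd_iff.1 (hpo.pow.mul hro.pow)
  have hq3 : ¬ 3 ∣ p ^ a * r ^ b := by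
    intro h3
    rcases (Nat.Prime.dvd_mul Nat.prime_three).1 h3 with h' | h'
    · have := (Nat.prime_dvd_prime_iff_eq Nat.prime_three hp).1 (Nat.prime_three.dvd_of_dvd_pow h')
      omega
    · have := (Nat.prime_dvd_prime_iff_eq Nat.prime_three hr).1 (Nat.prime_three.dvd_of_dvd_pow h')
      omega
  have hpq : p ∣ p ^ a * r ^ b := (dvd_pow_self p (by omega)).mul_right _
  have hrq : r ∣ p ^ a * r ^ b := (dvd_pow_self r (by omega)).mul_left _
  have hq : 3 ≤ p ^ a * r ^ b := by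
    have h1 : p ≤ p ^ a * r ^ b := Nat.le_of_dvd (by positivity) hpq
    omega
  obtain ⟨P, Q, hPair, h4, h8, h3, hP3, hQ3⟩ := odd_shape h hq2 hq3 hq
  have hPprimes : ∀ s : ℕ, s.Prime → s ∣ P → s = p ∨ s = r := by
    intro s hs hsP
    rcases prime_dvd_two_mul hp hr hs (hPair.smooth hs (hsP.mul_left _)) with h' | h'
    · exfalso; subst h'; omega
    · exact h'
  have hQprimes : ∀ s : ℕ, s.Prime → s ∣ Q → s = p ∨ s = r := by
    intro s hs hsQ
    rcases prime_dvd_two_mul hp hr hs (hPair.symm.smooth hs hsQ) with h' | h'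
    · exfalso; subst h'; omega
    · exact h'
  obtain ⟨s, hs, hsP⟩ := Nat.exists_prime_and_dvd (show P ≠ 1 by omega)
  obtain ⟨t, ht, htQ⟩ := Nat.exists_prime_and_dvd (show Q ≠ 1 by omega)
  have disj : ∀ s : ℕ, s.Prime → 5 ≤ s → s ∣ p ^ a * r ^ b → s ∣ P → ¬ s ∣ Q := fun s hs hs5 hsq hsP =>
    hPair.not_both hs (by omega) (by omega) hsq (hsP.mul_left _)
  have nz : ∀ {m c u : ℕ}, m = u ^ c → 3 ≤ m → c ≠ 0 := by
    rintro m c u hm h3 rfl
    simp at hm
    omega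
  rcases hPprimes s hs hsP with rfl | rfl
  · have hnQ := disj s hs hp5 hpq hsP
    have hQr : ∀ u : ℕ, u.Prime → u ∣ Q → u = r := by
      intro u hu huQ
      rcases hQprimes u hu huQ with rfl | h'
      · exact absurd huQ hnQ
      · exact h'
    obtain ⟨d, hd⟩ := prime_pow_of (by omega) hQr
    have hd0 := nz hd hQ3
    have hrQ : r ∣ Q := by rw [hd]; exact dvd_pow_self r hd0
    have hnP : ¬ r ∣ P := fun h' => disj r hr hr5 hrq h' hrQ
    obtain ⟨c, hc⟩ := prime_pow_of (p := s) (m := P) (by omega) (fun u hu huP => by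
      rcases hPprimes u hu huP with h' | rfl
      · exact h'
      · exact absurd huP hnP)
    exact ⟨c, d, nz hc hP3, hd0, Or.inl ⟨by rw [← hc, ← hd]; exact hPair, by rw [← hc]; exact h4,
      by rw [← hd]; exact h8, by rw [← hc, ← hd]; exact h3⟩⟩
  · have hnQ := disj s hs hr5 hrq hsP
    have hQr : ∀ u : ℕ, u.Prime → u ∣ Q → u = p := by
      intro u hu huQ
      rcases hQprimes u hu huQ with h' | rfl
      · exact h'
      · exact absurd huQ hnQ
    obtain ⟨d, hd⟩ := prime_pow_of (by omega) hQr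
    have hd0 := nz hd hQ3
    have hrQ : p ∣ Q := by rw [hd]; exact dvd_pow_self p hd0
    have hnP : ¬ p ∣ P := fun h' => disj p hp hp5 hpq h' hrQ
    obtain ⟨c, hc⟩ := prime_pow_of (p := s) (m := P) (by omega) (fun u hu huP => by
      rcases hPprimes u hu huP with rfl | h'
      · exact absurd huP hnP
      · exact h')
    exact ⟨c, d, nz hc hP3, hd0, Or.inr ⟨by rw [← hc, ← hd]; exact hPair, by rw [← hc]; exact h4,
      by rw [← hd]; exact h8, by rw [← hc, ← hd]; exact h3⟩⟩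

/-- alphabets of size `p^a r^b` -/
theorem famC {p r a b : ℕ} (hp : p.Prime) (hr : r.Prime) (hpr : p ≠ r) (hp5 : 5 ≤ p)
    (hr5 : 5 ≤ r) (ha : 1 ≤ a) (hb : 1 ≤ b) (h1 : Adm (p % 24) (r % 24) = false)
    (h2 : Adm (r % 24) (p % 24) = false) : ¬ ∃ x y, Sol (p ^ a * r ^ b) x y := by
  rintro ⟨x, y, hS⟩
  have hpq : p ∣ p ^ a * r ^ b := (dvd_pow_self p (by omega)).mul_right _
  have hrq : r ∣ p ^ a * r ^ b := (dvd_pow_self r (by omega)).mul_left _
  obtain ⟨c, d, hc, hd, ⟨hP, h4, h8, h3⟩ | ⟨hP, h4, h8, h3⟩⟩ :=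
    two_shape hp hr hpr hp5 hr5 ha hb hS
  · have := adm_of hp hr hp5 hr5 hpq hrq hc hd hP h4 h8 h3
    rw [h1] at this
    exact Bool.noConfusion this
  · have := adm_of hr hp hr5 hp5 hrq hpq hc hd hP h4 h8 h3
    rw [h2] at this
    exact Bool.noConfusion this

/-- alphabets of size `(p^a r^b)^2` -/
theorem famD {p r a b : ℕ} (hp : p.Prime) (hr : r.Prime) (hpr : p ≠ r) (hp5 : 5 ≤ p)
    (hr5 : 5 ≤ r) (ha : 1 ≤ a) (hb : 1 ≤ b) (hae : Even a) (hbe : Even b) (h1 : p % 8 ≠ 1)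
    (h2 : r % 8 ≠ 1) : ¬ ∃ x y, Sol (p ^ a * r ^ b) x y := by
  rintro ⟨x, y, hS⟩
  have hpm : p % 2 = 1 := Nat.odd_iff.1 (hp.odd_of_ne_two (by omega))
  have hrm : r % 2 = 1 := Nat.odd_iff.1 (hr.odd_of_ne_two (by omega))
  have hq : 25 ≤ p ^ a * r ^ b := by
    calc 25 = 5 ^ 1 * 5 ^ 1 := by norm_num
      _ ≤ p ^ a * r ^ b := Nat.mul_le_mul
        ((Nat.pow_le_pow_left hp5 1).trans (Nat.pow_le_pow_right (by omega) ha))
        ((Nat.pow_le_pow_left hr5 1).trans (Nat.pow_le_pow_right (by omega) hb))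
  have hsq : ∀ u v : ℕ, Even u → IsSquare (p ^ a * r ^ b * v ^ u) := by
    intro u v hu
    obtain ⟨a', rfl⟩ := hae
    obtain ⟨b', rfl⟩ := hbe
    obtain ⟨u', rfl⟩ := hu
    exact ⟨p ^ a' * r ^ b' * v ^ u', by ring⟩
  obtain ⟨c, d, hc, hd, ⟨hP, h4, h8, h3⟩ | ⟨hP, h4, h8, h3⟩⟩ :=
    two_shape hp hr hpr hp5 hr5 ha hb hS
  · rcases pow_mod8 hrm d with ⟨hde, -⟩ | ⟨-, h'⟩
    · exact hP.symm.not_sq (by omega) (by omega) (by omega) (hsq _ _ hde)
    · omega
  · rcases pow_mod8 hpm d with ⟨hde, -⟩ | ⟨-, h'⟩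
    · exact hP.symm.not_sq (by omega) (by omega) (by omega) (hsq _ _ hde)
    · omega

end Pool.Agent.TH500.PC
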