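import Mathlib

/-!
Sums of commuting idempotent endomorphisms are diagonalisable with eigenvalues `0, 1, …, n`.
-/

set_option autoImplicit false

open Polynomial

namespace Pool.Agent.TH500.PC

variable {K V : Type*} [Field K] [AddCommGroup V] [Module K V]

/-- `∏_{j ≤ n} (X - j)` -/
noncomputable def Zp (K : Type*) [Field K] (n : ℕ) : K[X] :=
  ∏ j ∈ Finset.range (n + 1), (X - C (j : K))

/-- evaluation at `T' + P` times `P` is evaluation at `T' + 1` times `P` -/
lemma aeval_mul_idem (T' P : Module.End K V) (hc : T' * P = P * T') (hP : P * P = P) (f : K[X]) :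
    aeval (T' + P) f * P = aeval (T' + 1) f * P := by
  induction f using Polynomial.induction_on' with
  | add p q hp hq => rw [map_add, map_add, add_mul, add_mul, hp, hq]
  | monomial n a =>
    rw [aeval_monomial, aeval_monomial]
    have h : ∀ n : ℕ, (T' + P) ^ n * P = (T' + 1) ^ n * P := by
      intro n
      induction n with
      | zero => simp
      | succ n ih =>
        have e1 : (T' + P) * P = P * (T' + 1) := by
          rw [add_mul, mul_add, hP, hc, mul_one]
        have e2 : (T' + 1) * P = P * (T' + 1) := by
          rw [add_mul, mul_add, one_mul, hc, mul_one]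
        rw [pow_succ, mul_assoc, e1, ← mul_assoc, ih, mul_assoc, ← e2, ← mul_assoc, pow_succ]
    rw [mul_assoc, h, ← mul_assoc]

lemma aeval_mul_coidem (T' P : Module.End K V) (hc : T' * P = P * T') (hP : P * P = P) (f : K[X]) :
    aeval (T' + P) f * (1 - P) = aeval T' f * (1 - P) := by
  induction f using Polynomial.induction_on' with
  | add p q hp hq => rw [map_add, map_add, add_mul, add_mul, hp, hq]
  | monomial n a =>
    rw [aeval_monomial, aeval_monomial]
    have h : ∀ n : ℕ, (T' + P) ^ n * (1 - P) = T' ^ n * (1 - P) := by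
      intro n
      induction n with
      | zero => simp
      | succ n ih =>
        have e1 : (T' + P) * (1 - P) = (1 - P) * T' := by
          rw [add_mul, mul_sub, mul_sub, sub_mul, hP, hc, mul_one, mul_one, one_mul, sub_self,
            add_zero]
        have e2 : T' * (1 - P) = (1 - P) * T' := by
          rw [mul_sub, sub_mul, mul_one, one_mul, hc]
        rw [pow_succ, mul_assoc, e1, ← mul_assoc, ih, mul_assoc, ← e2, ← mul_assoc, pow_succ]
    rw [mul_assoc, h, ← mul_assoc]

/-- the annihilating polynomial -/
theorem aeval_Zp_sum {n : ℕ} (P : Fin n → Module.End K V) (hid : ∀ i, P i * P i = P i)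
    (hcomm : ∀ i j, P i * P j = P j * P i) : aeval (∑ i, P i) (Zp K n) = 0 := by
  induction n with
  | zero => simp [Zp]
  | succ n ih =>
    have ih' := ih (fun i => P i.castSucc) (fun i => hid _) (fun i j => hcomm _ _)
    rw [Fin.sum_univ_castSucc]
    set T' := ∑ i : Fin n, P i.castSucc with hT'
    set Q := P (Fin.last n) with hQ
    have hc : T' * Q = Q * T' := by
      rw [hT', Finset.sum_mul, Finset.mul_sum]
      exact Finset.sum_congr rfl fun i _ => hcomm _ _
    have h1 : aeval (T' + 1) (Zp K (n + 1)) = 0 := by
      have e : aeval (T' + 1) (Zp K (n + 1)) = aeval T' ((Zp K (n + 1)).comp (X + 1)) := by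
        rw [aeval_comp]; simp
      have e2 : (Zp K (n + 1)).comp (X + 1) = Zp K n * (X + 1) := by
        unfold Zp
        rw [Finset.prod_range_succ', mul_comp, Polynomial.prod_comp]
        simp only [sub_comp, X_comp, C_comp]
        congr 1
        · refine Finset.prod_congr rfl fun j _ => ?_
          push_cast
          rw [map_add, map_one]
          ring
        · simp
      rw [e, e2, map_mul, ih', zero_mul]
    have h2 : aeval T' (Zp K (n + 1)) = 0 := by
      have e2 : Zp K (n + 1) = Zp K n * (X - C ((n + 1 : ℕ) : K)) := by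
        unfold Zp
        rw [Finset.prod_range_succ]
      rw [e2, map_mul, ih', zero_mul]
    have h3 := aeval_mul_idem T' Q hc (hid _) (Zp K (n + 1))
    have h4 := aeval_mul_coidem T' Q hc (hid _) (Zp K (n + 1))
    rw [h1, zero_mul] at h3
    rw [h2, zero_mul] at h4
    have h5 : aeval (T' + Q) (Zp K (n + 1)) =
        aeval (T' + Q) (Zp K (n + 1)) * Q + aeval (T' + Q) (Zp K (n + 1)) * (1 - Q) := by
      rw [← mul_add]; simp
    rw [h5, h3, h4, add_zero]

/-- If `p(T) g = 0` and `p` has at most one root in `{0, …, n}` then `g` is an eigenvector. -/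
theorem exists_eig [CharZero K] {n : ℕ} (T : Module.End K V) (hZ : aeval T (Zp K n) = 0)
    (p : K[X]) (g : V) (hp : aeval T p g = 0)
    (huniq : ∀ m₁ ≤ n, ∀ m₂ ≤ n, p.eval (m₁ : K) = 0 → p.eval (m₂ : K) = 0 → m₁ = m₂) :
    ∃ m : ℕ, T g = (m : K) • g := by
  classical
  have hcop : ∀ s : Finset ℕ, (∀ j ∈ s, p.eval (j : K) ≠ 0) →
      IsCoprime p (∏ j ∈ s, (X - C (j : K))) := by
    intro s hs
    refine IsCoprime.prod_right fun j hj => ?_
    have hirr : Irreducible (X - C (j : K)) := irreducible_X_sub_C _
    refine ((hirr.coprime_iff_not_dvd).2 ?_).symm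
    rw [dvd_iff_isRoot]
    exact hs j hj
  by_cases h : ∃ m ≤ n, p.eval (m : K) = 0
  · obtain ⟨m, hm, hm0⟩ := h
    refine ⟨m, ?_⟩
    have hmem : m ∈ Finset.range (n + 1) := Finset.mem_range.2 (by omega)
    have hc := hcop ((Finset.range (n + 1)).erase m) (fun j hj hj0 => by
      rw [Finset.mem_erase, Finset.mem_range] at hj
      exact hj.1 (huniq j (by omega) m hm hj0 hm0))
    obtain ⟨a, b, hab⟩ := hc
    have hg : g = aeval T b (aeval T (∏ j ∈ (Finset.range (n + 1)).erase m, (X - C (j : K))) g) := by
      have := congrArg (fun q => aeval T q g) hab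
      simp only [map_add, map_mul, map_one, LinearMap.add_apply, Module.End.mul_apply,
        Module.End.one_apply, hp, map_zero, zero_add] at this
      exact this.symm
    have hz : aeval T (X - C (m : K)) g = 0 := by
      rw [hg]
      have e : (X - C (m : K)) * (b * ∏ j ∈ (Finset.range (n + 1)).erase m, (X - C (j : K))) =
          b * Zp K n := by
        unfold Zp
        rw [← Finset.mul_prod_erase _ _ hmem]
        ring
      have e2 := congrArg (fun q => aeval T q g) e
      simp only [map_mul, Module.End.mul_apply, hZ, LinearMap.zero_apply, map_zero] at e2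
      exact e2
    rw [map_sub, aeval_X, aeval_C, LinearMap.sub_apply, sub_eq_zero] at hz
    rw [hz]
    rfl
  · push Not at h
    refine ⟨0, ?_⟩
    have hc := hcop (Finset.range (n + 1)) (fun j hj => h j (by
      rw [Finset.mem_range] at hj; omega))
    obtain ⟨a, b, hab⟩ := hc
    have hg : g = 0 := by
      have := congrArg (fun q => aeval T q g) hab
      have hZ' : aeval T (∏ j ∈ Finset.range (n + 1), (X - C (j : K))) = 0 := hZ
      simp only [map_add, map_mul, map_one, LinearMap.add_apply, Module.End.mul_apply,
        Module.End.one_apply, hp, map_zero, zero_add, hZ', LinearMap.zero_apply] at this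
      exact this.symm
    rw [hg]
    simp

end Pool.Agent.TH500.PC
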