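import Pool.Agent.TH500.PC.Code

/-!
Lloyd's theorem and the sphere packing condition for perfect 2-error-correcting codes.
-/

set_option autoImplicit false

open Polynomial Function

namespace Pool.Agent.TH500.PC

variable {α : Type} [Fintype α] [DecidableEq α] {n : ℕ}

/-- twice the Lloyd polynomial in the variable `n - j` -/
noncomputable def Lam (q n : ℚ) : ℚ[X] :=
  C (q ^ 2) * X ^ 2 + C ((4 - 2 * n - q) * q) * X + C ((n - 1) * (n - 2))

lemma Lam_eval (q n t : ℚ) :
    (Lam q n).eval t = q ^ 2 * t ^ 2 + (4 - 2 * n - q) * q * t + (n - 1) * (n - 2) := by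
  unfold Lam
  simp


lemma Lam_apply (q r : ℚ) (T : Module.End ℚ ((Fin n → α) → ℚ)) (h : (Fin n → α) → ℚ)
    (x : Fin n → α) :
    (aeval T (Lam q r) h) x =
      q ^ 2 * T (T h) x + (4 - 2 * r - q) * q * T h x + (r - 1) * (r - 2) * h x := by
  unfold Lam
  simp only [map_add, map_mul, aeval_C, aeval_X, map_pow, pow_two, LinearMap.add_apply,
    Module.End.mul_apply, Module.algebraMap_end_apply, Pi.add_apply, Pi.smul_apply, smul_eq_mul]
  ring

lemma ne_mem {C : Finset (Fin n → α)} (hC : Perfect2 C) {x c : Fin n → α} (hc : c ∈ C)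
    (hd : hammingDist x c ≤ 2) (hne : x ≠ c) : x ∉ C := by
  intro hx
  obtain ⟨c', hc', huniq⟩ := hC x
  exact hne ((huniq x ⟨hx, by simp⟩).trans (huniq c ⟨hc, hd⟩).symm)

lemma Lam_ind [Nonempty α] {C : Finset (Fin n → α)} (hC : Perfect2 C) (x : Fin n → α) :
    (aeval (TT α n) (Lam (Fintype.card α) n) (ind C)) x = 2 := by
  obtain ⟨c, ⟨hc, hd⟩, -⟩ := hC x
  rw [Lam_apply]
  have h1 := T1 hC hc hd
  have h2 := T2 hC hc hd
  have e : (4 - 2 * (n : ℚ) - (Fintype.card α : ℚ)) * (Fintype.card α : ℚ) * TT α n (ind C) x =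
      (4 - 2 * (n : ℚ) - (Fintype.card α : ℚ)) * ((Fintype.card α : ℚ) * TT α n (ind C) x) := by
    ring
  rw [e, h1, h2]
  rcases counts hd with ⟨hx, e1, e2⟩ | ⟨hx, -, e1, e2⟩ | ⟨hx, -, e1, e2⟩
  · have hf : ind C x = 1 := by unfold ind; rw [hx, if_pos hc]
    rw [e1, e2, hf]; ring
  · have hf : ind C x = 0 := by unfold ind; rw [if_neg (ne_mem hC hc hd hx)]
    rw [e1, e2, hf]; ring
  · have hf : ind C x = 0 := by unfold ind; rw [if_neg (ne_mem hC hc hd hx)]
    rw [e1, e2, hf]; ring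

lemma TT_one [Nonempty α] : TT α n (fun _ => (1 : ℚ)) = fun _ => (n : ℚ) := by
  funext x
  rw [TT_apply]
  simp [avg_one]

lemma TT_const [Nonempty α] (c : ℚ) : TT α n (fun _ => c) = fun _ => (n : ℚ) * c := by
  have : (fun _ : Fin n → α => c) = c • (fun _ => (1 : ℚ)) := by
    funext x; simp
  rw [this, map_smul, TT_one]
  funext x
  simp [mul_comm]

lemma sum_TT [Nonempty α] (h : (Fin n → α) → ℚ) : ∑ x, TT α n h x = n * ∑ x, h x := by
  simp only [TT_apply]
  rw [Finset.sum_comm]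
  simp [sum_avg]

/-- the sphere packing condition -/
lemma packing [Nonempty α] {C : Finset (Fin n → α)} (hC : Perfect2 C) :
    (Lam (Fintype.card α) n).eval (n : ℚ) * C.card = 2 * (Fintype.card α : ℚ) ^ n := by
  have h1 : ∑ x, (aeval (TT α n) (Lam (Fintype.card α) n) (ind C)) x = ∑ _x : Fin n → α, (2 : ℚ) :=
    Finset.sum_congr rfl fun x _ => Lam_ind hC x
  simp only [Lam_apply] at h1
  rw [Finset.sum_add_distrib, Finset.sum_add_distrib, ← Finset.mul_sum, ← Finset.mul_sum,
    ← Finset.mul_sum, sum_TT, sum_TT] at h1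
  have h2 : ∑ x, ind C x = C.card := by
    unfold ind
    simp
  rw [h2] at h1
  rw [Lam_eval]
  have h3 : ∑ _x : Fin n → α, (2 : ℚ) = 2 * (Fintype.card α : ℚ) ^ n := by
    simp [mul_comm]
  rw [h3] at h1
  linarith

lemma three_le {C : Finset (Fin n → α)} (hC : Perfect2 C) (hcard : 2 ≤ C.card) : 3 ≤ n := by
  by_contra hn
  push Not at hn
  have hle : ∀ x y : Fin n → α, hammingDist x y ≤ 2 := fun x y =>
    (hammingDist_le_card_fintype).trans (by rw [Fintype.card_fin]; omega)
  obtain ⟨c, hc, c', hc', hne⟩ := Finset.one_lt_card.1 (show 1 < C.card by omega)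
  obtain ⟨d, hd, huniq⟩ := hC c
  exact hne ((huniq c ⟨hc, hle _ _⟩).trans (huniq c' ⟨hc', hle _ _⟩).symm)

/-- **Lloyd's theorem** for perfect 2-error-correcting codes over any alphabet. -/
theorem lloyd {C : Finset (Fin n → α)} (hC : Perfect2 C) (hq : 2 ≤ Fintype.card α)
    (hcard : 2 ≤ C.card) :
    ∃ m₁ m₂ : ℕ, m₁ < m₂ ∧ m₂ < n ∧ 3 ≤ n ∧
      (Fintype.card α) * (m₁ + m₂) + 4 = 2 * n + Fintype.card α ∧
      (Fintype.card α) ^ 2 * (m₁ * m₂) = (n - 1) * (n - 2) ∧
      (Fintype.card α) ^ 2 * ((n - m₁) * (n - m₂)) * C.card = 2 * (Fintype.card α) ^ n := by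
  classical
  haveI : Nonempty α := Fintype.card_pos_iff.1 (by omega)
  have hn := three_le hC hcard
  set q : ℚ := (Fintype.card α : ℚ) with hqdef
  have hq2 : (2 : ℚ) ≤ q := by rw [hqdef]; exact_mod_cast hq
  have hn3 : (3 : ℚ) ≤ n := by exact_mod_cast hn
  have hLn : 0 < (Lam q n).eval (n : ℚ) := by
    rw [Lam_eval]
    nlinarith [mul_nonneg (mul_nonneg (show (0 : ℚ) ≤ q - 1 by linarith)
      (show (0 : ℚ) ≤ n by linarith)) (mul_nonneg (show (0 : ℚ) ≤ q - 1 by linarith)
      (show (0 : ℚ) ≤ (n : ℚ) - 1 by linarith)), mul_nonneg (show (0 : ℚ) ≤ q - 1 by linarith)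
      (show (0 : ℚ) ≤ n by linarith)]
  -- two distinct roots
  have hroots : ∃ m₁ ≤ n, ∃ m₂ ≤ n, (Lam q n).eval (m₁ : ℚ) = 0 ∧ (Lam q n).eval (m₂ : ℚ) = 0 ∧
      m₁ ≠ m₂ := by
    by_contra hcon
    push Not at hcon
    set γ : ℚ := 2 / (Lam q n).eval (n : ℚ) with hγ
    have hγ0 : γ ≠ 0 := by rw [hγ]; positivity
    set g : (Fin n → α) → ℚ := fun x => ind C x - γ with hg
    have hTg : ∀ x, TT α n g x = TT α n (ind C) x - n * γ := by
      intro x
      have : g = ind C - (fun _ => γ) := by funext y; rfl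
      rw [this, map_sub, TT_const]
      rfl
    have hTTg : ∀ x, TT α n (TT α n g) x = TT α n (TT α n (ind C)) x - n * (n * γ) := by
      intro x
      have : TT α n g = TT α n (ind C) - (fun _ => (n : ℚ) * γ) := by
        funext y; rw [hTg]; rfl
      rw [this, map_sub, TT_const]
      rfl
    have hpg : aeval (TT α n) (Lam q n) g = 0 := by
      funext x
      rw [Lam_apply, hTg, hTTg]
      have h1 := Lam_ind hC x
      rw [← hqdef, Lam_apply] at h1
      have h2 : (Lam q n).eval (n : ℚ) * γ = 2 := by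
        rw [hγ]; field_simp
      rw [Lam_eval] at h2
      simp only [hg, Pi.zero_apply]
      linear_combination h1 - h2
    obtain ⟨m, hm⟩ := exists_eig (TT α n)
      (aeval_Zp_sum (K := ℚ) (fun i => avg (α := α) i) (fun i => avg_idem i)
        (fun i j => avg_comm i j)) (Lam q n) g hpg
      (fun m₁ h₁ m₂ h₂ e₁ e₂ => hcon m₁ h₁ m₂ h₂ e₁ e₂)
    obtain ⟨c, hc, -⟩ := Finset.one_lt_card.1 (show 1 < C.card by omega)
    haveI : Nontrivial α := Fintype.one_lt_card_iff_nontrivial.1 (by omega)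
    let i0 : Fin n := ⟨0, by omega⟩
    let i1 : Fin n := ⟨1, by omega⟩
    have hi : i0 ≠ i1 := by
      intro h
      have := congrArg Fin.val h
      simp [i0, i1] at this
    obtain ⟨a0, ha0⟩ := exists_ne (c i0)
    obtain ⟨a1, ha1⟩ := exists_ne (c i1)
    set x1 := update c i0 a0 with hx1
    set x2 := update x1 i1 a1 with hx2
    have hd1 : hammingDist x1 c ≤ 1 := by
      rw [hammingDist_comm]; exact hammingDist_update_le c i0 a0
    have hx1c : x1 ≠ c := by
      intro h
      have := congrFun h i0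
      rw [hx1, update_self] at this
      exact ha0 this
    have hd2 : hammingDist x2 c ≤ 2 := by
      calc hammingDist x2 c ≤ hammingDist x2 x1 + hammingDist x1 c := hammingDist_triangle _ _ _
        _ ≤ 1 + 1 := add_le_add (by rw [hammingDist_comm]; exact hammingDist_update_le _ _ _) hd1
    have hx2v : x2 i0 ≠ c i0 ∧ x2 i1 ≠ c i1 := by
      constructor
      · rw [hx2, update_of_ne hi, hx1, update_self]; exact ha0
      · rw [hx2, update_self]; exact ha1
    have hd2' : 2 ≤ hammingDist x2 c := by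
      unfold hammingDist
      calc 2 = ({i0, i1} : Finset (Fin n)).card := (Finset.card_pair hi).symm
        _ ≤ _ := by
            apply Finset.card_le_card
            intro l hl
            rw [Finset.mem_insert, Finset.mem_singleton] at hl
            rw [Finset.mem_filter]
            refine ⟨Finset.mem_univ _, ?_⟩
            rcases hl with rfl | rfl
            · exact hx2v.1
            · exact hx2v.2
    have hx2c : x2 ≠ c := fun h => hx2v.1 (congrFun h i0)
    have g1 : ind C x1 = 0 := by unfold ind; rw [if_neg (ne_mem hC hc (by omega) hx1c)]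
    have g2 : ind C x2 = 0 := by unfold ind; rw [if_neg (ne_mem hC hc hd2 hx2c)]
    have t1 : q * TT α n (ind C) x1 = 1 := by
      rw [hqdef, T1 hC hc (show hammingDist x1 c ≤ 2 by omega)]
      rcases counts (show hammingDist x1 c ≤ 2 by omega) with ⟨hx, -⟩ | ⟨-, -, e1, -⟩ | ⟨-, h', -⟩
      · exact absurd hx hx1c
      · exact e1
      · omega
    have t2 : q * TT α n (ind C) x2 = 0 := by
      rw [hqdef, T1 hC hc hd2]
      rcases counts hd2 with ⟨hx, -⟩ | ⟨-, h', -⟩ | ⟨-, -, e1, -⟩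
      · exact absurd hx hx2c
      · omega
      · exact e1
    have m1 := congrFun hm x1
    have m2 := congrFun hm x2
    rw [hTg] at m1 m2
    simp only [Pi.smul_apply, smul_eq_mul, hg, g1, g2] at m1 m2
    have t2' : TT α n (ind C) x2 = 0 := by
      rcases mul_eq_zero.1 t2 with h | h
      · linarith
      · exact h
    rw [t2'] at m2
    have : q * TT α n (ind C) x1 = 0 := by
      have : TT α n (ind C) x1 = 0 := by linarith
      rw [this, mul_zero]
    linarith
  obtain ⟨m₁, h₁, m₂, h₂, e₁, e₂, hne⟩ := hroots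
  -- wlog m₁ < m₂
  have key : ∀ m₁ m₂ : ℕ, m₁ ≤ n → m₂ ≤ n → (Lam q n).eval (m₁ : ℚ) = 0 →
      (Lam q n).eval (m₂ : ℚ) = 0 → m₁ < m₂ → ∃ m₁ m₂ : ℕ, m₁ < m₂ ∧ m₂ < n ∧ 3 ≤ n ∧
      (Fintype.card α) * (m₁ + m₂) + 4 = 2 * n + Fintype.card α ∧
      (Fintype.card α) ^ 2 * (m₁ * m₂) = (n - 1) * (n - 2) ∧
      (Fintype.card α) ^ 2 * ((n - m₁) * (n - m₂)) * C.card = 2 * (Fintype.card α) ^ n := by
    intro m₁ m₂ h₁ h₂ e₁ e₂ hlt
    rw [Lam_eval] at e₁ e₂
    have hlt' : (m₁ : ℚ) < m₂ := by exact_mod_cast hlt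
    have hq0 : q ≠ 0 := by linarith
    have hsum : q * (m₁ + m₂) + 4 = 2 * n + q := by
      have h : (q * (m₂ - m₁)) * (q * (m₁ + m₂) + 4 - 2 * n - q) = 0 := by
        linear_combination e₂ - e₁
      rcases mul_eq_zero.1 h with h | h
      · exfalso
        rcases mul_eq_zero.1 h with h | h
        · exact hq0 h
        · linarith
      · linarith
    have hprod : q ^ 2 * (m₁ * m₂) = (n - 1) * (n - 2) := by
      linear_combination q * m₁ * hsum - e₁
    have hm2n : m₂ ≠ n := by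
      rintro rfl
      rw [Lam_eval] at hLn
      linarith
    have hpk := packing hC
    rw [← hqdef, Lam_eval] at hpk
    have hfac : q ^ 2 * (n : ℚ) ^ 2 + (4 - 2 * n - q) * q * n + (n - 1) * (n - 2) =
        q ^ 2 * ((n - m₁) * (n - m₂)) := by
      linear_combination (-1 : ℚ) * hprod + q * n * hsum
    rw [hfac] at hpk
    refine ⟨m₁, m₂, hlt, by omega, hn, ?_, ?_, ?_⟩
    · have : ((Fintype.card α * (m₁ + m₂) + 4 : ℕ) : ℚ) = ((2 * n + Fintype.card α : ℕ) : ℚ) := by
        push_cast; rw [← hqdef]; exact hsum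
      exact_mod_cast this
    · have : (((Fintype.card α) ^ 2 * (m₁ * m₂) : ℕ) : ℚ) = (((n - 1) * (n - 2) : ℕ) : ℚ) := by
        push_cast [Nat.cast_sub (show 1 ≤ n by omega), Nat.cast_sub (show 2 ≤ n by omega)]
        rw [← hqdef]; exact hprod
      exact_mod_cast this
    · have : (((Fintype.card α) ^ 2 * ((n - m₁) * (n - m₂)) * C.card : ℕ) : ℚ) =
          ((2 * (Fintype.card α) ^ n : ℕ) : ℚ) := by
        push_cast [Nat.cast_sub h₁, Nat.cast_sub h₂]
        rw [← hqdef]; exact hpk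
      exact_mod_cast this
  rcases lt_or_gt_of_ne hne with h | h
  · exact key m₁ m₂ h₁ h₂ e₁ e₂ h
  · exact key m₂ m₁ h₂ h₁ e₂ e₁ h

end Pool.Agent.TH500.PC
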