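import Pool.Agent.TH500.PC.Lloyd

/-!
Perfect 2-error-correcting codes: the averaging operators over a field `K` in which the alphabet
size is invertible, and a new necessary condition: every odd prime dividing the difference of
the two zeros of the Lloyd polynomial divides the alphabet size.
-/

set_option autoImplicit false

open Polynomial Function

namespace Pool.Agent.TH500.PC.ModK

variable {K : Type} [Field K] {α : Type} [Fintype α] [DecidableEq α] {n : ℕ}

/-- averaging over coordinate `i` -/
noncomputable def avg (K : Type) [Field K] {α : Type} [Fintype α] [DecidableEq α] {n : ℕ}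
    (i : Fin n) : Module.End K ((Fin n → α) → K) where
  toFun h := fun x => (Fintype.card α : K)⁻¹ * ∑ a, h (update x i a)
  map_add' h₁ h₂ := by
    funext x
    simp only [Pi.add_apply, Finset.sum_add_distrib, mul_add]
  map_smul' c h := by
    funext x
    simp only [Pi.smul_apply, smul_eq_mul, RingHom.id_apply, ← Finset.mul_sum]
    ring

lemma avg_apply (i : Fin n) (h : (Fin n → α) → K) (x : Fin n → α) :
    avg K i h x = (Fintype.card α : K)⁻¹ * ∑ a, h (update x i a) := rfl

lemma avg_idem (hq : (Fintype.card α : K) ≠ 0) (i : Fin n) :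
    (avg K i : Module.End K ((Fin n → α) → K)) * avg K i = avg K i := by
  refine LinearMap.ext fun h => funext fun x => ?_
  rw [Module.End.mul_apply, avg_apply]
  have : ∀ a, avg K i h (update x i a) = avg K i h x := by
    intro a
    rw [avg_apply, avg_apply]
    simp only [update_idem]
  simp only [this, Finset.sum_const, Finset.card_univ, nsmul_eq_mul]
  field_simp

lemma avg_comm (i j : Fin n) :
    (avg K i : Module.End K ((Fin n → α) → K)) * avg K j = avg K j * avg K i := by
  by_cases hij : i = j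
  · rw [hij]
  refine LinearMap.ext fun h => funext fun x => ?_
  rw [Module.End.mul_apply, Module.End.mul_apply]
  simp only [avg_apply, Finset.mul_sum]
  rw [Finset.sum_comm]
  refine Finset.sum_congr rfl fun a _ => Finset.sum_congr rfl fun b _ => ?_
  rw [update_comm hij]

lemma avg_one (hq : (Fintype.card α : K) ≠ 0) (i : Fin n) :
    avg K (α := α) i (fun _ => (1 : K)) = fun _ => 1 := by
  funext x
  rw [avg_apply]
  simp only [Finset.sum_const, Finset.card_univ, nsmul_eq_mul, mul_one]
  field_simp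

/-- the sum of the averaging operators -/
noncomputable def TT (K : Type) [Field K] (α : Type) [Fintype α] [DecidableEq α] (n : ℕ) :
    Module.End K ((Fin n → α) → K) := ∑ i, avg K i

lemma TT_apply (h : (Fin n → α) → K) (x : Fin n → α) : TT K α n h x = ∑ i, avg K i h x := by
  unfold TT
  rw [LinearMap.sum_apply, Finset.sum_apply]

/-- indicator -/
def ind (K : Type) [Field K] {α : Type} [Fintype α] [DecidableEq α] {n : ℕ}
    (C : Finset (Fin n → α)) : (Fin n → α) → K := fun x => if x ∈ C then 1 else 0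

/-- first order sums -/
lemma sum1 {C : Finset (Fin n → α)} (hC : Perfect2 C) {x c : Fin n → α} (hc : c ∈ C)
    (hd : hammingDist x c ≤ 2) (i : Fin n) :
    ∑ a, ind K C (update x i a) = if (∀ l, l ≠ i → x l = c l) then 1 else 0 := by
  obtain ⟨c', hc', huniq⟩ := hC x
  have hcc : c = c' := huniq c ⟨hc, hd⟩
  have hmem : ∀ y, y ∈ C → hammingDist x y ≤ 2 → y = c := fun y hy hxy => by
    rw [hcc]; exact huniq y ⟨hy, hxy⟩
  have h1 : ∀ a, ind K C (update x i a) = if a = c i ∧ (∀ l, l ≠ i → x l = c l) then 1 else 0 := by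
    intro a
    unfold ind
    congr 1
    apply propext
    constructor
    · intro h
      have e := hmem _ h ((hammingDist_update_le x i a).trans (by norm_num))
      refine ⟨?_, ?_⟩
      · have := congrFun e i; simpa using this
      · intro l hl
        have := congrFun e l
        rwa [update_of_ne hl] at this
    · rintro ⟨ha, hl⟩
      have : update x i a = c := by
        funext l
        by_cases hli : l = i
        · subst hli; simp [ha]
        · rw [update_of_ne hli]; exact hl l hli
      rw [this]; exact hc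
  simp only [h1]
  by_cases h : ∀ l, l ≠ i → x l = c l
  · have e : ∀ a, (a = c i ∧ (∀ l, l ≠ i → x l = c l)) ↔ a = c i := fun a => and_iff_left h
    rw [if_pos h]
    simp only [e]
    simp
  · have e : ∀ a, (a = c i ∧ (∀ l, l ≠ i → x l = c l)) ↔ False :=
      fun a => ⟨fun h' => h h'.2, False.elim⟩
    rw [if_neg h]
    simp only [e]
    simp

lemma sum2 {C : Finset (Fin n → α)} (hC : Perfect2 C) {x c : Fin n → α} (hc : c ∈ C)
    (hd : hammingDist x c ≤ 2) (i j : Fin n) (hij : i ≠ j) :
    ∑ a, ∑ b, ind K C (update (update x i a) j b) =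
      if (∀ l, l ≠ i → l ≠ j → x l = c l) then 1 else 0 := by
  obtain ⟨c', hc', huniq⟩ := hC x
  have hcc : c = c' := huniq c ⟨hc, hd⟩
  have hmem : ∀ y, y ∈ C → hammingDist x y ≤ 2 → y = c := fun y hy hxy => by
    rw [hcc]; exact huniq y ⟨hy, hxy⟩
  have h1 : ∀ a b, ind K C (update (update x i a) j b) =
      if a = c i then (if b = c j ∧ (∀ l, l ≠ i → l ≠ j → x l = c l) then 1 else 0) else 0 := by
    intro a b
    have hle : hammingDist x (update (update x i a) j b) ≤ 2 := by
      calc hammingDist x (update (update x i a) j b)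
          ≤ hammingDist x (update x i a) + hammingDist (update x i a) (update (update x i a) j b) :=
            hammingDist_triangle _ _ _
        _ ≤ 1 + 1 := add_le_add (hammingDist_update_le _ _ _) (hammingDist_update_le _ _ _)
    rw [← ite_and]
    unfold ind
    congr 1
    apply propext
    constructor
    · intro h
      have e := hmem _ h hle
      refine ⟨?_, ?_, ?_⟩
      · have := congrFun e i
        rw [update_of_ne hij] at this
        simpa using this
      · have := congrFun e j; simpa using this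
      · intro l hl hl2
        have := congrFun e l
        rwa [update_of_ne hl2, update_of_ne hl] at this
    · rintro ⟨ha, hb, hl⟩
      have : update (update x i a) j b = c := by
        funext l
        by_cases hlj : l = j
        · subst hlj; simp [hb]
        · rw [update_of_ne hlj]
          by_cases hli : l = i
          · subst hli; simp [ha]
          · rw [update_of_ne hli]; exact hl l hli hlj
      rw [this]; exact hc
  simp only [h1]
  by_cases h : ∀ l, l ≠ i → l ≠ j → x l = c l
  · have e : ∀ b, (b = c j ∧ (∀ l, l ≠ i → l ≠ j → x l = c l)) ↔ b = c j :=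
      fun b => and_iff_left h
    rw [if_pos h]
    simp only [e]
    simp
  · have e : ∀ b, (b = c j ∧ (∀ l, l ≠ i → l ≠ j → x l = c l)) ↔ False :=
      fun b => ⟨fun h' => h h'.2, False.elim⟩
    rw [if_neg h]
    simp only [e]
    simp

/-- `q T f` -/
lemma T1 (hq : (Fintype.card α : K) ≠ 0) {C : Finset (Fin n → α)} (hC : Perfect2 C)
    {x c : Fin n → α} (hc : c ∈ C) (hd : hammingDist x c ≤ 2) :
    (Fintype.card α : K) * TT K α n (ind K C) x =
      ∑ i, (if (∀ l, l ≠ i → x l = c l) then (1 : K) else 0) := by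
  rw [TT_apply, Finset.mul_sum]
  refine Finset.sum_congr rfl fun i _ => ?_
  rw [avg_apply, sum1 hC hc hd i, ← mul_assoc, mul_inv_cancel₀ hq, one_mul]

/-- `q² T² f` -/
lemma T2 (hq : (Fintype.card α : K) ≠ 0) {C : Finset (Fin n → α)} (hC : Perfect2 C)
    {x c : Fin n → α} (hc : c ∈ C) (hd : hammingDist x c ≤ 2) :
    (Fintype.card α : K) ^ 2 * TT K α n (TT K α n (ind K C)) x =
      ∑ i, ∑ j, (if (∀ l, l ≠ i → l ≠ j → x l = c l) then (1 : K) else 0) +
      ((Fintype.card α : K) - 1) * ∑ i, (if (∀ l, l ≠ i → x l = c l) then (1 : K) else 0) := by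
  rw [TT_apply, Finset.mul_sum, Finset.mul_sum, ← Finset.sum_add_distrib]
  refine Finset.sum_congr rfl fun i _ => ?_
  have e : avg K i (TT K α n (ind K C)) x = ∑ j, avg K i (avg K j (ind K C)) x := by
    unfold TT
    rw [LinearMap.sum_apply, map_sum, Finset.sum_apply]
  rw [e, Finset.mul_sum]
  have hterm : ∀ j, (Fintype.card α : K) ^ 2 * avg K i (avg K j (ind K C)) x =
      (if (∀ l, l ≠ i → l ≠ j → x l = c l) then (1 : K) else 0) +
      (if j = i then ((Fintype.card α : K) - 1) * (if (∀ l, l ≠ i → x l = c l) then (1 : K) else 0)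
        else 0) := by
    intro j
    by_cases hij : i = j
    · subst hij
      rw [if_pos rfl]
      have e2 : avg K i (avg K i (ind K C)) x = avg K i (ind K C) x := by
        have := congrFun (congrArg (fun L => L (ind K C)) (avg_idem (α := α) hq i)) x
        simpa [Module.End.mul_apply] using this
      have e3 : (∀ l, l ≠ i → l ≠ i → x l = c l) ↔ (∀ l, l ≠ i → x l = c l) :=
        ⟨fun h l hl => h l hl hl, fun h l hl _ => h l hl⟩
      rw [e2, avg_apply, sum1 hC hc hd i]
      simp only [e3]
      field_simp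
      ring
    · rw [if_neg (show ¬ (j = i) from fun h => hij h.symm), add_zero, avg_apply]
      simp only [avg_apply]
      rw [← Finset.mul_sum]
      rw [sum2 hC hc hd i j hij]
      field_simp
  simp only [hterm]
  rw [Finset.sum_add_distrib]
  congr 1
  simp

/-- differing positions -/
lemma counts {x c : Fin n → α} (hd : hammingDist x c ≤ 2) :
    (x = c ∧ (∑ i, (if (∀ l, l ≠ i → x l = c l) then (1 : K) else 0)) = n ∧
      (∑ i, ∑ j, (if (∀ l, l ≠ i → l ≠ j → x l = c l) then (1 : K) else 0)) = n ^ 2) ∨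
    (x ≠ c ∧ hammingDist x c = 1 ∧ (∑ i, (if (∀ l, l ≠ i → x l = c l) then (1 : K) else 0)) = 1 ∧
      (∑ i, ∑ j, (if (∀ l, l ≠ i → l ≠ j → x l = c l) then (1 : K) else 0)) = 2 * n - 1) ∨
    (x ≠ c ∧ hammingDist x c = 2 ∧ (∑ i, (if (∀ l, l ≠ i → x l = c l) then (1 : K) else 0)) = 0 ∧
      (∑ i, ∑ j, (if (∀ l, l ≠ i → l ≠ j → x l = c l) then (1 : K) else 0)) = 2) := by
  have h1 : ∀ P : Fin n → Prop, ∀ [DecidablePred P], (∑ i, (if P i then (1 : K) else 0)) =
      ((((∑ i, (if P i then (1 : ℤ) else 0)) : ℤ)) : K) := by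
    intro P _
    push_cast
    rfl
  have h2 : ∀ P : Fin n → Fin n → Prop, ∀ [∀ i j, Decidable (P i j)],
      (∑ i, ∑ j, (if P i j then (1 : K) else 0)) =
      ((((∑ i, ∑ j, (if P i j then (1 : ℤ) else 0)) : ℤ)) : K) := by
    intro P _
    push_cast
    rfl
  have h3 : ∀ P : Fin n → Prop, ∀ [DecidablePred P], (∑ i, (if P i then (1 : ℚ) else 0)) =
      ((((∑ i, (if P i then (1 : ℤ) else 0)) : ℤ)) : ℚ) := by
    intro P _
    push_cast
    rfl
  have h4 : ∀ P : Fin n → Fin n → Prop, ∀ [∀ i j, Decidable (P i j)],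
      (∑ i, ∑ j, (if P i j then (1 : ℚ) else 0)) =
      ((((∑ i, ∑ j, (if P i j then (1 : ℤ) else 0)) : ℤ)) : ℚ) := by
    intro P _
    push_cast
    rfl
  rw [h1, h2]
  have h := PC.counts hd
  rw [h3, h4] at h
  rcases h with ⟨hx, e1, e2⟩ | ⟨hx, hdx, e1, e2⟩ | ⟨hx, hdx, e1, e2⟩
  · left
    refine ⟨hx, ?_, ?_⟩
    · have : ((∑ i, (if (∀ l, l ≠ i → x l = c l) then (1 : ℤ) else 0)) : ℤ) = (n : ℤ) := by
        exact_mod_cast e1
      rw [this]; push_cast; rfl
    · have : ((∑ i, ∑ j, (if (∀ l, l ≠ i → l ≠ j → x l = c l) then (1 : ℤ) else 0)) : ℤ) =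
          (n : ℤ) ^ 2 := by
        exact_mod_cast e2
      rw [this]; push_cast; rfl
  · right; left
    refine ⟨hx, hdx, ?_, ?_⟩
    · have : ((∑ i, (if (∀ l, l ≠ i → x l = c l) then (1 : ℤ) else 0)) : ℤ) = (1 : ℤ) := by
        exact_mod_cast e1
      rw [this]; push_cast; rfl
    · have : ((∑ i, ∑ j, (if (∀ l, l ≠ i → l ≠ j → x l = c l) then (1 : ℤ) else 0)) : ℤ) =
          2 * (n : ℤ) - 1 := by
        exact_mod_cast e2
      rw [this]; push_cast; rfl
  · right; right
    refine ⟨hx, hdx, ?_, ?_⟩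
    · have : ((∑ i, (if (∀ l, l ≠ i → x l = c l) then (1 : ℤ) else 0)) : ℤ) = (0 : ℤ) := by
        exact_mod_cast e1
      rw [this]; push_cast; rfl
    · have : ((∑ i, ∑ j, (if (∀ l, l ≠ i → l ≠ j → x l = c l) then (1 : ℤ) else 0)) : ℤ) =
          (2 : ℤ) := by
        exact_mod_cast e2
      rw [this]; push_cast; rfl

lemma Lam_ind (hq : (Fintype.card α : K) ≠ 0) {C : Finset (Fin n → α)} (hC : Perfect2 C)
    (x : Fin n → α) :
    (Fintype.card α : K) ^ 2 * TT K α n (TT K α n (ind K C)) x +
      (4 - 2 * (n : K) - (Fintype.card α : K)) * (Fintype.card α : K) * TT K α n (ind K C) x +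
      ((n : K) - 1) * ((n : K) - 2) * ind K C x = 2 := by
  obtain ⟨c, ⟨hc, hd⟩, -⟩ := hC x
  have h1 := T1 hq hC hc hd
  have h2 := T2 hq hC hc hd
  have e : (4 - 2 * (n : K) - (Fintype.card α : K)) * (Fintype.card α : K) * TT K α n (ind K C) x =
      (4 - 2 * (n : K) - (Fintype.card α : K)) *
        ((Fintype.card α : K) * TT K α n (ind K C) x) := by
    ring
  rw [e, h1, h2]
  rcases counts (K := K) hd with ⟨hx, e1, e2⟩ | ⟨hx, -, e1, e2⟩ | ⟨hx, -, e1, e2⟩
  · have hf : ind K C x = 1 := by unfold ind; rw [hx, if_pos hc]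
    rw [e1, e2, hf]; ring
  · have hf : ind K C x = 0 := by unfold ind; rw [if_neg (ne_mem hC hc hd hx)]
    rw [e1, e2, hf]; ring
  · have hf : ind K C x = 0 := by unfold ind; rw [if_neg (ne_mem hC hc hd hx)]
    rw [e1, e2, hf]; ring

lemma TT_one (hq : (Fintype.card α : K) ≠ 0) :
    TT K α n (fun _ => (1 : K)) = fun _ => (n : K) := by
  funext x
  rw [TT_apply]
  simp [avg_one hq]

lemma TT_const (hq : (Fintype.card α : K) ≠ 0) (c : K) :
    TT K α n (fun _ => c) = fun _ => (n : K) * c := by
  have : (fun _ : Fin n → α => c) = c • (fun _ => (1 : K)) := by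
    funext x; simp
  rw [this, map_smul, TT_one hq]
  funext x
  simp [mul_comm]

section Frob

variable {V : Type} [AddCommGroup V] [Module K V]

/-- In characteristic `ℓ` a sum `T` of commuting idempotents satisfies `T ^ ℓ = T`. -/
theorem aeval_frob_sum (ℓ : ℕ) [hℓ : Fact ℓ.Prime] [CharP K ℓ] {n : ℕ}
    (P : Fin n → Module.End K V) (hid : ∀ i, P i * P i = P i)
    (hcomm : ∀ i j, P i * P j = P j * P i) :
    aeval (∑ i, P i) ((X ^ ℓ - X : K[X])) = 0 := by
  induction n with
  | zero =>
    simp [hℓ.out.ne_zero]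
  | succ n ih =>
    have ih' := ih (fun i => P i.castSucc) (fun i => hid _) (fun i j => hcomm _ _)
    rw [Fin.sum_univ_castSucc]
    set T' := ∑ i : Fin n, P i.castSucc with hT'
    set Q := P (Fin.last n) with hQ
    have hc : T' * Q = Q * T' := by
      rw [hT', Finset.sum_mul, Finset.mul_sum]
      exact Finset.sum_congr rfl fun i _ => hcomm _ _
    have h1 : aeval (T' + 1) ((X ^ ℓ - X : K[X])) = 0 := by
      have e : aeval (T' + 1) ((X ^ ℓ - X : K[X])) = aeval T' (((X ^ ℓ - X : K[X])).comp (X + 1)) := by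
        rw [aeval_comp]; simp
      have e2 : ((X ^ ℓ - X : K[X])).comp (X + 1) = (X ^ ℓ - X : K[X]) := by
        rw [sub_comp, pow_comp, X_comp, add_pow_char, one_pow]
        ring
      rw [e, e2, ih']
    have h3 := aeval_mul_idem T' Q hc (hid _) ((X ^ ℓ - X : K[X]))
    have h4 := aeval_mul_coidem T' Q hc (hid _) ((X ^ ℓ - X : K[X]))
    rw [h1, zero_mul] at h3
    rw [ih', zero_mul] at h4
    have h5 : aeval (T' + Q) ((X ^ ℓ - X : K[X])) =
        aeval (T' + Q) ((X ^ ℓ - X : K[X])) * Q + aeval (T' + Q) ((X ^ ℓ - X : K[X])) * (1 - Q) := by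
      rw [← mul_add]; simp
    rw [h5, h3, h4, add_zero]

/-- over the prime field, `(T - m)^3 g = 0` implies `(T - m) g = 0` -/
theorem eig_of_cube (ℓ : ℕ) [hℓ : Fact ℓ.Prime] [CharP K ℓ] (h2 : ℓ ≠ 2) {n : ℕ}
    (P : Fin n → Module.End K V) (hid : ∀ i, P i * P i = P i)
    (hcomm : ∀ i j, P i * P j = P j * P i) (m : ℕ) (g : V)
    (hg : aeval (∑ i, P i) ((X - C (m : K)) ^ 3) g = 0) :
    aeval (∑ i, P i) ((X - C (m : K))) g = 0 := by
  have h := aeval_frob_sum ℓ P hid hcomm
  have hge : 3 ≤ ℓ := by
    have := hℓ.out.two_le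
    omega
  have hm : (C (m : K) : K[X]) ^ ℓ = C (m : K) := by
    rw [← C_pow]
    congr 1
    have h1 : ((m : ZMod ℓ)) ^ ℓ = m := ZMod.pow_card _
    have h2 := congrArg (ZMod.castHom (dvd_refl ℓ) K) h1
    rw [map_pow, map_natCast] at h2
    exact h2
  have e : (X ^ ℓ - X : K[X]) = (X - C (m : K)) ^ (ℓ - 3) * (X - C (m : K)) ^ 3 -
      (X - C (m : K)) := by
    rw [← pow_add, Nat.sub_add_cancel hge, sub_pow_char, hm]
    ring
  rw [e] at h
  have h6 := congrArg (fun L => L g) h
  simp only [map_sub, map_mul, LinearMap.sub_apply, Module.End.mul_apply, LinearMap.zero_apply] at h6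
  simp only [map_pow, map_sub] at hg
  simp only [map_pow, map_sub, hg, map_zero, zero_sub, neg_eq_zero] at h6
  simpa using h6

end Frob

end Pool.Agent.TH500.PC.ModK
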