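import Pool.Agent.TH500.PC.Extra

/-!
Refined residues for odd `q`, and a lower bound for the zeros.
-/

set_option autoImplicit false

open NumberTheorySymbols

namespace Pool.Agent.TH500.PC

def tb1 (r s : ℕ) : Bool :=
  !(r % 2 == 1) || !(s % 2 == 0) ||
    ((!(r % 4 == 1) || (((r * (s * (s + 1))) % 16 + s + 2) % 8 == 2 &&
      ((r * (s * (s + 1))) % 16 + 17 - s) % 4 == 1)) &&
    (!(r % 8 == 3) || ((((r * (s * (s + 1))) % 16 + s + 2) % 16 == 2 ||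
      ((r * (s * (s + 1))) % 16 + s + 2) % 16 == 6) &&
      ((r * (s * (s + 1))) % 16 + 17 - s) % 8 == 1)) &&
    (!(r % 8 == 7) || ((((r * (s * (s + 1))) % 16 + s + 2) % 16 == 2 ||
      ((r * (s * (s + 1))) % 16 + s + 2) % 16 == 14) &&
      ((r * (s * (s + 1))) % 16 + 17 - s) % 8 == 1)))

def tb2 (r s : ℕ) : Bool :=
  !(r % 2 == 1) || !(s % 2 == 1) ||
    ((!(r % 4 == 1) || (((r * (s * (s + 1))) % 16 + s + 2) % 4 == 1 &&
      ((r * (s * (s + 1))) % 16 + 17 - s) % 8 == 2)) &&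
    (!(r % 8 == 3) || (((r * (s * (s + 1))) % 16 + s + 2) % 8 == 1 &&
      (((r * (s * (s + 1))) % 16 + 17 - s) % 16 == 2 ||
        ((r * (s * (s + 1))) % 16 + 17 - s) % 16 == 6))) &&
    (!(r % 8 == 7) || (((r * (s * (s + 1))) % 16 + s + 2) % 8 == 1 &&
      (((r * (s * (s + 1))) % 16 + 17 - s) % 16 == 2 ||
        ((r * (s * (s + 1))) % 16 + 17 - s) % 16 == 14))))

set_option maxRecDepth 100000 in
lemma tb1_all : ∀ r s : Fin 16, tb1 r s = true := by decide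

set_option maxRecDepth 100000 in
lemma tb2_all : ∀ r s : Fin 16, tb2 r s = true := by decide

lemma table1 {r s : ℕ} (hr : r < 16) (hs : s < 16) (h1 : r % 2 = 1) (h2 : s % 2 = 0) :
    (r % 4 = 1 → ((r * (s * (s + 1))) % 16 + s + 2) % 8 = 2 ∧
      ((r * (s * (s + 1))) % 16 + 17 - s) % 4 = 1) ∧
    (r % 8 = 3 → (((r * (s * (s + 1))) % 16 + s + 2) % 16 = 2 ∨
      ((r * (s * (s + 1))) % 16 + s + 2) % 16 = 6) ∧
      ((r * (s * (s + 1))) % 16 + 17 - s) % 8 = 1) ∧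
    (r % 8 = 7 → (((r * (s * (s + 1))) % 16 + s + 2) % 16 = 2 ∨
      ((r * (s * (s + 1))) % 16 + s + 2) % 16 = 14) ∧
      ((r * (s * (s + 1))) % 16 + 17 - s) % 8 = 1) := by
  have h := tb1_all ⟨r, hr⟩ ⟨s, hs⟩
  simp only [tb1, Bool.or_eq_true, Bool.and_eq_true, Bool.not_eq_true', beq_iff_eq,
    beq_eq_false_iff_ne, ne_eq] at h
  tauto

lemma table2 {r s : ℕ} (hr : r < 16) (hs : s < 16) (h1 : r % 2 = 1) (h2 : s % 2 = 1) :
    (r % 4 = 1 → ((r * (s * (s + 1))) % 16 + s + 2) % 4 = 1 ∧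
      ((r * (s * (s + 1))) % 16 + 17 - s) % 8 = 2) ∧
    (r % 8 = 3 → ((r * (s * (s + 1))) % 16 + s + 2) % 8 = 1 ∧
      (((r * (s * (s + 1))) % 16 + 17 - s) % 16 = 2 ∨
        ((r * (s * (s + 1))) % 16 + 17 - s) % 16 = 6)) ∧
    (r % 8 = 7 → ((r * (s * (s + 1))) % 16 + s + 2) % 8 = 1 ∧
      (((r * (s * (s + 1))) % 16 + 17 - s) % 16 = 2 ∨
        ((r * (s * (s + 1))) % 16 + 17 - s) % 16 = 14)) := by
  have h := tb2_all ⟨r, hr⟩ ⟨s, hs⟩
  simp only [tb2, Bool.or_eq_true, Bool.and_eq_true, Bool.not_eq_true', beq_iff_eq,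
    beq_eq_false_iff_ne, ne_eq] at h
  tauto

/-- refined residues of the two zeros for odd `q` -/
theorem odd_res2 {q x y : ℕ} (h : Sol q x y) (hq2 : q % 2 = 1) :
    ∃ e o k : ℕ, Pair q e o ∧ e % 2 = 0 ∧ o % 2 = 1 ∧ 1 ≤ k ∧ e + o = 2 * (q * (k * (k + 1))) + 3 ∧
      ((o + k = q * (k * (k + 1)) + 1 ∧ e = q * (k * (k + 1)) + k + 2) ∨
        (e + k = q * (k * (k + 1)) + 1 ∧ o = q * (k * (k + 1)) + k + 2)) ∧
      (q % 4 = 1 → e % 8 = 2 ∧ o % 4 = 1) ∧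
      (q % 8 = 3 → (e % 16 = 2 ∨ e % 16 = 6) ∧ o % 8 = 1) ∧
      (q % 8 = 7 → (e % 16 = 2 ∨ e % 16 = 14) ∧ o % 8 = 1) := by
  have hodd : Odd (x + y) := by
    have heq := h.eq
    by_contra hcon
    rw [Nat.not_odd_iff_even] at hcon
    obtain ⟨s, hs⟩ := hcon
    have hd : ((y : ℤ) - x) = 2 * ((y : ℤ) - s) := by
      have : (x : ℤ) + y = s + s := by exact_mod_cast hs
      linarith
    rw [hd] at heq
    obtain ⟨u, hu⟩ : ∃ u : ℤ, (q : ℤ) * (2 * ((y : ℤ) - s)) ^ 2 = 4 * u := ⟨q * (y - s) ^ 2, by ring⟩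
    have e1 : (q : ℤ) * ((2 * ((y : ℤ) - s)) ^ 2 - 1) = 4 * u - q := by rw [← hu]; ring
    rw [e1] at heq
    omega
  obtain ⟨e, o, k, hP, he, ho, hk1, hsum, hshape⟩ := h.exists_pair hodd
  refine ⟨e, o, k, hP, he, ho, hk1, hsum, hshape, ?_⟩
  obtain ⟨Z, hZ⟩ : ∃ Z, Z = q * (k * (k + 1)) := ⟨_, rfl⟩
  have hZm : Z % 16 = ((q % 16) * ((k % 16) * ((k % 16) + 1))) % 16 := by
    rw [hZ]
    have h1 : (k + 1) % 16 = (k % 16 + 1) % 16 := by omega
    rw [Nat.mul_mod, Nat.mul_mod k (k + 1), h1]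
    conv_rhs => rw [Nat.mul_mod, Nat.mod_mod, Nat.mul_mod (k % 16) (k % 16 + 1), Nat.mod_mod]
  have hZ2 : Z % 2 = 0 := by
    obtain ⟨m, hm⟩ := Nat.even_mul_succ_self k
    have : Z = 2 * (q * m) := by rw [hZ, hm]; ring
    omega
  rw [← hZ] at hshape
  rcases hshape with ⟨h1, h2⟩ | ⟨h1, h2⟩
  · have ht := table1 (r := q % 16) (s := k % 16) (Nat.mod_lt _ (by norm_num))
      (Nat.mod_lt _ (by norm_num)) (by omega) (by omega)
    rw [← hZm] at ht
    obtain ⟨t1, t2, t3⟩ := ht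
    refine ⟨fun hq => ?_, fun hq => ?_, fun hq => ?_⟩
    · have := t1 (by omega)
      omega
    · have := t2 (by omega)
      omega
    · have := t3 (by omega)
      omega
  · have ht := table2 (r := q % 16) (s := k % 16) (Nat.mod_lt _ (by norm_num))
      (Nat.mod_lt _ (by norm_num)) (by omega) (by omega)
    rw [← hZm] at ht
    obtain ⟨t1, t2, t3⟩ := ht
    refine ⟨fun hq => ?_, fun hq => ?_, fun hq => ?_⟩
    · have := t1 (by omega)
      omega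
    · have := t2 (by omega)
      omega
    · have := t3 (by omega)
      omega

/-- the two zeros are at least about `q ^ 2 / 4` -/
lemma Pair.big {q e o k : ℕ} (hP : Pair q e o) (hq : 3 ≤ q) (hk : 1 ≤ k)
    (hshape : (o + k = q * (k * (k + 1)) + 1 ∧ e = q * (k * (k + 1)) + k + 2) ∨
        (e + k = q * (k * (k + 1)) + 1 ∧ o = q * (k * (k + 1)) + k + 2)) :
    (q - 1) * (q - 1) < 4 * e ∧ (q - 1) * (q - 1) < 4 * o := by
  have hw : ((e : ℤ) - o) ^ 2 - 1 = 4 * ((k : ℤ) * (k + 1)) := by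
    rcases hshape with ⟨h1, h2⟩ | ⟨h1, h2⟩
    · have e1 : (o : ℤ) + k = q * (k * (k + 1)) + 1 := by exact_mod_cast h1
      have e2 : (e : ℤ) = q * (k * (k + 1)) + k + 2 := by exact_mod_cast h2
      have : (e : ℤ) - o = 2 * k + 1 := by linarith
      rw [this]; ring
    · have e1 : (e : ℤ) + k = q * (k * (k + 1)) + 1 := by exact_mod_cast h1
      have e2 : (o : ℤ) = q * (k * (k + 1)) + k + 2 := by exact_mod_cast h2
      have : (e : ℤ) - o = -(2 * k + 1) := by linarith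
      rw [this]; ring
  have hd := hP.dvd
  rw [hw] at hd
  have hd' : (q - 1) ∣ 4 * (k * (k + 1)) := by
    have : ((q - 1 : ℕ) : ℤ) ∣ ((4 * (k * (k + 1)) : ℕ) : ℤ) := by
      rw [Nat.cast_sub (by omega)]; push_cast; exact hd
    exact_mod_cast this
  have hle := Nat.le_of_dvd (by positivity) hd'
  have h1 : (q - 1) * (q - 1) ≤ (q - 1) * (4 * (k * (k + 1))) := Nat.mul_le_mul le_rfl hle
  have h2 : q * (k * (k + 1)) = (q - 1) * (k * (k + 1)) + k * (k + 1) := by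
    obtain ⟨q', rfl⟩ : ∃ q', q = q' + 1 := ⟨q - 1, by omega⟩
    rw [Nat.add_sub_cancel]; ring
  have h3 : (q - 1) * (4 * (k * (k + 1))) = 4 * ((q - 1) * (k * (k + 1))) := by ring
  have h4 : k ≤ k * (k + 1) := Nat.le_mul_of_pos_right _ (by omega)
  rw [h2] at hshape
  rw [h3] at h1
  generalize (q - 1) * (k * (k + 1)) = A at *
  generalize k * (k + 1) = B at *
  generalize (q - 1) * (q - 1) = D at *
  omega

end Pool.Agent.TH500.PC
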