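import Pool.Agent.TH500.PC.ModK

/-!
A new necessary condition for perfect 2-error-correcting codes: every odd prime dividing the
difference of the two zeros of the Lloyd polynomial divides the alphabet size.
-/

set_option autoImplicit false

open Polynomial Function

namespace Pool.Agent.TH500.PC

variable {α : Type} [Fintype α] [DecidableEq α] {n : ℕ}

/-- there is a point at distance exactly two from a codeword -/
lemma exists_dist_two (hq : 2 ≤ Fintype.card α) (hn : 2 ≤ n) (c : Fin n → α) :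
    ∃ x : Fin n → α, hammingDist x c = 2 := by
  classical
  haveI : Nontrivial α := Fintype.one_lt_card_iff_nontrivial.1 (by omega)
  let i0 : Fin n := ⟨0, by omega⟩
  let i1 : Fin n := ⟨1, by omega⟩
  have hi : i0 ≠ i1 := by
    intro h
    have := congrArg Fin.val h
    simp [i0, i1] at this
  obtain ⟨a0, ha0⟩ := exists_ne (c i0)
  obtain ⟨a1, ha1⟩ := exists_ne (c i1)
  set x1 := update c i0 a0 with hx1
  set x2 := update x1 i1 a1 with hx2
  have hd1 : hammingDist x1 c ≤ 1 := by
    rw [hammingDist_comm]; exact hammingDist_update_le c i0 a0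
  have hd2 : hammingDist x2 c ≤ 2 := by
    calc hammingDist x2 c ≤ hammingDist x2 x1 + hammingDist x1 c := hammingDist_triangle _ _ _
      _ ≤ 1 + 1 := add_le_add (by rw [hammingDist_comm]; exact hammingDist_update_le _ _ _) hd1
  have hx2v : x2 i0 ≠ c i0 ∧ x2 i1 ≠ c i1 := by
    constructor
    · rw [hx2, update_of_ne hi, hx1, update_self]; exact ha0
    · rw [hx2, update_self]; exact ha1
  have hd2' : 2 ≤ hammingDist x2 c := by
    unfold hammingDist
    calc 2 = ({i0, i1} : Finset (Fin n)).card := (Finset.card_pair hi).symm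
      _ ≤ _ := by
          apply Finset.card_le_card
          intro l hl
          rw [Finset.mem_insert, Finset.mem_singleton] at hl
          rw [Finset.mem_filter]
          refine ⟨Finset.mem_univ _, ?_⟩
          rcases hl with rfl | rfl
          · exact hx2v.1
          · exact hx2v.2
  exact ⟨x2, le_antisymm hd2 hd2'⟩

/-- **The new condition.** An odd prime `ℓ` not dividing the alphabet size cannot divide the
difference of the two zeros of the Lloyd polynomial. -/
theorem dvd_card_of_dvd_sub {C : Finset (Fin n → α)} (hC : Perfect2 C)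
    (hq : 2 ≤ Fintype.card α) (hcard : 2 ≤ C.card) (hn : 3 ≤ n) (m₁ m₂ : ℕ)
    (h1 : (Fintype.card α) * (m₁ + m₂) + 4 = 2 * n + Fintype.card α)
    (h2 : (Fintype.card α : ℤ) ^ 2 * (m₁ * m₂) = ((n : ℤ) - 1) * (n - 2))
    (ℓ : ℕ) [hℓ : Fact ℓ.Prime] (hℓ2 : ℓ ≠ 2) (hd : (m₁ : ZMod ℓ) = m₂) :
    ℓ ∣ Fintype.card α := by
  by_contra hndvd
  have hqK : (Fintype.card α : ZMod ℓ) ≠ 0 := by
    intro h
    rw [ZMod.natCast_eq_zero_iff] at h
    exact hndvd h
  have h20 : (2 : ZMod ℓ) ≠ 0 := by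
    intro h
    have h' : ((2 : ℕ) : ZMod ℓ) = 0 := by exact_mod_cast h
    rw [ZMod.natCast_eq_zero_iff] at h'
    exact hℓ2 ((Nat.prime_dvd_prime_iff_eq hℓ.out Nat.prime_two).1 h')
  set q : ZMod ℓ := (Fintype.card α : ZMod ℓ) with hqdef
  have e1 : q * (m₁ + m₂) + 4 = 2 * n + q := by
    have := congrArg (fun t : ℕ => (t : ZMod ℓ)) h1
    push_cast at this
    exact this
  have e2 : q ^ 2 * (m₁ * m₂) = ((n : ZMod ℓ) - 1) * (n - 2) := by
    have := congrArg (fun t : ℤ => (t : ZMod ℓ)) h2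
    push_cast at this
    exact this
  rw [← hd] at e1 e2
  set f := ModK.ind (ZMod ℓ) C with hf
  set T := ModK.TT (ZMod ℓ) α n with hT
  have key : ∀ x, q ^ 2 * (T (T f) x - 2 * m₁ * T f x + m₁ ^ 2 * f x) = 2 := by
    intro x
    have h := ModK.Lam_ind (K := ZMod ℓ) hqK hC x
    rw [← hqdef, ← hf, ← hT] at h
    linear_combination h + q * T f x * e1 * (-1) + f x * e2
  -- the cube trick
  have cube : ∀ g : (Fin n → α) → ZMod ℓ,
      aeval T ((X - Polynomial.C (m₁ : ZMod ℓ)) ^ 3) g = 0 → T g = fun x => (m₁ : ZMod ℓ) * g x := by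
    intro g hg
    have h := ModK.eig_of_cube (K := ZMod ℓ) ℓ hℓ2 (fun i => ModK.avg (ZMod ℓ) (α := α) i)
      (fun i => ModK.avg_idem hqK i) (fun i j => ModK.avg_comm i j) m₁ g hg
    have h' : T g - (m₁ : ZMod ℓ) • g = 0 := by
      have h3 : aeval T ((X - Polynomial.C (m₁ : ZMod ℓ))) g = 0 := h
      rw [map_sub, aeval_X, aeval_C, LinearMap.sub_apply, Module.algebraMap_end_apply] at h3
      exact h3
    rw [sub_eq_zero] at h'
    rw [h']
    rfl
  obtain ⟨c, hc⟩ : ∃ c, c ∈ C := by
    rcases Finset.card_pos.1 (show 0 < C.card by omega) with ⟨c, hc⟩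
    exact ⟨c, hc⟩
  obtain ⟨x2, hx2⟩ := exists_dist_two hq (by omega) c
  have hne : x2 ≠ c := by
    intro h
    rw [h, hammingDist_self] at hx2
    omega
  have fx : f x2 = 0 := by
    rw [hf]; unfold ModK.ind; rw [if_neg (ne_mem hC hc (by omega) hne)]
  have Tfx : T f x2 = 0 := by
    have h := ModK.T1 (K := ZMod ℓ) hqK hC hc (show hammingDist x2 c ≤ 2 by omega)
    rcases ModK.counts (K := ZMod ℓ) (show hammingDist x2 c ≤ 2 by omega) with
      ⟨h', -⟩ | ⟨-, h', -⟩ | ⟨-, -, e, -⟩
    · exact absurd h' hne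
    · omega
    · rw [e] at h
      rcases mul_eq_zero.1 h with h | h
      · exact absurd h hqK
      · exact h
  have hsq : ∀ g : (Fin n → α) → ZMod ℓ, ∀ x,
      aeval T ((X - Polynomial.C (m₁ : ZMod ℓ)) ^ 2) g x = T (T g) x - 2 * m₁ * T g x + m₁ ^ 2 * g x := by
    intro g x
    have : ((X - Polynomial.C (m₁ : ZMod ℓ)) ^ 2) = X ^ 2 - Polynomial.C (2 * (m₁ : ZMod ℓ)) * X + Polynomial.C ((m₁ : ZMod ℓ) ^ 2) := by
      simp only [map_mul, map_pow, map_ofNat]
      ring
    rw [this]
    simp only [map_add, map_sub, map_mul, aeval_C, aeval_X, map_pow, pow_two, LinearMap.add_apply,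
      LinearMap.sub_apply, Module.End.mul_apply, Module.algebraMap_end_apply, Pi.add_apply,
      Pi.sub_apply, Pi.smul_apply, smul_eq_mul]
    ring
  by_cases hnm : (n : ZMod ℓ) = m₁
  · -- `T - m₁` kills constants
    have h0 : aeval T ((X - Polynomial.C (m₁ : ZMod ℓ)) ^ 3) f = 0 := by
      have e : ((X - Polynomial.C (m₁ : ZMod ℓ)) ^ 3) = (X - Polynomial.C (m₁ : ZMod ℓ)) * (X - Polynomial.C (m₁ : ZMod ℓ)) ^ 2 := by
        ring
      rw [e, map_mul, Module.End.mul_apply]
      have hc2 : aeval T ((X - Polynomial.C (m₁ : ZMod ℓ)) ^ 2) f = fun _ => 2 * (q ^ 2)⁻¹ := by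
        funext x
        rw [hsq]
        have := key x
        have hq2 : q ^ 2 ≠ 0 := pow_ne_zero _ hqK
        field_simp
        linear_combination this
      rw [hc2, map_sub, aeval_X, aeval_C, LinearMap.sub_apply, Module.algebraMap_end_apply,
        ModK.TT_const hqK, hnm]
      funext x
      simp
    have h1' := cube f h0
    have h3 : T (fun x => (m₁ : ZMod ℓ) * f x) = fun x => (m₁ : ZMod ℓ) * ((m₁ : ZMod ℓ) * f x) := by
      have : (fun x => (m₁ : ZMod ℓ) * f x) = (m₁ : ZMod ℓ) • f := rfl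
      rw [this, map_smul, h1']
      rfl
    have h4 := key x2
    rw [h1', h3] at h4
    simp only [fx] at h4
    apply h20
    rw [← h4]
    ring
  · set k : ZMod ℓ := 2 * (q ^ 2 * (n - m₁) ^ 2)⁻¹ with hk
    have hnm' : (n : ZMod ℓ) - m₁ ≠ 0 := sub_ne_zero.2 hnm
    have hq2 : q ^ 2 ≠ 0 := pow_ne_zero _ hqK
    have hnm2 : ((n : ZMod ℓ) - m₁) ^ 2 ≠ 0 := pow_ne_zero _ hnm'
    have hk1 : q ^ 2 * (n - m₁) ^ 2 * k = 2 := by
      rw [hk, mul_left_comm, mul_inv_cancel₀ (mul_ne_zero hq2 hnm2), mul_one]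
    set g : (Fin n → α) → ZMod ℓ := fun x => f x - k with hg
    have hTg : ∀ x, T g x = T f x - n * k := by
      intro x
      have : g = f - (fun _ => k) := by funext y; rfl
      rw [this, map_sub, hT, ModK.TT_const hqK]
      rfl
    have hTTg : ∀ x, T (T g) x = T (T f) x - n * (n * k) := by
      intro x
      have : T g = T f - (fun _ => (n : ZMod ℓ) * k) := by
        funext y; rw [hTg]; rfl
      rw [this, map_sub, hT, ModK.TT_const hqK]
      rfl
    have h0 : aeval T ((X - Polynomial.C (m₁ : ZMod ℓ)) ^ 3) g = 0 := by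
      have e : ((X - Polynomial.C (m₁ : ZMod ℓ)) ^ 3) = (X - Polynomial.C (m₁ : ZMod ℓ)) * (X - Polynomial.C (m₁ : ZMod ℓ)) ^ 2 := by
        ring
      rw [e, map_mul, Module.End.mul_apply]
      have hc2 : aeval T ((X - Polynomial.C (m₁ : ZMod ℓ)) ^ 2) g = 0 := by
        funext x
        rw [hsq, hTTg, hTg]
        have h' : q ^ 2 * (T (T f) x - n * (n * k) - 2 * m₁ * (T f x - n * k) + m₁ ^ 2 * g x) = 0 := by
          simp only [hg]
          linear_combination key x - hk1
        rcases mul_eq_zero.1 h' with h'' | h''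
        · exact absurd h'' hq2
        · exact h''
      rw [hc2, map_zero]
    have h1' := congrFun (cube g h0) x2
    rw [hTg, Tfx] at h1'
    simp only [hg, fx] at h1'
    have h5 : ((n : ZMod ℓ) - m₁) * k = 0 := by linear_combination (-1) * h1'
    rcases mul_eq_zero.1 h5 with h5 | h5
    · exact hnm' h5
    · rw [h5, mul_zero] at hk1
      exact h20 hk1.symm

end Pool.Agent.TH500.PC
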