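import Pool.Agent.TH500.PC.Design
import Pool.Agent.TH500.PC.WSmooth

/-!
The Diophantine consequences of the existence of a perfect 2-error-correcting code.
-/

set_option autoImplicit false

namespace Pool.Agent.TH500.PC

/-- the Diophantine system satisfied by the two zeros `x < y` of the Lloyd polynomial -/
structure Sol (q x y : ℕ) : Prop where
  w2 : x + 2 ≤ y
  eq : (q : ℤ) * (((y : ℤ) - x) ^ 2 - 1) = 2 * ((x : ℤ) + y) - 6
  dvd : ((q : ℤ) - 1) ∣ ((y : ℤ) - x) ^ 2 - 1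
  smooth : ∀ p : ℕ, p.Prime → p ∣ x * y → p ∣ 2 * q
  three : (3 : ℤ) ∣ (q : ℤ) * (((y : ℤ) - x) ^ 2 - 1)
  pos : 1 ≤ x
  wsm : ∀ p : ℕ, p.Prime → p ≠ 2 → (p : ℤ) ∣ (y : ℤ) - x → p ∣ q

/-- a perfect 2-error-correcting code with at least two words yields a solution -/
theorem sol_of_code {α : Type} [Fintype α] [DecidableEq α] {n : ℕ} {C : Finset (Fin n → α)}
    (hC : Perfect2 C) (hq : 2 ≤ Fintype.card α) (hcard : 2 ≤ C.card) :
    ∃ x y : ℕ, Sol (Fintype.card α) x y := by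
  obtain ⟨m₁, m₂, hlt, hm2, hn, h1, h2, h3⟩ := lloyd hC hq hcard
  have hd := three_dvd hC hq hcard
  have hnew := fun ℓ hℓ hℓ2 hdd => @dvd_card_of_dvd_sub α _ _ n C hC hq hcard hn m₁ m₂ h1
    (by
      have : (((Fintype.card α) ^ 2 * (m₁ * m₂) : ℕ) : ℤ) = (((n - 1) * (n - 2) : ℕ) : ℤ) := by
        exact_mod_cast h2
      push_cast [Nat.cast_sub (show 1 ≤ n by omega), Nat.cast_sub (show 2 ≤ n by omega)] at this
      exact this) ℓ hℓ hℓ2 hdd
  set q := Fintype.card α with hqdef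
  have hq0 : (q : ℤ) ≠ 0 := by
    have : (2 : ℤ) ≤ q := by exact_mod_cast hq
    intro h; linarith
  have e1 : (q : ℤ) * (m₁ + m₂) + 4 = 2 * n + q := by exact_mod_cast h1
  have e2 : (q : ℤ) ^ 2 * (m₁ * m₂) = ((n : ℤ) - 1) * (n - 2) := by
    have : (((q : ℕ) ^ 2 * (m₁ * m₂) : ℕ) : ℤ) = (((n - 1) * (n - 2) : ℕ) : ℤ) := by
      exact_mod_cast h2
    push_cast [Nat.cast_sub (show 1 ≤ n by omega), Nat.cast_sub (show 2 ≤ n by omega)] at this
    exact this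
  have hx : ((n - m₂ : ℕ) : ℤ) = n - m₂ := by
    rw [Nat.cast_sub (by omega)]
  have hy : ((n - m₁ : ℕ) : ℤ) = n - m₁ := by
    rw [Nat.cast_sub (by omega)]
  have e4 : 4 * (q : ℤ) * (m₁ * m₂) = (q * (m₁ + m₂) + 2 - q) * (m₁ + m₂ - 1) := by
    have : (q : ℤ) * (4 * (q : ℤ) * (m₁ * m₂)) =
        (q : ℤ) * ((q * (m₁ + m₂) + 2 - q) * (m₁ + m₂ - 1)) := by
      have h4 : 2 * (n : ℤ) = q * (m₁ + m₂) + 4 - q := by linarith
      have h5 : 4 * ((q : ℤ) ^ 2 * (m₁ * m₂)) = (2 * (n : ℤ) - 2) * (2 * n - 4) := by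
        rw [e2]; ring
      rw [h4] at h5
      linear_combination h5
    exact mul_left_cancel₀ hq0 this
  have hw : (q : ℤ) * (((m₂ : ℤ) - m₁) ^ 2 - 1) = 2 * (q - 1) * (m₁ + m₂ - 1) := by
    linear_combination (-1 : ℤ) * e4
  have heq : (q : ℤ) * ((((n - m₁ : ℕ) : ℤ) - ((n - m₂ : ℕ) : ℤ)) ^ 2 - 1) =
      2 * (((n - m₂ : ℕ) : ℤ) + ((n - m₁ : ℕ) : ℤ)) - 6 := by
    rw [hx, hy]
    have : ((n : ℤ) - m₁ - (n - m₂)) = m₂ - m₁ := by ring
    rw [this, hw]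
    linear_combination 2 * e1
  refine ⟨n - m₂, n - m₁, ?_, heq, ?_, ?_, ?_, by omega, ?_⟩
  · by_contra hcon
    have hm : m₂ = m₁ + 1 := by omega
    rw [hm] at hw
    push_cast at hw
    have h0 : 2 * ((q : ℤ) - 1) * (m₁ + (m₁ + 1) - 1) = 0 := by
      rw [← hw]; ring
    have hq1 : (q : ℤ) - 1 ≠ 0 := by
      have : (2 : ℤ) ≤ q := by exact_mod_cast hq
      intro h; linarith
    have hm0 : (m₁ : ℤ) = 0 := by
      rcases mul_eq_zero.1 h0 with h | h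
      · rcases mul_eq_zero.1 h with h | h
        · norm_num at h
        · exact absurd h hq1
      · linarith
    rw [hm] at e1
    push_cast at e1
    rw [hm0] at e1
    have : (n : ℤ) = 2 := by linarith
    have : n = 2 := by exact_mod_cast this
    omega
  · rw [hx, hy]
    have : ((n : ℤ) - m₁ - (n - m₂)) = m₂ - m₁ := by ring
    rw [this]
    have hcop : IsCoprime ((q : ℤ) - 1) (q : ℤ) := ⟨-1, 1, by ring⟩
    apply hcop.dvd_of_dvd_mul_left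
    rw [hw]
    exact ⟨2 * (m₁ + m₂ - 1), by ring⟩
  · intro p hp hpd
    have h6 : p ∣ 2 * q ^ n := by
      rw [← h3]
      have : (q ^ 2 * ((n - m₁) * (n - m₂)) * C.card) = ((n - m₂) * (n - m₁)) * (q ^ 2 * C.card) := by
        ring
      rw [this]
      exact hpd.mul_right _
    rcases (Nat.Prime.dvd_mul hp).1 h6 with h | h
    · exact h.mul_right _
    · exact (hp.dvd_of_dvd_pow h).mul_left _
  · rw [hx, hy]
    have : ((n : ℤ) - m₁ - (n - m₂)) = m₂ - m₁ := by ring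
    rw [this]
    have h7 : (3 : ℤ) ∣ ((n : ℤ) - 2) * (q - 1) := by
      have := Int.natCast_dvd_natCast.2 hd
      push_cast [Nat.cast_sub (show 2 ≤ n by omega), Nat.cast_sub (show 1 ≤ q by omega)] at this
      exact this
    have h8 : (q : ℤ) * ((q : ℤ) * (((m₂ : ℤ) - m₁) ^ 2 - 1)) = 4 * (((n : ℤ) - 2) * (q - 1)) := by
      rw [hw]
      linear_combination 2 * ((q : ℤ) - 1) * e1
    have h9 : (3 : ℤ) ∣ (q : ℤ) * ((q : ℤ) * (((m₂ : ℤ) - m₁) ^ 2 - 1)) := by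
      rw [h8]; exact h7.mul_left _
    have hp3 : Prime (3 : ℤ) := Int.prime_three
    rcases hp3.dvd_or_dvd h9 with h | h
    · exact h.mul_right _
    · exact h
  · intro p hp hp2 hpd
    haveI : Fact p.Prime := ⟨hp⟩
    apply hnew p ⟨hp⟩ hp2
    rw [hx, hy] at hpd
    have h' := (ZMod.intCast_zmod_eq_zero_iff_dvd _ p).2 hpd
    push_cast at h'
    linear_combination (-1) * h'

namespace Sol

variable {q x y : ℕ}

lemma lt2 (h : Sol q x y) (hq : 3 ≤ q) : y < 2 * x := by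
  by_contra hcon
  push Not at hcon
  have h1 := h.eq
  have h2 := h.w2
  obtain ⟨w, rfl⟩ : ∃ w, y = x + w := ⟨y - x, by omega⟩
  have hw : 2 ≤ w := by omega
  have hxw : x ≤ w := by omega
  push_cast at h1
  have hw' : (2 : ℤ) ≤ w := by exact_mod_cast hw
  have hxw' : (x : ℤ) ≤ w := by exact_mod_cast hxw
  have hq' : (3 : ℤ) ≤ q := by exact_mod_cast hq
  have e : (x : ℤ) + w - x = w := by ring
  rw [e] at h1
  nlinarith [mul_nonneg (show (0 : ℤ) ≤ (q : ℤ) - 3 by linarith)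
    (show (0 : ℤ) ≤ (w : ℤ) ^ 2 - 1 by nlinarith), mul_nonneg (show (0 : ℤ) ≤ (w : ℤ) - 2 by linarith)
    (show (0 : ℤ) ≤ (w : ℤ) by linarith)]

lemma x_ge (h : Sol q x y) (hq : 3 ≤ q) : 3 ≤ x := by
  have h1 := h.lt2 hq
  have h2 := h.w2
  omega

/-- `q < 2 x` -/
lemma q_lt (h : Sol q x y) (hq : 3 ≤ q) : q + 2 < 2 * x := by
  have h1 := h.lt2 hq
  have h2 := h.w2
  have h3 := h.eq
  have h1' : (y : ℤ) < 2 * x := by exact_mod_cast h1
  have h2' : (2 : ℤ) ≤ (y : ℤ) - x := by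
    have : (x : ℤ) + 2 ≤ y := by exact_mod_cast h2
    linarith
  have hq' : (3 : ℤ) ≤ q := by exact_mod_cast hq
  have h4 : (0 : ℤ) ≤ ((y : ℤ) - x) ^ 2 - 4 := by nlinarith
  have h5 : (0 : ℤ) ≤ (q : ℤ) * (((y : ℤ) - x) ^ 2 - 4) := mul_nonneg (by linarith) h4
  have : (q : ℤ) + 2 < 2 * x := by nlinarith
  exact_mod_cast this

lemma dvd_sum (h : Sol q x y) {p : ℕ} (hp : p.Prime) (hp2 : p ≠ 2) (hpq : p ∣ q) :
    (p : ℤ) ∣ (x : ℤ) + y - 3 := by
  have h1 : (p : ℤ) ∣ 2 * ((x : ℤ) + y - 3) := by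
    have e : 2 * ((x : ℤ) + y - 3) = (q : ℤ) * (((y : ℤ) - x) ^ 2 - 1) := by rw [h.eq]; ring
    rw [e]
    exact (Int.natCast_dvd_natCast.2 hpq).mul_right _
  have hpp : Prime (p : ℤ) := Nat.prime_iff_prime_int.1 hp
  rcases hpp.dvd_or_dvd h1 with h2 | h2
  · exfalso
    have : p ∣ 2 := by exact_mod_cast h2
    exact hp2 ((Nat.prime_dvd_prime_iff_eq hp Nat.prime_two).1 this)
  · exact h2

/-- if `p ∣ x` then `y ≡ 3 (mod p)` -/
lemma cast_y (h : Sol q x y) {p : ℕ} (hp : p.Prime) (hp2 : p ≠ 2) (hpq : p ∣ q) (hx : p ∣ x) :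
    (y : ZMod p) = 3 := by
  have h1 := (ZMod.intCast_zmod_eq_zero_iff_dvd _ p).2 (h.dvd_sum hp hp2 hpq)
  push_cast at h1
  rw [(ZMod.natCast_eq_zero_iff x p).2 hx] at h1
  linear_combination h1

lemma cast_x (h : Sol q x y) {p : ℕ} (hp : p.Prime) (hp2 : p ≠ 2) (hpq : p ∣ q) (hy : p ∣ y) :
    (x : ZMod p) = 3 := by
  have h1 := (ZMod.intCast_zmod_eq_zero_iff_dvd _ p).2 (h.dvd_sum hp hp2 hpq)
  push_cast at h1
  rw [(ZMod.natCast_eq_zero_iff y p).2 hy] at h1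
  linear_combination h1

lemma three_ne {p : ℕ} (hp : p.Prime) (hp3 : p ≠ 3) : (3 : ZMod p) ≠ 0 := by
  intro h
  have : ((3 : ℕ) : ZMod p) = 0 := by exact_mod_cast h
  rw [ZMod.natCast_eq_zero_iff] at this
  exact hp3 ((Nat.prime_dvd_prime_iff_eq hp Nat.prime_three).1 this)

lemma not_both (h : Sol q x y) {p : ℕ} (hp : p.Prime) (hp2 : p ≠ 2) (hp3 : p ≠ 3) (hpq : p ∣ q)
    (hx : p ∣ x) : ¬ p ∣ y := by
  intro hy
  have h1 := h.cast_y hp hp2 hpq hx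
  rw [(ZMod.natCast_eq_zero_iff y p).2 hy] at h1
  exact three_ne hp hp3 h1.symm

/-- `x y ≡ 2 (mod 3)` -/
lemma mod3 (h : Sol q x y) (h3 : ¬ 3 ∣ q) : (x * y) % 3 = 2 := by
  have h1 := h.three
  have hp3 : Prime (3 : ℤ) := Int.prime_three
  have h2 : (3 : ℤ) ∣ ((y : ℤ) - x) ^ 2 - 1 := by
    rcases hp3.dvd_or_dvd h1 with h' | h'
    · exact absurd (by exact_mod_cast h') h3
    · exact h'
  have h4 : (3 : ℤ) ∣ 2 * ((x : ℤ) + y) - 6 := by rw [← h.eq]; exact h1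
  have e1 : (x : ℤ) % 3 = 0 ∨ (x : ℤ) % 3 = 1 ∨ (x : ℤ) % 3 = 2 := by omega
  have e2 : ((y : ℤ) + x) % 3 = 0 := by omega
  have h5 : (((y : ℤ) - x) ^ 2) % 3 = 1 := by omega
  have h6 : ((x : ℤ) * y) % 3 = 2 := by
    have ey : (y : ℤ) % 3 = (-(x : ℤ)) % 3 := by omega
    rcases e1 with e | e | e
    · exfalso
      have : ((y : ℤ) - x) % 3 = 0 := by omega
      rw [pow_two, Int.mul_emod, this] at h5
      norm_num at h5
    · have ey' : (y : ℤ) % 3 = 2 := by omega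
      rw [Int.mul_emod, e, ey']; norm_num
    · have ey' : (y : ℤ) % 3 = 1 := by omega
      rw [Int.mul_emod, e, ey']; norm_num
  exact_mod_cast h6

end Sol

end Pool.Agent.TH500.PC
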