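import Pool.Agent.TH500.PC.Sol

/-!
`q x`, `q y` and `x y` are not perfect squares.
-/

set_option autoImplicit false

namespace Pool.Agent.TH500.PC

namespace Sol

variable {q x y : ℕ}

lemma w_sq_ge (h : Sol q x y) : (q : ℤ) ≤ ((y : ℤ) - x) ^ 2 := by
  have h1 := h.dvd
  have h2 : (2 : ℤ) ≤ (y : ℤ) - x := by
    have : (x : ℤ) + 2 ≤ y := by exact_mod_cast h.w2
    linarith
  have h3 := Int.le_of_dvd (by nlinarith) h1
  linarith

lemma mul_ge {q w t : ℤ} (hq : 0 ≤ q) (hw0 : 0 ≤ w) (ht0 : 0 ≤ t) (hw : q ≤ w ^ 2) (ht : q ≤ t ^ 2) :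
    q ≤ w * t := by
  have h1 : q ^ 2 ≤ (w * t) ^ 2 := by
    calc q ^ 2 = q * q := by ring
      _ ≤ w ^ 2 * t ^ 2 := mul_le_mul hw ht hq (by positivity)
      _ = (w * t) ^ 2 := by ring
  exact (abs_le_of_sq_le_sq' h1 (by positivity)).2

theorem not_sq_x (h : Sol q x y) (hq : 10 ≤ q) (h16 : q ≠ 16) : ¬ IsSquare (q * x) := by
  rintro ⟨z, hz⟩
  obtain ⟨w, hw⟩ : ∃ w : ℤ, w = (y : ℤ) - x := ⟨_, rfl⟩
  have hw2 : 2 ≤ w := by
    have : (x : ℤ) + 2 ≤ y := by exact_mod_cast h.w2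
    linarith
  have hwq := h.w_sq_ge
  rw [← hw] at hwq
  have heq := h.eq
  rw [← hw] at heq
  have hy : (y : ℤ) = x + w := by rw [hw]; ring
  rw [hy] at heq
  have hq' : (10 : ℤ) ≤ q := by exact_mod_cast hq
  have hz' : (q : ℤ) * x = z * z := by exact_mod_cast hz
  obtain ⟨δ, hδ⟩ : ∃ δ : ℤ, δ = (q : ℤ) * w - 1 - 2 * z := ⟨_, rfl⟩
  have hz0 : (0 : ℤ) ≤ z := Int.natCast_nonneg z
  have hD : δ * ((q : ℤ) * w - 1 + 2 * z) = (q : ℤ) ^ 2 - 6 * q + 1 := by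
    rw [hδ]
    linear_combination (4 : ℤ) * hz' + (q : ℤ) * heq
  have hYpos : (0 : ℤ) < (q : ℤ) * w - 1 := by nlinarith
  have hδ1 : 1 ≤ δ := by
    by_contra hcon
    push Not at hcon
    have : δ * ((q : ℤ) * w - 1 + 2 * z) ≤ 0 :=
      mul_nonpos_of_nonpos_of_nonneg (by linarith) (by linarith)
    nlinarith
  have hδX : δ ≤ (q : ℤ) * w - 1 := by linarith
  have ht : (δ + 1) ^ 2 = (q : ℤ) * (2 * w * δ - q + 6) := by
    have e : (2 : ℤ) * z = q * w - 1 - δ := by linarith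
    rw [e] at hD
    linear_combination (-1 : ℤ) * hD
  have hfac : 1 ≤ 2 * w * δ - q + 6 := by
    by_contra hcon
    push Not at hcon
    have : (q : ℤ) * (2 * w * δ - q + 6) ≤ 0 :=
      mul_nonpos_of_nonneg_of_nonpos (by linarith) (by linarith)
    nlinarith
  have htq : (q : ℤ) ≤ (δ + 1) ^ 2 := by
    rw [ht]
    nlinarith
  have ht5 : 5 ≤ δ + 1 := by
    by_contra hcon
    push Not at hcon
    have hdv : (q : ℤ) ∣ (δ + 1) ^ 2 := ⟨_, ht⟩
    have h5 : δ = 1 ∨ δ = 2 ∨ δ = 3 := by omega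
    rcases h5 with h5 | h5 | h5
    · rw [h5] at htq; norm_num at htq; linarith
    · rw [h5] at htq; norm_num at htq; linarith
    · rw [h5] at hdv htq
      norm_num at hdv htq
      have h6 : q ∣ 16 := by exact_mod_cast hdv
      have h7 : q ≤ 16 := Nat.le_of_dvd (by norm_num) h6
      interval_cases q <;> omega
  have hwt : (q : ℤ) ≤ w * (δ + 1) := mul_ge (by linarith) (by linarith) (by linarith) hwq htq
  obtain ⟨t, htt⟩ : ∃ t : ℤ, t = δ + 1 := ⟨_, rfl⟩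
  obtain ⟨Y, hY⟩ : ∃ Y : ℤ, Y = (q : ℤ) * w := ⟨_, rfl⟩
  have hD2 : 2 * Y * t - t ^ 2 - 2 * Y + 1 = (q : ℤ) ^ 2 - 6 * q + 1 := by
    have e : (2 : ℤ) * z = q * w - 1 - δ := by linarith
    rw [e] at hD
    rw [htt, hY]
    linear_combination hD
  rw [← htt] at hwt ht5
  have htY : t ≤ Y := by rw [htt, hY]; linarith
  have hY0 : 0 < Y := by linarith
  have hYt : (q : ℤ) ^ 2 ≤ Y * t := by
    rw [hY]
    calc (q : ℤ) ^ 2 = q * q := by ring
      _ ≤ q * (w * t) := mul_le_mul_of_nonneg_left hwt (by linarith)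
      _ = q * w * t := by ring
  have hYY : (q : ℤ) ^ 3 ≤ Y ^ 2 := by
    rw [hY]
    calc (q : ℤ) ^ 3 = q ^ 2 * q := by ring
      _ ≤ q ^ 2 * w ^ 2 := mul_le_mul_of_nonneg_left hwq (by positivity)
      _ = (q * w) ^ 2 := by ring
  have hcube : 10 * (q : ℤ) ^ 2 ≤ (q : ℤ) ^ 3 := by
    have h' : 0 ≤ (q : ℤ) ^ 2 * ((q : ℤ) - 10) := mul_nonneg (sq_nonneg _) (by linarith)
    linarith [h', (by ring : (q : ℤ) ^ 2 * ((q : ℤ) - 10) = (q : ℤ) ^ 3 - 10 * (q : ℤ) ^ 2)]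
  have h2Y : 5 * (2 * Y) ≤ 2 * (Y * t) := by
    have h' : 0 ≤ Y * (t - 5) := mul_nonneg hY0.le (by linarith)
    linarith [h', (by ring : Y * (t - 5) = Y * t - 5 * Y)]
  rcases le_total (5 * t) (3 * Y) with hc | hc
  · have ha : 0 ≤ t * (3 * Y - 5 * t) := mul_nonneg (by linarith) (by linarith)
    have ha' : 5 * t ^ 2 ≤ 3 * (Y * t) := by linarith [ha, (by ring : t * (3 * Y - 5 * t) = 3 * (Y * t) - 5 * t ^ 2)]
    linarith
  · have ha : 0 ≤ (5 * t - 3 * Y) * (Y - t) := mul_nonneg (by linarith) (by linarith)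
    have ha' : 3 * Y ^ 2 ≤ 8 * (Y * t) - 5 * t ^ 2 := by
      linarith [ha, (by ring : (5 * t - 3 * Y) * (Y - t) = 8 * (Y * t) - 5 * t ^ 2 - 3 * Y ^ 2)]
    have hq2 : (0 : ℤ) ≤ (q : ℤ) ^ 2 := sq_nonneg _
    linarith

theorem not_sq_y (h : Sol q x y) (hq : 10 ≤ q) (h22 : q ≠ 22) : ¬ IsSquare (q * y) := by
  rintro ⟨z, hz⟩
  obtain ⟨w, hw⟩ : ∃ w : ℤ, w = (y : ℤ) - x := ⟨_, rfl⟩
  have hw2 : 2 ≤ w := by
    have : (x : ℤ) + 2 ≤ y := by exact_mod_cast h.w2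
    linarith
  have hwq := h.w_sq_ge
  rw [← hw] at hwq
  have hdvd := h.dvd
  rw [← hw] at hdvd
  have heq := h.eq
  rw [← hw] at heq
  have hx : (x : ℤ) = y - w := by rw [hw]; ring
  rw [hx] at heq
  have hq' : (10 : ℤ) ≤ q := by exact_mod_cast hq
  have hz' : (q : ℤ) * y = z * z := by exact_mod_cast hz
  obtain ⟨δ, hδ⟩ : ∃ δ : ℤ, δ = (q : ℤ) * w + 1 - 2 * z := ⟨_, rfl⟩
  have hz0 : (0 : ℤ) ≤ z := Int.natCast_nonneg z
  have hD : δ * ((q : ℤ) * w + 1 + 2 * z) = (q : ℤ) ^ 2 - 6 * q + 1 := by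
    rw [hδ]
    linear_combination (4 : ℤ) * hz' + (q : ℤ) * heq
  have hYpos : (0 : ℤ) < (q : ℤ) * w := by nlinarith
  have hδ1 : 1 ≤ δ := by
    by_contra hcon
    push Not at hcon
    have : δ * ((q : ℤ) * w + 1 + 2 * z) ≤ 0 :=
      mul_nonpos_of_nonpos_of_nonneg (by linarith) (by linarith)
    nlinarith
  have hδX : δ ≤ (q : ℤ) * w + 1 := by linarith
  have ht : (δ - 1) ^ 2 = (q : ℤ) * (2 * w * δ - q + 6) := by
    have e : (2 : ℤ) * z = q * w + 1 - δ := by linarith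
    rw [e] at hD
    linear_combination (-1 : ℤ) * hD
  rcases eq_or_lt_of_le hδ1 with h1 | h1
  · rw [← h1] at ht
    have h2 : 2 * w = (q : ℤ) - 6 := by
      have : (q : ℤ) * (2 * w * 1 - q + 6) = 0 := by rw [← ht]; ring
      rcases mul_eq_zero.1 this with h' | h'
      · linarith
      · linarith
    have h3 : ((q : ℤ) - 1) ∣ 21 := by
      have h4 : ((q : ℤ) - 1) ∣ 4 * (w ^ 2 - 1) := hdvd.mul_left _
      have h5 : 4 * (w ^ 2 - 1) = ((q : ℤ) - 1) * (q - 11) + 21 := by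
        have : 4 * (w ^ 2 - 1) = (2 * w) ^ 2 - 4 := by ring
        rw [this, h2]; ring
      rw [h5] at h4
      exact (Int.dvd_add_right (Dvd.intro _ rfl)).1 h4
    have h4 : (q : ℤ) - 1 ≤ 21 := Int.le_of_dvd (by norm_num) h3
    have h5 : q ≤ 22 := by
      have : (q : ℤ) ≤ 22 := by linarith
      exact_mod_cast this
    have h6 : (q - 1) ∣ 21 := by
      have : ((q - 1 : ℕ) : ℤ) ∣ 21 := by
        rw [Nat.cast_sub (by omega)]; exact h3
      exact_mod_cast this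
    interval_cases q <;> omega
  · have hfac : 1 ≤ 2 * w * δ - q + 6 := by
      by_contra hcon
      push Not at hcon
      have : (q : ℤ) * (2 * w * δ - q + 6) ≤ 0 :=
        mul_nonpos_of_nonneg_of_nonpos (by linarith) (by linarith)
      nlinarith
    have htq : (q : ℤ) ≤ (δ - 1) ^ 2 := by
      rw [ht]
      nlinarith
    have hwt : (q : ℤ) ≤ w * (δ - 1) := mul_ge (by linarith) (by linarith) (by linarith) hwq htq
    obtain ⟨t, htt⟩ : ∃ t : ℤ, t = δ - 1 := ⟨_, rfl⟩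
    obtain ⟨Y, hY⟩ : ∃ Y : ℤ, Y = (q : ℤ) * w := ⟨_, rfl⟩
    have hD2 : (t + 1) * (2 * Y + 1 - t) = (q : ℤ) ^ 2 - 6 * q + 1 := by
      have e : (2 : ℤ) * z = q * w + 1 - δ := by linarith
      rw [e] at hD
      rw [htt, hY]
      linear_combination hD
    rw [← htt] at hwt
    have htY : t ≤ Y := by rw [htt, hY]; linarith
    have ht0 : 0 < t := by rw [htt]; linarith
    have hYt : (q : ℤ) ^ 2 ≤ Y * t := by
      rw [hY]
      calc (q : ℤ) ^ 2 = q * q := by ring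
        _ ≤ q * (w * t) := mul_le_mul_of_nonneg_left hwt (by linarith)
        _ = q * w * t := by ring
    have ha : 0 ≤ t * (Y - t) := mul_nonneg (by linarith) (by linarith)
    have ha' : t ^ 2 ≤ Y * t := by
      linarith [ha, (by ring : t * (Y - t) = Y * t - t ^ 2)]
    have hexp : (t + 1) * (2 * Y + 1 - t) = 2 * (Y * t) - t ^ 2 + 2 * Y + 1 := by ring
    rw [hexp] at hD2
    linarith

theorem not_sq_xy (h : Sol q x y) (hq : 3 ≤ q) : ¬ IsSquare (x * y) := by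
  rintro ⟨z, hz⟩
  have hz' : (x : ℤ) * y = z * z := by exact_mod_cast hz
  have h2 : (2 : ℤ) ≤ (y : ℤ) - x := by
    have : (x : ℤ) + 2 ≤ y := by exact_mod_cast h.w2
    linarith
  have hz0 : (0 : ℤ) ≤ z := Int.natCast_nonneg z
  have heq := h.eq
  have hx0 : (0 : ℤ) ≤ x := Int.natCast_nonneg x
  have hfac : ((x : ℤ) + y - 2 * z) * (x + y + 2 * z) = ((y : ℤ) - x) ^ 2 := by
    linear_combination (4 : ℤ) * hz'
  have hq' : (3 : ℤ) ≤ q := by exact_mod_cast hq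
  have h3 : 1 ≤ (x : ℤ) + y - 2 * z := by
    by_contra hcon
    push Not at hcon
    have : ((x : ℤ) + y - 2 * z) * (x + y + 2 * z) ≤ 0 :=
      mul_nonpos_of_nonpos_of_nonneg (by linarith) (by linarith)
    nlinarith
  have h4 : (x : ℤ) + y + 2 * z ≤ ((y : ℤ) - x) ^ 2 := by
    rw [← hfac]
    nlinarith
  nlinarith [mul_nonneg (show (0 : ℤ) ≤ (q : ℤ) - 3 by linarith)
    (show (0 : ℤ) ≤ ((y : ℤ) - x) ^ 2 - 1 by nlinarith)]

/-- parametrisation in the case of odd `y - x` -/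
lemma param (h : Sol q x y) (hodd : Odd (x + y)) :
    ∃ k : ℕ, 1 ≤ k ∧ x + k = q * (k * (k + 1)) + 1 ∧ y = q * (k * (k + 1)) + k + 2 := by
  have h2 := h.w2
  obtain ⟨k, hk⟩ : ∃ k, y = x + (2 * k + 1) := by
    obtain ⟨w, rfl⟩ : ∃ w, y = x + w := ⟨y - x, by omega⟩
    rcases Nat.even_or_odd w with hw | hw
    · exfalso
      obtain ⟨v, hv⟩ := hw
      rw [Nat.odd_iff] at hodd
      omega
    · obtain ⟨k, hk⟩ := hw
      exact ⟨k, by rw [hk]⟩
  refine ⟨k, by omega, ?_, ?_⟩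
  · have heq := h.eq
    rw [hk] at heq
    push_cast at heq
    have : ((x : ℤ) + k) = q * (k * (k + 1)) + 1 := by linarith
    exact_mod_cast this
  · have heq := h.eq
    rw [hk] at heq ⊢
    push_cast at heq
    have : ((x : ℤ) + (2 * k + 1)) = q * (k * (k + 1)) + k + 2 := by linarith
    exact_mod_cast this

end Sol

end Pool.Agent.TH500.PC
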