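import Pool.Agent.TH500.PC.Res16
import Pool.Agent.TH500.PC.FamThree
import Pool.Agent.TH500.PC.FamEven2

/-!
Necessary conditions for `q = 3^a p^b`.
-/

set_option autoImplicit false

open NumberTheorySymbols

namespace Pool.Agent.TH500.PC

/-- shapes of the zeros for `q = 3^a p^b` -/
theorem three_shape {p a b : ℕ} (hp : p.Prime) (hp5 : 5 ≤ p) (ha : 1 ≤ a) (hb : 1 ≤ b) {x y : ℕ}
    (hS : Sol (3 ^ a * p ^ b) x y) :
    ∃ e o k : ℕ, Pair (3 ^ a * p ^ b) e o ∧ 1 ≤ k ∧
      e + o = 2 * (3 ^ a * p ^ b * (k * (k + 1))) + 3 ∧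
      ((o + k = 3 ^ a * p ^ b * (k * (k + 1)) + 1 ∧ e = 3 ^ a * p ^ b * (k * (k + 1)) + k + 2) ∨
        (e + k = 3 ^ a * p ^ b * (k * (k + 1)) + 1 ∧
          o = 3 ^ a * p ^ b * (k * (k + 1)) + k + 2)) ∧
      ((3 ^ a * p ^ b) % 4 = 1 → e % 8 = 2 ∧ o % 4 = 1) ∧
      ((3 ^ a * p ^ b) % 8 = 3 → (e % 16 = 2 ∨ e % 16 = 6) ∧ o % 8 = 1) ∧
      ((3 ^ a * p ^ b) % 8 = 7 → (e % 16 = 2 ∨ e % 16 = 14) ∧ o % 8 = 1) ∧
      k % 3 = 1 ∧
      ((∃ f g c : ℕ, o = 3 ^ f ∧ e = 2 * (3 ^ g * p ^ c) ∧ 1 ≤ f ∧ 1 ≤ g ∧ 1 ≤ c) ∨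
        (∃ f g d : ℕ, e = 2 * 3 ^ f ∧ o = 3 ^ g * p ^ d ∧ 1 ≤ f ∧ 1 ≤ g ∧ 1 ≤ d)) := by
  have hpm : p % 2 = 1 := Nat.odd_iff.1 (hp.odd_of_ne_two (by omega))
  have hq2 : (3 ^ a * p ^ b) % 2 = 1 := by
    have h1 : Odd (3 ^ a) := Odd.pow (by decide)
    have h2 : Odd (p ^ b) := Odd.pow (Nat.odd_iff.2 hpm)
    exact Nat.odd_iff.1 (h1.mul h2)
  have hq : 15 ≤ 3 ^ a * p ^ b := by
    calc 15 = 3 ^ 1 * 5 ^ 1 := by norm_num
      _ ≤ 3 ^ a * p ^ b := Nat.mul_le_mul (Nat.pow_le_pow_right (by norm_num) ha)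
        ((Nat.pow_le_pow_left hp5 1).trans (Nat.pow_le_pow_right (by omega) hb))
  obtain ⟨q', hq'⟩ : ∃ q', 3 ^ a * p ^ b = 3 * q' := by
    obtain ⟨a', rfl⟩ : ∃ a', a = a' + 1 := ⟨a - 1, by omega⟩
    exact ⟨3 ^ a' * p ^ b, by ring⟩
  have hpq : p ∣ 3 ^ a * p ^ b := (dvd_pow_self p (by omega)).mul_left _
  obtain ⟨e, o, k, hP, he, ho, hk1, hsum, hshape, m4, m3, m7⟩ := odd_res2 hS hq2
  have hge := hP.ge3 (by omega)
  have hql := hP.q_lt (by omega)
  have hpr : ∀ r : ℕ, r.Prime → r ∣ 2 * (3 ^ a * p ^ b) → r = 2 ∨ r = 3 ∨ r = p :=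
    fun r hr hd => prime_dvd_two_mul Nat.prime_three hp hr hd
  have hpe' : ∀ r : ℕ, r.Prime → r ∣ e → r = 2 ∨ r = 3 ∨ r = p := fun r hr hd =>
    hpr r hr (hP.smooth hr hd)
  have hpo' : ∀ r : ℕ, r.Prime → r ∣ o → r = 3 ∨ r = p := by
    intro r hr hd
    rcases hpr r hr (hP.symm.smooth hr hd) with h' | h'
    · exfalso; subst h'; omega
    · exact h'
  have he4 : e % 4 = 2 := by
    have : (3 ^ a * p ^ b) % 4 = 1 ∨ (3 ^ a * p ^ b) % 8 = 3 ∨ (3 ^ a * p ^ b) % 8 = 7 := by omega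
    rcases this with h | h | h
    · have := m4 h; omega
    · have := m3 h; omega
    · have := m7 h; omega
  obtain ⟨m, hm⟩ : ∃ m, e = 2 * m := ⟨e / 2, by omega⟩
  have hmodd : m % 2 = 1 := by omega
  have hZ : 3 ^ a * p ^ b * (k * (k + 1)) = 3 * (q' * (k * (k + 1))) := by rw [hq']; ring
  -- `3` divides both
  have h3both : 3 ∣ e ∧ 3 ∣ o := by
    by_cases h3e : 3 ∣ e
    · exact ⟨h3e, by rw [hZ] at hsum; omega⟩
    · have h3o : ¬ 3 ∣ o := by
        intro h'; apply h3e; rw [hZ] at hsum; omega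
      exfalso
      have hmp : ∀ r : ℕ, r.Prime → r ∣ m → r = p := by
        intro r hr hrm
        rcases hpe' r hr (by rw [hm]; exact hrm.mul_left _) with h' | h' | h'
        · exfalso; subst h'; omega
        · exfalso; subst h'; exact h3e (by rw [hm]; exact hrm.mul_left _)
        · exact h'
      have hop : ∀ r : ℕ, r.Prime → r ∣ o → r = p := by
        intro r hr hrm
        rcases hpo' r hr hrm with h' | h'
        · exfalso; subst h'; exact h3o hrm
        · exact h'
      obtain ⟨r, hr, hrm⟩ := Nat.exists_prime_and_dvd (show m ≠ 1 by omega)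
      obtain ⟨s, hs, hso⟩ := Nat.exists_prime_and_dvd (show o ≠ 1 by omega)
      have h1 := hmp r hr hrm
      have h2 := hop s hs hso
      subst h1
      rw [h2] at hso
      exact hP.not_both hp (by omega) (by omega) hpq (by rw [hm]; exact hrm.mul_left _) hso
  obtain ⟨h3e, h3o⟩ := h3both
  have hk3 : k % 3 = 1 := by
    rw [hZ] at hshape
    rcases hshape with ⟨h1, h2⟩ | ⟨h1, h2⟩ <;> omega
  refine ⟨e, o, k, hP, hk1, hsum, hshape, m4, m3, m7, hk3, ?_⟩
  have h3m : 3 ∣ m := by omega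
  by_cases hpe : p ∣ e
  · left
    have hpo : ¬ p ∣ o := hP.not_both hp (by omega) (by omega) hpq hpe
    obtain ⟨f, hf⟩ := prime_pow_of (p := 3) (m := o) (by omega) (fun r hr hro => by
      rcases hpo' r hr hro with h' | h'
      · exact h'
      · subst h'; exact absurd hro hpo)
    obtain ⟨g, u, hu3, hmu⟩ := Nat.exists_eq_pow_mul_and_not_dvd (n := m) (by omega) 3 (by norm_num)
    obtain ⟨c, hc⟩ := prime_pow_of (p := p) (m := u) (by rintro rfl; simp at hu3) (fun r hr hru => by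
      rcases hpe' r hr (by rw [hm, hmu]; exact (hru.mul_left _).mul_left _) with h' | h' | h'
      · exfalso; subst h'
        have : 2 ∣ m := by rw [hmu]; exact hru.mul_left _
        omega
      · exfalso; subst h'; exact hu3 hru
      · exact h')
    have hg1 : 1 ≤ g := by
      by_contra hcon
      have : g = 0 := by omega
      subst this
      rw [pow_zero, one_mul] at hmu
      rw [hmu] at h3m
      exact hu3 h3m
    have hc1 : 1 ≤ c := by
      by_contra hcon
      have : c = 0 := by omega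
      subst this
      rw [hm, hmu, hc, pow_zero, mul_one] at hpe
      rcases (Nat.Prime.dvd_mul hp).1 hpe with h' | h'
      · have := Nat.le_of_dvd (by norm_num) h'; omega
      · have := Nat.le_of_dvd (by norm_num) (hp.dvd_of_dvd_pow h'); omega
    have hf1 : 1 ≤ f := by
      by_contra hcon
      have : f = 0 := by omega
      subst this
      omega
    exact ⟨f, g, c, hf, by rw [hm, hmu, hc], hf1, hg1, hc1⟩
  · right
    obtain ⟨f, hf⟩ := prime_pow_of (p := 3) (m := m) (by omega) (fun r hr hrm => by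
      rcases hpe' r hr (by rw [hm]; exact hrm.mul_left _) with h' | h' | h'
      · exfalso; subst h'; omega
      · exact h'
      · exfalso; subst h'; exact hpe (by rw [hm]; exact hrm.mul_left _))
    obtain ⟨g, u, hu3, hmu⟩ := Nat.exists_eq_pow_mul_and_not_dvd (n := o) (by omega) 3 (by norm_num)
    obtain ⟨d, hd⟩ := prime_pow_of (p := p) (m := u) (by rintro rfl; simp at hu3) (fun r hr hru => by
      rcases hpo' r hr (by rw [hmu]; exact hru.mul_left _) with h' | h'
      · exfalso; subst h'; exact hu3 hru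
      · exact h')
    have hg1 : 1 ≤ g := by
      by_contra hcon
      have : g = 0 := by omega
      subst this
      rw [pow_zero, one_mul] at hmu
      rw [hmu] at h3o
      exact hu3 h3o
    have hf1 : 1 ≤ f := by
      by_contra hcon
      have : f = 0 := by omega
      subst this
      omega
    have hd1 : 1 ≤ d := by
      by_contra hcon
      have hd0 : d = 0 := by omega
      subst hd0
      rw [pow_zero] at hd
      rw [hd, mul_one] at hmu
      -- both are powers of three up to the factor two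
      have hlt := hP.lt2 (by omega)
      rw [hm, hf, hmu] at hlt
      have hfg : f < g := by
        by_contra hcon
        have : 3 ^ g ≤ 3 ^ f := Nat.pow_le_pow_right (by norm_num) (by omega)
        omega
      have hgf : g = f + 1 := by
        by_contra hne
        have : 3 ^ (f + 2) ≤ 3 ^ g := Nat.pow_le_pow_right (by norm_num) (by omega)
        have h9 : 3 ^ f * 9 ≤ 3 ^ g := by
          rw [show (9 : ℕ) = 3 ^ 2 by norm_num, ← pow_add]; exact this
        have : 0 < 3 ^ f := by positivity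
        omega
      subst hgf
      rw [pow_succ] at hmu
      rw [hf] at hm
      have hZge : 15 * (k * (k + 1)) ≤ 3 ^ a * p ^ b * (k * (k + 1)) := Nat.mul_le_mul hq le_rfl
      have hkk : k * 2 ≤ k * (k + 1) := Nat.mul_le_mul le_rfl (by omega)
      generalize 3 ^ a * p ^ b * (k * (k + 1)) = Z at *
      generalize k * (k + 1) = W at *
      generalize 3 ^ f = T at *
      omega
    exact ⟨f, g, d, by rw [hm, hf], by rw [hmu, hd], hf1, hg1, hd1⟩

end Pool.Agent.TH500.PC
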