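import Pool.Agent.TH500.PC.ThreeFinal

/-!
Necessary conditions for `q = 3 p^b`.
-/

set_option autoImplicit false

open NumberTheorySymbols

namespace Pool.Agent.TH500.PC

/-- the 3-adic relation for `q = 3 n` -/
lemma three_rel {n e o k s e1 o1 : ℕ}
    (hshape : (o + k = 3 ^ 1 * n * (k * (k + 1)) + 1 ∧ e = 3 ^ 1 * n * (k * (k + 1)) + k + 2) ∨
        (e + k = 3 ^ 1 * n * (k * (k + 1)) + 1 ∧ o = 3 ^ 1 * n * (k * (k + 1)) + k + 2))
    (he : e = 3 ^ (s + 1) * e1) (ho : o = 3 ^ (s + 1) * o1) :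
    ∃ M : ℤ, (n : ℤ) - 2 = 3 ^ s * M ∧ M % 3 = ((e1 : ℤ) + o1) % 3 ∧
      ∃ W : ℤ, M + 2 * ((e1 : ℤ) + o1) = 9 * W := by
  have hw : ∃ w1 : ℤ, (2 * (k : ℤ) + 1) = 3 ^ (s + 1) * w1 := by
    rcases hshape with ⟨h1, h2⟩ | ⟨h1, h2⟩
    · refine ⟨(e1 : ℤ) - o1, ?_⟩
      have e3 : (o : ℤ) + k = 3 ^ 1 * n * (k * (k + 1)) + 1 := by exact_mod_cast h1
      have e4 : (e : ℤ) = 3 ^ 1 * n * (k * (k + 1)) + k + 2 := by exact_mod_cast h2
      have e5 : (e : ℤ) = 3 ^ (s + 1) * e1 := by exact_mod_cast he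
      have e6 : (o : ℤ) = 3 ^ (s + 1) * o1 := by exact_mod_cast ho
      linear_combination e5 - e6 - e4 + e3
    · refine ⟨(o1 : ℤ) - e1, ?_⟩
      have e3 : (e : ℤ) + k = 3 ^ 1 * n * (k * (k + 1)) + 1 := by exact_mod_cast h1
      have e4 : (o : ℤ) = 3 ^ 1 * n * (k * (k + 1)) + k + 2 := by exact_mod_cast h2
      have e5 : (e : ℤ) = 3 ^ (s + 1) * e1 := by exact_mod_cast he
      have e6 : (o : ℤ) = 3 ^ (s + 1) * o1 := by exact_mod_cast ho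
      linear_combination e6 - e5 - e4 + e3
  obtain ⟨w1, hw1⟩ := hw
  have hsum : (e : ℤ) + o = 2 * (3 * n * (k * (k + 1))) + 3 := by
    rcases hshape with ⟨h1, h2⟩ | ⟨h1, h2⟩
    · have e3 : (o : ℤ) + k = 3 ^ 1 * n * (k * (k + 1)) + 1 := by exact_mod_cast h1
      have e4 : (e : ℤ) = 3 ^ 1 * n * (k * (k + 1)) + k + 2 := by exact_mod_cast h2
      linear_combination e3 + e4
    · have e3 : (e : ℤ) + k = 3 ^ 1 * n * (k * (k + 1)) + 1 := by exact_mod_cast h1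
      have e4 : (o : ℤ) = 3 ^ 1 * n * (k * (k + 1)) + k + 2 := by exact_mod_cast h2
      linear_combination e3 + e4
  have e5 : (e : ℤ) = 3 ^ (s + 1) * e1 := by exact_mod_cast he
  have e6 : (o : ℤ) = 3 ^ (s + 1) * o1 := by exact_mod_cast ho
  refine ⟨n * (3 ^ (s + 2) * w1 ^ 2) - 2 * ((e1 : ℤ) + o1), ?_, ?_, n * (3 ^ s * w1 ^ 2), ?_⟩
  · have h1 : 2 * ((e : ℤ) + o) = 3 * (n * (2 * (k : ℤ) + 1) ^ 2) - 3 * n + 6 := by
      linear_combination 2 * hsum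
    rw [hw1, e5, e6] at h1
    have h2 : (3 : ℤ) * (2 * (3 ^ s * e1 + 3 ^ s * o1)) =
        3 * (n * (3 ^ (s + 1) * w1) ^ 2 - n + 2) := by
      rw [pow_succ] at h1 ⊢
      linear_combination h1
    have h3 := mul_left_cancel₀ (by norm_num : (3 : ℤ) ≠ 0) h2
    rw [pow_succ] at h3
    rw [pow_succ, pow_succ]
    linear_combination h3
  · have : (n : ℤ) * (3 ^ (s + 2) * w1 ^ 2) = 3 * (n * (3 ^ (s + 1) * w1 ^ 2)) := by
      rw [pow_succ 3 (s + 1)]; ring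
    rw [this]
    omega
  · rw [pow_add]; ring

/-- the two exponents of `3` are different for `q = 3 p^b` -/
lemma exp_lt {n e o k f g e1 o1 : ℕ} (hn : 5 ≤ n) (hP : Pair (3 ^ 1 * n) e o) (hk : 1 ≤ k)
    (hshape : (o + k = 3 ^ 1 * n * (k * (k + 1)) + 1 ∧ e = 3 ^ 1 * n * (k * (k + 1)) + k + 2) ∨
        (e + k = 3 ^ 1 * n * (k * (k + 1)) + 1 ∧ o = 3 ^ 1 * n * (k * (k + 1)) + k + 2))
    (he : e = 3 ^ f * e1) (ho : o = 3 ^ g * o1) (hf : 1 ≤ f) (hg : 1 ≤ g) :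
    (e1 ≤ 2 → g < f) ∧ (o1 ≤ 2 → f < g) := by
  have hbig := hP.big (by omega) hk hshape
  have hDbig : 9 * n * n ≤ (3 ^ 1 * n - 1) * (3 ^ 1 * n - 1) + 6 * n := by
    obtain ⟨n', rfl⟩ : ∃ n', n = n' + 1 := ⟨n - 1, by omega⟩
    have : 3 ^ 1 * (n' + 1) - 1 = 3 * n' + 2 := by omega
    rw [this]; nlinarith
  have hnn : 45 * n ≤ 9 * n * n := by nlinarith
  constructor
  · intro he1
    by_contra hcon
    push Not at hcon
    obtain ⟨s, rfl⟩ : ∃ s, f = s + 1 := ⟨f - 1, by omega⟩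
    obtain ⟨t, rfl⟩ : ∃ t, g = s + 1 + t := ⟨g - (s + 1), by omega⟩
    rw [pow_add, mul_assoc] at ho
    obtain ⟨M, hM, -, -⟩ := three_rel hshape he ho
    have h3s : 3 ^ s ≤ n - 2 := by
      have hd : (3 ^ s : ℕ) ∣ (n - 2) := by
        have : ((3 ^ s : ℕ) : ℤ) ∣ ((n - 2 : ℕ) : ℤ) := by
          rw [Nat.cast_sub (by omega)]; push_cast; exact ⟨M, hM⟩
        exact_mod_cast this
      exact Nat.le_of_dvd (by omega) hd
    have h6 : e ≤ 6 * n := by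
      rw [he, pow_succ]
      calc 3 ^ s * 3 * e1 ≤ 3 ^ s * 3 * 2 := Nat.mul_le_mul le_rfl he1
        _ ≤ 6 * n := by omega
    omega
  · intro ho1
    by_contra hcon
    push Not at hcon
    obtain ⟨s, rfl⟩ : ∃ s, g = s + 1 := ⟨g - 1, by omega⟩
    obtain ⟨t, rfl⟩ : ∃ t, f = s + 1 + t := ⟨f - (s + 1), by omega⟩
    rw [pow_add, mul_assoc] at he
    obtain ⟨M, hM, -, -⟩ := three_rel hshape he ho
    have h3s : 3 ^ s ≤ n - 2 := by
      have hd : (3 ^ s : ℕ) ∣ (n - 2) := by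
        have : ((3 ^ s : ℕ) : ℤ) ∣ ((n - 2 : ℕ) : ℤ) := by
          rw [Nat.cast_sub (by omega)]; push_cast; exact ⟨M, hM⟩
        exact_mod_cast this
      exact Nat.le_of_dvd (by omega) hd
    have h6 : o ≤ 6 * n := by
      rw [ho, pow_succ]
      calc 3 ^ s * 3 * o1 ≤ 3 ^ s * 3 * 2 := Nat.mul_le_mul le_rfl ho1
        _ ≤ 6 * n := by omega
    omega

end Pool.Agent.TH500.PC
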