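import Pool.Agent.TH500.PC.ThreeOne

/-!
Necessary conditions for `q = 3 p^b`.
-/

set_option autoImplicit false

open NumberTheorySymbols

namespace Pool.Agent.TH500.PC

lemma J_even_pow {a : ℤ} {p f : ℕ} (hf : Even f) (h : J(a | p) ≠ 0) : J(a | p) ^ f = 1 := by
  obtain ⟨f', rfl⟩ := hf
  rcases jacobiSym.trichotomy a p with h' | h' | h'
  · exact absurd h' h
  · rw [h', one_pow]
  · rw [h', ← two_mul, pow_mul, neg_one_sq, one_pow]

lemma J3_ne {p : ℕ} (hpm : p % 2 = 1) (hp3 : p % 3 ≠ 0) : J(3 | p) ≠ 0 := by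
  rcases J_three hpm hp3 with ⟨-, h⟩ | ⟨-, h⟩ <;> rw [h] <;> norm_num

lemma pow_mod9_one {p c : ℕ} (h : p % 9 = 1) : p ^ c % 9 = 1 := by
  rw [Nat.pow_mod, h]; simp

lemma pow_mod9_eight {p c : ℕ} (h : p % 9 = 8) (hc : Even c) : p ^ c % 9 = 1 := by
  obtain ⟨c', rfl⟩ := hc
  rw [← two_mul, pow_mul]
  apply pow_mod9_one
  rw [Nat.pow_mod, h]
  norm_num

theorem one_final {p b : ℕ} (hp : p.Prime) (hp5 : 5 ≤ p) (hb : 1 ≤ b)
    (h : ∃ x y, Sol (3 ^ 1 * p ^ b) x y) :
    (p % 12 = 1 ∧ p % 9 ≠ 1) ∨ (Even b ∧ p % 12 = 11 ∧ p % 9 ≠ 8) ∨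
    (Odd b ∧ ∃ s M : ℕ, p ^ b = 2 + 3 ^ s * M ∧
      ((p % 24 = 5 ∧ s % 2 = 1 ∧ M % 3 = 1) ∨ (p % 24 = 17 ∧ s % 2 = 1 ∧ M % 3 ≠ 0) ∨
        (p % 24 = 11 ∧ M % 3 = 1 + s % 2) ∨
        (p % 24 = 23 ∧ M % 3 ≠ 0 ∧ (s % 2 = 0 → M % 3 = 1)))) := by
  obtain ⟨x, y, hS⟩ := h
  have hpm : p % 2 = 1 := Nat.odd_iff.1 (hp.odd_of_ne_two (by omega))
  have hp3 : p % 3 ≠ 0 := by
    intro h
    have := (Nat.prime_dvd_prime_iff_eq Nat.prime_three hp).1 (Nat.dvd_of_mod_eq_zero h)
    omega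
  have hn5 : 5 ≤ p ^ b := hp5.trans (Nat.le_self_pow (by omega) p)
  have hpq : p ∣ 3 ^ 1 * p ^ b := (dvd_pow_self p (by omega)).mul_left _
  obtain ⟨e, o, k, hP, hk1, hsum, hshape, m4, m3, m7, hk3, hAB⟩ :=
    three_shape hp hp5 le_rfl hb hS
  have hbig := hP.big (by omega) hk1 hshape
  have hD : 196 ≤ (3 ^ 1 * p ^ b - 1) * (3 ^ 1 * p ^ b - 1) := by
    calc 196 = 14 * 14 := by norm_num
      _ ≤ _ := Nat.mul_le_mul (by omega) (by omega)
  have hpb := pow_mod24 hpm hp3 b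
  rcases hAB with ⟨f, g, c, hof, heg, hf1, hg1, hc1⟩ | ⟨f, g, d, hef, hog, hf1, hg1, hd1⟩
  · -- `p` divides `e`
    have hgf : g < f := (exp_lt hn5 hP hk1 hshape (f := g) (g := f) (e1 := 2 * p ^ c) (o1 := 1)
      (by rw [heg]; ring) (by rw [hof, mul_one]) hg1 hf1).2 (by norm_num)
    have hpe : p ∣ e := by
      rw [heg]
      exact ((dvd_pow_self p (by omega)).mul_left _).mul_left _
    have hfe : Even f := by
      rcases three_pow_mod8 f with ⟨h', -⟩ | ⟨-, h'⟩
      · exact h'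
      · exfalso
        rw [← hof] at h'
        have : (3 ^ 1 * p ^ b) % 4 = 1 ∨ (3 ^ 1 * p ^ b) % 8 = 3 ∨ (3 ^ 1 * p ^ b) % 8 = 7 := by omega
        rcases this with h | h | h
        · have := m4 h; omega
        · have := m3 h; omega
        · have := m7 h; omega
    have h12 : p % 12 = 1 ∨ p % 12 = 11 := by
      have hJ := J_of_cast (hP.cast3 hp (by omega) hpq hpe)
      rw [hof] at hJ
      push_cast at hJ
      rw [jacobiSym.pow_left, J_even_pow hfe (J3_ne hpm hp3)] at hJ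
      rcases J_three hpm hp3 with ⟨h', -⟩ | ⟨-, h'⟩
      · exact h'
      · rw [h'] at hJ; norm_num at hJ
    obtain ⟨s, rfl⟩ : ∃ s, g = s + 1 := ⟨g - 1, by omega⟩
    obtain ⟨t, ht⟩ : ∃ t, f = s + 1 + (t + 1) := ⟨f - (s + 2), by omega⟩
    obtain ⟨M, hM1, hM2, W, hW⟩ := three_rel hshape (s := s) (e1 := 2 * p ^ c) (o1 := 3 ^ (t + 1))
      (by rw [heg]; ring) (by rw [hof, ht, pow_add])
    have hM0 : 0 < M := by
      by_contra hcon
      push Not at hcon
      have h1 : (3 : ℤ) ^ s * M ≤ 0 := mul_nonpos_of_nonneg_of_nonpos (by positivity) hcon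
      have h2 : (5 : ℤ) ≤ (p ^ b : ℕ) := by exact_mod_cast hn5
      linarith
    obtain ⟨N, rfl⟩ : ∃ N : ℕ, M = N := ⟨M.toNat, (Int.toNat_of_nonneg hM0.le).symm⟩
    have hN1 : p ^ b = 2 + 3 ^ s * N := by
      have : ((p ^ b : ℕ) : ℤ) = ((2 + 3 ^ s * N : ℕ) : ℤ) := by push_cast; push_cast at hM1; linarith
      exact_mod_cast this
    have hN2 : N % 3 = (2 * p ^ c) % 3 := by
      have h3 : (N % 3 : ℕ) = (2 * p ^ c + 3 ^ (t + 1)) % 3 := by
        have : ((N : ℤ)) % 3 = ((2 * p ^ c + 3 ^ (t + 1) : ℕ) : ℤ) % 3 := by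
          rw [hM2]; push_cast; ring_nf
        exact_mod_cast this
      rw [h3, pow_succ]
      omega
    have hf4 : 4 ≤ f := by
      by_contra hcon
      have : 3 ^ f ≤ 3 ^ 3 := Nat.pow_le_pow_right (by norm_num) (by omega)
      omega
    have hW9 : s = 0 → (N + 4 * p ^ c) % 9 = 0 := by
      rintro rfl
      have h9 : (3 : ℤ) ^ (t + 1) = 9 * 3 ^ (t - 1) := by
        obtain ⟨t', rfl⟩ : ∃ t', t = t' + 1 := ⟨t - 1, by omega⟩
        rw [Nat.add_sub_cancel]; ring
      push_cast at hW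
      rw [h9] at hW
      have : ((N + 4 * p ^ c : ℕ) : ℤ) = 9 * (W - 2 * 3 ^ (t - 1)) := by
        push_cast; linear_combination hW
      omega
    have hpc := pow_mod24 hpm hp3 c
    have hs0 : p ^ b % 3 = 1 → s = 0 := by
      intro h1
      by_contra hcon
      obtain ⟨s', rfl⟩ : ∃ s', s = s' + 1 := ⟨s - 1, by omega⟩
      rw [hN1, pow_succ, show 3 ^ s' * 3 * N = 3 * (3 ^ s' * N) by ring] at h1
      omega
    rcases h12 with h12 | h12
    · left
      refine ⟨h12, ?_⟩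
      intro h9
      have hs := hs0 (by omega)
      have hw := hW9 hs
      have e1 := pow_mod9_one (c := b) h9
      have e2 := pow_mod9_one (c := c) h9
      rw [hs, pow_zero, one_mul] at hN1
      omega
    · rcases Nat.even_or_odd b with hbe | hbo
      · right; left
        refine ⟨hbe, h12, ?_⟩
        intro h9
        have hb24 : p ^ b % 24 = 1 := by
          rcases hpb with ⟨-, h'⟩ | ⟨h', -⟩
          · exact h'
          · exact absurd hbe (Nat.not_even_iff_odd.2 h')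
        have hs := hs0 (by omega)
        have hw := hW9 hs
        rw [hs, pow_zero, one_mul] at hN1
        have hce : Even c := by
          rcases hpc with ⟨h', -⟩ | ⟨-, h'⟩
          · exact h'
          · exfalso; omega
        have e1 := pow_mod9_eight (c := b) h9 hbe
        have e2 := pow_mod9_eight (c := c) h9 hce
        omega
      · right; right
        refine ⟨hbo, s, N, hN1, ?_⟩
        have hb24 : p ^ b % 24 = p % 24 := by
          rcases hpb with ⟨h', -⟩ | ⟨-, h'⟩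
          · exact absurd h' (Nat.not_even_iff_odd.2 hbo)
          · exact h'
        have he8 := (m4 (by omega)).1
        rw [heg] at he8
        have hgc : (3 ^ (s + 1) * p ^ c) % 4 = 1 := by omega
        rw [Nat.mul_mod] at hgc
        have h34 : (Even (s + 1) ∧ 3 ^ (s + 1) % 4 = 1) ∨ (Odd (s + 1) ∧ 3 ^ (s + 1) % 4 = 3) := by
          rcases three_pow_mod8 (s + 1) with ⟨h1, h2⟩ | ⟨h1, h2⟩
          · left; exact ⟨h1, by omega⟩
          · right; exact ⟨h1, by omega⟩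
        rcases h34 with ⟨h1, h2⟩ | ⟨h1, h2⟩ <;> rcases hpc with ⟨h3, h4⟩ | ⟨h3, h4⟩
        · rw [Nat.even_iff] at h1
          omega
        · exfalso
          have : p ^ c % 4 = 3 := by omega
          rw [h2, this] at hgc
          omega
        · exfalso
          have : p ^ c % 4 = 1 := by omega
          rw [h2, this] at hgc
          omega
        · rw [Nat.odd_iff] at h1
          omega
  · -- `p` divides `o`
    have hgf : g < f := (exp_lt hn5 hP hk1 hshape (f := f) (g := g) (e1 := 2) (o1 := p ^ d)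
      (by rw [hef]; ring) hog hf1 hg1).1 le_rfl
    have hpo : p ∣ o := by
      rw [hog]
      exact (dvd_pow_self p (by omega)).mul_left _
    have hJ := J_of_cast (hP.symm.cast3 hp (by omega) hpq hpo)
    rw [hef] at hJ
    push_cast at hJ
    rw [jacobiSym.mul_left, jacobiSym.pow_left] at hJ
    have J2 := J_two hpm
    have J3 := J_three hpm hp3
    obtain ⟨s, rfl⟩ : ∃ s, g = s + 1 := ⟨g - 1, by omega⟩
    obtain ⟨t, ht⟩ : ∃ t, f = s + 1 + (t + 1) := ⟨f - (s + 2), by omega⟩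
    obtain ⟨M, hM1, hM2, W, hW⟩ := three_rel hshape (s := s) (e1 := 2 * 3 ^ (t + 1)) (o1 := p ^ d)
      (by rw [hef, ht, pow_add]; ring) hog
    have hM0 : 0 < M := by
      by_contra hcon
      push Not at hcon
      have h1 : (3 : ℤ) ^ s * M ≤ 0 := mul_nonpos_of_nonneg_of_nonpos (by positivity) hcon
      have h2 : (5 : ℤ) ≤ (p ^ b : ℕ) := by exact_mod_cast hn5
      linarith
    obtain ⟨N, rfl⟩ : ∃ N : ℕ, M = N := ⟨M.toNat, (Int.toNat_of_nonneg hM0.le).symm⟩
    have hN1 : p ^ b = 2 + 3 ^ s * N := by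
      have : ((p ^ b : ℕ) : ℤ) = ((2 + 3 ^ s * N : ℕ) : ℤ) := by push_cast; push_cast at hM1; linarith
      exact_mod_cast this
    have hN2 : N % 3 = (p ^ d) % 3 := by
      have h3 : (N % 3 : ℕ) = (2 * 3 ^ (t + 1) + p ^ d) % 3 := by
        have : ((N : ℤ)) % 3 = ((2 * 3 ^ (t + 1) + p ^ d : ℕ) : ℤ) % 3 := by
          rw [hM2]; push_cast; ring_nf
        exact_mod_cast this
      rw [h3, pow_succ]
      omega
    have hpd := pow_mod24 hpm hp3 d
    have hs0 : p ^ b % 3 = 1 → s = 0 := by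
      intro h1
      by_contra hcon
      obtain ⟨s', rfl⟩ : ∃ s', s = s' + 1 := ⟨s - 1, by omega⟩
      rw [hN1, pow_succ, show 3 ^ s' * 3 * N = 3 * (3 ^ s' * N) by ring] at h1
      omega
    have hfJ : (Even f ∧ (p % 24 = 1 ∨ p % 24 = 5 ∨ p % 24 = 19 ∨ p % 24 = 23)) ∨
        (Odd f ∧ (p % 8 = 1 ∨ p % 8 = 7)) := by
      rcases Nat.even_or_odd f with hfe | hfo
      · left
        refine ⟨hfe, ?_⟩
        rw [J_even_pow hfe (J3_ne hpm hp3), mul_one] at hJ
        rcases J2 with ⟨h1, h2⟩ | ⟨h1, h2⟩ <;> rcases J3 with ⟨h3, h4⟩ | ⟨h3, h4⟩ <;>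
          rw [h2, h4] at hJ <;> norm_num at hJ <;> omega
      · right
        refine ⟨hfo, ?_⟩
        rcases J2 with ⟨h1, h2⟩ | ⟨h1, h2⟩
        · exact h1
        · exfalso
          rcases J3 with ⟨h3, h4⟩ | ⟨h3, h4⟩
          · rw [h2, h4, one_pow] at hJ; norm_num at hJ
          · rw [h2, h4, hfo.neg_one_pow] at hJ; norm_num at hJ
    have hb24 : (Even b ∧ p ^ b % 24 = 1) ∨ (Odd b ∧ p ^ b % 24 = p % 24) := hpb
    have hg8 := three_pow_mod8 (s + 1)
    have ho8 : o % 8 = ((3 ^ (s + 1) % 8) * (p ^ d % 8)) % 8 := by rw [hog, Nat.mul_mod]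
    have he8 : e % 8 = (2 * (3 ^ f % 8)) % 8 := by rw [hef]; omega
    have hf8 := three_pow_mod8 f
    have hsq : Odd b → ¬ (Odd d ∧ Odd (s + 1)) := by
      rintro ⟨b', hb'⟩ ⟨⟨d', hd'⟩, ⟨s', hs'⟩⟩
      refine hP.symm.not_sq (by omega) (by omega) (by omega) ?_
      refine ⟨3 ^ (s' + 1) * p ^ (b' + d' + 1), ?_⟩
      rw [hog, hs', hb', hd']
      ring
    rcases hb24 with ⟨hbe, hb24⟩ | ⟨hbo, hb24⟩
    · exfalso
      have hs := hs0 (by omega)
      subst hs
      rw [pow_zero, one_mul] at hN1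
      have ho1 := (m3 (by omega)).2
      rw [ho1] at ho8
      norm_num at ho8
      rcases hpd with ⟨-, h4⟩ | ⟨-, h4⟩
      · omega
      · rcases hfJ with ⟨-, h5⟩ | ⟨-, h5⟩ <;> omega
    · right; right
      refine ⟨hbo, s, N, hN1, ?_⟩
      have hp31 : p % 3 = 2 := by
        by_contra hcon
        have h31 : p % 3 = 1 := by omega
        have hs := hs0 (by omega)
        subst hs
        rw [pow_zero, one_mul] at hN1
        have : p ^ d % 3 = 1 := mod3_pow h31 d
        omega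
      have hs' : p % 24 = 5 ∨ p % 24 = 11 ∨ p % 24 = 17 ∨ p % 24 = 23 := by omega
      rcases hs' with h24 | h24 | h24 | h24
      · have ho1 := (m7 (by omega)).2
        rw [ho1] at ho8
        rcases hg8 with ⟨h1, h2⟩ | ⟨h1, h2⟩ <;> rcases hpd with ⟨h3, h4⟩ | ⟨h3, h4⟩
        · rw [Nat.even_iff] at h1
          omega
        · exfalso; rw [h2] at ho8; omega
        · exfalso; rw [h2] at ho8; omega
        · exfalso
          have : p ^ d % 8 = 5 := by omega
          rw [h2, this] at ho8; omega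
      · exfalso
        have he1 := (m4 (by omega)).1
        rcases hf8 with ⟨h1, h2⟩ | ⟨h1, h2⟩
        · rcases hfJ with ⟨-, h5⟩ | ⟨h5, -⟩
          · omega
          · exact (Nat.not_even_iff_odd.2 h5) h1
        · omega
      · have ho1 := (m3 (by omega)).2
        rw [ho1] at ho8
        have hd8 : p ^ d % 8 = 1 := by rcases hpd with ⟨h3, h4⟩ | ⟨h3, h4⟩ <;> omega
        rcases hg8 with ⟨h1, h2⟩ | ⟨h1, h2⟩
        · rw [Nat.even_iff] at h1
          right; left
          refine ⟨h24, by omega, ?_⟩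
          rw [hN2]
          rcases hpd with ⟨h3, h4⟩ | ⟨h3, h4⟩ <;> omega
        · exfalso; rw [h2, hd8] at ho8; omega
      · have ho1 := (m4 (by omega)).2
        have hgd : Even (s + 1) ∧ Even d := by
          rcases hg8 with ⟨h1, h2⟩ | ⟨h1, h2⟩ <;> rcases hpd with ⟨h3, h4⟩ | ⟨h3, h4⟩
          · exact ⟨h1, h3⟩
          · exfalso
            have : p ^ d % 8 = 7 := by omega
            rw [h2, this] at ho8; omega
          · exfalso
            have : p ^ d % 8 = 1 := by omega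
            rw [h2, this] at ho8; omega
          · exact absurd ⟨h3, h1⟩ (hsq hbo)
        obtain ⟨h1, h3⟩ := hgd
        rw [Nat.even_iff] at h1
        right; right; right
        have : p ^ d % 24 = 1 := by
          rcases hpd with ⟨-, h4⟩ | ⟨h4, -⟩
          · exact h4
          · exact absurd h3 (Nat.not_even_iff_odd.2 h4)
        omega

end Pool.Agent.TH500.PC
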