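import Pool.Agent.TH500.PC.ThreeOneFinal

/-!
Necessary conditions for `q = 3^a p^b`, `a ≥ 2`.
-/

set_option autoImplicit false

open NumberTheorySymbols

namespace Pool.Agent.TH500.PC

lemma J_odd_pow {a : ℤ} {l c : ℕ} (hc : Odd c) : J(a | l) ^ c = J(a | l) := by
  rcases jacobiSym.trichotomy a l with h' | h' | h'
  · rw [h', zero_pow (by rintro rfl; simp at hc)]
  · rw [h', one_pow]
  · rw [h', hc.neg_one_pow]

/-- shapes for `q = 3^a p^b`, `a ≥ 2` -/
theorem three_shape2 {p a b : ℕ} (hp : p.Prime) (hp5 : 5 ≤ p) (ha : 2 ≤ a) (hb : 1 ≤ b)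
    (h : ∃ x y, Sol (3 ^ a * p ^ b) x y) :
    ∃ e o k : ℕ, Pair (3 ^ a * p ^ b) e o ∧
      e + o = 2 * (3 ^ a * p ^ b * (k * (k + 1))) + 3 ∧
      ((3 ^ a * p ^ b) % 4 = 1 → e % 8 = 2 ∧ o % 4 = 1) ∧
      ((3 ^ a * p ^ b) % 8 = 3 → (e % 16 = 2 ∨ e % 16 = 6) ∧ o % 8 = 1) ∧
      ((3 ^ a * p ^ b) % 8 = 7 → (e % 16 = 2 ∨ e % 16 = 14) ∧ o % 8 = 1) ∧
      k % 3 = 1 ∧ p % 4 = 3 ∧
      ((∃ f c : ℕ, o = 3 ^ f ∧ e = 6 * p ^ c ∧ Even f ∧ 3 ≤ f ∧ Odd c ∧ p % 3 = 2) ∨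
        (∃ f d : ℕ, e = 2 * 3 ^ f ∧ o = 3 * p ^ d ∧ Even f ∧ 3 ≤ f ∧ Odd d ∧ p % 24 = 19)) := by
  obtain ⟨x, y, hS⟩ := h
  have hpm : p % 2 = 1 := Nat.odd_iff.1 (hp.odd_of_ne_two (by omega))
  have hp3 : p % 3 ≠ 0 := by
    intro h
    have := (Nat.prime_dvd_prime_iff_eq Nat.prime_three hp).1 (Nat.dvd_of_mod_eq_zero h)
    omega
  have hq45 : 45 ≤ 3 ^ a * p ^ b := by
    calc 45 = 3 ^ 2 * 5 ^ 1 := by norm_num
      _ ≤ 3 ^ a * p ^ b := Nat.mul_le_mul (Nat.pow_le_pow_right (by norm_num) ha)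
        ((Nat.pow_le_pow_left hp5 1).trans (Nat.pow_le_pow_right (by omega) hb))
  obtain ⟨q', hq'⟩ : ∃ q', 3 ^ a * p ^ b = 9 * q' := by
    obtain ⟨a', rfl⟩ : ∃ a', a = a' + 2 := ⟨a - 2, by omega⟩
    exact ⟨3 ^ a' * p ^ b, by ring⟩
  have hpq : p ∣ 3 ^ a * p ^ b := (dvd_pow_self p (by omega)).mul_left _
  have hqodd : (3 ^ a * p ^ b) % 2 = 1 := by
    have h1 : Odd (3 ^ a) := Odd.pow (by decide)
    have h2 : Odd (p ^ b) := Odd.pow (Nat.odd_iff.2 hpm)
    exact Nat.odd_iff.1 (h1.mul h2)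
  obtain ⟨e, o, k, hP, hk1, hsum, hshape, m4, m3, m7, hk3, hAB⟩ :=
    three_shape hp hp5 (by omega) hb hS
  have hbig := hP.big (by omega) hk1 hshape
  have hD : 44 * 44 ≤ (3 ^ a * p ^ b - 1) * (3 ^ a * p ^ b - 1) :=
    Nat.mul_le_mul (by omega) (by omega)
  have hsum9 : (e + o) % 9 = 3 := by
    have : 2 * (3 ^ a * p ^ b * (k * (k + 1))) = 9 * (2 * (q' * (k * (k + 1)))) := by
      rw [hq']; ring
    clear hAB
    omega
  have hcase : (3 ^ a * p ^ b) % 4 = 1 ∨ (3 ^ a * p ^ b) % 8 = 3 ∨ (3 ^ a * p ^ b) % 8 = 7 := by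
    clear hAB
    omega
  have hres : (e % 8 = 2 ∧ o % 8 = 5) ∨ (o % 8 = 1 ∧ (e % 8 = 2 ∨ e % 8 = 6)) := by
    clear hAB
    rcases hcase with h | h | h
    · have := m4 h; omega
    · have := m3 h; omega
    · have := m7 h; omega
  rcases hAB with ⟨f, g, c, hof, heg, hf1, hg1, hc1⟩ | ⟨f, g, d, hef, hog, hf1, hg1, hd1⟩
  · have hf3 : 3 ≤ f := by
      by_contra hcon
      have : 3 ^ f ≤ 3 ^ 2 := Nat.pow_le_pow_right (by norm_num) (by omega)
      omega
    have h9o : o % 9 = 0 := by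
      obtain ⟨f', rfl⟩ : ∃ f', f = f' + 2 := ⟨f - 2, by omega⟩
      rw [hof, pow_add]; omega
    have hg : g = 1 := by
      by_contra hcon
      obtain ⟨g', rfl⟩ : ∃ g', g = g' + 2 := ⟨g - 2, by omega⟩
      have : e = 9 * (2 * (3 ^ g' * p ^ c)) := by rw [heg]; ring
      omega
    subst hg
    have he6 : e = 6 * p ^ c := by rw [heg]; ring
    have hpc3 : p ^ c % 3 = 2 := by omega
    have hpc := pow_mod24 hpm hp3 c
    have hco : Odd c ∧ p % 3 = 2 := by
      rcases hpc with ⟨-, h'⟩ | ⟨h', h''⟩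
      · omega
      · exact ⟨h', by omega⟩
    have hfe : Even f := by
      rcases three_pow_mod8 f with ⟨h', -⟩ | ⟨-, h'⟩
      · exact h'
      · rw [← hof] at h'; omega
    have hpe : p ∣ e := by
      rw [he6]
      exact (dvd_pow_self p (by omega)).mul_left _
    have hJ := J_of_cast (hP.cast3 hp (by omega) hpq hpe)
    rw [hof] at hJ
    push_cast at hJ
    rw [jacobiSym.pow_left, J_even_pow hfe (J3_ne hpm hp3)] at hJ
    have h12 : p % 12 = 1 ∨ p % 12 = 11 := by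
      rcases J_three hpm hp3 with ⟨h', -⟩ | ⟨-, h'⟩
      · exact h'
      · rw [h'] at hJ; norm_num at hJ
    exact ⟨e, o, k, hP, hsum, m4, m3, m7, hk3, by omega,
      Or.inl ⟨f, c, hof, he6, hfe, hf3, hco.1, hco.2⟩⟩
  · have hf3 : 3 ≤ f := by
      by_contra hcon
      have : 3 ^ f ≤ 3 ^ 2 := Nat.pow_le_pow_right (by norm_num) (by omega)
      omega
    have h9e : e % 9 = 0 := by
      obtain ⟨f', rfl⟩ : ∃ f', f = f' + 2 := ⟨f - 2, by omega⟩
      rw [hef, pow_add]; omega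
    have hg : g = 1 := by
      by_contra hcon
      obtain ⟨g', rfl⟩ : ∃ g', g = g' + 2 := ⟨g - 2, by omega⟩
      have : o = 9 * (3 ^ g' * p ^ d) := by rw [hog]; ring
      omega
    subst hg
    have ho3 : o = 3 * p ^ d := by rw [hog]; ring
    have hpd := pow_mod24 hpm hp3 d
    have hpd3 : p ^ d % 3 = 1 := by omega
    have hdo : Odd d ∧ p % 12 = 7 := by
      rcases hpd with ⟨-, h'⟩ | ⟨h', h''⟩
      · exfalso; omega
      · exact ⟨h', by omega⟩
    have hpo : p ∣ o := by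
      rw [ho3]
      exact (dvd_pow_self p (by omega)).mul_left _
    have hJ := J_of_cast (hP.symm.cast3 hp (by omega) hpq hpo)
    rw [hef] at hJ
    push_cast at hJ
    rw [jacobiSym.mul_left, jacobiSym.pow_left, J3_neg (by omega : p % 12 = 5 ∨ p % 12 = 7)] at hJ
    have hpd8 : p ^ d % 8 = p % 8 := by
      rcases hpd with ⟨h', -⟩ | ⟨-, h'⟩
      · exact absurd h' (Nat.not_even_iff_odd.2 hdo.1)
      · omega
    have h24 : p % 24 = 19 := by
      by_contra hcon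
      have h7 : p % 24 = 7 := by omega
      rw [J2_pos (by omega)] at hJ
      rcases three_pow_mod8 f with ⟨h', -⟩ | ⟨-, h'⟩
      · rw [h'.neg_one_pow] at hJ; norm_num at hJ
      · omega
    rw [J2_neg (by omega)] at hJ
    have hfe : Even f := by
      by_contra hcon
      rw [Nat.not_even_iff_odd] at hcon
      rw [hcon.neg_one_pow] at hJ
      norm_num at hJ
    exact ⟨e, o, k, hP, hsum, m4, m3, m7, hk3, by omega,
      Or.inr ⟨f, d, hef, ho3, hfe, hf3, hdo.1, h24⟩⟩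

/-- residues for `q = 3^a p^b`, `a ≥ 2` -/
theorem two_final {p a b : ℕ} (hp : p.Prime) (hp5 : 5 ≤ p) (ha : 2 ≤ a) (hb : 1 ≤ b)
    (h : ∃ x y, Sol (3 ^ a * p ^ b) x y) :
    (p % 24 = 11 ∧ ¬ (Even a ∧ Even b) ∧ (p % 9 = 8 → a = 2 ∧ Odd b)) ∨
    (p % 24 = 23 ∧ Odd a ∧ Odd b ∧ p % 9 ≠ 8) ∨
    (p % 24 = 19 ∧ ¬ (Odd a ∧ Odd b) ∧ (a = 2 → p % 9 ≠ 1)) := by
  have hpm : p % 2 = 1 := Nat.odd_iff.1 (hp.odd_of_ne_two (by omega))
  have hp3 : p % 3 ≠ 0 := by
    intro h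
    have := (Nat.prime_dvd_prime_iff_eq Nat.prime_three hp).1 (Nat.dvd_of_mod_eq_zero h)
    omega
  have hq45 : 45 ≤ 3 ^ a * p ^ b := by
    calc 45 = 3 ^ 2 * 5 ^ 1 := by norm_num
      _ ≤ 3 ^ a * p ^ b := Nat.mul_le_mul (Nat.pow_le_pow_right (by norm_num) ha)
        ((Nat.pow_le_pow_left hp5 1).trans (Nat.pow_le_pow_right (by omega) hb))
  have hqodd : (3 ^ a * p ^ b) % 2 = 1 := by
    have h1 : Odd (3 ^ a) := Odd.pow (by decide)
    have h2 : Odd (p ^ b) := Odd.pow (Nat.odd_iff.2 hpm)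
    exact Nat.odd_iff.1 (h1.mul h2)
  obtain ⟨e, o, k, hP, hsum, m4, m3, m7, hk3, hp4, hAB⟩ := three_shape2 hp hp5 ha hb h
  have hsum27 : 3 ≤ a → (e + o) % 27 = 3 := by
    intro ha3
    obtain ⟨a', rfl⟩ : ∃ a', a = a' + 3 := ⟨a - 3, by omega⟩
    have : 2 * (3 ^ (a' + 3) * p ^ b * (k * (k + 1))) =
      27 * (2 * (3 ^ a' * p ^ b * (k * (k + 1)))) := by ring
    clear hAB
    omega
  have hsum2 : a = 2 → (e + o) % 27 = (9 * p ^ b + 3) % 27 := by
    rintro rfl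
    obtain ⟨j, rfl⟩ : ∃ j, k = 3 * j + 1 := ⟨k / 3, by omega⟩
    have : 2 * (3 ^ 2 * p ^ b * ((3 * j + 1) * (3 * j + 1 + 1))) =
      9 * p ^ b + 27 * (p ^ b * (6 * j * j + 6 * j + 1)) := by ring
    clear hAB
    omega
  have hab4 : (3 ^ a * p ^ b) % 4 = 1 → (Even a ∧ Even b) ∨ (Odd a ∧ Odd b) := by
    intro h4
    rw [Nat.mul_mod] at h4
    have h3a : (Even a ∧ 3 ^ a % 4 = 1) ∨ (Odd a ∧ 3 ^ a % 4 = 3) := by
      rcases three_pow_mod8 a with ⟨h1, h2⟩ | ⟨h1, h2⟩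
      · left; exact ⟨h1, by omega⟩
      · right; exact ⟨h1, by omega⟩
    have hpb4 : (Even b ∧ p ^ b % 4 = 1) ∨ (Odd b ∧ p ^ b % 4 = 3) := by
      rcases pow_mod8 hpm b with ⟨h1, h2⟩ | ⟨h1, h2⟩
      · left; exact ⟨h1, by omega⟩
      · right; exact ⟨h1, by omega⟩
    rcases h3a with ⟨h1, h2⟩ | ⟨h1, h2⟩ <;> rcases hpb4 with ⟨h3, h4'⟩ | ⟨h3, h4'⟩
    · exact Or.inl ⟨h1, h3⟩
    · rw [h2, h4'] at h4; omega
    · rw [h2, h4'] at h4; omega
    · exact Or.inr ⟨h1, h3⟩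
  rcases hAB with ⟨f, c, hof, he6, hfe, hf3, hco, hp32⟩ | ⟨f, d, hef, ho3, hfe, hf3, hdo, h19⟩
  · have h27o : o % 27 = 0 := by
      obtain ⟨f', rfl⟩ : ∃ f', f = f' + 3 := ⟨f - 3, by omega⟩
      rw [hof, pow_add]; omega
    have hnee : ¬ (Even a ∧ Even b) := by
      rintro ⟨⟨a', ha'⟩, ⟨b', hb'⟩⟩
      obtain ⟨f', hf'⟩ := hfe
      refine hP.symm.not_sq (by omega) (by omega) (by omega) ?_
      refine ⟨3 ^ (a' + f') * p ^ b', ?_⟩
      rw [hof, ha', hb', hf']; ring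
    have hpc9 : p % 9 = 8 → p ^ c % 9 = 8 := by
      intro h9
      obtain ⟨c', rfl⟩ := hco
      rw [pow_succ, Nat.mul_mod, pow_mod9_eight h9 (even_two_mul c'), h9]
    have h98 : p % 9 = 8 → a = 2 ∧ Odd b := by
      intro h9
      have hc9 := hpc9 h9
      have ha2 : a = 2 := by
        by_contra hcon
        have := hsum27 (by omega)
        omega
      refine ⟨ha2, ?_⟩
      by_contra hbe
      rw [Nat.not_odd_iff_even] at hbe
      have h1 := pow_mod9_eight (c := b) h9 hbe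
      have := hsum2 ha2
      omega
    have h24 : p % 24 = 11 ∨ p % 24 = 23 := by omega
    rcases h24 with h24 | h24
    · exact Or.inl ⟨h24, hnee, h98⟩
    · right; left
      have hpc : p ^ c % 8 = 7 := by
        rcases pow_mod8 hpm c with ⟨h', -⟩ | ⟨-, h'⟩
        · exact absurd h' (Nat.not_even_iff_odd.2 hco)
        · omega
      have hq4 : (3 ^ a * p ^ b) % 4 = 1 := by
        by_contra hcon
        have : (3 ^ a * p ^ b) % 8 = 3 ∨ (3 ^ a * p ^ b) % 8 = 7 := by omega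
        rcases this with h | h
        · have := m3 h; omega
        · have := m7 h; omega
      rcases hab4 hq4 with h' | h'
      · exact absurd h' hnee
      · refine ⟨h24, h'.1, h'.2, ?_⟩
        intro h9
        have h2 := (h98 h9).1
        have := h'.1
        rw [h2] at this
        exact (Nat.not_even_iff_odd.2 this) (by decide)
  · right; right
    refine ⟨h19, ?_, ?_⟩
    · rintro ⟨⟨a', ha'⟩, ⟨b', hb'⟩⟩
      obtain ⟨d', hd'⟩ := hdo
      refine hP.symm.not_sq (by omega) (by omega) (by omega) ?_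
      refine ⟨3 ^ (a' + 1) * p ^ (b' + d' + 1), ?_⟩
      rw [ho3, ha', hb', hd']; ring
    · intro ha2 h9
      have h27e : e % 27 = 0 := by
        obtain ⟨f', rfl⟩ : ∃ f', f = f' + 3 := ⟨f - 3, by omega⟩
        rw [hef, pow_add]; omega
      have h1 := pow_mod9_one (c := b) h9
      have h2 := pow_mod9_one (c := d) h9
      have := hsum2 ha2
      omega

/-- `3 p` is a square modulo the odd primes dividing `(q - 1) (q ^ 2 - 6 q + 1)` -/
theorem two_disc {p a b : ℕ} (hp : p.Prime) (hp5 : 5 ≤ p) (ha : 2 ≤ a) (hb : 1 ≤ b)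
    (h : ∃ x y, Sol (3 ^ a * p ^ b) x y) (l : ℕ) (hl : l.Prime) (hl2 : l ≠ 2)
    (hd : (l : ℤ) ∣ (((3 ^ a * p ^ b : ℕ) : ℤ) - 1) *
      (((3 ^ a * p ^ b : ℕ) : ℤ) ^ 2 - 6 * ((3 ^ a * p ^ b : ℕ) : ℤ) + 1)) :
    J(3 * (p : ℤ) | l) = 1 := by
  obtain ⟨e, o, k, hP, hsum, m4, m3, m7, hk3, hp4, hAB⟩ := three_shape2 hp hp5 ha hb h
  have h2l : J(2 | l) = 1 ∨ J(2 | l) = -1 := by
    rcases J_two (m := l) (Nat.odd_iff.1 (hl.odd_of_ne_two hl2)) with ⟨-, h'⟩ | ⟨-, h'⟩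
    · exact Or.inl h'
    · exact Or.inr h'
  have hl' : Prime (l : ℤ) := Nat.prime_iff_prime_int.1 hl
  rw [jacobiSym.mul_left]
  rcases hl'.dvd_or_dvd hd with hd | hd
  · have hm := hP.mod_q1 hl hl2 hd
    rcases hAB with ⟨f, c, hof, he6, hfe, hf3, hco, hp32⟩ | ⟨f, d, hef, ho3, hfe, hf3, hdo, h19⟩
    · rcases hm with ⟨h1, h2⟩ | ⟨h1, h2⟩
      · have e1 := J_cast_one h1
        have e2 := J_cast_two h2
        rw [he6, show (6 * p ^ c : ℕ) = 2 * (3 * p ^ c) by ring] at e1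
        rw [hof] at e2
        push_cast at e1 e2
        rw [jacobiSym.mul_left, jacobiSym.mul_left, jacobiSym.pow_left, J_odd_pow hco] at e1
        rw [jacobiSym.pow_left] at e2
        have h3 : J(3 | l) ≠ 0 := by
          intro h0
          rw [h0, zero_pow (by omega)] at e2
          rcases h2l with h' | h' <;> rw [h'] at e2 <;> norm_num at e2
        rw [J_even_pow hfe h3] at e2
        rw [← e2, one_mul] at e1
        exact e1
      · have e1 := J_cast_two h1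
        rw [he6, show (6 * p ^ c : ℕ) = 2 * (3 * p ^ c) by ring] at e1
        push_cast at e1
        rw [jacobiSym.mul_left, jacobiSym.mul_left, jacobiSym.pow_left, J_odd_pow hco] at e1
        rcases h2l with h' | h' <;> rw [h'] at e1 <;> linarith
    · rcases hm with ⟨h1, h2⟩ | ⟨h1, h2⟩
      · have e1 := J_cast_one h1
        have e2 := J_cast_two h2
        rw [hef] at e1
        rw [ho3] at e2
        push_cast at e1 e2
        rw [jacobiSym.mul_left, jacobiSym.pow_left] at e1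
        rw [jacobiSym.mul_left, jacobiSym.pow_left, J_odd_pow hdo] at e2
        have h3 : J(3 | l) ≠ 0 := by
          intro h0
          rw [h0, zero_pow (by omega), mul_zero] at e1
          norm_num at e1
        rw [J_even_pow hfe h3, mul_one] at e1
        rw [e1] at e2
        exact e2
      · have e2 := J_cast_one h2
        rw [ho3] at e2
        push_cast at e2
        rw [jacobiSym.mul_left, jacobiSym.pow_left, J_odd_pow hdo] at e2
        exact e2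
  · have h1 := hP.J_disc hl hl2 hd
    have h2 := hP.symm.J_disc hl hl2 hd
    have h3 := J_two_disc hl hl2 hd
    push_cast at h1 h2
    rw [jacobiSym.mul_left] at h1 h2
    have hq1 : J((3 : ℤ) ^ a * (p : ℤ) ^ b | l) = 1 ∨ J((3 : ℤ) ^ a * (p : ℤ) ^ b | l) = -1 := by
      rcases jacobiSym.trichotomy ((3 : ℤ) ^ a * (p : ℤ) ^ b) l with h' | h' | h'
      · rw [h', zero_mul] at h1; norm_num at h1
      · exact Or.inl h'
      · exact Or.inr h'
    have heo : J((e : ℤ) | l) = J((o : ℤ) | l) := by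
      rcases hq1 with h' | h' <;> rw [h'] at h1 h2 <;> linarith
    have ho0 : J((o : ℤ) | l) ≠ 0 := by
      intro h0; rw [h0, mul_zero] at h2; norm_num at h2
    rcases hAB with ⟨f, c, hof, he6, hfe, hf3, hco, hp32⟩ | ⟨f, d, hef, ho3, hfe, hf3, hdo, h19⟩
    · rw [hof] at heo ho0
      rw [he6, show (6 * p ^ c : ℕ) = 2 * (3 * p ^ c) by ring] at heo
      push_cast at heo ho0
      rw [jacobiSym.pow_left] at ho0
      have h30 : J(3 | l) ≠ 0 := by
        intro h0; apply ho0; rw [h0, zero_pow (by omega)]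
      rw [jacobiSym.mul_left, jacobiSym.mul_left, jacobiSym.pow_left, jacobiSym.pow_left,
        J_odd_pow hco, J_even_pow hfe h30, h3, one_mul] at heo
      exact heo
    · rw [ho3] at heo ho0
      rw [hef] at heo
      push_cast at heo ho0
      rw [jacobiSym.mul_left] at ho0
      have h30 : J(3 | l) ≠ 0 := by
        intro h0; apply ho0; rw [h0, zero_mul]
      rw [jacobiSym.mul_left, jacobiSym.mul_left, jacobiSym.pow_left, jacobiSym.pow_left,
        J_odd_pow hdo, J_even_pow hfe h30, h3, one_mul] at heo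
      exact heo.symm

end Pool.Agent.TH500.PC
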