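import Pool.Agent.TH500.PC.Res16
import Pool.Agent.TH500.PC.FamTwo
import Pool.Agent.TH500.PC.ThreeTwoFinal

/-!
Necessary conditions for `q = p^a r^b`, `p, r ≥ 5`.
-/

set_option autoImplicit false

open NumberTheorySymbols

namespace Pool.Agent.TH500.PC

/-- for an odd perfect square `q` the odd part of the even zero is `1` modulo `8` -/
theorem sq_mod8 {q s P Q : ℕ} (hq : q = s * s) (hs : s % 2 = 1) (hs3 : 3 ≤ s)
    (hP : Pair q (2 * P) Q) (hP4 : P % 4 = 1) : P % 8 = 1 := by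
  obtain ⟨u, hu⟩ : ∃ u, s = 2 * u + 1 := ⟨s / 2, by omega⟩
  have hu1 : 1 ≤ u := by omega
  obtain ⟨m, hm⟩ : ∃ m, m + 1 = 2 * u ^ 2 := ⟨2 * u ^ 2 - 1, by
    have : 1 ≤ u ^ 2 := Nat.one_le_pow _ _ (by omega)
    omega⟩
  have hm2 : m % 2 = 1 := by omega
  have hmZ : (m : ℤ) = 2 * (u : ℤ) ^ 2 - 1 := by
    have : (m : ℤ) + 1 = 2 * (u : ℤ) ^ 2 := by exact_mod_cast hm
    linarith
  have hmd : (m : ℤ) ∣ (q : ℤ) ^ 2 - 6 * q + 1 := by
    refine ⟨4 * (2 * ((u : ℤ) + 1) ^ 2 - 1), ?_⟩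
    rw [hmZ, hq, hu]
    push_cast
    ring
  have hodd_dvd : ∀ p : ℕ, p.Prime → p ≠ 2 → p ∣ 2 * q → p ∣ q := by
    intro p hp hp2 hd
    rcases (Nat.Prime.dvd_mul hp).1 hd with h' | h'
    · exact absurd ((Nat.prime_dvd_prime_iff_eq hp Nat.prime_two).1 h') hp2
    · exact h'
  have hJ : J((P : ℤ) | m) = 1 := by
    apply J_eq_one (by omega)
    intro l hl hlm
    have hl2 : l ≠ 2 := by rintro rfl; omega
    have hd := (Int.natCast_dvd_natCast.2 hlm).trans hmd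
    have h1 := hP.J_disc hl hl2 hd
    have h3 := J_two_disc hl hl2 hd
    rw [hq] at h1
    push_cast at h1
    rw [jacobiSym.mul_left, jacobiSym.mul_left, jacobiSym.mul_left, h3, one_mul] at h1
    rcases jacobiSym.trichotomy (s : ℤ) l with h' | h' | h'
    · rw [h', zero_mul, zero_mul] at h1; norm_num at h1
    · rw [h', one_mul, one_mul] at h1; exact h1
    · rw [h', neg_one_mul, neg_neg, one_mul] at h1; exact h1
  have hr := jacobiSym.quadratic_reciprocity_one_mod_four (a := P) (b := m) hP4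
    (Nat.odd_iff.2 hm2)
  rw [hJ] at hr
  have hJ2 : J(2 * (m : ℤ) | P) = J(-1 | P) := by
    apply J_congr P (by omega)
    intro p hp hpP
    have hp2 : p ≠ 2 := by rintro rfl; omega
    have hpq := hodd_dvd p hp hp2 (hP.smooth hp (hpP.mul_left _))
    have hps : p ∣ s := by
      rw [hq] at hpq
      rcases (Nat.Prime.dvd_mul hp).1 hpq with h' | h' <;> exact h'
    apply jacobiSym.mod_left'
    obtain ⟨v, hv⟩ := hps
    have h1 : 2 * (m : ℤ) = -1 + p * (v * ((s : ℤ) - 2)) := by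
      have e1 : (s : ℤ) = 2 * u + 1 := by exact_mod_cast hu
      have e2 : (s : ℤ) = p * v := by exact_mod_cast hv
      have e3 : (p : ℤ) * (v * ((s : ℤ) - 2)) = s * (s - 2) := by rw [← mul_assoc, ← e2]
      rw [hmZ, e3, e1]; ring
    rw [h1, Int.add_mul_emod_self_left]
  rw [jacobiSym.mul_left, ← hr, mul_one, jacobiSym.at_neg_one (Nat.odd_iff.2 (by omega)),
    ZMod.χ₄_nat_one_mod_four hP4] at hJ2
  rcases J_two (m := P) (by omega) with ⟨h', -⟩ | ⟨-, h'⟩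
  · omega
  · rw [h'] at hJ2; norm_num at hJ2

/-- the shape of a solution for odd `q` prime to 3, refined -/
theorem odd_shape2 {q x y : ℕ} (h : Sol q x y) (hq2 : q % 2 = 1) (hq3 : ¬ 3 ∣ q) (hq : 3 ≤ q) :
    ∃ P Q : ℕ, Pair q (2 * P) Q ∧ P % 4 = 1 ∧ Q % 8 = 1 ∧ (P * Q) % 3 = 1 ∧ 3 ≤ P ∧ 3 ≤ Q ∧
      (q % 4 = 3 → P % 8 = 1) ∧ ((∃ s, q = s * s) → P % 8 = 1) := by
  obtain ⟨e, o, k, hP, he, ho, hk1, hsum, hshape, m4, m3, m7⟩ := odd_res2 h hq2
  have hge := hP.ge3 (by omega)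
  have hres : (e % 8 = 2 ∧ o % 8 = 1) ∨ (e % 8 = 2 ∧ o % 8 = 5) ∨ (e % 8 = 6 ∧ o % 8 = 1) := by
    have : q % 4 = 1 ∨ q % 8 = 3 ∨ q % 8 = 7 := by omega
    rcases this with h | h | h
    · have := m4 h; omega
    · have := m3 h; omega
    · have := m7 h; omega
  obtain ⟨P, hPe⟩ : ∃ P, e = 2 * P := ⟨e / 2, by omega⟩
  subst hPe
  have hm3 := hP.mod3 hq3
  have hPQ3 : (P * o) % 3 = 1 := by
    have : 2 * P * o = 2 * (P * o) := by ring
    rw [this] at hm3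
    omega
  have hodd_dvd : ∀ p : ℕ, p.Prime → p ≠ 2 → p ∣ 2 * q → p ∣ q := by
    intro p hp hp2 hd
    rcases (Nat.Prime.dvd_mul hp).1 hd with h' | h'
    · exact absurd ((Nat.prime_dvd_prime_iff_eq hp Nat.prime_two).1 h') hp2
    · exact h'
  have h1 : J((o : ℤ) | P) = J(3 | P) := by
    apply J_congr P (by omega)
    intro p hp hpP
    have hp2 : p ≠ 2 := by rintro rfl; omega
    exact J_of_cast (hP.cast3 hp hp2 (hodd_dvd p hp hp2 (hP.smooth hp (hpP.mul_left _)))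
      (hpP.mul_left _))
  have h2 : J(((2 * P : ℕ) : ℤ) | o) = J(3 | o) := by
    apply J_congr o (by omega)
    intro p hp hpo
    have hp2 : p ≠ 2 := by rintro rfl; omega
    exact J_of_cast (hP.symm.cast3 hp hp2 (hodd_dvd p hp hp2 (hP.symm.smooth hp hpo)) hpo)
  have hr := recip (P := P) (Q := o) (by omega) ho hPQ3 h1 h2
  have h4 : P % 4 = 1 ∧ o % 8 = 1 := by
    rcases hres with ⟨h3, h4⟩ | ⟨h3, h4⟩ | ⟨h3, h4⟩
    · exact ⟨by omega, h4⟩
    · exact absurd ⟨by omega, h4⟩ hr.1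
    · exact absurd ⟨by omega, h4⟩ hr.2
  refine ⟨P, o, hP, h4.1, h4.2, hPQ3, by omega, hge.2, ?_, ?_⟩
  · intro hq4
    have : q % 8 = 3 ∨ q % 8 = 7 := by omega
    rcases this with h | h
    · have := m3 h; omega
    · have := m7 h; omega
  · rintro ⟨s, hs⟩
    have hs2 : s % 2 = 1 := by
      by_contra hcon
      have : s % 2 = 0 := by omega
      rw [hs, Nat.mul_mod, this] at hq2
      omega
    have hs3 : 3 ≤ s := by
      by_contra hcon
      have : s = 1 := by omega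
      subst this
      omega
    exact sq_mod8 hs hs2 hs3 hP h4.1

/-- the shape of a solution for `q = p^a r^b`, refined -/
theorem two_shape2 {p r a b : ℕ} (hp : p.Prime) (hr : r.Prime) (hpr : p ≠ r) (hp5 : 5 ≤ p)
    (hr5 : 5 ≤ r) (ha : 1 ≤ a) (hb : 1 ≤ b) {x y : ℕ} (h : Sol (p ^ a * r ^ b) x y) :
    ∃ c d : ℕ, c ≠ 0 ∧ d ≠ 0 ∧
      ((Pair (p ^ a * r ^ b) (2 * p ^ c) (r ^ d) ∧ p ^ c % 4 = 1 ∧ r ^ d % 8 = 1 ∧
          (p ^ c * r ^ d) % 3 = 1 ∧ ((p ^ a * r ^ b) % 4 = 3 → p ^ c % 8 = 1) ∧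
          (Even a ∧ Even b → p ^ c % 8 = 1)) ∨
        (Pair (p ^ a * r ^ b) (2 * r ^ c) (p ^ d) ∧ r ^ c % 4 = 1 ∧ p ^ d % 8 = 1 ∧
          (r ^ c * p ^ d) % 3 = 1 ∧ ((p ^ a * r ^ b) % 4 = 3 → r ^ c % 8 = 1) ∧
          (Even a ∧ Even b → r ^ c % 8 = 1))) := by
  have hpo : Odd p := hp.odd_of_ne_two (by omega)
  have hro : Odd r := hr.odd_of_ne_two (by omega)
  have hq2 : (p ^ a * r ^ b) % 2 = 1 := Nat.odd_iff.1 (hpo.pow.mul hro.pow)
  have hq3 : ¬ 3 ∣ p ^ a * r ^ b := by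
    intro h3
    rcases (Nat.Prime.dvd_mul Nat.prime_three).1 h3 with h' | h'
    · have := (Nat.prime_dvd_prime_iff_eq Nat.prime_three hp).1 (Nat.prime_three.dvd_of_dvd_pow h')
      omega
    · have := (Nat.prime_dvd_prime_iff_eq Nat.prime_three hr).1 (Nat.prime_three.dvd_of_dvd_pow h')
      omega
  have hpq : p ∣ p ^ a * r ^ b := (dvd_pow_self p (by omega)).mul_right _
  have hrq : r ∣ p ^ a * r ^ b := (dvd_pow_self r (by omega)).mul_left _
  have hq : 3 ≤ p ^ a * r ^ b := by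
    have h1 : p ≤ p ^ a * r ^ b := Nat.le_of_dvd (by positivity) hpq
    omega
  have hsq : Even a ∧ Even b → ∃ s, p ^ a * r ^ b = s * s := by
    rintro ⟨⟨a', ha'⟩, ⟨b', hb'⟩⟩
    exact ⟨p ^ a' * r ^ b', by rw [ha', hb']; ring⟩
  obtain ⟨P, Q, hPair, h4, h8, h3, hP3, hQ3, hq4, hsq8⟩ := odd_shape2 h hq2 hq3 hq
  have hPprimes : ∀ s : ℕ, s.Prime → s ∣ P → s = p ∨ s = r := by
    intro s hs hsP
    rcases prime_dvd_two_mul hp hr hs (hPair.smooth hs (hsP.mul_left _)) with h' | h'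
    · exfalso; subst h'; omega
    · exact h'
  have hQprimes : ∀ s : ℕ, s.Prime → s ∣ Q → s = p ∨ s = r := by
    intro s hs hsQ
    rcases prime_dvd_two_mul hp hr hs (hPair.symm.smooth hs hsQ) with h' | h'
    · exfalso; subst h'; omega
    · exact h'
  obtain ⟨s, hs, hsP⟩ := Nat.exists_prime_and_dvd (show P ≠ 1 by omega)
  obtain ⟨t, ht, htQ⟩ := Nat.exists_prime_and_dvd (show Q ≠ 1 by omega)
  have disj : ∀ s : ℕ, s.Prime → 5 ≤ s → s ∣ p ^ a * r ^ b → s ∣ P → ¬ s ∣ Q := fun s hs hs5 hsq hsP =>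
    hPair.not_both hs (by omega) (by omega) hsq (hsP.mul_left _)
  have nz : ∀ {m c u : ℕ}, m = u ^ c → 3 ≤ m → c ≠ 0 := by
    rintro m c u hm h3 rfl
    simp at hm
    omega
  rcases hPprimes s hs hsP with rfl | rfl
  · have hnQ := disj s hs hp5 hpq hsP
    have hQr : ∀ u : ℕ, u.Prime → u ∣ Q → u = r := by
      intro u hu huQ
      rcases hQprimes u hu huQ with rfl | h'
      · exact absurd huQ hnQ
      · exact h'
    obtain ⟨d, hd⟩ := prime_pow_of (by omega) hQr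
    have hd0 := nz hd hQ3
    have hrQ : r ∣ Q := by rw [hd]; exact dvd_pow_self r hd0
    have hnP : ¬ r ∣ P := fun h' => disj r hr hr5 hrq h' hrQ
    obtain ⟨c, hc⟩ := prime_pow_of (p := s) (m := P) (by omega) (fun u hu huP => by
      rcases hPprimes u hu huP with h' | rfl
      · exact h'
      · exact absurd huP hnP)
    subst hc hd
    exact ⟨c, d, nz rfl hP3, hd0, Or.inl ⟨hPair, h4, h8, h3, hq4, fun h => hsq8 (hsq h)⟩⟩
  · have hnQ := disj s hs hr5 hrq hsP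
    have hQr : ∀ u : ℕ, u.Prime → u ∣ Q → u = p := by
      intro u hu huQ
      rcases hQprimes u hu huQ with h' | rfl
      · exact h'
      · exact absurd huQ hnQ
    obtain ⟨d, hd⟩ := prime_pow_of (by omega) hQr
    have hd0 := nz hd hQ3
    have hrQ : p ∣ Q := by rw [hd]; exact dvd_pow_self p hd0
    have hnP : ¬ p ∣ P := fun h' => disj p hp hp5 hpq h' hrQ
    obtain ⟨c, hc⟩ := prime_pow_of (p := s) (m := P) (by omega) (fun u hu huP => by
      rcases hPprimes u hu huP with rfl | h'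
      · exact absurd huP hnP
      · exact h')
    subst hc hd
    exact ⟨c, d, nz rfl hP3, hd0, Or.inr ⟨hPair, h4, h8, h3, hq4, fun h => hsq8 (hsq h)⟩⟩

/-- the conditions when `p` divides the even zero -/
def Cond (q p r : ℕ) (sq : Prop) : Prop :=
  (¬ sq ∧ (p % 12 = 1 ∨ p % 12 = 11) ∧ (r % 24 = 1 ∨ r % 24 = 5 ∨ r % 24 = 19 ∨ r % 24 = 23) ∧
    (∀ l : ℕ, l.Prime → l ≠ 2 → (l : ℤ) ∣ (q : ℤ) ^ 2 - 6 * q + 1 → J((q : ℤ) | l) = 1)) ∨
  (r % 24 = 1 ∧ J((r : ℤ) | p) = J(3 | p) ∧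
    (∀ l : ℕ, l.Prime → l ≠ 2 → (l : ℤ) ∣ (q : ℤ) ^ 2 - 6 * q + 1 → J((q : ℤ) | l) = 1) ∧
    (∀ l : ℕ, l.Prime → l ≠ 2 → (l : ℤ) ∣ ((q : ℤ) - 1) * ((q : ℤ) ^ 2 - 6 * q + 1) →
      J((r : ℤ) | l) = 1)) ∨
  (¬ sq ∧ p % 12 = 1 ∧ J((p : ℤ) | r) = J(6 | r) ∧ (q % 4 = 3 → p % 8 = 1) ∧
    (∀ l : ℕ, l.Prime → l ≠ 2 → (l : ℤ) ∣ (q : ℤ) ^ 2 - 6 * q + 1 → J((q : ℤ) | l) = 1) ∧
    (∀ l : ℕ, l.Prime → l ≠ 2 → (l : ℤ) ∣ ((q : ℤ) - 1) * ((q : ℤ) ^ 2 - 6 * q + 1) →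
      J((p : ℤ) | l) = 1)) ∨
  (p % 4 = 1 ∧ r % 8 = 1 ∧ p % 3 = r % 3 ∧ J((r : ℤ) | p) = J(3 | p) ∧ (sq → p % 8 = 1) ∧
    (∀ l : ℕ, l.Prime → l ≠ 2 → (l : ℤ) ∣ (q : ℤ) ^ 2 - 6 * q + 1 → J((p : ℤ) * q | l) = 1) ∧
    (∀ l : ℕ, l.Prime → l ≠ 2 → (l : ℤ) ∣ ((q : ℤ) - 1) * ((q : ℤ) ^ 2 - 6 * q + 1) →
      J((p : ℤ) * r | l) = 1))

lemma J_mul_self_of {a : ℤ} {l : ℕ} (h : J(a | l) ≠ 0) : J(a | l) * J(a | l) = 1 := by
  rcases jacobiSym.trichotomy a l with h' | h' | h'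
  · exact absurd h' h
  · rw [h']; norm_num
  · rw [h']; norm_num

lemma cond_of {q p r c d : ℕ} {sq : Prop} (hp : p.Prime) (hr : r.Prime) (hp5 : 5 ≤ p) (hr5 : 5 ≤ r)
    (hpq : p ∣ q) (hrq : r ∣ q) (hc : c ≠ 0) (hd : d ≠ 0)
    (hP : Pair q (2 * p ^ c) (r ^ d)) (h4 : p ^ c % 4 = 1) (h8 : r ^ d % 8 = 1)
    (h3 : (p ^ c * r ^ d) % 3 = 1) (hq4 : q % 4 = 3 → p ^ c % 8 = 1) (hsq : sq → p ^ c % 8 = 1)
    (hdsq : sq → ¬ Even d) : Cond q p r sq := by
  have hpm : p % 2 = 1 := Nat.odd_iff.1 (hp.odd_of_ne_two (by omega))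
  have hrm : r % 2 = 1 := Nat.odd_iff.1 (hr.odd_of_ne_two (by omega))
  have hp3 : p % 3 ≠ 0 := by
    intro h
    have := (Nat.prime_dvd_prime_iff_eq Nat.prime_three hp).1 (Nat.dvd_of_mod_eq_zero h)
    omega
  have hr3 : r % 3 ≠ 0 := by
    intro h
    have := (Nat.prime_dvd_prime_iff_eq Nat.prime_three hr).1 (Nat.dvd_of_mod_eq_zero h)
    omega
  have hpe : p ∣ 2 * p ^ c := (dvd_pow_self p hc).mul_left _
  have hre : r ∣ r ^ d := dvd_pow_self r hd
  have J1 := J_of_cast (hP.cast3 hp (by omega) hpq hpe)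
  have J2 := J_of_cast (hP.symm.cast3 hr (by omega) hrq hre)
  push_cast at J1 J2
  rw [jacobiSym.pow_left] at J1
  rw [jacobiSym.mul_left, jacobiSym.pow_left] at J2
  have hJ3p := J_three hpm hp3
  have hJ3r := J_three hrm hr3
  have hJ2r := J_two hrm
  have hpc := pow_mod24 hpm hp3 c
  have hrd := pow_mod24 hrm hr3 d
  have hrp0 : J((r : ℤ) | p) ≠ 0 := by
    intro h0
    rw [h0, zero_pow hd] at J1
    exact J3_ne hpm hp3 J1.symm
  have hpr0 : J((p : ℤ) | r) ≠ 0 := by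
    intro h0
    rw [h0, zero_pow hc, mul_zero] at J2
    exact J3_ne hrm hr3 J2.symm
  have h3' : ((p ^ c % 3) * (r ^ d % 3)) % 3 = 1 := by rw [← Nat.mul_mod]; exact h3
  -- the primes dividing the discriminant
  have hdisc : ∀ l : ℕ, l.Prime → l ≠ 2 → (l : ℤ) ∣ (q : ℤ) ^ 2 - 6 * q + 1 →
      J((q : ℤ) | l) * J((p : ℤ) | l) ^ c = 1 ∧ J((q : ℤ) | l) * J((r : ℤ) | l) ^ d = 1 ∧
        J((q : ℤ) | l) * J((q : ℤ) | l) = 1 := by
    intro l hl hl2 hd
    have h1 := hP.J_disc hl hl2 hd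
    have h2 := hP.symm.J_disc hl hl2 hd
    have h3 := J_two_disc hl hl2 hd
    push_cast at h1 h2
    rw [jacobiSym.mul_left, jacobiSym.mul_left, jacobiSym.pow_left, h3, one_mul] at h1
    rw [jacobiSym.mul_left, jacobiSym.pow_left] at h2
    refine ⟨h1, h2, J_mul_self_of ?_⟩
    intro h0
    rw [h0, zero_mul] at h1
    norm_num at h1
  have hq1 : ∀ l : ℕ, l.Prime → l ≠ 2 → (l : ℤ) ∣ (q : ℤ) - 1 →
      (J((p : ℤ) | l) ^ c = 1 ∧ J((r : ℤ) | l) ^ d = 1) ∨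
      (J(2 | l) * J((p : ℤ) | l) ^ c = 1 ∧ J((r : ℤ) | l) ^ d = J(2 | l)) := by
    intro l hl hl2 hd
    have h2l : J(2 | l) * J(2 | l) = 1 := by
      rcases J_two (m := l) (Nat.odd_iff.1 (hl.odd_of_ne_two hl2)) with ⟨-, h'⟩ | ⟨-, h'⟩ <;>
        rw [h'] <;> norm_num
    rcases hP.mod_q1 hl hl2 hd with ⟨h1, h2⟩ | ⟨h1, h2⟩
    · right
      have e1 := J_cast_one h1
      have e2 := J_cast_two h2
      push_cast at e1 e2
      rw [jacobiSym.mul_left, jacobiSym.pow_left] at e1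
      rw [jacobiSym.pow_left] at e2
      exact ⟨e1, e2⟩
    · left
      have e1 := J_cast_two h1
      have e2 := J_cast_one h2
      push_cast at e1 e2
      rw [jacobiSym.mul_left, jacobiSym.pow_left] at e1
      rw [jacobiSym.pow_left] at e2
      refine ⟨?_, e2⟩
      have : J(2 | l) * (J(2 | l) * J((p : ℤ) | l) ^ c) = J(2 | l) * J(2 | l) := by rw [e1]
      rw [← mul_assoc, h2l, one_mul] at this
      exact this
  have splitl : ∀ l : ℕ, l.Prime → (l : ℤ) ∣ ((q : ℤ) - 1) * ((q : ℤ) ^ 2 - 6 * q + 1) →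
      (l : ℤ) ∣ (q : ℤ) - 1 ∨ (l : ℤ) ∣ (q : ℤ) ^ 2 - 6 * q + 1 := fun l hl hd =>
    (Nat.prime_iff_prime_int.1 hl).dvd_or_dvd hd
  rcases Nat.even_or_odd c with hce | hco <;> rcases Nat.even_or_odd d with hde | hdo
  · left
    have hpc1 : p ^ c % 24 = 1 := by
      rcases hpc with ⟨-, h⟩ | ⟨h, -⟩
      · exact h
      · exact absurd hce (Nat.not_even_iff_odd.2 h)
    rw [J_even_pow hde hrp0] at J1
    rw [J_even_pow hce hpr0, mul_one] at J2
    refine ⟨fun h => hdsq h hde, ?_, ?_, ?_⟩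
    · rcases hJ3p with ⟨h', -⟩ | ⟨-, h'⟩
      · exact h'
      · rw [h'] at J1; norm_num at J1
    · rcases hJ2r with ⟨h1, h2⟩ | ⟨h1, h2⟩ <;> rcases hJ3r with ⟨h3, h4⟩ | ⟨h3, h4⟩ <;>
        rw [h2, h4] at J2 <;> norm_num at J2 <;> omega
    · intro l hl hl2 hdl
      obtain ⟨h1, h2, h5⟩ := hdisc l hl hl2 hdl
      have hr0 : J((r : ℤ) | l) ≠ 0 := by
        intro h0; rw [h0, zero_pow hd, mul_zero] at h2; norm_num at h2
      rw [J_even_pow hde hr0, mul_one] at h2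
      exact h2
  · right; left
    have hrd' : r ^ d % 24 = r % 24 := by
      rcases hrd with ⟨h, -⟩ | ⟨-, h⟩
      · exact absurd h (Nat.not_even_iff_odd.2 hdo)
      · exact h
    have hpc1 : p ^ c % 24 = 1 := by
      rcases hpc with ⟨-, h⟩ | ⟨h, -⟩
      · exact h
      · exact absurd hce (Nat.not_even_iff_odd.2 h)
    have hr31 : r ^ d % 3 = 1 := by
      have : p ^ c % 3 = 1 := by omega
      rw [this, one_mul] at h3'
      omega
    rw [J_odd_pow hdo] at J1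
    refine ⟨by omega, J1, ?_, ?_⟩
    · intro l hl hl2 hdl
      obtain ⟨h1, h2, h5⟩ := hdisc l hl hl2 hdl
      have hp0 : J((p : ℤ) | l) ≠ 0 := by
        intro h0; rw [h0, zero_pow hc, mul_zero] at h1; norm_num at h1
      rw [J_even_pow hce hp0, mul_one] at h1
      exact h1
    · intro l hl hl2 hdl
      rcases splitl l hl hdl with hdl | hdl
      · rcases hq1 l hl hl2 hdl with ⟨h1, h2⟩ | ⟨h1, h2⟩
        · rw [J_odd_pow hdo] at h2; exact h2
        · have hp0 : J((p : ℤ) | l) ≠ 0 := by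
            intro h0; rw [h0, zero_pow hc, mul_zero] at h1; norm_num at h1
          rw [J_even_pow hce hp0, mul_one] at h1
          rw [J_odd_pow hdo, h1] at h2
          exact h2
      · obtain ⟨h1, h2, h5⟩ := hdisc l hl hl2 hdl
        have hp0 : J((p : ℤ) | l) ≠ 0 := by
          intro h0; rw [h0, zero_pow hc, mul_zero] at h1; norm_num at h1
        rw [J_even_pow hce hp0, mul_one] at h1
        rw [h1, one_mul, J_odd_pow hdo] at h2
        exact h2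
  · right; right; left
    have hpc1 : p ^ c % 24 = p % 24 := by
      rcases hpc with ⟨h, -⟩ | ⟨-, h⟩
      · exact absurd h (Nat.not_even_iff_odd.2 hco)
      · exact h
    have hrd' : r ^ d % 24 = 1 := by
      rcases hrd with ⟨-, h⟩ | ⟨h, -⟩
      · exact h
      · exact absurd hde (Nat.not_even_iff_odd.2 h)
    have hr31 : p ^ c % 3 = 1 := by
      have : r ^ d % 3 = 1 := by omega
      rw [this, mul_one] at h3'
      omega
    refine ⟨fun h => hdsq h hde, by omega, ?_, ?_, ?_, ?_⟩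
    · rw [J_odd_pow hco] at J2
      rw [show (6 : ℤ) = 2 * 3 by norm_num, jacobiSym.mul_left, ← J2]
      rcases hJ2r with ⟨h1, h2⟩ | ⟨h1, h2⟩ <;> rw [h2] <;> ring
    · intro h
      have := hq4 h
      omega
    · intro l hl hl2 hdl
      obtain ⟨h1, h2, h5⟩ := hdisc l hl hl2 hdl
      have hr0 : J((r : ℤ) | l) ≠ 0 := by
        intro h0; rw [h0, zero_pow hd, mul_zero] at h2; norm_num at h2
      rw [J_even_pow hde hr0, mul_one] at h2
      exact h2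
    · intro l hl hl2 hdl
      rcases splitl l hl hdl with hdl | hdl
      · rcases hq1 l hl hl2 hdl with ⟨h1, h2⟩ | ⟨h1, h2⟩
        · rw [J_odd_pow hco] at h1; exact h1
        · have hr0 : J((r : ℤ) | l) ≠ 0 := by
            intro h0
            rw [h0, zero_pow hd] at h2
            rw [← h2, zero_mul] at h1
            norm_num at h1
          rw [J_even_pow hde hr0] at h2
          rw [← h2, one_mul, J_odd_pow hco] at h1
          exact h1
      · obtain ⟨h1, h2, h5⟩ := hdisc l hl hl2 hdl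
        have hr0 : J((r : ℤ) | l) ≠ 0 := by
          intro h0; rw [h0, zero_pow hd, mul_zero] at h2; norm_num at h2
        rw [J_even_pow hde hr0, mul_one] at h2
        rw [h2, one_mul, J_odd_pow hco] at h1
        exact h1
  · right; right; right
    have hpc1 : p ^ c % 24 = p % 24 := by
      rcases hpc with ⟨h, -⟩ | ⟨-, h⟩
      · exact absurd h (Nat.not_even_iff_odd.2 hco)
      · exact h
    have hrd' : r ^ d % 24 = r % 24 := by
      rcases hrd with ⟨h, -⟩ | ⟨-, h⟩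
      · exact absurd h (Nat.not_even_iff_odd.2 hdo)
      · exact h
    have e1 : p ^ c % 3 = p % 3 := by omega
    have e2 : r ^ d % 3 = r % 3 := by omega
    rw [e1, e2] at h3'
    have h33 : p % 3 = r % 3 := by
      have hp' : p % 3 = 1 ∨ p % 3 = 2 := by omega
      have hr' : r % 3 = 1 ∨ r % 3 = 2 := by omega
      rcases hp' with hp' | hp' <;> rcases hr' with hr' | hr' <;> rw [hp', hr'] at h3' <;> omega
    rw [J_odd_pow hdo] at J1
    refine ⟨by omega, by omega, h33, J1, ?_, ?_, ?_⟩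
    · intro h
      have := hsq h
      omega
    · intro l hl hl2 hdl
      obtain ⟨h1, h2, h5⟩ := hdisc l hl hl2 hdl
      rw [J_odd_pow hco] at h1
      rw [jacobiSym.mul_left, mul_comm]
      exact h1
    · intro l hl hl2 hdl
      rw [jacobiSym.mul_left]
      rcases splitl l hl hdl with hdl | hdl
      · rcases hq1 l hl hl2 hdl with ⟨h1, h2⟩ | ⟨h1, h2⟩
        · rw [J_odd_pow hco] at h1
          rw [J_odd_pow hdo] at h2
          rw [h1, h2]; norm_num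
        · rw [J_odd_pow hco] at h1
          rw [J_odd_pow hdo] at h2
          rw [h2, mul_comm]
          exact h1
      · obtain ⟨h1, h2, h5⟩ := hdisc l hl hl2 hdl
        rw [J_odd_pow hco] at h1
        rw [J_odd_pow hdo] at h2
        calc J((p : ℤ) | l) * J((r : ℤ) | l) =
            J((q : ℤ) | l) * J((q : ℤ) | l) * (J((p : ℤ) | l) * J((r : ℤ) | l)) := by
              rw [h5, one_mul]
          _ = (J((q : ℤ) | l) * J((p : ℤ) | l)) * (J((q : ℤ) | l) * J((r : ℤ) | l)) := by ring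
          _ = 1 := by rw [h1, h2]; norm_num

/-- necessary conditions for `q = p^a r^b` -/
theorem pr_final {p r a b : ℕ} (hp : p.Prime) (hr : r.Prime) (hpr : p ≠ r) (hp5 : 5 ≤ p)
    (hr5 : 5 ≤ r) (ha : 1 ≤ a) (hb : 1 ≤ b) (h : ∃ x y, Sol (p ^ a * r ^ b) x y) :
    Cond (p ^ a * r ^ b) p r (Even a ∧ Even b) ∨ Cond (p ^ a * r ^ b) r p (Even a ∧ Even b) := by
  obtain ⟨x, y, hS⟩ := h
  have hpq : p ∣ p ^ a * r ^ b := (dvd_pow_self p (by omega)).mul_right _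
  have hrq : r ∣ p ^ a * r ^ b := (dvd_pow_self r (by omega)).mul_left _
  have hq : 25 ≤ p ^ a * r ^ b := by
    calc 25 = 5 ^ 1 * 5 ^ 1 := by norm_num
      _ ≤ p ^ a * r ^ b := Nat.mul_le_mul
        ((Nat.pow_le_pow_left hp5 1).trans (Nat.pow_le_pow_right (by omega) ha))
        ((Nat.pow_le_pow_left hr5 1).trans (Nat.pow_le_pow_right (by omega) hb))
  have hsq : ∀ u v : ℕ, Even a ∧ Even b → Even u → IsSquare (p ^ a * r ^ b * v ^ u) := by
    rintro u v ⟨⟨a', ha'⟩, ⟨b', hb'⟩⟩ ⟨u', hu'⟩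
    exact ⟨p ^ a' * r ^ b' * v ^ u', by rw [ha', hb', hu']; ring⟩
  obtain ⟨c, d, hc, hd, ⟨hP, h4, h8, h3, h5, h6⟩ | ⟨hP, h4, h8, h3, h5, h6⟩⟩ :=
    two_shape2 hp hr hpr hp5 hr5 ha hb hS
  · left
    exact cond_of hp hr hp5 hr5 hpq hrq hc hd hP h4 h8 h3 h5 h6 (fun hs hde =>
      hP.symm.not_sq (by omega) (by omega) (by omega) (hsq _ _ hs hde))
  · right
    exact cond_of hr hp hr5 hp5 hrq hpq hc hd hP h4 h8 h3 h5 h6 (fun hs hde =>
      hP.symm.not_sq (by omega) (by omega) (by omega) (hsq _ _ hs hde))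

end Pool.Agent.TH500.PC
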