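import Pool.Agent.TH500.PC.WDvd
import Pool.Agent.TH500.PC.Crit

/-!
The general criterion for alphabet sizes prime to 3: active primes.
-/

set_option autoImplicit false

open NumberTheorySymbols

namespace Pool.Agent.TH500.PC

/-- the submonoid of `ℤ/p` generated by `2` and the other prime divisors of `q` -/
def act (q p : ℕ) : Submonoid (ZMod p) :=
  Submonoid.closure {z | z = 2 ∨ ∃ r : ℕ, r.Prime ∧ r ∣ q ∧ r ≠ p ∧ z = (r : ZMod p)}

lemma two_mem_act (q p : ℕ) : (2 : ZMod p) ∈ act q p := Submonoid.subset_closure (Or.inl rfl)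

lemma cast_mem_act {q p : ℕ} : ∀ m : ℕ, m ≠ 0 → (∀ r : ℕ, r.Prime → r ∣ m → r ∣ 2 * q ∧ r ≠ p) →
    (m : ZMod p) ∈ act q p := by
  intro m
  induction m using Nat.recOnMul with
  | zero => intro h; exact absurd rfl h
  | one => intro _ _; simp
  | prime r hr =>
    intro _ h
    obtain ⟨h1, h2⟩ := h r hr (dvd_refl _)
    rcases (Nat.Prime.dvd_mul hr).1 h1 with h3 | h3
    · rw [(Nat.prime_dvd_prime_iff_eq hr Nat.prime_two).1 h3]
      exact two_mem_act q p
    · exact Submonoid.subset_closure (Or.inr ⟨r, hr, h3, h2, rfl⟩)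
  | mul a b iha ihb =>
    intro h0 h
    rw [Nat.cast_mul]
    exact Submonoid.mul_mem _
      (iha (left_ne_zero_of_mul h0) fun r hr hd => h r hr (hd.mul_right _))
      (ihb (right_ne_zero_of_mul h0) fun r hr hd => h r hr (hd.mul_left _))

/-- a prime is active if `3` lies in the submonoid generated by `2` and the other primes of `q` -/
def Active (q p : ℕ) : Prop := p.Prime ∧ 5 ≤ p ∧ p ∣ q ∧ (3 : ZMod p) ∈ act q p

lemma five_le_of {p : ℕ} (hp : p.Prime) (h2 : p ≠ 2) (h3 : p ≠ 3) : 5 ≤ p := by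
  have h := hp.two_le
  have h4 : p ≠ 4 := by rintro rfl; revert hp; norm_num
  omega

namespace Pair

variable {q e o : ℕ}

lemma active_of_dvd (h : Pair q e o) (hq : 3 ≤ q) {p : ℕ} (hp : p.Prime) (hp5 : 5 ≤ p)
    (hd : p ∣ e) : Active q p := by
  have hpq : p ∣ q := by
    rcases (Nat.Prime.dvd_mul hp).1 (h.smooth hp hd) with h' | h'
    · have := (Nat.prime_dvd_prime_iff_eq hp Nat.prime_two).1 h'; omega
    · exact h'
  refine ⟨hp, hp5, hpq, ?_⟩
  rw [← h.cast3 hp (by omega) hpq hd]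
  have hge := h.ge3 hq
  apply cast_mem_act o (by omega)
  intro r hr hro
  refine ⟨h.symm.smooth hr hro, ?_⟩
  rintro rfl
  exact h.not_both hp (by omega) (by omega) hpq hd hro

lemma dvd_sum3 (h : Pair q e o) {p : ℕ} (hp : p.Prime) (hp2 : p ≠ 2) (hpq : p ∣ q) :
    (p : ℤ) ∣ (e : ℤ) + o - 3 := by
  rcases h with h | h
  · exact h.dvd_sum hp hp2 hpq
  · have := h.dvd_sum hp hp2 hpq
    rwa [add_comm (o : ℤ) e] at this

lemma active_of_dvd_sub (h : Pair q e o) (hq : 3 ≤ q) {p : ℕ} (hp : p.Prime) (hp5 : 5 ≤ p)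
    (hd : (p : ℤ) ∣ (e : ℤ) - o) : Active q p ∧ ¬ p ∣ e ∧ ¬ p ∣ o := by
  have hpq := h.wsm hp (by omega) hd
  have hiff : p ∣ e ↔ p ∣ o := by
    constructor
    · intro h1
      have h1' : (p : ℤ) ∣ e := Int.natCast_dvd_natCast.2 h1
      exact Int.natCast_dvd_natCast.1 ((Int.dvd_iff_dvd_of_dvd_sub hd).1 h1')
    · intro h1
      have h1' : (p : ℤ) ∣ o := Int.natCast_dvd_natCast.2 h1
      exact Int.natCast_dvd_natCast.1 ((Int.dvd_iff_dvd_of_dvd_sub hd).2 h1')
  have hne : ¬ p ∣ e := fun h1 => h.not_both hp (by omega) (by omega) hpq h1 (hiff.1 h1)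
  refine ⟨⟨hp, hp5, hpq, ?_⟩, hne, fun h1 => hne (hiff.2 h1)⟩
  have e1 := (ZMod.intCast_zmod_eq_zero_iff_dvd _ p).2 hd
  have e2 := (ZMod.intCast_zmod_eq_zero_iff_dvd _ p).2 (h.dvd_sum3 hp (by omega) hpq)
  push_cast at e1 e2
  have e3 : (3 : ZMod p) = 2 * (e : ZMod p) := by linear_combination (-1) * e1 - e2
  rw [e3]
  have hge := h.ge3 hq
  refine Submonoid.mul_mem _ (two_mem_act q p) (cast_mem_act e (by omega) ?_)
  intro r hr hre
  refine ⟨h.smooth hr hre, ?_⟩
  rintro rfl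
  exact hne hre

end Pair

/-- odd alphabet sizes prime to 3: three active primes -/
theorem three_active {q x y : ℕ} (h : Sol q x y) (hq3 : ¬ 3 ∣ q) (hq : 3 ≤ q) (hq2 : q % 2 = 1) :
    ∃ p₁ p₂ p₃ : ℕ, p₁ ≠ p₂ ∧ p₁ ≠ p₃ ∧ p₂ ≠ p₃ ∧ Active q p₁ ∧ Active q p₂ ∧ Active q p₃ := by
  obtain ⟨P, Q, hP, hP4, hQ8, hPQ3, hP3, hQ3⟩ := odd_shape h hq2 hq3 hq
  obtain ⟨p, hp, hpP⟩ := Nat.exists_prime_and_dvd (show P ≠ 1 by omega)
  obtain ⟨r, hr, hrQ⟩ := Nat.exists_prime_and_dvd (show Q ≠ 1 by omega)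
  have hp5 : 5 ≤ p := by
    apply five_le_of hp
    · rintro rfl; omega
    · rintro rfl
      obtain ⟨z, rfl⟩ := hpP
      rw [mul_assoc, Nat.mul_mod_right] at hPQ3
      omega
  have hr5 : 5 ≤ r := by
    apply five_le_of hr
    · rintro rfl; omega
    · rintro rfl
      obtain ⟨z, rfl⟩ := hrQ
      rw [← mul_assoc, mul_comm P 3, mul_assoc, Nat.mul_mod_right] at hPQ3
      omega
  have hodd : Odd (((2 * P : ℕ) : ℤ) - ((Q : ℕ) : ℤ)) := by
    rw [Int.odd_iff]; omega
  have h3' : ¬ (3 : ℤ) ∣ ((2 * P : ℕ) : ℤ) - ((Q : ℕ) : ℤ) := by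
    intro h'
    exact hq3 (hP.wsm Nat.prime_three (by norm_num) (by exact_mod_cast h'))
  obtain ⟨s, hs, hs5, hsq, hsd, hse, hso⟩ := hP.new_prime hodd h3'
  have hpe : p ∣ 2 * P := hpP.mul_left _
  have hA1 := hP.active_of_dvd hq hp hp5 hpe
  refine ⟨p, r, s, ?_, ?_, ?_, hA1, hP.symm.active_of_dvd hq hr hr5 hrQ,
    (hP.active_of_dvd_sub hq hs hs5 hsd).1⟩
  · rintro rfl
    exact hP.not_both hp (by omega) (by omega) hA1.2.2.1 hpe hrQ
  · rintro rfl; exact hse hpe
  · rintro rfl; exact hso hrQ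

/-- even alphabet sizes prime to 3: two active primes -/
theorem two_active {q x y : ℕ} (h : Sol q x y) (hq3 : ¬ 3 ∣ q) (hq : 3 ≤ q) (hq2 : q % 2 = 0) :
    ∃ p₁ p₂ : ℕ, p₁ ≠ p₂ ∧ Active q p₁ ∧ Active q p₂ := by
  have h3w : ∀ e o : ℕ, Pair q e o → ¬ (3 : ℤ) ∣ (e : ℤ) - o := by
    intro e o hP h'
    exact hq3 (hP.wsm Nat.prime_three (by norm_num) (by exact_mod_cast h'))
  have hn3 : ∀ e o : ℕ, Pair q e o → ¬ 3 ∣ e := by
    intro e o hP h'
    have := hP.mod3 hq3
    obtain ⟨z, rfl⟩ := h'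
    rw [mul_assoc, Nat.mul_mod_right] at this
    omega
  rcases Nat.even_or_odd (x + y) with heven | hodd
  · -- everything is even
    have hPx : Pair q x y := Or.inl h
    by_contra hcon
    -- at most one active prime
    have hone : ∀ p r : ℕ, Active q p → Active q r → p = r := by
      intro p r h1 h2
      by_contra hne
      exact hcon ⟨p, r, hne, h1, h2⟩
    have hge := hPx.ge3 hq
    have hlt := h.lt2 hq
    have hw2 := h.w2
    obtain ⟨w, hy⟩ : ∃ w, y = x + w := ⟨y - x, by omega⟩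
    have hwc : (((w : ℕ) : ℤ)) = ((y : ℤ) - x) := by rw [hy]; push_cast; ring
    have hAw : ∀ r : ℕ, r.Prime → r ≠ 2 → r ∣ w → Active q r ∧ ¬ r ∣ x ∧ ¬ r ∣ y := by
      intro r hr hr2 hrw
      have h1 : (r : ℤ) ∣ (y : ℤ) - x := by
        rw [← hwc]; exact Int.natCast_dvd_natCast.2 hrw
      have hr3 : r ≠ 3 := by
        rintro rfl
        exact h3w y x hPx.symm (by exact_mod_cast h1)
      have := hPx.symm.active_of_dvd_sub hq hr (five_le_of hr hr2 hr3) h1
      exact ⟨this.1, this.2.2, this.2.1⟩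
    have hAx : ∀ r : ℕ, r.Prime → r ≠ 2 → r ∣ x → Active q r := by
      intro r hr hr2 hrx
      have hr3 : r ≠ 3 := by rintro rfl; exact hn3 x y hPx hrx
      exact hPx.active_of_dvd hq hr (five_le_of hr hr2 hr3) hrx
    have hAy : ∀ r : ℕ, r.Prime → r ≠ 2 → r ∣ y → Active q r := by
      intro r hr hr2 hry
      have hr3 : r ≠ 3 := by rintro rfl; exact hn3 y x hPx.symm hry
      exact hPx.symm.active_of_dvd hq hr (five_le_of hr hr2 hr3) hry
    have hq7 : 7 ≤ q := by
      by_contra hcon7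
      have hq4 : q = 4 := by
        have : q ≠ 6 := by rintro rfl; exact hq3 (by norm_num)
        omega
      subst hq4
      have heq := h.eq
      obtain ⟨z, hz⟩ := heven
      have h2 : (x : ℤ) + y = z + z := by exact_mod_cast hz
      push_cast at heq
      rw [h2] at heq
      omega
    have not_dvd : ∀ x1, x ≠ w * x1 := fun x1 hx1 => h.not_dvd_even hq7 hq2 hy hx1
    -- a prime dividing one of the zeros
    by_cases hxp : ∃ p : ℕ, p.Prime ∧ p ≠ 2 ∧ p ∣ x
    · obtain ⟨p, hp, hp2, hpx⟩ := hxp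
      have hAp := hAx p hp hp2 hpx
      have hpy : ¬ p ∣ y := hPx.not_both hp hp2 (by have := hAp.2.1; omega) hAp.2.2.1 hpx
      obtain ⟨i, hi⟩ := prime_pow_of (p := 2) (m := y) (by omega) (fun r hr hry => by
        by_contra hr2
        have := hone p r hAp (hAy r hr hr2 hry)
        subst this
        exact hpy hry)
      obtain ⟨k, hk⟩ := prime_pow_of (p := 2) (m := w) (by omega) (fun r hr hrw => by
        by_contra hr2
        obtain ⟨h1, h2, h3⟩ := hAw r hr hr2 hrw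
        have := hone p r hAp h1
        subst this
        exact h2 hpx)
      have hki : k ≤ i := by
        by_contra hcon'
        have : 2 ^ i ≤ 2 ^ k := Nat.pow_le_pow_right (by norm_num) (by omega)
        omega
      have hwy : w ∣ y := by rw [hi, hk]; exact pow_dvd_pow 2 hki
      have hwx : w ∣ x := by
        rw [hy] at hwy
        exact (Nat.dvd_add_left (dvd_refl w)).1 hwy
      obtain ⟨x1, hx1⟩ := hwx
      exact not_dvd x1 hx1
    · push Not at hxp
      obtain ⟨i, hi⟩ := prime_pow_of (p := 2) (m := x) (by omega) (fun r hr hrx => by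
        by_contra hr2
        exact hxp r hr hr2 hrx)
      by_cases hyp : ∃ p : ℕ, p.Prime ∧ p ≠ 2 ∧ p ∣ y
      · obtain ⟨p, hp, hp2, hpy⟩ := hyp
        have hAp := hAy p hp hp2 hpy
        obtain ⟨k, hk⟩ := prime_pow_of (p := 2) (m := w) (by omega) (fun r hr hrw => by
          by_contra hr2
          obtain ⟨h1, h2, h3⟩ := hAw r hr hr2 hrw
          have := hone p r hAp h1
          subst this
          exact h3 hpy)
        have hki : k ≤ i := by
          by_contra hcon'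
          have : 2 ^ i ≤ 2 ^ k := Nat.pow_le_pow_right (by norm_num) (by omega)
          omega
        obtain ⟨x1, hx1⟩ : w ∣ x := by rw [hi, hk]; exact pow_dvd_pow 2 hki
        exact not_dvd x1 hx1
      · push Not at hyp
        obtain ⟨j, hj⟩ := prime_pow_of (p := 2) (m := y) (by omega) (fun r hr hry => by
          by_contra hr2
          exact hyp r hr hr2 hry)
        exact hPx.not_both_two_pow hq hi hj
  · obtain ⟨e, o, k, hP, he, ho, hk1, hsum, -⟩ := h.exists_pair hodd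
    have hge := hP.ge3 hq
    obtain ⟨r, hr, hro⟩ := Nat.exists_prime_and_dvd (show o ≠ 1 by omega)
    have hr5 : 5 ≤ r := by
      apply five_le_of hr
      · rintro rfl; omega
      · rintro rfl; exact hn3 o e hP.symm hro
    have hodd' : Odd ((e : ℤ) - o) := by
      rw [Int.odd_iff]; omega
    obtain ⟨s, hs, hs5, hsq, hsd, hse, hso⟩ := hP.new_prime hodd' (h3w e o hP)
    refine ⟨r, s, ?_, hP.symm.active_of_dvd hq hr hr5 hro, (hP.active_of_dvd_sub hq hs hs5 hsd).1⟩
    rintro rfl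
    exact hso hro

end Pool.Agent.TH500.PC
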