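import Pool.Agent.TH500.PC.WThree

/-!
The difference `w` of the zeros does not divide the zeros (with a few exceptions), and the case
`q = 2^a 3^b`.
-/

set_option autoImplicit false

namespace Pool.Agent.TH500.PC

/-- classification of the solutions in which `w = y - x` divides `x` -/
lemma Sol.dvd_class {q x y x1 w : ℕ} (h : Sol q x y) (hq : 7 ≤ q) (hy : y = x + w)
    (hx : x = w * x1) :
    ∃ j : ℤ, (q : ℤ) * w = 2 * (2 * x1 + 1) + j ∧ (q : ℤ) = 6 + j * w ∧
      (j = 5 ∨ (j = 1 ∧ w = 3) ∨ (j = 1 ∧ w = 7) ∨ (j = 1 ∧ w = 19) ∨ (j = 2 ∧ w = 8)) := by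
  have hw2 : 2 ≤ w := by have := h.w2; omega
  have hw : (2 : ℤ) ≤ w := by exact_mod_cast hw2
  have hq' : (7 : ℤ) ≤ q := by exact_mod_cast hq
  have heq := h.eq
  have hd := h.dvd
  have e1 : ((y : ℤ) - x) = w := by rw [hy]; push_cast; ring
  have ex : (x : ℤ) = w * x1 := by rw [hx]; push_cast; ring
  have ey : (y : ℤ) = w * x1 + w := by rw [hy, hx]; push_cast; ring
  rw [e1] at heq hd
  rw [ex, ey] at heq
  obtain ⟨m, hm⟩ := hd
  set j : ℤ := q * w - 2 * (2 * x1 + 1) with hj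
  have hqj : (q : ℤ) = 6 + j * w := by
    rw [hj]; linear_combination (-1) * heq
  have hj1 : 1 ≤ j := by
    by_contra hcon
    have : j * w ≤ 0 := mul_nonpos_of_nonpos_of_nonneg (by linarith) (by linarith)
    linarith
  have hm0 : 0 < m := by
    by_contra hcon
    have h1 : ((q : ℤ) - 1) * m ≤ 0 := mul_nonpos_of_nonneg_of_nonpos (by linarith) (by linarith)
    have h2 : (0 : ℤ) < (w : ℤ) ^ 2 - 1 := by nlinarith
    linarith
  set l : ℤ := w - j * m with hl
  have hlw : 5 * m + 1 = w * l := by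
    rw [hl]
    have : (w : ℤ) ^ 2 - 1 = (5 + j * w) * m := by rw [hm, hqj]; ring
    linear_combination (-1) * this
  have hl1 : 1 ≤ l := by
    by_contra hcon
    have : (w : ℤ) * l ≤ 0 := mul_nonpos_of_nonneg_of_nonpos (by linarith) (by linarith)
    linarith
  have hmain : (w : ℤ) * (5 - j * l) = 5 * l - j := by
    have h1 : (w : ℤ) * (w * (5 - j * l)) = w * (5 * l - j) := by
      have h2 : (w : ℤ) ^ 2 - 1 = (5 + j * w) * m := by rw [hm, hqj]; ring
      have h3 : 5 * ((w : ℤ) ^ 2 - 1) = (5 + j * w) * (w * l - 1) := by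
        rw [h2, ← hlw]; ring
      linear_combination h3
    exact mul_left_cancel₀ (by linarith) h1
  refine ⟨j, by rw [hj]; ring, hqj, ?_⟩
  by_cases h6 : 6 ≤ j * l
  · exfalso
    have h2 : (w : ℤ) * (j * l - 5) = j - 5 * l := by linear_combination (-1) * hmain
    have h3 : 2 * (j * l - 5) ≤ w * (j * l - 5) :=
      mul_le_mul_of_nonneg_right hw (by linarith)
    by_cases hl2 : 2 ≤ l
    · have : 2 * j ≤ l * j := mul_le_mul_of_nonneg_right hl2 (by linarith)
      nlinarith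
    · have : l = 1 := by linarith
      rw [this] at h2 h3 h6
      linarith
  · have h5 : j * l ≤ 5 := by linarith
    have hj5 : j ≤ 5 := by
      have : j * 1 ≤ j * l := mul_le_mul_of_nonneg_left hl1 (by linarith)
      linarith
    have hl5 : l ≤ 5 := by
      have : 1 * l ≤ j * l := mul_le_mul_of_nonneg_right hj1 (by linarith)
      linarith
    clear_value j l
    interval_cases j <;> interval_cases l <;> omega

/-- for even `q` the difference of the zeros does not divide them -/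
lemma Sol.not_dvd_even {q x y x1 w : ℕ} (h : Sol q x y) (hq : 7 ≤ q) (hq2 : q % 2 = 0)
    (hy : y = x + w) (hx : x = w * x1) : False := by
  obtain ⟨j, h1, h2, h3⟩ := h.dvd_class hq hy hx
  have hqe : (q : ℤ) % 2 = 0 := by exact_mod_cast hq2
  rcases h3 with h3 | ⟨h3, hw⟩ | ⟨h3, hw⟩ | ⟨h3, hw⟩ | ⟨h3, hw⟩
  · rw [h3] at h1
    have h4 : ((q : ℤ) * w) % 2 = 0 := by
      rw [Int.mul_emod, hqe]; simp
    omega
  · subst hw; rw [h3] at h2; omega
  · subst hw; rw [h3] at h2; omega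
  · subst hw; rw [h3] at h2; omega
  · subst hw
    rw [h3] at h2 h1
    have hq22 : q = 22 := by omega
    subst hq22
    have hx1 : x1 = 43 := by omega
    subst hx1
    have := h.smooth 43 (by norm_num) (by rw [hx]; exact ⟨8 * y, by ring⟩)
    omega

/-- a solution in which `w` divides the zeros, `q = 6` -/
lemma Sol.not_dvd_six {x y x1 w : ℕ} (h : Sol 6 x y) (hy : y = x + w) (hx : x = w * x1) :
    False := by
  have hw2 : 2 ≤ w := by have := h.w2; omega
  have heq := h.eq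
  have e1 : ((y : ℤ) - x) = w := by rw [hy]; push_cast; ring
  have ex : (x : ℤ) = w * x1 := by rw [hx]; push_cast; ring
  have ey : (y : ℤ) = w * x1 + w := by rw [hy, hx]; push_cast; ring
  rw [e1, ex, ey] at heq
  push_cast at heq
  have hw0 : (w : ℤ) ≠ 0 := by
    have : (2 : ℤ) ≤ w := by exact_mod_cast hw2
    linarith
  have h1 : (3 : ℤ) * w = 2 * x1 + 1 := by
    have : (w : ℤ) * (3 * w) = w * (2 * x1 + 1) := by linarith [heq]
    exact mul_left_cancel₀ hw0 this
  have hx1 : 2 ≤ x1 := by omega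
  have hp : ∀ r : ℕ, r.Prime → r ∣ x * y → r = 2 ∨ r = 3 := by
    intro r hr hrd
    have h2 := h.smooth r hr hrd
    have h3 : r ∣ 2 ^ 2 * 3 := by simpa using h2
    rcases (Nat.Prime.dvd_mul hr).1 h3 with h4 | h4
    · exact Or.inl ((Nat.prime_dvd_prime_iff_eq hr Nat.prime_two).1 (hr.dvd_of_dvd_pow h4))
    · exact Or.inr ((Nat.prime_dvd_prime_iff_eq hr Nat.prime_three).1 h4)
  obtain ⟨c, hc⟩ := prime_pow_of (p := 2) (m := x1) (by omega) (fun r hr hrd => by
    rcases hp r hr (by rw [hx]; exact (hrd.mul_left _).mul_right _) with h' | h'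
    · exact h'
    · subst h'; exfalso; obtain ⟨z, hz⟩ := hrd; omega)
  obtain ⟨d, hd⟩ := prime_pow_of (p := 2) (m := x1 + 1) (by omega) (fun r hr hrd => by
    rcases hp r hr (by
      rw [hy, hx, show w * x1 + w = w * (x1 + 1) by ring]; exact (hrd.mul_left _).mul_left _) with
      h' | h'
    · exact h'
    · subst h'; exfalso; obtain ⟨z, hz⟩ := hrd; omega)
  have hc1 : c ≠ 0 := by rintro rfl; simp at hc; omega
  have hd1 : d ≠ 0 := by rintro rfl; simp at hd; omega
  obtain ⟨c', rfl⟩ : ∃ c', c = c' + 1 := ⟨c - 1, by omega⟩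
  obtain ⟨d', rfl⟩ : ∃ d', d = d' + 1 := ⟨d - 1, by omega⟩
  rw [pow_succ] at hc hd
  omega

/-- alphabets of size `2^a 3^b` -/
theorem six_none {a b : ℕ} (ha : 1 ≤ a) (hb : 1 ≤ b) : ¬ ∃ x y, Sol (2 ^ a * 3 ^ b) x y := by
  rintro ⟨x, y, hS⟩
  have hprimes : ∀ s : ℕ, s.Prime → s ∣ 2 ^ a * 3 ^ b → s = 2 ∨ s = 3 := by
    intro s hs hsq
    rcases (Nat.Prime.dvd_mul hs).1 hsq with h' | h'
    · exact Or.inl ((Nat.prime_dvd_prime_iff_eq hs Nat.prime_two).1 (hs.dvd_of_dvd_pow h'))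
    · exact Or.inr ((Nat.prime_dvd_prime_iff_eq hs Nat.prime_three).1 (hs.dvd_of_dvd_pow h'))
  have hprimes2 : ∀ s : ℕ, s.Prime → s ∣ 2 * (2 ^ a * 3 ^ b) → s = 2 ∨ s = 3 := by
    intro s hs hsq
    rcases (Nat.Prime.dvd_mul hs).1 hsq with h' | h'
    · exact Or.inl ((Nat.prime_dvd_prime_iff_eq hs Nat.prime_two).1 h')
    · exact hprimes s hs h'
  have hq : 6 ≤ 2 ^ a * 3 ^ b := by
    calc 6 = 2 ^ 1 * 3 ^ 1 := by norm_num
      _ ≤ 2 ^ a * 3 ^ b := Nat.mul_le_mul (Nat.pow_le_pow_right (by norm_num) ha)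
        (Nat.pow_le_pow_right (by norm_num) hb)
  have hlt := hS.lt2 (by omega)
  have hw2 := hS.w2
  have hge := hS.x_ge (by omega)
  obtain ⟨w, hy⟩ : ∃ w, y = x + w := ⟨y - x, by omega⟩
  obtain ⟨g, x', y', hgpos, hcop, hxg, hyg⟩ := Nat.exists_coprime' (m := x) (n := y)
    (Nat.gcd_pos_of_pos_left _ (by omega))
  have hx' : x' < y' := by
    by_contra hcon
    have : y' * g ≤ x' * g := Nat.mul_le_mul (by omega) le_rfl
    omega
  have hy' : y' < 2 * x' := by
    by_contra hcon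
    have : 2 * x' * g ≤ y' * g := Nat.mul_le_mul (by omega) le_rfl
    have e : 2 * x' * g = 2 * (x' * g) := by ring
    omega
  have hx2 : 2 ≤ x' := by omega
  obtain ⟨w', hw'⟩ : ∃ w', y' = x' + w' := ⟨y' - x', by omega⟩
  have hwg : w = w' * g := by
    have : x + w = x' * g + w' * g := by rw [← hy, hyg, hw']; ring
    omega
  have hw1 : w' = 1 := by
    by_contra hne
    obtain ⟨r, hr, hrw⟩ := Nat.exists_prime_and_dvd hne
    have hr23 : r = 2 ∨ r = 3 := by
      by_cases h2 : r = 2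
      · exact Or.inl h2
      · apply hprimes r hr
        apply hS.wsm r hr h2
        have : ((y : ℤ) - x) = ((w : ℕ) : ℤ) := by rw [hy]; push_cast; ring
        rw [this]
        exact Int.natCast_dvd_natCast.2 (by rw [hwg]; exact hrw.mul_right _)
    have hrx : ¬ r ∣ x' := by
      intro h1
      have h2 : r ∣ y' := by rw [hw']; exact dvd_add h1 hrw
      exact hr.one_lt.ne' (Nat.dvd_one.1 (hcop ▸ Nat.dvd_gcd h1 h2))
    have hry : ¬ r ∣ y' := by
      intro h1
      rw [hw'] at h1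
      exact hrx ((Nat.dvd_add_left hrw).1 h1)
    -- the other prime
    obtain ⟨t, ht, hrt⟩ : ∃ t : ℕ, t.Prime ∧ ∀ s : ℕ, s.Prime → s ∣ x * y → s = r ∨ s = t := by
      rcases hr23 with rfl | rfl
      · exact ⟨3, Nat.prime_three, fun s hs hd => hprimes2 s hs (hS.smooth s hs hd)⟩
      · exact ⟨2, Nat.prime_two, fun s hs hd => (hprimes2 s hs (hS.smooth s hs hd)).symm⟩
    have htx : t ∣ x' := by
      obtain ⟨s, hs, hsd⟩ := Nat.exists_prime_and_dvd (show x' ≠ 1 by omega)
      rcases hrt s hs (by rw [hxg]; exact (hsd.mul_right _).mul_right _) with h' | h'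
      · subst h'; exact absurd hsd hrx
      · subst h'; exact hsd
    have hty : t ∣ y' := by
      obtain ⟨s, hs, hsd⟩ := Nat.exists_prime_and_dvd (show y' ≠ 1 by omega)
      rcases hrt s hs (by rw [hyg]; exact (hsd.mul_right _).mul_left _) with h' | h'
      · subst h'; exact absurd hsd hry
      · subst h'; exact hsd
    exact ht.one_lt.ne' (Nat.dvd_one.1 (hcop ▸ Nat.dvd_gcd htx hty))
  rw [hw1, one_mul] at hwg
  have hxw : x = w * x' := by rw [hwg, hxg]; ring
  rcases Nat.lt_or_ge (2 ^ a * 3 ^ b) 7 with h7 | h7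
  · have h6 : 2 ^ a * 3 ^ b = 6 := by omega
    rw [h6] at hS
    exact hS.not_dvd_six hy hxw
  · refine hS.not_dvd_even h7 ?_ hy hxw
    obtain ⟨a', rfl⟩ : ∃ a', a = a' + 1 := ⟨a - 1, by omega⟩
    rw [pow_succ, mul_assoc, Nat.mul_comm (2 ^ a'), mul_assoc]
    exact Nat.mul_mod_right _ _

/-- **No solutions when `q` has exactly two prime factors.** -/
theorem two_primes_none {p r a b : ℕ} (hp : p.Prime) (hr : r.Prime) (hpr : p ≠ r)
    (ha : 1 ≤ a) (hb : 1 ≤ b) : ¬ ∃ x y, Sol (p ^ a * r ^ b) x y := by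
  have hsmall : ∀ p : ℕ, p.Prime → p < 5 → p = 2 ∨ p = 3 := by
    intro p hp h
    have h2 := hp.two_le
    have h4 : p ≠ 4 := by rintro rfl; revert hp; norm_num
    omega
  rcases lt_or_ge p 5 with h | h
  · rcases lt_or_ge r 5 with h' | h'
    · rcases hsmall p hp h with rfl | rfl <;> rcases hsmall r hr h' with rfl | rfl
      · exact absurd rfl hpr
      · exact six_none ha hb
      · rw [mul_comm]; exact six_none hb ha
      · exact absurd rfl hpr
    · rw [mul_comm]; exact two_none hr hp hpr.symm h' hb ha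
  · exact two_none hp hr hpr h ha hb

end Pool.Agent.TH500.PC
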