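import Pool.Agent.TH500.PC.WCrit

/-!
Infinite families of alphabet sizes with arbitrarily many prime factors, containing any two given
primes.
-/

set_option autoImplicit false

open NumberTheorySymbols

namespace Pool.Agent.TH500.PC

/-- admissible sets of primes relative to a set `F` of further primes -/
def Good2 (F : Finset ℕ) (S : Set ℕ) : Prop :=
  (∀ p ∈ S, p.Prime ∧ p % 24 = 17 ∧ p ∉ F) ∧
    (∀ p ∈ S, ∀ r : ℕ, r ∈ S ∨ r ∈ F → r ≠ p → IsSquare (r : ZMod p))

lemma good2_extend {F : Finset ℕ} (hF : ∀ r ∈ F, r.Prime ∧ 5 ≤ r) {S : Set ℕ} (hS : Good2 F S)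
    (hfin : S.Finite) : ∃ p, p ∉ S ∧ Good2 F (insert p S) := by
  classical
  -- modulus
  set G : Finset ℕ := hfin.toFinset ∪ F with hG
  have hGm : ∀ r, r ∈ G ↔ r ∈ S ∨ r ∈ F := by
    intro r; rw [hG, Finset.mem_union, hfin.mem_toFinset]
  have hGp : ∀ r ∈ G, r.Prime ∧ 5 ≤ r := by
    intro r hr
    rcases (hGm r).1 hr with h | h
    · have := hS.1 r h
      refine ⟨this.1, ?_⟩
      have := this.2.1
      omega
    · exact hF r h
  set M : ℕ := ∏ r ∈ G, r with hM
  have hMr : ∀ r ∈ G, r ∣ M := fun r hr => Finset.dvd_prod_of_mem _ hr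
  have hM3 : M % 3 = 1 ∨ M % 3 = 2 := by
    have : ¬ 3 ∣ M := by
      intro h
      rw [hM, Prime.dvd_finsetProd_iff Nat.prime_three.prime] at h
      obtain ⟨r, hr, h3⟩ := h
      have hr' := hGp r hr
      have := (Nat.prime_dvd_prime_iff_eq Nat.prime_three hr'.1).1 h3
      omega
    omega
  have hM0 : M ≠ 0 := by
    rw [hM, Finset.prod_ne_zero_iff]
    intro r hr
    exact (hGp r hr).1.ne_zero
  -- residue class
  set t : ℕ := if M % 3 = 1 then 2 else 1 with ht
  set a : ℕ := 1 + 8 * M * t with ha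
  have ha3 : a % 3 = 2 := by
    rw [ha, ht]
    split_ifs with h1
    · have : 1 + 8 * M * 2 = 1 + 16 * M := by ring
      omega
    · have : 1 + 8 * M * 1 = 1 + 8 * M := by ring
      omega
  have hcop : Nat.Coprime a (24 * M) := by
    have h1 : Nat.Coprime a (8 * M) := by
      rw [ha, Nat.coprime_add_mul_left_left]
      exact Nat.coprime_one_left _
    have h2 : Nat.Coprime a 3 := by
      rw [Nat.coprime_comm, Nat.Prime.coprime_iff_not_dvd Nat.prime_three]
      omega
    have : 24 * M = 8 * M * 3 := by ring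
    rw [this]
    exact Nat.Coprime.mul_right h1 h2
  haveI : NeZero (24 * M) := ⟨by omega⟩
  have hunit : IsUnit ((a : ℕ) : ZMod (24 * M)) := (ZMod.isUnit_iff_coprime a (24 * M)).2 hcop
  obtain ⟨p, hpgt, hp, hpa⟩ := Nat.forall_exists_prime_gt_and_eq_mod hunit (M + 24)
  have hmod : p % (24 * M) = a % (24 * M) := (ZMod.natCast_eq_natCast_iff' p a (24 * M)).1 hpa
  have hmod24 : p % 24 = 17 := by
    have h3 : p % 3 = 2 := by
      have : p % (24 * M) % 3 = a % (24 * M) % 3 := by rw [hmod]
      rw [Nat.mod_mod_of_dvd _ (⟨8 * M, by ring⟩ : 3 ∣ 24 * M),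
        Nat.mod_mod_of_dvd _ (⟨8 * M, by ring⟩ : 3 ∣ 24 * M)] at this
      omega
    have h8 : p % 8 = 1 := by
      have : p % (24 * M) % 8 = a % (24 * M) % 8 := by rw [hmod]
      rw [Nat.mod_mod_of_dvd _ (⟨3 * M, by ring⟩ : 8 ∣ 24 * M),
        Nat.mod_mod_of_dvd _ (⟨3 * M, by ring⟩ : 8 ∣ 24 * M)] at this
      rw [this, ha]
      have : 1 + 8 * M * t = 1 + 8 * (M * t) := by ring
      omega
    omega
  have hmodr : ∀ r ∈ G, p % r = 1 % r := by
    intro r hr
    obtain ⟨u, hu⟩ := hMr r hr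
    have hdr : r ∣ 24 * M := (hMr r hr).mul_left _
    have : p % (24 * M) % r = a % (24 * M) % r := by rw [hmod]
    rw [Nat.mod_mod_of_dvd _ hdr, Nat.mod_mod_of_dvd _ hdr] at this
    rw [this, ha, hu]
    have : 1 + 8 * (r * u) * t = 1 + r * (8 * u * t) := by ring
    rw [this, Nat.add_mul_mod_self_left]
  have hpG : p ∉ G := by
    intro h
    have := Nat.le_of_dvd (Nat.pos_of_ne_zero hM0) (hMr p h)
    omega
  have hpS : p ∉ S := fun h => hpG ((hGm p).2 (Or.inl h))
  have hpF : p ∉ F := fun h => hpG ((hGm p).2 (Or.inr h))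
  refine ⟨p, hpS, ?_, ?_⟩
  · intro r hr
    rcases Set.mem_insert_iff.1 hr with rfl | hr
    · exact ⟨hp, hmod24, hpF⟩
    · exact hS.1 r hr
  · intro u hu v hv hne
    rcases Set.mem_insert_iff.1 hu with rfl | hu'
    · -- `v` modulo the new prime `u`
      have hvG : v ∈ G := by
        rw [hGm]
        rcases hv with hv | hv
        · rcases Set.mem_insert_iff.1 hv with rfl | hv'
          · exact absurd rfl hne
          · exact Or.inl hv'
        · exact Or.inr hv
      haveI : Fact u.Prime := ⟨hp⟩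
      have hv5 := hGp v hvG
      have h1 : J((u : ℤ) | v) = 1 := by
        have : J((u : ℤ) | v) = J(1 | v) := by
          apply jacobiSym.mod_left'
          have := hmodr v hvG
          exact_mod_cast this
        rw [this, jacobiSym.one_left]
      have hvodd : v % 2 = 1 := Nat.odd_iff.1 (hv5.1.odd_of_ne_two (by omega))
      have hr' := jacobiSym.quadratic_reciprocity_one_mod_four' (a := v) (b := u)
        (Nat.odd_iff.2 hvodd) (by omega)
      rw [h1] at hr'
      have := ZMod.isSquare_of_jacobiSym_eq_one hr'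
      exact_mod_cast this
    · rcases hv with hv | hv
      · rcases Set.mem_insert_iff.1 hv with rfl | hv'
        · -- the new prime modulo `u ∈ S`
          have : (v : ZMod u) = 1 := by
            have := (ZMod.natCast_eq_natCast_iff' v 1 u).2 (hmodr u ((hGm u).2 (Or.inl hu')))
            simpa using this
          rw [this]
          exact ⟨1, by ring⟩
        · exact hS.2 u hu' v (Or.inl hv') hne
      · exact hS.2 u hu' v (Or.inr hv) hne

theorem exists_infinite2 {F : Finset ℕ} (hF : ∀ r ∈ F, r.Prime ∧ 5 ≤ r) :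
    ∃ S : Set ℕ, S.Infinite ∧ Good2 F S := by
  obtain ⟨S, hSmax⟩ := zorn_subset {S : Set ℕ | Good2 F S} (by
    intro c hc hchain
    refine ⟨⋃₀ c, ⟨?_, ?_⟩, fun s hs => Set.subset_sUnion_of_mem hs⟩
    · rintro p ⟨s, hs, hps⟩
      exact (hc hs).1 p hps
    · rintro p ⟨s, hs, hps⟩ r hr hne
      rcases hr with ⟨s', hs', hrs'⟩ | hr
      · rcases hchain.total hs hs' with h | h
        · exact (hc hs').2 p (h hps) r (Or.inl hrs') hne
        · exact (hc hs).2 p hps r (Or.inl (h hrs')) hne
      · exact (hc hs).2 p hps r (Or.inr hr) hne)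
  refine ⟨S, ?_, hSmax.prop⟩
  intro hfin
  obtain ⟨p, hp, hgood⟩ := good2_extend hF hSmax.prop hfin
  have := hSmax.le_of_ge hgood (Set.subset_insert p S)
  exact hp (this (Set.mem_insert p S))

lemma isSquare_of_mem_act {q p : ℕ} (h2 : IsSquare (2 : ZMod p))
    (h : ∀ r : ℕ, r.Prime → r ∣ q → r ≠ p → IsSquare (r : ZMod p))
    {z : ZMod p} (hz : z ∈ act q p) : IsSquare z := by
  unfold act at hz
  induction hz using Submonoid.closure_induction with
  | mem x hx =>
    rcases hx with rfl | ⟨r, hr, hrq, hrp, rfl⟩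
    · exact h2
    · exact h r hr hrq hrp
  | one => exact ⟨1, by ring⟩
  | mul x y _ _ hx hy => exact hx.mul hy

/-- primes of an admissible set are not active -/
lemma not_active_of_good {F : Finset ℕ} {S : Set ℕ} (hS : Good2 F S) {q p : ℕ} (hpS : p ∈ S)
    (hq : ∀ r : ℕ, r.Prime → r ∣ q → r = 2 ∨ r ∈ S ∨ r ∈ F) : ¬ Active q p := by
  rintro ⟨hp, hp5, hpq, hmem⟩
  haveI : Fact p.Prime := ⟨hp⟩
  have h17 := (hS.1 p hpS).2.1
  have hns : ¬ IsSquare (3 : ZMod p) := by
    rcases J_three (m := p) (by omega) (by omega) with ⟨h', -⟩ | ⟨-, h'⟩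
    · omega
    · have := ZMod.nonsquare_of_jacobiSym_eq_neg_one h'
      exact_mod_cast this
  have h2 : IsSquare (2 : ZMod p) := (ZMod.exists_sq_eq_two_iff (p := p) (by omega)).2 (Or.inl (by omega))
  apply hns
  refine isSquare_of_mem_act h2 ?_ hmem
  intro r hr hrq hrp
  rcases hq r hr hrq with rfl | h'
  · exact_mod_cast h2
  · exact hS.2 p hpS r h' hrp

/-- **Families with arbitrarily many prime factors.** -/
theorem many2 {p₁ p₂ : ℕ} {S : Set ℕ} (hS : Good2 {p₁, p₂} S) (h1 : 5 ≤ p₁) (h2 : 5 ≤ p₂)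
    {q : ℕ} (hq : 3 ≤ q)
    (hqS : (∀ p : ℕ, p.Prime → p ∣ q → p = p₁ ∨ p = p₂ ∨ p ∈ S) ∨
      (∀ p : ℕ, p.Prime → p ∣ q → p = 2 ∨ p = p₁ ∨ p ∈ S)) : ¬ ∃ x y, Sol q x y := by
  rintro ⟨x, y, hsol⟩
  have hall : ∀ r : ℕ, r.Prime → r ∣ q → r = 2 ∨ r ∈ S ∨ r ∈ ({p₁, p₂} : Finset ℕ) := by
    intro r hr hrq
    rcases hqS with h | h
    · rcases h r hr hrq with rfl | rfl | h'
      · right; right; simp
      · right; right; simp
      · right; left; exact h'
    · rcases h r hr hrq with rfl | rfl | h'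
      · left; rfl
      · right; right; simp
      · right; left; exact h'
  have hq3 : ¬ 3 ∣ q := by
    intro h3
    rcases hall 3 Nat.prime_three h3 with h | h | h
    · omega
    · have := (hS.1 3 h).2.1; omega
    · simp only [Finset.mem_insert, Finset.mem_singleton] at h; omega
  have hact : ∀ p : ℕ, Active q p → p ∉ S := fun p hp hpS => not_active_of_good hS hpS hall hp
  rcases hqS with h | h
  · have hq2 : q % 2 = 1 := by
      rcases Nat.mod_two_eq_zero_or_one q with h' | h'
      · exfalso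
        rcases h 2 Nat.prime_two (Nat.dvd_of_mod_eq_zero h') with h'' | h'' | h''
        · omega
        · omega
        · have := (hS.1 2 h'').2.1; omega
      · exact h'
    obtain ⟨a, b, c, hab, hac, hbc, ha, hb, hc⟩ := three_active hsol hq3 hq hq2
    have key : ∀ p : ℕ, Active q p → p = p₁ ∨ p = p₂ := by
      intro p hp
      rcases h p hp.1 hp.2.2.1 with h' | h' | h'
      · exact Or.inl h'
      · exact Or.inr h'
      · exact absurd h' (hact p hp)
    rcases key a ha with rfl | rfl <;> rcases key b hb with rfl | rfl <;>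
      rcases key c hc with rfl | rfl <;> first | exact hab rfl | exact hac rfl | exact hbc rfl
  · have key : ∀ p : ℕ, Active q p → p = p₁ := by
      intro p hp
      rcases h p hp.1 hp.2.2.1 with h' | h' | h'
      · exfalso; have := hp.2.1; omega
      · exact h'
      · exact absurd h' (hact p hp)
    rcases Nat.mod_two_eq_zero_or_one q with hq2 | hq2
    · obtain ⟨a, b, hab, ha, hb⟩ := two_active hsol hq3 hq hq2
      exact hab ((key a ha).trans (key b hb).symm)
    · obtain ⟨a, b, c, hab, -, -, ha, hb, -⟩ := three_active hsol hq3 hq hq2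
      exact hab ((key a ha).trans (key b hb).symm)

end Pool.Agent.TH500.PC
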