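import Pool.Agent.TH500.PC.WTwo

/-!
No perfect 2-error-correcting codes over alphabets of size `3^a p^b`, `p ≥ 5`.
-/

set_option autoImplicit false

namespace Pool.Agent.TH500.PC

/-- endgame: `A = 3^g` is the difference of the zeros -/
lemma three_end {p a b g c m : ℕ} {σ s0 : ℤ} (hp5 : 5 ≤ p) (hpodd : p % 2 = 1) (ha : 1 ≤ a)
    (hb : 1 ≤ b) (hg : 1 ≤ g) (hm : m = 4 ∨ m = 8) (hσ : σ = 1 ∨ σ = -1)
    (hs0 : s0 = 1 ∨ s0 = -1)
    (hq : 15 ≤ 3 ^ a * p ^ b) (hqA : ((3 ^ a * p ^ b : ℕ) : ℤ) ≤ ((3 : ℤ) ^ g) ^ 2)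
    (hc5 : (5 : ℤ) ≤ (p : ℤ) ^ c)
    (heq : ((3 ^ a * p ^ b : ℕ) : ℤ) * (((3 : ℤ) ^ g) ^ 2 - 1) =
      m * 3 ^ g * (p : ℤ) ^ c + 2 * σ * 3 ^ g - 6) : False := by
  obtain ⟨g', rfl⟩ : ∃ g', g = g' + 1 := ⟨g - 1, by omega⟩
  by_cases hg0 : g' = 0
  · subst hg0
    norm_num at hqA
    have : (3 ^ a * p ^ b : ℕ) ≤ 9 := by exact_mod_cast hqA
    omega
  obtain ⟨g'', rfl⟩ : ∃ g'', g' = g'' + 1 := ⟨g' - 1, by omega⟩
  have hpb5 : (5 : ℤ) ≤ (p : ℤ) ^ b := by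
    have : 5 ≤ p ^ b := hp5.trans (Nat.le_self_pow (by omega) p)
    exact_mod_cast this
  have ha1 : a = 1 := by
    by_contra hne
    obtain ⟨a', rfl⟩ : ∃ a', a = a' + 2 := ⟨a - 2, by omega⟩
    push_cast at heq
    have e1 : (3 : ℤ) ^ (a' + 2) * (p : ℤ) ^ b * (((3 : ℤ) ^ (g'' + 1 + 1)) ^ 2 - 1) =
        9 * (3 ^ a' * (p : ℤ) ^ b * (((3 : ℤ) ^ (g'' + 1 + 1)) ^ 2 - 1)) := by ring
    have e2 : (m : ℤ) * 3 ^ (g'' + 1 + 1) * (p : ℤ) ^ c + 2 * σ * 3 ^ (g'' + 1 + 1) - 6 =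
        9 * (m * 3 ^ g'' * (p : ℤ) ^ c + 2 * σ * 3 ^ g'') - 6 := by ring
    rw [e1, e2] at heq
    omega
  subst ha1
  push_cast at heq
  obtain ⟨B, hB⟩ : ∃ B : ℤ, B = 3 ^ (g'' + 1) := ⟨_, rfl⟩
  have hA : (3 : ℤ) ^ (g'' + 1 + 1) = 3 * B := by rw [hB, pow_succ]; ring
  have hB3 : 3 ≤ B := by
    rw [hB]
    have : (3 : ℤ) ^ 1 ≤ 3 ^ (g'' + 1) := pow_le_pow_right₀ (by norm_num) (by omega)
    linarith
  have hBodd : B % 2 = 1 := by
    rw [hB]
    exact Int.odd_iff.1 (Odd.pow (by decide))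
  rw [hA] at heq
  have heq2 : (p : ℤ) ^ b * (9 * B ^ 2 - 1) = m * B * (p : ℤ) ^ c + 2 * σ * B - 2 := by
    have : (3 : ℤ) * ((p : ℤ) ^ b * (9 * B ^ 2 - 1)) =
        3 * (m * B * (p : ℤ) ^ c + 2 * σ * B - 2) := by linear_combination heq
    exact mul_left_cancel₀ (by norm_num) this
  have hBB : 3 * B ≤ B * B := mul_le_mul_of_nonneg_right hB3 (by linarith)
  have hm8 : (m : ℤ) * (B * (p : ℤ) ^ c) ≤ 8 * (B * (p : ℤ) ^ c) := by
    apply mul_le_mul_of_nonneg_right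
    · rcases hm with rfl | rfl <;> norm_num
    · positivity
  have hbc : b ≤ c := by
    apply le_exp hp5
    intro hcon
    have h1 : (5 * (p : ℤ) ^ c) * (9 * B ^ 2 - 1) ≤ (p : ℤ) ^ b * (9 * B ^ 2 - 1) :=
      mul_le_mul_of_nonneg_right hcon (by linarith [sq B])
    rw [heq2] at h1
    have h2 : 5 * (45 * B ^ 2 - 8 * B - 5) ≤ (p : ℤ) ^ c * (45 * B ^ 2 - 8 * B - 5) :=
      mul_le_mul_of_nonneg_right hc5 (by linarith [sq B])
    rcases hσ with rfl | rfl <;> linarith [sq B]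
  obtain ⟨D, hD⟩ : ∃ D : ℤ, D = (p : ℤ) ^ (c - b) := ⟨_, rfl⟩
  have hcD : (p : ℤ) ^ c = p ^ b * D := by
    rw [hD, ← pow_add]; congr 1; omega
  rw [hcD] at heq2
  have hmain : (p : ℤ) ^ b * (1 + B * (m * D - 9 * B)) = 2 - 2 * σ * B := by
    linear_combination (-1) * heq2
  generalize (p : ℤ) ^ b = Z at *
  have hs : m * D - 9 * B = 0 ∨ 1 ≤ m * D - 9 * B ∨ m * D - 9 * B ≤ -1 := by omega
  rcases hs with hs | hs | hs
  · exfalso
    rcases hm with rfl | rfl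
    · push_cast at hs; omega
    · push_cast at hs; omega
  · have h0 : 0 ≤ B * (m * D - 9 * B - 1) := mul_nonneg (by linarith) (by linarith)
    have h1 : Z * (1 + B) ≤ Z * (1 + B * (m * D - 9 * B)) :=
      mul_le_mul_of_nonneg_left (by linarith) (by linarith)
    have h2 : 5 * (1 + B) ≤ Z * (1 + B) := mul_le_mul_of_nonneg_right hpb5 (by linarith)
    rcases hσ with rfl | rfl <;> linarith
  · have h0 : 0 ≤ B * (-1 - (m * D - 9 * B)) := mul_nonneg (by linarith) (by linarith)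
    have h1 : Z * (1 + B * (m * D - 9 * B)) ≤ Z * (1 - B) :=
      mul_le_mul_of_nonneg_left (by linarith) (by linarith)
    have h2 : 0 ≤ (Z - 5) * (B - 1) := mul_nonneg (by linarith) (by linarith)
    rcases hσ with rfl | rfl <;> linarith

/-- alphabets of size `3^a p^b` -/
theorem three_none {p a b : ℕ} (hp : p.Prime) (hp5 : 5 ≤ p) (ha : 1 ≤ a) (hb : 1 ≤ b) :
    ¬ ∃ x y, Sol (3 ^ a * p ^ b) x y := by
  rintro ⟨x, y, hS⟩
  have hpodd : p % 2 = 1 := Nat.odd_iff.1 (hp.odd_of_ne_two (by omega))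
  have hprimes : ∀ s : ℕ, s.Prime → s ∣ 3 ^ a * p ^ b → s = 3 ∨ s = p := by
    intro s hs hsq
    rcases (Nat.Prime.dvd_mul hs).1 hsq with h' | h'
    · exact Or.inl ((Nat.prime_dvd_prime_iff_eq hs Nat.prime_three).1 (hs.dvd_of_dvd_pow h'))
    · exact Or.inr ((Nat.prime_dvd_prime_iff_eq hs hp).1 (hs.dvd_of_dvd_pow h'))
  have hq : 15 ≤ 3 ^ a * p ^ b := by
    calc 15 = 3 ^ 1 * 5 ^ 1 := by norm_num
      _ ≤ 3 ^ a * p ^ b := Nat.mul_le_mul (Nat.pow_le_pow_right (by norm_num) ha)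
        ((Nat.pow_le_pow_left hp5 1).trans (Nat.pow_le_pow_right (by omega) hb))
  have hpq : p ∣ 3 ^ a * p ^ b := (dvd_pow_self p (by omega)).mul_left _
  obtain ⟨e, o, k, hP, hk1, hsum, hshape, m4, m3, m7, hk3, hcase⟩ := three_shape hp hp5 ha hb hS
  have hW0 : ((e : ℤ) - o) ≠ 0 := by
    intro h
    have := hP.w_ne
    rw [h] at this
    simp at this
  have hlt := hP.lt2 (by omega)
  have hp3 : ¬ (3 : ℤ) ∣ (p : ℤ) := by
    intro h
    have h' : 3 ∣ p := by exact_mod_cast h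
    have := (Nat.prime_dvd_prime_iff_eq Nat.prime_three hp).1 h'
    omega
  rcases hcase with ⟨f, g, c, ho, he, hf1, hg1, hc1⟩ | ⟨f, g, c, he, ho, hf1, hg1, hc1⟩
  · have hp5c : 5 ≤ p ^ c := hp5.trans (Nat.le_self_pow (by omega) p)
    have hpe : p ∣ e := by
      rw [he]; exact ((dvd_pow_self p (by omega)).mul_left _).mul_left _
    have hpo : ¬ p ∣ o := hP.not_both hp (by omega) (by omega) hpq hpe
    have hgf : g < f := by
      by_contra hcon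
      have h1 : 3 ^ f ≤ 3 ^ g := Nat.pow_le_pow_right (by norm_num) (by omega)
      have h2 : 3 ^ f * 5 ≤ 3 ^ g * p ^ c := Nat.mul_le_mul h1 hp5c
      have h3 : 0 < 3 ^ f := by positivity
      omega
    obtain ⟨k', hk'⟩ := pow_abs_of hW0 (p := 3) (by
      intro r hr hrw
      have hr2 : r ≠ 2 := by
        rintro rfl
        have ho2 : o % 2 = 1 := by
          rw [ho]; exact Nat.odd_iff.1 (Odd.pow (by decide))
        have : (2 : ℤ) ∣ (e : ℤ) - o := by exact_mod_cast hrw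
        omega
      rcases hprimes r hr (hP.wsm hr hr2 hrw) with h' | h'
      · exact h'
      · subst h'
        exfalso
        have h1 : (r : ℤ) ∣ (e : ℤ) := Int.natCast_dvd_natCast.2 hpe
        have h2 := (Int.dvd_iff_dvd_of_dvd_sub hrw).1 h1
        exact hpo (Int.natCast_dvd_natCast.1 h2))
    obtain ⟨j, hj⟩ : ∃ j, f = g + 1 + j := ⟨f - g - 1, by omega⟩
    have hfac : ((e : ℤ) - o) = ((3 : ℕ) : ℤ) ^ g * (2 * (p : ℤ) ^ c - 3 * 3 ^ j) := by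
      rw [he, ho, hj]; push_cast; ring
    rw [hfac] at hk'
    have hu := unit_of Nat.prime_three (m := 2 * (p : ℤ) ^ c - 3 * 3 ^ j) (by
      intro hd
      push_cast at hd
      have h1 : (3 : ℤ) ∣ 2 * (p : ℤ) ^ c := by
        have : (2 : ℤ) * (p : ℤ) ^ c = (2 * (p : ℤ) ^ c - 3 * 3 ^ j) + 3 * 3 ^ j := by ring
        rw [this]
        exact dvd_add hd (dvd_mul_right _ _)
      rcases Int.prime_three.dvd_or_dvd h1 with h2 | h2
      · omega
      · exact hp3 (Int.prime_three.dvd_of_dvd_pow h2)) hk'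
    obtain ⟨σ, hσ, hσ2⟩ : ∃ σ : ℤ, 2 * (p : ℤ) ^ c - 3 * 3 ^ j = σ ∧ (σ = 1 ∨ σ = -1) :=
      ⟨_, rfl, hu⟩
    have hw : ((e : ℤ) - o) = σ * 3 ^ g := by
      rw [hfac, hσ]; push_cast; ring
    have hσsq : σ ^ 2 = 1 := by rcases hσ2 with rfl | rfl <;> norm_num
    have heq := hP.eq
    have hql := hP.q_le
    have hw2 : ((e : ℤ) - o) ^ 2 = ((3 : ℤ) ^ g) ^ 2 := by
      rw [hw]; linear_combination ((3 : ℤ) ^ g) ^ 2 * hσsq
    rw [hw2] at heq hql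
    have he' : (e : ℤ) = 2 * (3 ^ g * (p : ℤ) ^ c) := by rw [he]; push_cast; ring
    have ho' : (o : ℤ) = e - σ * 3 ^ g := by linarith
    have heq2 : ((3 ^ a * p ^ b : ℕ) : ℤ) * (((3 : ℤ) ^ g) ^ 2 - 1) =
      ((8 : ℕ) : ℤ) * 3 ^ g * (p : ℤ) ^ c + 2 * (-σ) * 3 ^ g - 6 := by
      rw [heq, ho', he']; push_cast; ring
    exact three_end (s0 := 1) hp5 hpodd ha hb hg1 (Or.inr rfl)
      (by rcases hσ2 with rfl | rfl <;> simp) (Or.inl rfl) hq hql (by exact_mod_cast hp5c) heq2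
  · have hp5c : 5 ≤ p ^ c := hp5.trans (Nat.le_self_pow (by omega) p)
    have hpo : p ∣ o := by
      rw [ho]; exact (dvd_pow_self p (by omega)).mul_left _
    have hpe : ¬ p ∣ e := hP.symm.not_both hp (by omega) (by omega) hpq hpo
    have hgf : g < f := by
      by_contra hcon
      have h1 : 3 ^ f ≤ 3 ^ g := Nat.pow_le_pow_right (by norm_num) (by omega)
      have h2 : 3 ^ f * 5 ≤ 3 ^ g * p ^ c := Nat.mul_le_mul h1 hp5c
      have h3 : 0 < 3 ^ f := by positivity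
      omega
    obtain ⟨k', hk'⟩ := pow_abs_of hW0 (p := 3) (by
      intro r hr hrw
      have hr2 : r ≠ 2 := by
        rintro rfl
        have ho2 : o % 2 = 1 := by
          rw [ho]
          exact Nat.odd_iff.1 (Odd.mul (Odd.pow (by decide)) (Odd.pow (Nat.odd_iff.2 hpodd)))
        have : (2 : ℤ) ∣ (e : ℤ) - o := by exact_mod_cast hrw
        omega
      rcases hprimes r hr (hP.wsm hr hr2 hrw) with h' | h'
      · exact h'
      · subst h'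
        exfalso
        have h1 : (r : ℤ) ∣ (o : ℤ) := Int.natCast_dvd_natCast.2 hpo
        have h2 := (Int.dvd_iff_dvd_of_dvd_sub hrw).2 h1
        exact hpe (Int.natCast_dvd_natCast.1 h2))
    obtain ⟨j, hj⟩ : ∃ j, f = g + 1 + j := ⟨f - g - 1, by omega⟩
    have hfac : ((e : ℤ) - o) = ((3 : ℕ) : ℤ) ^ g * (2 * (3 * 3 ^ j) - (p : ℤ) ^ c) := by
      rw [he, ho, hj]; push_cast; ring
    rw [hfac] at hk'
    have hu := unit_of Nat.prime_three (m := 2 * (3 * 3 ^ j) - (p : ℤ) ^ c) (by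
      intro hd
      push_cast at hd
      have h1 : (3 : ℤ) ∣ (p : ℤ) ^ c := by
        have : (p : ℤ) ^ c = 3 * (2 * 3 ^ j) - (2 * (3 * 3 ^ j) - (p : ℤ) ^ c) := by ring
        rw [this]
        exact dvd_sub (dvd_mul_right _ _) hd
      exact hp3 (Int.prime_three.dvd_of_dvd_pow h1)) hk'
    obtain ⟨σ, hσ, hσ2⟩ : ∃ σ : ℤ, 2 * (3 * 3 ^ j) - (p : ℤ) ^ c = σ ∧ (σ = 1 ∨ σ = -1) :=
      ⟨_, rfl, hu⟩
    have hw : ((e : ℤ) - o) = σ * 3 ^ g := by
      rw [hfac, hσ]; push_cast; ring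
    have hσsq : σ ^ 2 = 1 := by rcases hσ2 with rfl | rfl <;> norm_num
    have heq := hP.eq
    have hql := hP.q_le
    have hw2 : ((e : ℤ) - o) ^ 2 = ((3 : ℤ) ^ g) ^ 2 := by
      rw [hw]; linear_combination ((3 : ℤ) ^ g) ^ 2 * hσsq
    rw [hw2] at heq hql
    have ho' : (o : ℤ) = 3 ^ g * (p : ℤ) ^ c := by rw [ho]; push_cast; ring
    have he' : (e : ℤ) = o + σ * 3 ^ g := by linarith
    have heq2 : ((3 ^ a * p ^ b : ℕ) : ℤ) * (((3 : ℤ) ^ g) ^ 2 - 1) =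
      ((4 : ℕ) : ℤ) * 3 ^ g * (p : ℤ) ^ c + 2 * σ * 3 ^ g - 6 := by
      rw [heq, he', ho']; push_cast; ring
    exact three_end (s0 := 1) hp5 hpodd ha hb hg1 (Or.inl rfl) hσ2 (Or.inl rfl) hq hql
      (by exact_mod_cast hp5c) heq2

/-- **No solutions when `q` has exactly two prime factors, one of them at least `5`.** -/
theorem two_none {p r a b : ℕ} (hp : p.Prime) (hr : r.Prime) (hpr : p ≠ r) (hp5 : 5 ≤ p)
    (ha : 1 ≤ a) (hb : 1 ≤ b) : ¬ ∃ x y, Sol (p ^ a * r ^ b) x y := by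
  rcases lt_or_ge r 5 with h | h
  · have h2 := hr.two_le
    have h4 : r ≠ 4 := by rintro rfl; revert hr; norm_num
    have hr' : r = 2 ∨ r = 3 := by omega
    rcases hr' with rfl | rfl
    · rw [mul_comm]; exact even_none hp hp5 hb ha
    · rw [mul_comm]; exact three_none hp hp5 hb ha
  · exact pr_none hp hr hpr hp5 h ha hb

end Pool.Agent.TH500.PC
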