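import Pool.Agent.TH500.PC.TwoFinal
import Pool.Agent.TH500.PC.EvenFinal
import Pool.Agent.TH500.PC.ThreeFinal

/-!
No perfect 2-error-correcting codes over alphabets whose size has exactly two prime factors,
one of them at least 5.
-/

set_option autoImplicit false

namespace Pool.Agent.TH500.PC

namespace Pair

variable {q e o : ℕ}

lemma wsm (h : Pair q e o) {p : ℕ} (hp : p.Prime) (hp2 : p ≠ 2) (hd : (p : ℤ) ∣ (e : ℤ) - o) :
    p ∣ q := by
  rcases h with h | h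
  · exact h.wsm p hp hp2 (by
      have := (dvd_neg (a := (p : ℤ))).2 hd
      rwa [neg_sub] at this)
  · exact h.wsm p hp hp2 hd

lemma w_ne (h : Pair q e o) : 2 ≤ ((e : ℤ) - o).natAbs := by
  rcases h with h | h
  · have := h.w2; omega
  · have := h.w2; omega

/-- `q ≤ w²` -/
lemma q_le (h : Pair q e o) : (q : ℤ) ≤ ((e : ℤ) - o) ^ 2 := by
  rcases h with h | h
  · have := h.w_sq_ge; linarith [this, show ((o : ℤ) - e) ^ 2 = ((e : ℤ) - o) ^ 2 by ring]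
  · exact h.w_sq_ge

/-- an odd difference of the zeros must have a prime factor which divides neither zero -/
lemma new_prime (h : Pair q e o) (hodd : Odd ((e : ℤ) - o)) (h3 : ¬ (3 : ℤ) ∣ (e : ℤ) - o) :
    ∃ p : ℕ, p.Prime ∧ 5 ≤ p ∧ p ∣ q ∧ (p : ℤ) ∣ (e : ℤ) - o ∧ ¬ p ∣ e ∧ ¬ p ∣ o := by
  obtain ⟨p, hp, hpd⟩ := Nat.exists_prime_and_dvd
    (show ((e : ℤ) - o).natAbs ≠ 1 by have := h.w_ne; omega)
  have hpd' : (p : ℤ) ∣ (e : ℤ) - o := Int.natCast_dvd.2 hpd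
  have hp2 : p ≠ 2 := by
    rintro rfl
    rw [Int.odd_iff] at hodd
    have : (2 : ℤ) ∣ (e : ℤ) - o := by exact_mod_cast hpd'
    omega
  have hp3 : p ≠ 3 := by
    rintro rfl
    exact h3 (by exact_mod_cast hpd')
  have hp5 : 5 ≤ p := by
    have h2 := hp.two_le
    have h4 : p ≠ 4 := by rintro rfl; revert hp; norm_num
    omega
  have hpq := h.wsm hp hp2 hpd'
  have hiff : p ∣ e ↔ p ∣ o := by
    constructor
    · intro h1
      have h1' : (p : ℤ) ∣ e := Int.natCast_dvd_natCast.2 h1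
      have := (Int.dvd_iff_dvd_of_dvd_sub hpd').1 h1'
      exact Int.natCast_dvd_natCast.1 this
    · intro h1
      have h1' : (p : ℤ) ∣ o := Int.natCast_dvd_natCast.2 h1
      have := (Int.dvd_iff_dvd_of_dvd_sub hpd').2 h1'
      exact Int.natCast_dvd_natCast.1 this
  have hne : ¬ p ∣ e := fun h1 => h.not_both hp hp2 hp3 hpq h1 (hiff.1 h1)
  exact ⟨p, hp, hp5, hpq, hpd', hne, fun h1 => hne (hiff.2 h1)⟩

end Pair

/-- alphabets of size `p^a r^b`, `p, r ≥ 5` -/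
theorem pr_none {p r a b : ℕ} (hp : p.Prime) (hr : r.Prime) (hpr : p ≠ r) (hp5 : 5 ≤ p)
    (hr5 : 5 ≤ r) (ha : 1 ≤ a) (hb : 1 ≤ b) : ¬ ∃ x y, Sol (p ^ a * r ^ b) x y := by
  rintro ⟨x, y, hS⟩
  have hpo : Odd p := hp.odd_of_ne_two (by omega)
  have hro : Odd r := hr.odd_of_ne_two (by omega)
  have hprimes : ∀ s : ℕ, s.Prime → s ∣ p ^ a * r ^ b → s = p ∨ s = r := by
    intro s hs hsq
    rcases (Nat.Prime.dvd_mul hs).1 hsq with h' | h'
    · exact Or.inl ((Nat.prime_dvd_prime_iff_eq hs hp).1 (hs.dvd_of_dvd_pow h'))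
    · exact Or.inr ((Nat.prime_dvd_prime_iff_eq hs hr).1 (hs.dvd_of_dvd_pow h'))
  have hq3 : ¬ 3 ∣ p ^ a * r ^ b := by
    intro h3
    rcases hprimes 3 Nat.prime_three h3 with h' | h' <;> omega
  have key2 : ∀ (p r : ℕ), p.Prime → r.Prime → Odd p → Odd r → ∀ c d : ℕ, c ≠ 0 → d ≠ 0 →
      ∀ q : ℕ, (∀ s : ℕ, s.Prime → s ∣ q → s = p ∨ s = r) →
      Pair q (2 * p ^ c) (r ^ d) → ¬ 3 ∣ q → False := by
    intro p r hp hr hpo hro c d hc hd q hq hP hq3
    have hodd : Odd (((2 * p ^ c : ℕ) : ℤ) - ((r ^ d : ℕ) : ℤ)) := by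
      have h1 : r ^ d % 2 = 1 := Nat.odd_iff.1 hro.pow
      rw [Int.odd_iff]
      omega
    have h3' : ¬ (3 : ℤ) ∣ ((2 * p ^ c : ℕ) : ℤ) - ((r ^ d : ℕ) : ℤ) := by
      intro h'
      have := hP.wsm Nat.prime_three (by norm_num) (by exact_mod_cast h')
      exact hq3 this
    obtain ⟨s, hs, hs5, hsq, hsd, hse, hso⟩ := hP.new_prime hodd h3'
    rcases hq s hs hsq with rfl | rfl
    · exact hse ((dvd_pow_self s hc).mul_left _)
    · exact hso (dvd_pow_self s hd)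
  obtain ⟨c, d, hc, hd, ⟨hP, -⟩ | ⟨hP, -⟩⟩ := two_shape hp hr hpr hp5 hr5 ha hb hS
  · exact key2 p r hp hr hpo hro c d hc hd _ hprimes hP hq3
  · exact key2 r p hr hp hro hpo c d hc hd _ (fun s hs hsq => (hprimes s hs hsq).symm) hP hq3

/-- an integer whose absolute value times `p^T` is a power of `p`, not divisible by `p`, is `±1` -/
lemma unit_of {p T k : ℕ} (hp : p.Prime) {m : ℤ} (hm : ¬ (p : ℤ) ∣ m)
    (h : ((p : ℤ) ^ T * m).natAbs = p ^ k) : m = 1 ∨ m = -1 := by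
  rw [Int.natAbs_mul, Int.natAbs_pow, Int.natAbs_natCast] at h
  have hd : m.natAbs ∣ p ^ k := ⟨p ^ T, by rw [← h]; ring⟩
  obtain ⟨j, -, hj⟩ := (Nat.dvd_prime_pow hp).1 hd
  have hj0 : j = 0 := by
    by_contra hne
    apply hm
    rw [Int.natCast_dvd, hj]
    exact dvd_pow_self p hne
  rw [hj0, pow_zero] at hj
  rcases Int.natAbs_eq m with h' | h' <;> rw [hj] at h'
  · left; simpa using h'
  · right; simpa using h'

lemma pow_abs_of {w : ℤ} (hw : w ≠ 0) {p : ℕ} (h : ∀ r : ℕ, r.Prime → (r : ℤ) ∣ w → r = p) :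
    ∃ c, w.natAbs = p ^ c := by
  apply prime_pow_of (by simpa using hw)
  intro r hr hrw
  exact h r hr (Int.natCast_dvd.2 hrw)

/-- `b ≤ c` from a size comparison -/
lemma le_exp {p b c : ℕ} (hp5 : 5 ≤ p) (h : ¬ (5 * (p : ℤ) ^ c ≤ (p : ℤ) ^ b)) : b ≤ c := by
  by_contra hcon
  apply h
  have h1 : p ^ (c + 1) ≤ p ^ b := Nat.pow_le_pow_right (by omega) (by omega)
  have h2 : 5 * p ^ c ≤ p ^ (c + 1) := by
    rw [pow_succ, mul_comm]
    exact Nat.mul_le_mul le_rfl hp5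
  exact_mod_cast h2.trans h1

lemma key_pos {A Z s σ : ℤ} (hA2 : 2 ≤ A) (hZ : 5 ≤ Z) (hs : 1 ≤ s) (hσ : σ = 1 ∨ σ = -1)
    (h : Z * (1 + A * s) = 3 + σ * A) : False := by
  have h0 : 0 ≤ A * (s - 1) := mul_nonneg (by linarith) (by linarith)
  have h1 : Z * (1 + A) ≤ Z * (1 + A * s) :=
    mul_le_mul_of_nonneg_left (by linarith) (by linarith)
  have h2 : 5 * (1 + A) ≤ Z * (1 + A) := mul_le_mul_of_nonneg_right hZ (by linarith)
  rcases hσ with rfl | rfl <;> linarith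

lemma key_neg {A Z s σ : ℤ} (hA2 : 2 ≤ A) (hZ : 5 ≤ Z) (hs : s ≤ -1) (hσ : σ = 1 ∨ σ = -1)
    (h : Z * (1 + A * s) = 3 + σ * A) : False := by
  have h0 : 0 ≤ A * (-1 - s) := mul_nonneg (by linarith) (by linarith)
  have h1 : Z * (1 + A * s) ≤ Z * (1 - A) :=
    mul_le_mul_of_nonneg_left (by linarith) (by linarith)
  have h2 : 0 ≤ (Z - 5) * (A - 1) := mul_nonneg (by linarith) (by linarith)
  rcases hσ with rfl | rfl <;> linarith

/-- alphabets of size `2^a p^b` -/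
theorem even_none {p a b : ℕ} (hp : p.Prime) (hp5 : 5 ≤ p) (ha : 1 ≤ a) (hb : 1 ≤ b) :
    ¬ ∃ x y, Sol (2 ^ a * p ^ b) x y := by
  rintro ⟨x, y, hS⟩
  have hpodd : p % 2 = 1 := Nat.odd_iff.1 (hp.odd_of_ne_two (by omega))
  have hprimes : ∀ s : ℕ, s.Prime → s ∣ 2 ^ a * p ^ b → s = 2 ∨ s = p := by
    intro s hs hsq
    rcases (Nat.Prime.dvd_mul hs).1 hsq with h' | h'
    · exact Or.inl ((Nat.prime_dvd_prime_iff_eq hs Nat.prime_two).1 (hs.dvd_of_dvd_pow h'))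
    · exact Or.inr ((Nat.prime_dvd_prime_iff_eq hs hp).1 (hs.dvd_of_dvd_pow h'))
  have hq : 10 ≤ 2 ^ a * p ^ b := by
    calc 10 = 2 ^ 1 * 5 ^ 1 := by norm_num
      _ ≤ 2 ^ a * p ^ b := Nat.mul_le_mul (Nat.pow_le_pow_right (by norm_num) ha)
        ((Nat.pow_le_pow_left hp5 1).trans (Nat.pow_le_pow_right (by omega) hb))
  have hpq : p ∣ 2 ^ a * p ^ b := (dvd_pow_self p (by omega)).mul_left _
  rcases Nat.even_or_odd (x + y) with heven | hodd
  · have ha1 : a = 1 := by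
      by_contra hne
      obtain ⟨a', rfl⟩ : ∃ a', a = a' + 2 := ⟨a - 2, by omega⟩
      have h1 := hS.eq
      obtain ⟨z, hz⟩ := heven
      have h2 : (x : ℤ) + y = z + z := by exact_mod_cast hz
      have h3 : (4 : ℤ) * (2 ^ a' * p ^ b * (((y : ℤ) - x) ^ 2 - 1)) = 4 * z - 6 := by
        have : (4 : ℤ) * (2 ^ a' * p ^ b * (((y : ℤ) - x) ^ 2 - 1)) =
            ((2 ^ (a' + 2) * p ^ b : ℕ) : ℤ) * (((y : ℤ) - x) ^ 2 - 1) := by
          push_cast; ring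
        rw [this, h1, h2]; ring
      omega
    subst ha1
    obtain ⟨f, i, hi3, hpf, hP⟩ := even_shape hp hp5 hb hS heven
    have hfpos : f ≠ 0 := by
      rintro rfl
      have := hP.ge3 (by omega)
      omega
    obtain ⟨t, u, hu2, hfu⟩ := Nat.exists_eq_pow_mul_and_not_dvd (n := f) hfpos 2 (by norm_num)
    obtain ⟨c, hc⟩ := prime_pow_of (p := p) (m := u) (by rintro rfl; simp at hu2) (fun r hr hru => by
      have h1 := hP.smooth hr (by rw [hfu]; exact (hru.mul_left _).mul_left _)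
      rcases prime_dvd_two_pow_mul hp hr h1 with h2 | h2
      · exfalso; subst h2; exact hu2 hru
      · exact h2)
    have hc1 : 1 ≤ c := by
      by_contra hcon
      have : c = 0 := by omega
      subst this
      rw [hfu, hc, pow_zero, mul_one] at hpf
      have := Nat.le_of_dvd (by norm_num) (hp.dvd_of_dvd_pow hpf)
      omega
    have hp5c : 5 ≤ p ^ c := hp5.trans (Nat.le_self_pow (by omega) p)
    have he : 2 * f = 2 ^ (t + 1) * p ^ c := by rw [hfu, hc, pow_succ]; ring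
    rw [he] at hP
    set T := t + 1 with hT
    have hlt := hP.lt2 (by omega)
    have hTi : T < i := by
      by_contra hcon
      have h1 : 2 ^ i ≤ 2 ^ T := Nat.pow_le_pow_right (by norm_num) (by omega)
      have h2 : 2 ^ i * 5 ≤ 2 ^ T * p ^ c := Nat.mul_le_mul h1 hp5c
      have h3 : 0 < 2 ^ i := by positivity
      omega
    have hW0 : (((2 ^ T * p ^ c : ℕ) : ℤ) - ((2 ^ i : ℕ) : ℤ)) ≠ 0 := by
      intro h
      have := hP.w_ne
      rw [h] at this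
      simp at this
    obtain ⟨k, hk⟩ := pow_abs_of hW0 (p := 2) (by
      intro r hr hrw
      by_contra hr2
      rcases hprimes r hr (hP.wsm hr hr2 hrw) with h' | h'
      · exact hr2 h'
      · subst h'
        have h1 : (r : ℤ) ∣ ((2 ^ T * r ^ c : ℕ) : ℤ) :=
          Int.natCast_dvd_natCast.2 ((dvd_pow_self r (by omega)).mul_left _)
        have h2 := (Int.dvd_iff_dvd_of_dvd_sub hrw).1 h1
        have h3 := Int.natCast_dvd_natCast.1 h2
        have := Nat.le_of_dvd (by norm_num) (hp.dvd_of_dvd_pow h3)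
        omega)
    obtain ⟨j, hj⟩ : ∃ j, i = T + 1 + j := ⟨i - T - 1, by omega⟩
    have hfac : (((2 ^ T * p ^ c : ℕ) : ℤ) - ((2 ^ i : ℕ) : ℤ)) =
        ((2 : ℕ) : ℤ) ^ T * ((p : ℤ) ^ c - 2 * 2 ^ j) := by
      rw [hj]; push_cast; ring
    have hpc2 : (p : ℤ) ^ c % 2 = 1 := by
      have h1 : p ^ c % 2 = 1 := Nat.odd_iff.1 (Odd.pow (Nat.odd_iff.2 hpodd))
      exact_mod_cast h1
    rw [hfac] at hk
    have hu := unit_of Nat.prime_two (m := (p : ℤ) ^ c - 2 * 2 ^ j) (by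
      push_cast
      omega) hk
    -- the equation
    have heq := hP.eq
    have hql := hP.q_le
    rw [hfac] at hql
    have hb' : (((2 ^ T * p ^ c : ℕ) : ℤ) - ((2 ^ i : ℕ) : ℤ)) ^ 2 = ((2 : ℤ) ^ T) ^ 2 := by
      rw [hfac]
      rcases hu with h | h <;> rw [h] <;> push_cast <;> ring
    rw [hb'] at heq
    push_cast at heq hql
    have hA2 : (2 : ℤ) ≤ 2 ^ T := by
      have : (2 : ℤ) ^ 1 ≤ 2 ^ T := pow_le_pow_right₀ (by norm_num) (by omega)
      linarith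
    have hqA : (2 : ℤ) * p ^ b ≤ (2 ^ T) ^ 2 := by
      have e : ((2 : ℤ) ^ T * ((p : ℤ) ^ c - 2 * 2 ^ j)) ^ 2 = (2 ^ T) ^ 2 := by
        rcases hu with h | h <;> rw [h] <;> ring
      rw [e] at hql
      linarith
    have hi' : (2 : ℤ) ^ i = 2 ^ T * (2 * 2 ^ j) := by rw [hj]; ring
    rw [hi'] at heq
    have hpb5 : (5 : ℤ) ≤ p ^ b := by
      have : 5 ≤ p ^ b := hp5.trans (Nat.le_self_pow (by omega) p)
      exact_mod_cast this
    have hpc5 : (5 : ℤ) ≤ p ^ c := by exact_mod_cast hp5c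
    obtain ⟨σ, hσ, hσ2⟩ : ∃ σ : ℤ, (p : ℤ) ^ c - 2 * 2 ^ j = σ ∧ (σ = 1 ∨ σ = -1) := ⟨_, rfl, hu⟩
    have h2j : (2 : ℤ) * 2 ^ j = p ^ c - σ := by linarith
    rw [h2j] at heq
    have heq2 : (p : ℤ) ^ b * ((2 ^ T) ^ 2 - 1) = 2 * 2 ^ T * p ^ c - σ * 2 ^ T - 3 := by
      have : (2 : ℤ) * ((p : ℤ) ^ b * ((2 ^ T) ^ 2 - 1)) =
          2 * (2 * 2 ^ T * p ^ c - σ * 2 ^ T - 3) := by linear_combination heq
      exact mul_left_cancel₀ two_ne_zero this
    have hbc : b ≤ c := by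
      apply le_exp hp5
      intro hcon
      generalize (2 : ℤ) ^ T = A at hA2 heq2
      have hAA : 2 * A ≤ A * A := mul_le_mul_of_nonneg_right hA2 (by linarith)
      have h1 : (5 * (p : ℤ) ^ c) * (A ^ 2 - 1) ≤ (p : ℤ) ^ b * (A ^ 2 - 1) :=
        mul_le_mul_of_nonneg_right hcon (by linarith [sq A])
      rw [heq2] at h1
      have h2 : 5 * (5 * A ^ 2 - 2 * A - 5) ≤ (p : ℤ) ^ c * (5 * A ^ 2 - 2 * A - 5) :=
        mul_le_mul_of_nonneg_right hpc5 (by linarith [sq A])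
      rcases hσ2 with rfl | rfl <;> linarith [sq A]
    obtain ⟨D, hD⟩ : ∃ D : ℤ, D = (p : ℤ) ^ (c - b) := ⟨_, rfl⟩
    have hcD : (p : ℤ) ^ c = p ^ b * D := by
      rw [hD, ← pow_add]; congr 1; omega
    have hDodd : D % 2 = 1 := by
      have h1 : p ^ (c - b) % 2 = 1 := Nat.odd_iff.1 (Odd.pow (Nat.odd_iff.2 hpodd))
      rw [hD]
      exact_mod_cast h1
    rw [hcD] at heq2
    have hmain : (p : ℤ) ^ b * (1 + 2 ^ T * (2 * D - 2 ^ T)) = 3 + σ * 2 ^ T := by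
      linear_combination (-1) * heq2
    obtain ⟨T', hT'⟩ : ∃ T', T = T' + 1 := ⟨t, rfl⟩
    have hA2T : (2 : ℤ) ^ T = 2 * 2 ^ T' := by rw [hT', pow_succ]; ring
    generalize (2 : ℤ) ^ T = A at *
    generalize (p : ℤ) ^ b = Z at *
    have hs : 2 * D - A = 0 ∨ 1 ≤ 2 * D - A ∨ 2 * D - A ≤ -1 := by omega
    rcases hs with hs | hs | hs
    · -- `A = 2 D` forces `A = 2`
      have h1 : (2 : ℤ) ^ T' = D := by linarith
      have hT0 : T' = 0 := by
        by_contra hne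
        obtain ⟨T'', rfl⟩ : ∃ T'', T' = T'' + 1 := ⟨T' - 1, by omega⟩
        rw [pow_succ] at h1
        omega
      rw [hT0] at hA2T
      norm_num at hA2T
      rw [hA2T] at hqA
      linarith
    · exact key_pos hA2 hpb5 hs hσ2 hmain
    · exact key_neg hA2 hpb5 hs hσ2 hmain
  · obtain ⟨h8, i, c, hi3, hco, hP⟩ := odd_case hp hp5 ha hb hS hodd
    have hpc2 : p ^ c % 2 = 1 := Nat.odd_iff.1 (Odd.pow (Nat.odd_iff.2 hpodd))
    have h2i : 2 ^ i % 2 = 0 := by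
      obtain ⟨j, rfl⟩ : ∃ j, i = j + 1 := ⟨i - 1, by omega⟩
      rw [pow_succ]; omega
    have hodd' : Odd (((2 ^ i : ℕ) : ℤ) - ((p ^ c : ℕ) : ℤ)) := by
      rw [Int.odd_iff]
      omega
    have h3' : ¬ (3 : ℤ) ∣ ((2 ^ i : ℕ) : ℤ) - ((p ^ c : ℕ) : ℤ) := by
      intro h'
      have := hP.wsm Nat.prime_three (by norm_num) (by exact_mod_cast h')
      rcases hprimes 3 Nat.prime_three this with h'' | h'' <;> omega
    obtain ⟨s, hs, hs5, hsq, hsd, hse, hso⟩ := hP.new_prime hodd' h3'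
    rcases hprimes s hs hsq with rfl | rfl
    · omega
    · exact hso (dvd_pow_self s (by rintro rfl; simp at hco))

end Pool.Agent.TH500.PC
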