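import Pool.Agent.TH500.PC.Crit

/-!
Infinite admissible sets of primes containing a given prime.
-/

set_option autoImplicit false

namespace Pool.Agent.TH500.PC

theorem exists_infinite_mem {p₀ : ℕ} (hp₀ : p₀.Prime) (h17 : p₀ % 24 = 17) :
    ∃ S : Set ℕ, p₀ ∈ S ∧ S.Infinite ∧ Good S := by
  have h0 : Good {p₀} := by
    refine ⟨?_, ?_⟩
    · rintro p hp
      rw [Set.mem_singleton_iff.1 hp]
      exact ⟨hp₀, h17⟩
    · rintro p hp r hr hne
      rw [Set.mem_singleton_iff.1 hp, Set.mem_singleton_iff.1 hr] at hne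
      exact absurd rfl hne
  obtain ⟨S, hsub, hSmax⟩ := zorn_subset_nonempty {S : Set ℕ | Good S} (by
    intro c hc hchain _
    refine ⟨⋃₀ c, ⟨?_, ?_⟩, fun s hs => Set.subset_sUnion_of_mem hs⟩
    · rintro p ⟨s, hs, hps⟩
      exact (hc hs).1 p hps
    · rintro p ⟨s, hs, hps⟩ r ⟨s', hs', hrs'⟩ hne
      rcases hchain.total hs hs' with h | h
      · exact (hc hs').2 p (h hps) r hrs' hne
      · exact (hc hs).2 p hps r (h hrs') hne) {p₀} h0
  refine ⟨S, hsub rfl, ?_, hSmax.prop⟩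
  intro hfin
  obtain ⟨p, hp, hgood⟩ := good_extend hSmax.prop hfin
  have := hSmax.le_of_ge hgood (Set.subset_insert p S)
  exact hp (this (Set.mem_insert p S))

end Pool.Agent.TH500.PC
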